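import Pool.Agent.Lib.MP_6bd702_pr_h60.AnnDet

/-!
# The sharp bound for two strands and a corridor across an annulus
-/

set_option autoImplicit false

namespace Pool.Agent.PercS5

open Relation Filter Topology
open Pool.Agent.Perc Pool.Agent.Perc3 Pool.Agent.PercD

variable {ω : Cfg} {L w L' w' d D : ℤ} {M : ℕ}

theorem depOn_Av (L w d D : ℤ) (M : ℕ) : DepOn (AnF L w d : Set (ℤ × ℤ)) (Av L w d D M) := by
  intro ω ω' h
  have hM : ∀ b, MM ω' (AnF L w d) b = MM ω (AnF L w d) b := fun b => MM_congr' h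
  have hS : ∀ b, SS ω' (AnF L w d) b = SS ω (AnF L w d) b := fun b => by
    unfold SS
    rw [hM]
  unfold Av
  simp only [Set.mem_ofPred_eq, hM, hS]

theorem depOn_Ev (L w d D : ℤ) (M : ℕ) :
    DepOn (RF (-L) L (-w) w : Set (ℤ × ℤ)) (Ev L w d D M) := by
  intro ω ω' h
  have hM : ∀ b, MM ω' (RF (-L) L (-w) w) b = MM ω (RF (-L) L (-w) w) b := fun b => MM_congr' h
  have hS : ∀ b, SS ω' (RF (-L) L (-w) w) b = SS ω (RF (-L) L (-w) w) b := fun b => by
    unfold SS
    rw [hM]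
  unfold Ev
  simp only [Set.mem_ofPred_eq, hM, hS]

theorem AnF_sub_RF : AnF L w d ⊆ RF (-L) L (-w) w := by
  intro f hf
  rw [mem_AnF] at hf
  rw [Perc.mem_RF]
  exact hf.1

/-- The crossings of the blocks on both sides of the box of radius `w`. -/
def LO (w : ℤ) (N : ℕ) : Set Cfg :=
  (Blocks 0 w 0 w N ∪ Blocks 1 w 0 w N) ∪
    (Blocks 0 (-w - 2 * w * N) 0 w N ∪ Blocks 1 (-w - 2 * w * N) 0 w N)

/-- The faces of the blocks. -/
noncomputable def LOF (w : ℤ) (N : ℕ) : Finset (ℤ × ℤ) :=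
  RF w (w + 2 * w * N) (0 - w) (0 + w) ∪ RF (-w - 2 * w * N) (-w - 2 * w * N + 2 * w * N) (0 - w) (0 + w)

theorem depOn_LO {w : ℤ} (hw : 0 < w) (N : ℕ) : DepOn (LOF w N : Set (ℤ × ℤ)) (LO w N) := by
  have h1 : (RF w (w + 2 * w * N) (0 - w) (0 + w) : Set (ℤ × ℤ)) ⊆ LOF w N := by
    unfold LOF; rw [Finset.coe_union]; exact Set.subset_union_left
  have h2 : (RF (-w - 2 * w * N) (-w - 2 * w * N + 2 * w * N) (0 - w) (0 + w) : Set (ℤ × ℤ)) ⊆
      LOF w N := by
    unfold LOF; rw [Finset.coe_union]; exact Set.subset_union_right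
  exact depOn_union (depOn_union (PercD.depOn_mono h1 (depOn_blocks 0 w 0 w N hw))
    (PercD.depOn_mono h1 (depOn_blocks 1 w 0 w N hw)))
    (depOn_union (PercD.depOn_mono h2 (depOn_blocks 0 _ 0 w N hw))
      (PercD.depOn_mono h2 (depOn_blocks 1 _ 0 w N hw)))

theorem pr_LO {θ : ℝ} (hθ : ∀ (col x y w : ℤ) (N : ℕ), 0 < w →
    pr (RF x (x + 2 * w * N) (y - w) (y + w)) (Blocks col x y w N) ≤ θ ^ N) {w : ℤ} (hw : 0 < w)
    (N : ℕ) : pr (LOF w N) (LO w N) ≤ 4 * θ ^ N := by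
  have h1 : RF w (w + 2 * w * N) (0 - w) (0 + w) ⊆ LOF w N := Finset.subset_union_left
  have h2 : RF (-w - 2 * w * N) (-w - 2 * w * N + 2 * w * N) (0 - w) (0 + w) ⊆ LOF w N :=
    Finset.subset_union_right
  have a1 := hθ 0 w 0 w N hw
  have a2 := hθ 1 w 0 w N hw
  have a3 := hθ 0 (-w - 2 * w * N) 0 w N hw
  have a4 := hθ 1 (-w - 2 * w * N) 0 w N hw
  rw [← pr_eq_of_depOn (depOn_blocks 0 w 0 w N hw) h1] at a1
  rw [← pr_eq_of_depOn (depOn_blocks 1 w 0 w N hw) h1] at a2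
  rw [← pr_eq_of_depOn (depOn_blocks 0 _ 0 w N hw) h2] at a3
  rw [← pr_eq_of_depOn (depOn_blocks 1 _ 0 w N hw) h2] at a4
  have b1 := pr_union_le (LOF w N) (Blocks 0 w 0 w N) (Blocks 1 w 0 w N)
  have b2 := pr_union_le (LOF w N) (Blocks 0 (-w - 2 * w * N) 0 w N)
    (Blocks 1 (-w - 2 * w * N) 0 w N)
  have b3 := pr_union_le (LOF w N) (Blocks 0 w 0 w N ∪ Blocks 1 w 0 w N)
    (Blocks 0 (-w - 2 * w * N) 0 w N ∪ Blocks 1 (-w - 2 * w * N) 0 w N)
  unfold LO
  linarith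

/-- The lateral event implies crossings of the blocks. -/
theorem latA_sub {N : ℕ} (hw : 0 < w) (hdw : d ≤ w) :
    LatA (w + 2 * w * N) w d (w + 2 * w * N) ⊆ LO w N := by
  rintro ω ⟨s, hs, a, ha, hlat⟩
  have hF : ∀ f ∈ (AnF (w + 2 * w * N) w d : Set (ℤ × ℤ)), 0 - w ≤ f.2 ∧ f.2 < 0 + w := by
    intro f hf
    rw [Finset.mem_coe, mem_AnF] at hf
    omega
  obtain ⟨p, q, hj, -, hc⟩ := MM_conn (Or.inl ⟨rfl, rfl⟩ : Joins s (ua s) (ub s)) ha
  have hc' := hc.mono SS_sub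
  have h3 : (ua a).1 ≤ (ub a).1 := by
    obtain ⟨x, y, _ | _⟩ := a <;> simp [ua, ub]
  have h4 : (ua a).1 ≤ p.1 ∧ p.1 ≤ (ub a).1 := by
    rcases hj with ⟨rfl, -⟩ | ⟨rfl, -⟩
    · exact ⟨le_rfl, h3⟩
    · exact ⟨h3, le_rfl⟩
  have h5 : -d ≤ (ua s).1 ∧ (ua s).1 ≤ d := by
    obtain ⟨x, y, b⟩ := s
    unfold BdE at hs
    simp only at hs
    rw [ua_mk]
    simp only
    omega
  rcases hlat with hl | hl
  · exact Or.inl (long_sub (x := w) (y := 0) hw hF ⟨ua s, p, by omega, by omega, hc'⟩)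
  · exact Or.inr (long_sub (x := -w - 2 * w * N) (y := 0) hw hF
      ⟨p, ua s, by omega, by omega, hc'.symm⟩)

/-- The recursion. -/
theorem av_step {θ C : ℝ} {A : ℤ} {N : ℕ} (hθ : ∀ (col x y w : ℤ) (N : ℕ), 0 < w →
      pr (RF x (x + 2 * w * N) (y - w) (y + w)) (Blocks col x y w N) ≤ θ ^ N)
    (hC : ∀ L w d N : ℤ, 1 < d → 1 ≤ N → N + 2 ≤ d → A * d < w → w ≤ L →
      ∑ p ∈ ((TBF L w ×ˢ TBF L w).filter fun p => p.1 ≠ p.2) ×ˢ ({-1, 0, 1} : Finset ℤ),
        pr (RF (-L - N) (L + N) (-w) w) {ω | lcf 1 ω ∈ PairL L w d N 2 p.1.1 p.1.2 p.2} ≤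
      C * ((d : ℝ) / w) ^ (2 / 3 : ℝ)) (hM : 4 * ((M : ℤ) + 6) ≤ d) (hA : A * d < w)
    (hdw : d < w) :
    pr (RF (-(w + 2 * w * N)) (w + 2 * w * N) (-(w + 2 * w * N)) (w + 2 * w * N))
        (Av (w + 2 * w * N) (w + 2 * w * N) d (8 * (M + 6)) M) ≤
      C * ((d : ℝ) / w) ^ (2 / 3 : ℝ) +
        4 * θ ^ N * pr (RF (-w) w (-w) w) (Av w w d (8 * (M + 6)) M) := by
  set κ : ℤ := w + 2 * w * N with hκ
  have hw0 : 0 < w := by omega
  have h0 : 0 ≤ 2 * w * (N : ℤ) := by positivity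
  have hwκ : w ≤ κ := by omega
  have s1 : AnF κ w d ⊆ RF (-κ) κ (-κ) κ := by
    intro f hf
    rw [mem_AnF] at hf
    rw [Perc.mem_RF]
    omega
  have s2 : LOF w N ⊆ RF (-κ) κ (-w) w := by
    intro f hf
    unfold LOF at hf
    rw [Finset.mem_union, Perc.mem_RF, Perc.mem_RF] at hf
    rw [Perc.mem_RF]
    omega
  have s3 : AnF w w d ⊆ RF (-κ) κ (-w) w := by
    intro f hf
    rw [mem_AnF] at hf
    rw [Perc.mem_RF]
    omega
  have s4 : Disjoint (LOF w N) (AnF w w d) := by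
    rw [Finset.disjoint_left]
    intro f hf hf'
    unfold LOF at hf
    rw [Finset.mem_union, Perc.mem_RF, Perc.mem_RF] at hf
    rw [mem_AnF] at hf'
    omega
  have e1 : pr (RF (-κ) κ (-κ) κ) (Av κ κ d (8 * (M + 6)) M) ≤
      pr (RF (-κ) κ (-κ) κ) (Av κ w d (8 * (M + 6)) M) :=
    pr_mono _ (fun ω hω => Av_mono le_rfl hwκ (by omega) (by omega) hω)
  have e2 : pr (RF (-κ) κ (-κ) κ) (Av κ w d (8 * (M + 6)) M) =
      pr (RF (-κ) κ (-w) w) (Av κ w d (8 * (M + 6)) M) := by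
    rw [pr_eq_of_depOn (depOn_Av κ w d _ M) s1,
      pr_eq_of_depOn (depOn_Av κ w d _ M) AnF_sub_RF]
  have e3 : pr (RF (-κ) κ (-w) w) (Av κ w d (8 * (M + 6)) M) ≤
      pr (RF (-κ) κ (-w) w) (CorrU κ w d (8 * (M + 6)) M ∪
        (LO w N ∩ Av w w d (8 * (M + 6)) M)) := by
    refine pr_mono _ fun ω hω => ?_
    by_cases h : ω ∈ LatA κ w d κ
    · exact Or.inr ⟨latA_sub hw0 hdw.le h, Av_mono hwκ le_rfl (by omega) (by omega) hω⟩
    · exact Or.inl (corrU_of_Av hω h)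
  have e4 := pr_indep (depOn_LO hw0 N) (depOn_Av w w d (8 * (M + 6)) M) s4 s2 s3
  have e5 : pr (AnF w w d) (Av w w d (8 * (M + 6)) M) =
      pr (RF (-w) w (-w) w) (Av w w d (8 * (M + 6)) M) :=
    (pr_eq_of_depOn (depOn_Av w w d _ M) AnF_sub_RF).symm
  have e6 := pr_CorrU hC hM hA hdw hwκ
  have e7 := pr_LO hθ hw0 N
  refine e1.trans (e2.le.trans (e3.trans ((pr_union_le _ _ _).trans (add_le_add e6 ?_))))
  rw [e4, e5]
  exact mul_le_mul_of_nonneg_right e7 (pr_nonneg _ _)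

/-- **The sharp annulus bound.** -/
theorem av_sharp (hTT : TTBound) : ∃ C : ℝ, 0 < C ∧ ∀ (w d : ℤ) (M : ℕ),
    4 * ((M : ℤ) + 6) ≤ d → d ≤ w →
      pr (RF (-w) w (-w) w) (Av w w d (8 * (M + 6)) M) ≤ C * ((d : ℝ) / w) ^ (2 / 3 : ℝ) := by
  obtain ⟨A, C₂, hC₂, hTT⟩ := hTT
  obtain ⟨θ, hθ0, hθ1, hθ⟩ := pr_blocks
  -- the number of the blocks
  obtain ⟨N, hN⟩ : ∃ N : ℕ, 8 * (2 * (N : ℝ) + 1) * θ ^ N ≤ 1 / 2 := by
    have h1 : Tendsto (fun N : ℕ => (N : ℝ) * θ ^ N) atTop (𝓝 0) :=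
      tendsto_self_mul_const_pow_of_lt_one hθ0 hθ1
    have h2 : Tendsto (fun N : ℕ => θ ^ N) atTop (𝓝 0) :=
      tendsto_pow_atTop_nhds_zero_of_lt_one hθ0 hθ1
    have h3 : Tendsto (fun N : ℕ => 8 * (2 * (N : ℝ) + 1) * θ ^ N) atTop (𝓝 0) := by
      have := (h1.const_mul 16).add (h2.const_mul 8)
      simp only [mul_zero, add_zero] at this
      refine this.congr fun N => ?_
      ring
    obtain ⟨N, hN⟩ := (h3.eventually_lt_const (show (0 : ℝ) < 1 / 2 by norm_num)).exists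
    exact ⟨N, hN.le⟩
  set κ : ℤ := 2 * N + 1 with hκ
  have hκ1 : 1 ≤ κ := by omega
  have hκr : (κ : ℝ) = 2 * N + 1 := by rw [hκ]; push_cast; ring
  have hκ0 : (0 : ℝ) < κ := by rw [hκr]; positivity
  set A' : ℤ := max A 1 with hA'
  have hA'1 : 1 ≤ A' := le_max_right _ _
  have hA'r : (1 : ℝ) ≤ A' := by exact_mod_cast hA'1
  set C : ℝ := max (κ * (A' + 2)) (4 * κ * C₂) with hC
  have hC0 : 0 < C := lt_max_of_lt_left (by positivity)
  refine ⟨C, hC0, ?_⟩
  -- strong induction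
  have main : ∀ k : ℕ, ∀ (w d : ℤ) (M : ℕ), w ≤ k → 4 * ((M : ℤ) + 6) ≤ d → d ≤ w →
      pr (RF (-w) w (-w) w) (Av w w d (8 * (M + 6)) M) ≤ C * ((d : ℝ) / w) ^ (2 / 3 : ℝ) := by
    intro k
    induction k with
    | zero => intro w d M h1 h2 h3; exfalso; push_cast at h1; omega
    | succ k ih =>
      intro w d M hwk hM hdw
      have hd0 : 0 < d := by omega
      have hd1 : 1 ≤ d := by omega
      have hdr : (1 : ℝ) ≤ d := by exact_mod_cast hd1
      have hwr : (d : ℝ) ≤ w := by exact_mod_cast hdw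
      have hx0 : 0 < (d : ℝ) / w := div_pos (by linarith) (by linarith)
      have hx1 : (d : ℝ) / w ≤ 1 := by rw [div_le_one (by linarith)]; exact hwr
      have hpow : (d : ℝ) / w ≤ ((d : ℝ) / w) ^ (2 / 3 : ℝ) := by
        calc (d : ℝ) / w = ((d : ℝ) / w) ^ (1 : ℝ) := (Real.rpow_one _).symm
          _ ≤ ((d : ℝ) / w) ^ (2 / 3 : ℝ) :=
            Real.rpow_le_rpow_of_exponent_ge hx0 hx1 (by norm_num)
      by_cases hbig : κ * ((A' + 1) * d + 1) ≤ w
      · -- recursion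
        set w' : ℤ := w / κ with hw'
        have h1 : κ * w' ≤ w := Int.mul_ediv_self_le (by omega)
        have h2 : w < κ * (w' + 1) := by
          have := Int.lt_mul_ediv_self_add (x := w) (show 0 < κ by omega)
          linarith
        have h3 : (A' + 1) * d + 1 ≤ w' := by
          rw [hw', Int.le_ediv_iff_mul_le (by omega)]
          linarith
        have hAd : A * d ≤ A' * d := mul_le_mul_of_nonneg_right (le_max_left _ _) hd0.le
        have hAd' : (A' + 1) * d = A' * d + d := by ring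
        have hA'd : d ≤ A' * d := by nlinarith
        have hd_w' : d < w' := by omega
        have hAw' : A * d < w' := by omega
        have hw'0 : 0 < w' := by omega
        -- smaller scale
        have hκ2 : 2 ≤ κ ∨ κ = 1 := by omega
        have e0 : w' + 2 * w' * (N : ℤ) = κ * w' := by rw [hκ]; ring
        have hstep := av_step (N := N) hθ hTT (M := M) hM hAw' hd_w'
        rw [e0] at hstep
        have hmono : pr (RF (-w) w (-w) w) (Av w w d (8 * (M + 6)) M) ≤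
            pr (RF (-(κ * w')) (κ * w') (-(κ * w')) (κ * w'))
              (Av (κ * w') (κ * w') d (8 * (M + 6)) M) := by
          have hdκ : d ≤ κ * w' := by nlinarith
          have e1 : pr (RF (-w) w (-w) w) (Av w w d (8 * (M + 6)) M) ≤
              pr (RF (-w) w (-w) w) (Av (κ * w') (κ * w') d (8 * (M + 6)) M) :=
            pr_mono _ (fun ω hω => Av_mono h1 h1 hdκ hdκ hω)
          refine e1.trans (le_of_eq ?_)
          have s1 : AnF (κ * w') (κ * w') d ⊆ RF (-w) w (-w) w := by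
            intro f hf
            rw [mem_AnF] at hf
            rw [Perc.mem_RF]
            omega
          rw [pr_eq_of_depOn (depOn_Av _ _ d _ M) s1,
            pr_eq_of_depOn (depOn_Av _ _ d _ M) AnF_sub_RF]
        -- the bound at the smaller scale, which is smaller than `w`
        have hg' : pr (RF (-w') w' (-w') w') (Av w' w' d (8 * (M + 6)) M) ≤
            C * ((d : ℝ) / w') ^ (2 / 3 : ℝ) := by
          refine ih w' d M ?_ hM hd_w'.le
          have hN1 : 1 ≤ N ∨ N = 0 := by omega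
          rcases hN1 with hN1 | hN1
          · have : 3 * w' ≤ κ * w' := mul_le_mul_of_nonneg_right (by omega) hw'0.le
            push_cast at hwk
            omega
          · exfalso
            rw [hN1] at hN
            norm_num at hN
        have hw'r : (0 : ℝ) < w' := by exact_mod_cast hw'0
        have h2r : (w : ℝ) < κ * (w' + 1) := by exact_mod_cast h2
        have hw'1 : (1 : ℝ) ≤ w' := by exact_mod_cast hw'0
        have hratio : (d : ℝ) / w' ≤ 2 * κ * (d / w) := by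
          rw [← mul_div_assoc, div_le_div_iff₀ hw'r (by linarith)]
          have h4 : (w : ℝ) ≤ 2 * κ * w' := by nlinarith
          calc (d : ℝ) * w ≤ d * (2 * κ * w') := mul_le_mul_of_nonneg_left h4 (by linarith)
            _ = 2 * κ * d * w' := by ring
        have h2κ : 1 ≤ 2 * (κ : ℝ) := by rw [hκr]; nlinarith [Nat.cast_nonneg (α := ℝ) N]
        have hpw : ((d : ℝ) / w') ^ (2 / 3 : ℝ) ≤ 2 * κ * (d / w) ^ (2 / 3 : ℝ) := by
          calc ((d : ℝ) / w') ^ (2 / 3 : ℝ) ≤ (2 * κ * (d / w)) ^ (2 / 3 : ℝ) :=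
                Real.rpow_le_rpow (by positivity) hratio (by norm_num)
            _ = (2 * (κ : ℝ)) ^ (2 / 3 : ℝ) * (d / w) ^ (2 / 3 : ℝ) :=
                Real.mul_rpow (by positivity) hx0.le
            _ ≤ (2 * κ) * (d / w) ^ (2 / 3 : ℝ) := by
                refine mul_le_mul_of_nonneg_right ?_ (by positivity)
                calc (2 * (κ : ℝ)) ^ (2 / 3 : ℝ) ≤ (2 * (κ : ℝ)) ^ (1 : ℝ) :=
                      Real.rpow_le_rpow_of_exponent_le h2κ (by norm_num)
                  _ = 2 * κ := Real.rpow_one _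
        set y : ℝ := ((d : ℝ) / w) ^ (2 / 3 : ℝ) with hy
        have hy0 : 0 < y := by positivity
        set y' : ℝ := ((d : ℝ) / w') ^ (2 / 3 : ℝ) with hy'
        have hy'0 : 0 < y' := by positivity
        have hθN : 0 ≤ 4 * θ ^ N := by positivity
        calc pr (RF (-w) w (-w) w) (Av w w d (8 * (M + 6)) M)
            ≤ C₂ * y' + 4 * θ ^ N * (C * y') := hmono.trans (hstep.trans
              (add_le_add le_rfl (mul_le_mul_of_nonneg_left hg' hθN)))
          _ = (C₂ + 4 * θ ^ N * C) * y' := by ring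
          _ ≤ (C₂ + 4 * θ ^ N * C) * (2 * κ * y) :=
              mul_le_mul_of_nonneg_left hpw (by positivity)
          _ = (2 * κ * C₂ + (8 * (2 * (N : ℝ) + 1) * θ ^ N) * C) * y := by rw [hκr]; ring
          _ ≤ (C / 2 + 1 / 2 * C) * y := by
              refine mul_le_mul_of_nonneg_right (add_le_add ?_ ?_) hy0.le
              · have := le_max_right (κ * (A' + 2) : ℝ) (4 * κ * C₂)
                linarith
              · exact mul_le_mul_of_nonneg_right hN hC0.le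
          _ = C * y := by ring
      · -- the trivial bound
        refine (pr_le_one _ _).trans ?_
        push Not at hbig
        have hbr : (w : ℝ) < κ * ((A' + 1) * d + 1) := by exact_mod_cast hbig
        have h1 : (w : ℝ) ≤ κ * (A' + 2) * d := by
          have : (κ : ℝ) * ((A' + 1) * d + 1) ≤ κ * ((A' + 2) * d) := by
            apply mul_le_mul_of_nonneg_left _ hκ0.le
            nlinarith
          linarith
        have h2 : 1 ≤ κ * (A' + 2) * ((d : ℝ) / w) := by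
          rw [← mul_div_assoc, one_le_div (by linarith)]
          exact h1
        calc (1 : ℝ) ≤ κ * (A' + 2) * ((d : ℝ) / w) := h2
          _ ≤ C * ((d : ℝ) / w) ^ (2 / 3 : ℝ) :=
              mul_le_mul (le_max_left _ _) hpow hx0.le hC0.le
  intro w d M hM hdw
  have hw : 0 ≤ w := by omega
  exact main w.toNat w d M (by omega) hM hdw

end Pool.Agent.PercS5
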