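import Pool.Agent.Lib.MP_6bd702_pr_h60.C1Cor
import Pool.Agent.Lib.MP_6bd702_perc3.PairsZ

/-!
# Rectilinear corridors of bounded length
-/

set_option autoImplicit false

namespace Pool.Agent.PercS5

open Relation
open Pool.Agent.Perc Pool.Agent.Perc3

variable {P : ℤ × ℤ → Prop} {u v : ℤ × ℤ}

/-- All segments of the path are in the set of the points with `P`. -/
def PathP (P : ℤ × ℤ → Prop) : ℤ × ℤ → List (ℤ × ℤ) → Prop
  | _, [] => True
  | u, v :: l => SegP P u v ∧ PathP P v l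

theorem PathP.rectil (l : List (ℤ × ℤ)) : ∀ {u : ℤ × ℤ}, PathP P u l → Rectil u l := by
  induction l with
  | nil => intro u _; trivial
  | cons v l ih => intro u h; exact ⟨h.1.1, ih h.2⟩

theorem PathP.onPath (l : List (ℤ × ℤ)) : ∀ {u : ℤ × ℤ}, PathP P u l → ∀ a, OnPath u l a →
    P (a.1, a.2.1) := by
  induction l with
  | nil => intro u _ a h; exact absurd h (by simp [OnPath])
  | cons v l ih =>
    intro u h a ha
    rcases ha with ha | ha
    · refine h.1.2 _ ?_ ?_ ?_ ?_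
      all_goals
        rcases ha with ⟨h0, h1, h2, h3⟩ | ⟨h0, h1, h2, h3⟩ <;> simp only <;> omega
    · exact ih h.2 a ha

theorem lst_append (l l' : List (ℤ × ℤ)) : ∀ u, lst u (l ++ l') = lst (lst u l) l' := by
  induction l with
  | nil => intro u; rfl
  | cons v l ih => intro u; exact ih v

theorem pathP_append (l l' : List (ℤ × ℤ)) : ∀ {u}, PathP P u l → PathP P (lst u l) l' →
    PathP P u (l ++ l') := by
  induction l with
  | nil => intro u _ h; exact h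
  | cons v l ih => intro u h h'; exact ⟨h.1, ih h.2 h'⟩

theorem SegP.mono {P Q : ℤ × ℤ → Prop} (h : ∀ q, P q → Q q) {a b : ℤ × ℤ} (hs : SegP P a b) :
    SegP Q a b := ⟨hs.1, fun q h1 h2 h3 h4 => h q (hs.2 q h1 h2 h3 h4)⟩

theorem PathP.mono {P Q : ℤ × ℤ → Prop} (h : ∀ q, P q → Q q) (l : List (ℤ × ℤ)) :
    ∀ {u}, PathP P u l → PathP Q u l := by
  induction l with
  | nil => intro u _; trivial
  | cons v l ih => intro u hu; exact ⟨hu.1.mono h, ih hu.2⟩

/-- The part of a path up to the ring around the rectangle. -/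
theorem trim {L w : ℤ} (l : List (ℤ × ℤ)) : ∀ u : ℤ × ℤ, |u.1| ≤ L → |u.2| ≤ w → PathP P u l →
    ¬ (|(lst u l).1| ≤ L ∧ |(lst u l).2| ≤ w) →
    ∃ l', PathP P u l' ∧ l'.length ≤ l.length ∧ Init (fun p => |p.1| ≤ L ∧ |p.2| ≤ w) u l' ∧
      ((|(lst u l').1| ≤ L ∧ |(lst u l').2| = w + 1) ∨
        (|(lst u l').1| = L + 1 ∧ |(lst u l').2| ≤ w)) := by
  induction l with
  | nil => intro u h1 h2 _ h3; exact absurd ⟨h1, h2⟩ h3
  | cons v l ih =>
    intro u h1 h2 h h3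
    by_cases hv : |v.1| ≤ L ∧ |v.2| ≤ w
    · obtain ⟨l', k1, k2, k3, k4⟩ := ih v hv.1 hv.2 h.2 h3
      exact ⟨v :: l', ⟨h.1, k1⟩, by simpa using k2, ⟨⟨h1, h2⟩, k3⟩, k4⟩
    · obtain ⟨hax, hseg⟩ := h.1
      have key : ∀ v' : ℤ × ℤ, (u.1 = v'.1 ∨ u.2 = v'.2) →
          (min u.1 v.1 ≤ min u.1 v'.1 ∧ max u.1 v'.1 ≤ max u.1 v.1 ∧
            min u.2 v.2 ≤ min u.2 v'.2 ∧ max u.2 v'.2 ≤ max u.2 v.2) →
          ((|v'.1| ≤ L ∧ |v'.2| = w + 1) ∨ (|v'.1| = L + 1 ∧ |v'.2| ≤ w)) →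
          ∃ l', PathP P u l' ∧ l'.length ≤ (v :: l).length ∧
            Init (fun p => |p.1| ≤ L ∧ |p.2| ≤ w) u l' ∧
            ((|(lst u l').1| ≤ L ∧ |(lst u l').2| = w + 1) ∨
              (|(lst u l').1| = L + 1 ∧ |(lst u l').2| ≤ w)) := by
        intro v' k1 k2 k3
        refine ⟨[v'], ⟨⟨k1, fun q q1 q2 q3 q4 => hseg q ?_ ?_ ?_ ?_⟩, trivial⟩, by simp,
          ⟨⟨h1, h2⟩, trivial⟩, k3⟩
        · exact k2.1.trans q1
        · exact q2.trans k2.2.1
        · exact k2.2.2.1.trans q3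
        · exact q4.trans k2.2.2.2
      rw [abs_le] at h1 h2
      rw [abs_le, abs_le] at hv
      rcases hax with hax | hax
      · rcases lt_or_ge w v.2 with hw | hw
        · refine key (u.1, w + 1) (Or.inl rfl) ?_ (Or.inl ⟨?_, ?_⟩)
          · simp only; omega
          · simp only; rw [abs_le]; omega
          · simp only; rw [abs_of_nonneg (by omega)]
        · refine key (u.1, -(w + 1)) (Or.inl rfl) ?_ (Or.inl ⟨?_, ?_⟩)
          · simp only; omega
          · simp only; rw [abs_le]; omega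
          · simp only; rw [abs_neg, abs_of_nonneg (by omega)]
      · rcases lt_or_ge L v.1 with hw | hw
        · refine key (L + 1, u.2) (Or.inr rfl) ?_ (Or.inr ⟨?_, ?_⟩)
          · simp only; omega
          · simp only; rw [abs_of_nonneg (by omega)]
          · simp only; rw [abs_le]; omega
        · refine key (-(L + 1), u.2) (Or.inr rfl) ?_ (Or.inr ⟨?_, ?_⟩)
          · simp only; omega
          · simp only; rw [abs_neg, abs_of_nonneg (by omega)]
          · simp only; rw [abs_le]; omega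

/-- The graph of the steps in a finite set. -/
def stG (B : ℤ × ℤ → Prop) (S : Finset (ℤ × ℤ)) : SimpleGraph {x // x ∈ S} where
  Adj x y := Stp B x.1 y.1
  symm := ⟨fun _ _ h => h.symm⟩
  loopless := ⟨fun x h => by
    rcases h.1 with ⟨-, h⟩ | ⟨h, -⟩ <;> simp at h⟩

theorem reach_or {B : ℤ × ℤ → Prop} {S : Finset (ℤ × ℤ)} {a : ℤ × ℤ} (ha : a ∈ S) {c : ℤ × ℤ}
    (h : ReflTransGen (Stp B) a c) :
    (∃ hc : c ∈ S, (stG B S).Reachable ⟨a, ha⟩ ⟨c, hc⟩) ∨
      ∃ x : {x // x ∈ S}, (stG B S).Reachable ⟨a, ha⟩ x ∧ ∃ y, y ∉ S ∧ Stp B x.1 y := by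
  induction h with
  | refl => exact Or.inl ⟨ha, SimpleGraph.Reachable.refl _⟩
  | @tail b c _ hs ih =>
    rcases ih with ⟨hb, hr⟩ | ih
    · by_cases hc : c ∈ S
      · refine Or.inl ⟨hc, hr.trans (SimpleGraph.Adj.reachable ?_)⟩
        exact hs
      · exact Or.inr ⟨⟨b, hb⟩, hr, c, hc, hs⟩
    · exact Or.inr ih

theorem path_of_walk {B : ℤ × ℤ → Prop} {S : Finset (ℤ × ℤ)} {g : ℤ × ℤ → ℤ × ℤ}
    (hg : ∀ a b, Stp B a b → ∃ c, SegP P (g a) c ∧ SegP P c (g b)) {x y : {x // x ∈ S}}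
    (W : (stG B S).Walk x y) : ∃ l, PathP P (g x.1) l ∧ lst (g x.1) l = g y.1 ∧
      l.length = 2 * W.length := by
  induction W with
  | nil => exact ⟨[], trivial, rfl, rfl⟩
  | @cons x z y h W ih =>
    obtain ⟨l, h1, h2, h3⟩ := ih
    obtain ⟨c, h4, h5⟩ := hg _ _ h
    refine ⟨c :: g z.1 :: l, ⟨h4, h5, h1⟩, h2, ?_⟩
    simp only [List.length_cons, SimpleGraph.Walk.length_cons, h3]
    ring

/-- A chain which leaves a finite set gives a rectilinear path of bounded length. -/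
theorem exists_path {B : ℤ × ℤ → Prop} {S : Finset (ℤ × ℤ)} {g : ℤ × ℤ → ℤ × ℤ}
    (hg : ∀ a b, Stp B a b → ∃ c, SegP P (g a) c ∧ SegP P c (g b)) {a b : ℤ × ℤ} (ha : a ∈ S)
    (hb : b ∉ S) (h : ReflTransGen (Stp B) a b) : ∃ b' l, b' ∉ S ∧ PathP P (g a) l ∧
      lst (g a) l = g b' ∧ l.length ≤ 2 * S.card := by
  classical
  rcases reach_or ha h with ⟨hc, -⟩ | ⟨x, hr, y, hy, hs⟩
  · exact absurd hc hb
  · obtain ⟨W⟩ := hr
    obtain ⟨l, h1, h2, h3⟩ := path_of_walk hg W.toPath.1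
    have h4 := W.toPath.2.length_lt
    rw [Fintype.card_coe] at h4
    obtain ⟨c, h5, h6⟩ := hg _ _ hs
    refine ⟨y, l ++ [c, g y], hy, pathP_append l _ h1 ?_, ?_, ?_⟩
    · simp only at h2
      rw [h2]
      exact ⟨h5, h6, trivial⟩
    · rw [lst_append]
      rfl
    · rw [List.length_append, h3]
      simp only [List.length_cons, List.length_nil]
      omega

end Pool.Agent.PercS5
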