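import Mathlib

/-!
# Choice of the scales
-/

set_option autoImplicit false

namespace Pool.Agent.PercS5

/-- The number of the blocks. -/
theorem numA {k₀ α θ A : ℝ} (hk : 0 < k₀) (hα : 0 < α) (hα1 : α < 2 / 3) (hθ : 0 < θ)
    (hθ1 : θ < 1) (hA : 1 ≤ A) : ∃ C J₀ : ℝ, 0 < C ∧ 1 ≤ J₀ ∧ ∀ j : ℝ, J₀ ≤ j → ∃ N : ℕ, 1 ≤ N ∧
      θ ^ N ≤ j ^ (-α) ∧ 384 * A * N < k₀ * j ∧ 128 ≤ k₀ * j ∧
      (384 * N / (k₀ * j)) ^ (2 / 3 : ℝ) ≤ C * j ^ (-α) := by
  set lθ : ℝ := -Real.log θ with hlθ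
  have hlθ0 : 0 < lθ := by rw [hlθ]; linarith [Real.log_neg hθ hθ1]
  set B : ℝ := 1 / lθ with hB
  have hB0 : 0 < B := by positivity
  set ε : ℝ := 1 - 3 / 2 * α with hε
  have hε0 : 0 < ε := by rw [hε]; linarith
  set C₁ : ℝ := 384 * (B + 1) / (k₀ * ε) with hC₁
  have hC₁0 : 0 < C₁ := by positivity
  -- `log j / j` is small
  have hlim : Filter.Tendsto (fun j : ℝ => Real.log j / j) Filter.atTop (nhds 0) := by
    have := Real.isLittleO_log_id_atTop.tendsto_div_nhds_zero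
    exact this
  have hev := (hlim.eventually_lt_const (show (0 : ℝ) < k₀ / (384 * A * (B + 1)) by positivity))
  obtain ⟨J₁, hJ₁⟩ := Filter.eventually_atTop.1 hev
  refine ⟨C₁ ^ (2 / 3 : ℝ), max (max J₁ (Real.exp 1)) (max 1 (128 / k₀)), by positivity,
    le_max_of_le_right (le_max_left _ _), ?_⟩
  intro j hj
  have hj1 : J₁ ≤ j := (le_max_left _ _).trans ((le_max_left _ _).trans hj)
  have hj2 : Real.exp 1 ≤ j := (le_max_right _ _).trans ((le_max_left _ _).trans hj)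
  have hj3 : 1 ≤ j := (le_max_left _ _).trans ((le_max_right _ _).trans hj)
  have hj4 : 128 / k₀ ≤ j := (le_max_right _ _).trans ((le_max_right _ _).trans hj)
  have hj0 : 0 < j := by linarith
  have hlog : 1 ≤ Real.log j := by
    rw [Real.le_log_iff_exp_le hj0]; exact hj2
  set N : ℕ := ⌈B * Real.log j⌉₊ with hN
  have hN1 : B * Real.log j ≤ N := Nat.le_ceil _
  have hN2 : (N : ℝ) < B * Real.log j + 1 := Nat.ceil_lt_add_one (by positivity)
  have hN3 : (N : ℝ) ≤ (B + 1) * Real.log j := by nlinarith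
  have hN0 : 0 < B * Real.log j := by positivity
  have hNpos : 1 ≤ N := Nat.one_le_iff_ne_zero.2 (Nat.ceil_pos.2 hN0).ne'
  refine ⟨N, hNpos, ?_, ?_, ?_, ?_⟩
  · have h1 : θ ^ N = Real.exp (-(lθ * N)) := by
      rw [← Real.rpow_natCast, Real.rpow_def_of_pos hθ, hlθ]
      congr 1; ring
    rw [h1, Real.rpow_def_of_pos hj0]
    apply Real.exp_le_exp.2
    have h2 : lθ * (B * Real.log j) = Real.log j := by rw [hB]; field_simp
    have h3 : lθ * (B * Real.log j) ≤ lθ * N := mul_le_mul_of_nonneg_left hN1 hlθ0.le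
    nlinarith
  · have h1 := hJ₁ j hj1
    rw [div_lt_div_iff₀ hj0 (by positivity)] at h1
    calc 384 * A * N ≤ 384 * A * ((B + 1) * Real.log j) :=
          mul_le_mul_of_nonneg_left hN3 (by positivity)
      _ = Real.log j * (384 * A * (B + 1)) := by ring
      _ < k₀ * j := h1
  · rw [div_le_iff₀ hk] at hj4
    linarith
  · have h1 : Real.log j ≤ j ^ ε / ε := Real.log_le_rpow_div hj0.le hε0
    have h2 : 384 * N / (k₀ * j) ≤ C₁ * j ^ (ε - 1) := by
      rw [div_le_iff₀ (by positivity)]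
      have h3 : j ^ (ε - 1) * j = j ^ ε := by
        rw [← Real.rpow_add_one hj0.ne']; congr 1; ring
      calc 384 * (N : ℝ) ≤ 384 * ((B + 1) * (j ^ ε / ε)) := by
            refine mul_le_mul_of_nonneg_left (hN3.trans ?_) (by norm_num)
            exact mul_le_mul_of_nonneg_left h1 (by positivity)
        _ = C₁ * (j ^ ε) * k₀ := by rw [hC₁]; field_simp
        _ = C₁ * j ^ (ε - 1) * (k₀ * j) := by rw [← h3]; ring
    calc (384 * N / (k₀ * j)) ^ (2 / 3 : ℝ) ≤ (C₁ * j ^ (ε - 1)) ^ (2 / 3 : ℝ) :=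
          Real.rpow_le_rpow (by positivity) h2 (by norm_num)
      _ = C₁ ^ (2 / 3 : ℝ) * j ^ (-α) := by
          rw [Real.mul_rpow hC₁0.le (by positivity), ← Real.rpow_mul hj0.le]
          congr 2
          rw [hε]; ring

/-- The scales. -/
theorem numB {k₀ A ν j : ℝ} {N : ℕ} (hk : 0 < k₀) (hk1 : k₀ ≤ 1) (hA : 1 ≤ A) (hν : 1 ≤ ν)
    (hN : 1 ≤ N) (h1 : 384 * A * N < k₀ * j) (h2 : 128 ≤ k₀ * j) :
    ∃ R L w : ℤ, ((R : ℝ) ≤ k₀ * ν * j / 8) ∧ L + ⌊3 * ν⌋ ≤ R ∧ w ≤ L ∧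
      A * (⌊3 * ν⌋ : ℝ) < w ∧ ⌊3 * ν⌋ + 2 * w * N ≤ L ∧ 0 < w ∧
      (⌊3 * ν⌋ : ℝ) / w ≤ 384 * N / (k₀ * j) := by
  have hN1 : (1 : ℝ) ≤ N := by exact_mod_cast hN
  have hkj : 0 < k₀ * j := by linarith
  have hν0 : 0 < ν := by linarith
  set d : ℤ := ⌊3 * ν⌋ with hd
  have hd1 : (d : ℝ) ≤ 3 * ν := Int.floor_le _
  have hd2 : 3 * ν < d + 1 := Int.lt_floor_add_one _
  have hd0 : (0 : ℝ) < d := by linarith
  set R : ℤ := ⌊k₀ * ν * j / 8⌋ with hR
  have hR1 : (R : ℝ) ≤ k₀ * ν * j / 8 := Int.floor_le _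
  have hR2 : k₀ * ν * j / 8 < R + 1 := Int.lt_floor_add_one _
  set L : ℤ := ⌊k₀ * ν * j / 16⌋ with hL
  have hL1 : (L : ℝ) ≤ k₀ * ν * j / 16 := Int.floor_le _
  have hL2 : k₀ * ν * j / 16 < L + 1 := Int.lt_floor_add_one _
  have hkν : 128 * ν ≤ k₀ * ν * j := by nlinarith
  set w : ℤ := ⌊((L : ℝ) - d) / (2 * N)⌋ with hw
  have hw1 : (w : ℝ) ≤ ((L : ℝ) - d) / (2 * N) := Int.floor_le _
  have hw2 : ((L : ℝ) - d) / (2 * N) < w + 1 := Int.lt_floor_add_one _
  have hLd : k₀ * ν * j / 32 ≤ (L : ℝ) - d := by linarith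
  -- the main lower bound
  have hwl : k₀ * ν * j / (128 * N) ≤ w := by
    have h3 : k₀ * ν * j / (64 * N) ≤ ((L : ℝ) - d) / (2 * N) := by
      rw [div_le_div_iff₀ (by positivity) (by positivity)]
      nlinarith
    have h4 : 1 ≤ k₀ * ν * j / (128 * N) := by
      rw [one_le_div (by positivity)]
      have : 384 * (1 : ℝ) * N ≤ 384 * A * N := by
        apply mul_le_mul_of_nonneg_right _ (by positivity); linarith
      nlinarith
    have h5 : k₀ * ν * j / (64 * N) = 2 * (k₀ * ν * j / (128 * N)) := by field_simp; ring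
    linarith
  have hwA : A * (d : ℝ) < w := by
    refine lt_of_lt_of_le ?_ hwl
    rw [lt_div_iff₀ (by positivity)]
    calc A * d * (128 * N) ≤ A * (3 * ν) * (128 * N) := by
          apply mul_le_mul_of_nonneg_right _ (by positivity)
          exact mul_le_mul_of_nonneg_left hd1 (by linarith)
      _ = (384 * A * N) * ν := by ring
      _ < k₀ * j * ν := by nlinarith
      _ = k₀ * ν * j := by ring
  have hw0 : (0 : ℝ) < w := lt_of_le_of_lt (by positivity) hwA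
  have hdw : (d : ℝ) + 2 * w * N ≤ L := by
    have h3 : (w : ℝ) * (2 * N) ≤ (L : ℝ) - d := by
      rw [le_div_iff₀ (by positivity)] at hw1
      exact hw1
    linarith
  refine ⟨R, L, w, hR1, ?_, ?_, hwA, ?_, ?_, ?_⟩
  · have : ((L + d : ℤ) : ℝ) < ((R + 1 : ℤ) : ℝ) := by push_cast; linarith
    have h3 : L + d < R + 1 := by exact_mod_cast this
    omega
  · have : (w : ℝ) ≤ L := by
      have h3 : (w : ℝ) ≤ 2 * w * N := by nlinarith
      linarith
    exact_mod_cast this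
  · exact_mod_cast hdw
  · exact_mod_cast hw0
  · rw [div_le_div_iff₀ hw0 hkj]
    have h3 : k₀ * ν * j ≤ w * (128 * N) := by
      rwa [div_le_iff₀ (by positivity)] at hwl
    calc (d : ℝ) * (k₀ * j) ≤ 3 * ν * (k₀ * j) := mul_le_mul_of_nonneg_right hd1 hkj.le
      _ = 3 * (k₀ * ν * j) := by ring
      _ ≤ 3 * (w * (128 * N)) := by linarith
      _ = 384 * N * w := by ring

end Pool.Agent.PercS5
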