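import Pool.Agent.Lib.MP_6bd702_pr_h60.OutLim
import Pool.Agent.Lib.MP_6bd702_percD.Targets

/-!
# The outer boundary of the limit: statements of the finite volume estimates
-/

set_option autoImplicit false

namespace Pool.Agent.PercS5

open Filter Topology MeasureTheory TopologicalSpace
open Pool.Agent.Perc Pool.Agent.PercD

/-- C1 (one point estimate from above): for every mesh `2 ^ (-p)` of the corridors and all large
`n`, the cell `z` of level `m` is met by the outer perimeter of a large cluster and sees infinity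
with probability at most `C j ^ (-α)`, `j` the distance to the boundary of the box in units of
`2 ^ (-m)`, for every `α < 2 / 3`. -/
def TargetC1 : Prop := ∀ k₀ α : ℝ, 0 < k₀ → 0 < α → α < 2 / 3 → ∃ C : ℝ, ∀ m p : ℕ,
  ∀ᶠ n : ℕ in atTop, ∀ z : ℤ × ℤ, ∀ j : ℝ, 1 ≤ j → j ≤ z.1 → j ≤ 2 ^ m - z.1 → j ≤ z.2 →
    j ≤ 2 ^ m - z.2 →
      prB n {T | ∃ u, k₀ * n ≤ Metric.diam (clS T u) ∧ HitC p m (perK n T u : Set ℂ) z} ≤
        C * j ^ (-α)

/-- C3: with high probability the cells which meet the outer perimeter of the largest cluster and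
see infinity carry a probability measure of bounded energy of every order `s < 4 / 3`. -/
def TargetC3 : Prop := ∀ s : ℝ, 0 < s → s < 4 / 3 → ∀ ε : ℝ, 0 < ε → ∃ A : ℝ, ∀ m : ℕ, ∃ p : ℕ,
  ∀ sel : ℕ → Finset Edg → ℤ × ℤ, (∀ n, IsSel n (sel n)) → ∀ᶠ n : ℕ in atTop,
    prB n {T | ¬ Good s m A (GO p m (perK n T (sel n T) : Set ℂ))} ≤ ε

/-- The target: almost surely for every subsequential limit law of the outer perimeters the outer
boundary has Hausdorff dimension `4 / 3`. -/
def TargetOutB : Prop := ∀ [MeasurableSpace (NonemptyCompacts ℂ)] [BorelSpace (NonemptyCompacts ℂ)]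
  (sel : ℕ → Finset Edg → ℤ × ℤ) (φ : ℕ → ℕ) (ν : Measure (NonemptyCompacts ℂ))
  [IsProbabilityMeasure ν], (∀ n, IsSel n (sel n)) → StrictMono φ → LimitLaw sel φ ν →
    ∀ᵐ K : NonemptyCompacts ℂ ∂ν, dimH (outB (K : Set ℂ)) = 4 / 3

end Pool.Agent.PercS5
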