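import Pool.Agent.Lib.MP_6bd702_pr_h60.C1Det
import Pool.Agent.Lib.MP_6bd702_pr_h60.C1Num
import Pool.Agent.Lib.MP_6bd702_pr_h60.OutTargets
import Pool.Agent.Lib.MP_6bd702_perc.TwoArm

/-!
# The upper bound C1 from the bound in the grid with a dislocation
-/

set_option autoImplicit false

namespace Pool.Agent.PercS5

open Relation Filter Topology
open Pool.Agent.Perc Pool.Agent.Perc3 Pool.Agent.PercD
open Pool.Agent.MP_6bd702.H23 (Ed)
open Pool.Agent.PercU (Cor vtx fce)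
open Pool.Agent.PercO (Orb Oc mem_Oc)
open Pool.Agent.PercX60 (dB TA Sn gV gF)
open Pool.Agent.PercW (kap ua_kap joins_kap)

/-- The bound for the pairs of strands in the grid with a dislocation. -/
def TTBound : Prop := ∃ (A : ℤ) (C : ℝ), 0 < C ∧ ∀ L w d N : ℤ, 1 < d → 1 ≤ N → N + 2 ≤ d →
  A * d < w → w ≤ L →
    ∑ p ∈ ((TBF L w ×ˢ TBF L w).filter fun p => p.1 ≠ p.2) ×ˢ ({-1, 0, 1} : Finset ℤ),
      pr (RF (-L - N) (L + N) (-w) w) {ω | lcf 1 ω ∈ PairL L w d N 2 p.1.1 p.1.2 p.2} ≤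
    C * ((d : ℝ) / w) ^ (2 / 3 : ℝ)

variable {ω ω' : Cfg} {c : ℤ × ℤ} {d X L w D : ℤ} {e : UE}

/-! ### Dependence on the faces -/

theorem depOn_Lat (c : ℤ × ℤ) (d X L w : ℤ) : DepOn (RL c L w : Set (ℤ × ℤ)) (Lat c d X L w) := by
  intro ω ω' h
  unfold Lat
  rw [Set.mem_ofPred_eq, Set.mem_ofPred_eq]
  refine exists_congr fun e => and_congr_right fun _ => ?_
  rw [MM_congr' (ω := ω) (ω' := ω') h]

theorem depOn_CorrU (L w d D : ℤ) (M : ℕ) :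
    DepOn (RF (-L) L (-w) w : Set (ℤ × ℤ)) (CorrU L w d D M) := by
  intro ω ω' h
  have h1 : ∀ f ∈ (AnF L w d : Set (ℤ × ℤ)), ω f = ω' f := fun f hf => h f (by
    rw [Finset.mem_coe, mem_AnF] at hf
    rw [mem_RF']
    exact hf.1)
  have hM : ∀ b, MM ω' (AnF L w d) b = MM ω (AnF L w d) b := fun b => MM_congr' h1
  have hS : ∀ b, SS ω' (AnF L w d) b = SS ω (AnF L w d) b := fun b => by
    unfold SS
    rw [hM]
  unfold CorrU CorrEv Rin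
  simp only [Set.mem_ofPred_eq, hM, hS]

theorem CorrU_mono {M M' : ℕ} (h : M ≤ M') : CorrU L w d D M ⊆ CorrU L w d D M' := by
  rintro ω ⟨b, hb, b', hb', hne, h1, h2, u, l, h3, h4, h5⟩
  exact ⟨b, hb, b', hb', hne, h1, h2, u, l, h3, h4.trans h, h5⟩

theorem corN_mono {p p' : ℕ} (h : p ≤ p') : corN p ≤ corN p' := by
  unfold corN
  have : 2 ^ p ≤ 2 ^ p' := Nat.pow_le_pow_right (by norm_num) h
  gcongr

/-- The probability of the shifted event. -/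
theorem pr_shift_CorrU (c : ℤ × ℤ) (L w d D : ℤ) (M : ℕ) :
    pr (RL c L w) {ω | shiftC c.1 c.2 ω ∈ CorrU L w d D M} =
      pr (RF (-L) L (-w) w) (CorrU L w d D M) := by
  refine TwoArm.pr_shift (depOn_CorrU L w d D M) c.1 c.2 ?_
  intro f hf
  rw [Perc.mem_RF] at hf
  rw [mem_RL]
  simp only
  omega

theorem depOn_shift_CorrU (c : ℤ × ℤ) (L w d D : ℤ) (M : ℕ) :
    DepOn (RL c L w : Set (ℤ × ℤ)) {ω | shiftC c.1 c.2 ω ∈ CorrU L w d D M} := by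
  intro ω ω' h
  refine depOn_CorrU L w d D M _ _ fun f hf => ?_
  refine h _ ?_
  rw [mem_RF'] at hf
  rw [Finset.mem_coe, mem_RL]
  simp only
  omega

theorem depOn_union {S : Set (ℤ × ℤ)} {A B : Set Cfg} (hA : DepOn S A) (hB : DepOn S B) :
    DepOn S (A ∪ B) := fun ω ω' h => or_congr (hA ω ω' h) (hB ω ω' h)

/-- The probability of the two strands with a corridor. -/
theorem pr_CorrU {A : ℤ} {C : ℝ} (hC : ∀ L w d N : ℤ, 1 < d → 1 ≤ N → N + 2 ≤ d →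
    A * d < w → w ≤ L →
    ∑ p ∈ ((TBF L w ×ˢ TBF L w).filter fun p => p.1 ≠ p.2) ×ˢ ({-1, 0, 1} : Finset ℤ),
      pr (RF (-L - N) (L + N) (-w) w) {ω | lcf 1 ω ∈ PairL L w d N 2 p.1.1 p.1.2 p.2} ≤
    C * ((d : ℝ) / w) ^ (2 / 3 : ℝ)) {M : ℕ} (hM : 4 * ((M : ℤ) + 6) ≤ d) (hA : A * d < w)
    (hdw : d < w) (hwL : w ≤ L) :
    pr (RF (-L) L (-w) w) (CorrU L w d (8 * (M + 6)) M) ≤ C * ((d : ℝ) / w) ^ (2 / 3 : ℝ) :=
  (pr_pairs_le (k := 2) (n := 2 * (M + 6)) (D := 8 * (M + 6)) (by omega) hdw (by omega) (by omega)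
    (by omega) (by norm_num) le_rfl (by omega)).trans
    (hC L w d (2 * (M + 6)) (by omega) (by omega) (by omega) hA hwL)

/-- The bound for one annulus. -/
theorem pr_annulus {A : ℤ} {C θ : ℝ} (hC : ∀ L w d N : ℤ, 1 < d → 1 ≤ N → N + 2 ≤ d →
    A * d < w → w ≤ L →
    ∑ p ∈ ((TBF L w ×ˢ TBF L w).filter fun p => p.1 ≠ p.2) ×ˢ ({-1, 0, 1} : Finset ℤ),
      pr (RF (-L - N) (L + N) (-w) w) {ω | lcf 1 ω ∈ PairL L w d N 2 p.1.1 p.1.2 p.2} ≤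
    C * ((d : ℝ) / w) ^ (2 / 3 : ℝ))
    (hθ : ∀ (c : ℤ × ℤ) (d X L w : ℤ) (N : ℕ), 0 < w →
      d + 2 * w * N ≤ X → X ≤ L → 0 ≤ d → pr (RL c L w) (Lat c d X L w) ≤ 4 * θ ^ N)
    {M N : ℕ} (c : ℤ × ℤ) (hM : 4 * ((M : ℤ) + 6) ≤ d) (hA : A * d < w)
    (hdw : d < w) (hwL : w ≤ L) (hN : d + 2 * w * N ≤ L) :
    pr (RL c L w) (Lat c d L L w ∪ {ω | shiftC c.1 c.2 ω ∈ CorrU L w d (8 * (M + 6)) M}) ≤
      4 * θ ^ N + C * ((d : ℝ) / w) ^ (2 / 3 : ℝ) := by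
  refine (pr_union_le _ _ _).trans (add_le_add ?_ ?_)
  · exact hθ c d L L w N (by omega) hN le_rfl (by omega)
  · rw [pr_shift_CorrU]
    exact pr_CorrU hC hM hA hdw hwL

/-- Squares far away are outside the rectangle. -/
theorem out_far {n q : ℕ} {v₀ : ℤ × ℤ} {L w : ℤ} (hn0 : (0 : ℝ) < n)
    (h1 : (0 : ℝ) ≤ v₀.1) (h2 : (v₀.1 : ℝ) ≤ n) (h3 : (0 : ℝ) ≤ v₀.2) (h4 : (v₀.2 : ℝ) ≤ n)
    (hL : (L : ℝ) + 1 ≤ n / 2) (hwL : w ≤ L) {b : ℤ × ℤ} (hb : Far q b) :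
    ¬ (|(gc n q (phiV v₀) b).1| ≤ L ∧ |(gc n q (phiV v₀) b).2| ≤ w) := by
  rintro ⟨k1, k2⟩
  have hQ : (0 : ℝ) < 2 ^ q := by positivity
  have hc1 : ((phiV v₀).1 : ℝ) = v₀.1 + v₀.2 := by simp [phiV]
  have hc2 : ((phiV v₀).2 : ℝ) = v₀.1 - v₀.2 := by simp [phiV]
  have k3 : |(((gp n q b).1 : ℤ) : ℝ) - (phiV v₀).1| ≤ L := by
    have : |(gp n q b).1 - (phiV v₀).1| ≤ L := k1
    exact_mod_cast this
  have k4 : |(((gp n q b).2 : ℤ) : ℝ) - (phiV v₀).2| ≤ L := by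
    have : |(gp n q b).2 - (phiV v₀).2| ≤ L := k2.trans hwL
    exact_mod_cast this
  have h5 : (((gp n q b).1 : ℤ) : ℝ) = ⌊(n : ℝ) * (b.1 + b.2) / 2 ^ q⌋ := rfl
  have h6 : (((gp n q b).2 : ℤ) : ℝ) = ⌊(n : ℝ) * (b.1 - b.2) / 2 ^ q⌋ := rfl
  rw [h5, hc1, abs_le] at k3
  rw [h6, hc2, abs_le] at k4
  have h7 := Int.floor_le ((n : ℝ) * (b.1 + b.2) / 2 ^ q)
  have h8 := Int.lt_floor_add_one ((n : ℝ) * (b.1 + b.2) / 2 ^ q)
  have h9 := Int.floor_le ((n : ℝ) * (b.1 - b.2) / 2 ^ q)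
  have h10 := Int.lt_floor_add_one ((n : ℝ) * (b.1 - b.2) / 2 ^ q)
  have h11 : (n : ℝ) * (b.1 + b.2) / 2 ^ q = n * b.1 / 2 ^ q + n * b.2 / 2 ^ q := by ring
  have h12 : (n : ℝ) * (b.1 - b.2) / 2 ^ q = n * b.1 / 2 ^ q - n * b.2 / 2 ^ q := by ring
  have h13 : |(n : ℝ) * b.1 / 2 ^ q| ≤ 2 * n := by
    rw [abs_le]; constructor <;> linarith [k3.1, k3.2, k4.1, k4.2]
  have h14 : |(n : ℝ) * b.2 / 2 ^ q| ≤ 2 * n := by
    rw [abs_le]; constructor <;> linarith [k3.1, k3.2, k4.1, k4.2]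
  have key : ∀ t : ℤ, |(n : ℝ) * t / 2 ^ q| ≤ 2 * n → |t| ≤ 2 * 2 ^ q := by
    intro t ht
    rw [abs_div, abs_mul, abs_of_pos hn0, abs_of_pos hQ, div_le_iff₀ hQ] at ht
    have h15 : |(t : ℝ)| ≤ 2 * 2 ^ q := by
      have : (n : ℝ) * |(t : ℝ)| ≤ n * (2 * 2 ^ q) := by linarith
      exact le_of_mul_le_mul_left this hn0
    exact_mod_cast h15
  rcases hb with hb | hb
  · exact absurd (key _ h13) (not_le.2 hb)
  · exact absurd (key _ h14) (not_le.2 hb)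

/-- The first square is in the inner box. -/
theorem first_in {n q m : ℕ} {z a v₀ : ℤ × ℤ} {d : ℤ} (hn0 : (0 : ℝ) < n)
    (hac : pt q a ∈ cell m z) (f1 : (v₀.1 : ℝ) ≤ n / 2 ^ m * z.1)
    (f2 : (n : ℝ) / 2 ^ m * z.1 < v₀.1 + 1) (f3 : (v₀.2 : ℝ) ≤ n / 2 ^ m * z.2)
    (f4 : (n : ℝ) / 2 ^ m * z.2 < v₀.2 + 1) (hd : 2 * ((n : ℝ) / 2 ^ m) + 3 ≤ d) :
    |(gc n q (phiV v₀) a).1| < d ∧ |(gc n q (phiV v₀) a).2| < d := by
  have hc1 : ((phiV v₀).1 : ℝ) = v₀.1 + v₀.2 := by simp [phiV]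
  have hc2 : ((phiV v₀).2 : ℝ) = v₀.1 - v₀.2 := by simp [phiV]
  have h1 : |(a.1 : ℝ) / 2 ^ q - z.1 / 2 ^ m| < 1 / 2 ^ m := hac.1
  have h2 : |(a.2 : ℝ) / 2 ^ q - z.2 / 2 ^ m| < 1 / 2 ^ m := hac.2
  have key : ∀ s t : ℤ, |(s : ℝ) / 2 ^ q - t / 2 ^ m| < 1 / 2 ^ m →
      |(n : ℝ) * s / 2 ^ q - n / 2 ^ m * t| < n / 2 ^ m := by
    intro s t h
    have e : (n : ℝ) * s / 2 ^ q - n / 2 ^ m * t = n * (s / 2 ^ q - t / 2 ^ m) := by ring
    rw [e, abs_mul, abs_of_pos hn0]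
    calc (n : ℝ) * |(s : ℝ) / 2 ^ q - t / 2 ^ m| < n * (1 / 2 ^ m) :=
          mul_lt_mul_of_pos_left h hn0
      _ = n / 2 ^ m := by ring
  have h3 := abs_lt.1 (key _ _ h1)
  have h4 := abs_lt.1 (key _ _ h2)
  have h7 := Int.floor_le ((n : ℝ) * (a.1 + a.2) / 2 ^ q)
  have h8 := Int.lt_floor_add_one ((n : ℝ) * (a.1 + a.2) / 2 ^ q)
  have h9 := Int.floor_le ((n : ℝ) * (a.1 - a.2) / 2 ^ q)
  have h10 := Int.lt_floor_add_one ((n : ℝ) * (a.1 - a.2) / 2 ^ q)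
  have h11 : (n : ℝ) * (a.1 + a.2) / 2 ^ q = n * a.1 / 2 ^ q + n * a.2 / 2 ^ q := by ring
  have h12 : (n : ℝ) * (a.1 - a.2) / 2 ^ q = n * a.1 / 2 ^ q - n * a.2 / 2 ^ q := by ring
  constructor
  · have : |((⌊(n : ℝ) * (a.1 + a.2) / 2 ^ q⌋ : ℤ) : ℝ) - (phiV v₀).1| < d := by
      rw [hc1, abs_lt]; constructor <;> linarith [h3.1, h3.2, h4.1, h4.2]
    have h13 : |⌊(n : ℝ) * (a.1 + a.2) / 2 ^ q⌋ - (phiV v₀).1| < d := by exact_mod_cast this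
    exact h13
  · have : |((⌊(n : ℝ) * (a.1 - a.2) / 2 ^ q⌋ : ℤ) : ℝ) - (phiV v₀).2| < d := by
      rw [hc2, abs_lt]; constructor <;> linarith [h3.1, h3.2, h4.1, h4.2]
    have h13 : |⌊(n : ℝ) * (a.1 - a.2) / 2 ^ q⌋ - (phiV v₀).2| < d := by exact_mod_cast this
    exact h13

/-- The geometric part: a hit cell in the bulk gives the event of the annulus. -/
theorem mem_annulus_of_hit {n m p : ℕ} {k₀ j : ℝ} {R : ℤ} {M : ℕ} (hk1 : k₀ ≤ 1) (hk0 : 0 < k₀)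
    (hM : M = corN p)
    (hn : 0 < n) (hν : 20 ≤ (n : ℝ) / 2 ^ m) (hj : 4 ≤ j) {z : ℤ × ℤ} (hz1 : j ≤ z.1)
    (hz2 : j ≤ 2 ^ m - z.1) (hz3 : j ≤ z.2) (hz4 : j ≤ 2 ^ m - z.2)
    (hR : (R : ℝ) ≤ k₀ * (n / 2 ^ m) * j / 8) (hLR : L + ⌊3 * ((n : ℝ) / 2 ^ m)⌋ ≤ R)
    (hwL : w ≤ L) (hdw : ⌊3 * ((n : ℝ) / 2 ^ m)⌋ < w)
    (hp : 16 * ((M : ℝ) + 6) + 4 ≤ n / 2 ^ p) {ω : Cfg} {u : ℤ × ℤ}
    (hdiam : k₀ * n ≤ Metric.diam (clS (cfgE n ω) u))
    (hH : HitC p m (perK n (cfgE n ω) u : Set ℂ) z) :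
    ω ∈ Lat (phiV (⌊(n : ℝ) * z.1 / 2 ^ m⌋, ⌊(n : ℝ) * z.2 / 2 ^ m⌋))
        ⌊3 * ((n : ℝ) / 2 ^ m)⌋ L L w ∪
      {ω | shiftC (phiV (⌊(n : ℝ) * z.1 / 2 ^ m⌋, ⌊(n : ℝ) * z.2 / 2 ^ m⌋)).1
        (phiV (⌊(n : ℝ) * z.1 / 2 ^ m⌋, ⌊(n : ℝ) * z.2 / 2 ^ m⌋)).2 ω ∈
          CorrU L w ⌊3 * ((n : ℝ) / 2 ^ m)⌋ (8 * (M + 6)) M} := by
  set P : ℝ := 2 ^ m with hP
  have hP0 : 0 < P := by positivity
  set ν : ℝ := (n : ℝ) / P with hνd
  set d : ℤ := ⌊3 * ν⌋ with hd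
  set v₀ : ℤ × ℤ := (⌊(n : ℝ) * z.1 / P⌋, ⌊(n : ℝ) * z.2 / P⌋) with hv₀
  set c : ℤ × ℤ := phiV v₀ with hc
  have hn0 : (0 : ℝ) < n := by exact_mod_cast hn
  have hν0 : 0 < ν := by positivity
  have hd1 : (d : ℝ) ≤ 3 * ν := Int.floor_le _
  have hd2 : 3 * ν < d + 1 := Int.lt_floor_add_one _
  have hnν : (n : ℝ) = P * ν := by rw [hνd]; field_simp
  by_cases hLat : ω ∈ Lat c d L L w
  · exact Or.inl hLat
  right
  obtain ⟨⟨y, hyK, hyc⟩, p', hp', a, b, hac, hbF, haF, hab⟩ := hH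
  have hpos : 0 < Metric.diam (clS (cfgE n ω) u) := lt_of_lt_of_le (by positivity) hdiam
  -- floors
  have f1 : (v₀.1 : ℝ) ≤ n * z.1 / P := Int.floor_le _
  have f2 : (n : ℝ) * z.1 / P < v₀.1 + 1 := Int.lt_floor_add_one _
  have f3 : (v₀.2 : ℝ) ≤ n * z.2 / P := Int.floor_le _
  have f4 : (n : ℝ) * z.2 / P < v₀.2 + 1 := Int.lt_floor_add_one _
  have e1 : (n : ℝ) * z.1 / P = ν * z.1 := by rw [hνd]; ring
  have e2 : (n : ℝ) * z.2 / P = ν * z.2 := by rw [hνd]; ring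
  rw [e1] at f1 f2
  rw [e2] at f3 f4
  -- the vertex
  obtain ⟨x, hx, rfl⟩ := hyK
  obtain ⟨v, hv, hxv⟩ := Perc.PercD.exists_outV hpos hx
  obtain ⟨k, hk, rfl⟩ := exists_cor hv
  have hre := (Complex.abs_re_le_norm _).trans hxv
  have him := (Complex.abs_im_le_norm _).trans hxv
  have hre' : |x.re - (vtx k).1| ≤ 1 := by simpa [toC] using hre
  have him' : |x.im - (vtx k).2| ≤ 1 := by simpa [toC] using him
  have hcell : |x.re - ν * z.1| < ν ∧ |x.im - ν * z.2| < ν := by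
    have key : ∀ (t : ℝ) (b : ℤ), |t / n - b / P| < 1 / P → |t - ν * b| < ν := by
      intro t b h
      have e : t / n - b / P = (t - ν * b) / n := by rw [hνd]; field_simp
      rw [e, abs_div, abs_of_pos hn0, div_lt_iff₀ hn0] at h
      refine h.trans_le (le_of_eq ?_)
      rw [hνd]; ring
    have h1 : |(x / (n : ℂ)).re - z.1 / P| < 1 / P := hyc.1
    have h2 : |(x / (n : ℂ)).im - z.2 / P| < 1 / P := hyc.2
    rw [Complex.div_natCast_re] at h1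
    rw [Complex.div_natCast_im] at h2
    exact ⟨key _ _ h1, key _ _ h2⟩
  have g1 := abs_le.1 hre'
  have g2 := abs_le.1 him'
  have g3 := abs_lt.1 hcell.1
  have g4 := abs_lt.1 hcell.2
  have hd3 : ∃ d' : ℤ, 2 * d' + 1 ≤ d ∧ ν + 2 ≤ d' := by
    refine ⟨⌊ν + 3⌋, ?_, ?_⟩
    · rw [hd, Int.le_floor]
      push_cast
      have := Int.floor_le (ν + 3)
      linarith
    · have := Int.lt_floor_add_one (ν + 3)
      linarith
  obtain ⟨d', hd', hνd'⟩ := hd3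
  have hin : InE c d (kap k) := by
    have h1 : |((vtx k).1 : ℝ) - v₀.1| ≤ d' := by
      rw [abs_le]; constructor <;> linarith [g1.1, g1.2, g3.1, g3.2]
    have h2 : |((vtx k).2 : ℝ) - v₀.2| ≤ d' := by
      rw [abs_le]; constructor <;> linarith [g2.1, g2.2, g4.1, g4.2]
    exact kap_inE k (by exact_mod_cast h1) (by exact_mod_cast h2) hd'
  have hd0 : 0 < d := by
    have : (0 : ℝ) < d := by linarith
    exact_mod_cast this
  -- the distance to the boundary of the box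
  have hνj : 4 * ν ≤ ν * j := by
    have := mul_le_mul_of_nonneg_left hj hν0.le
    linarith
  have hkν : k₀ * ν * j ≤ ν * j := by
    have : k₀ * (ν * j) ≤ 1 * (ν * j) := mul_le_mul_of_nonneg_right hk1 (by positivity)
    linarith
  have hbd : ∀ (t : ℝ) (a b : ℤ), j ≤ a → j ≤ P - a → |t - ν * a| < ν → |t - b| ≤ 1 →
      (R : ℝ) + 1 ≤ b ∧ (R : ℝ) + 1 ≤ n - b := by
    intro t a b h1 h2 h3 h4
    have h5 := abs_lt.1 h3
    have h6 := abs_le.1 h4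
    have h7 : ν * j ≤ ν * a := mul_le_mul_of_nonneg_left h1 hν0.le
    have h8 : ν * j ≤ ν * (P - a) := mul_le_mul_of_nonneg_left h2 hν0.le
    have h9 : ν * (P - a) = n - ν * a := by rw [hnν]; ring
    constructor <;> linarith [h5.1, h5.2, h6.1, h6.2]
  have hdB : R + 1 ≤ dB n (vtx k) := by
    obtain ⟨h1, h2⟩ := hbd _ _ _ hz1 hz2 hcell.1 hre'
    obtain ⟨h3, h4⟩ := hbd _ _ _ hz3 hz4 hcell.2 him'
    have h5 : R + 1 ≤ (vtx k).1 := by exact_mod_cast h1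
    have h6 : R + 1 ≤ n - (vtx k).1 := by exact_mod_cast h2
    have h7 : R + 1 ≤ (vtx k).2 := by exact_mod_cast h3
    have h8 : R + 1 ≤ n - (vtx k).2 := by exact_mod_cast h4
    exact le_dB h5 (by omega) h7 (by omega)
  -- the diameter
  have hjP : 2 * j ≤ P := by linarith
  have hRn : 4 * ((R : ℝ) + 2) ≤ k₀ * n := by
    have h1 : k₀ * ν * j ≤ k₀ * n / 2 := by
      rw [hnν]
      have : k₀ * ν * (2 * j) ≤ k₀ * ν * P := mul_le_mul_of_nonneg_left hjP (by positivity)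
      linarith
    have h2 : 0 < R := by omega
    have h3 : (1 : ℝ) ≤ R := by exact_mod_cast h2
    have h4 : ((L + d : ℤ) : ℝ) ≤ R := by exact_mod_cast hLR
    have h5 : (d : ℝ) + 1 ≤ L := by
      have : d + 1 ≤ L := by omega
      exact_mod_cast this
    push_cast at h4
    linarith
  -- the rectangle is in the box
  have hLn : (L : ℝ) + 1 ≤ n / 2 := by
    have h4 : ((L + d : ℤ) : ℝ) ≤ R := by exact_mod_cast hLR
    push_cast at h4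
    have h5 : k₀ * n ≤ n := mul_le_of_le_one_left hn0.le hk1
    linarith
  have hv01 : (0 : ℝ) ≤ v₀.1 ∧ (v₀.1 : ℝ) ≤ n := by
    constructor
    · have : (0 : ℤ) ≤ v₀.1 := Int.floor_nonneg.2 (by
        rw [e1]; exact mul_nonneg hν0.le (by linarith))
      exact_mod_cast this
    · have : ν * (z.1 : ℝ) ≤ ν * P := mul_le_mul_of_nonneg_left (by linarith) hν0.le
      rw [hnν]; linarith
  have hv02 : (0 : ℝ) ≤ v₀.2 ∧ (v₀.2 : ℝ) ≤ n := by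
    constructor
    · have : (0 : ℤ) ≤ v₀.2 := Int.floor_nonneg.2 (by
        rw [e2]; exact mul_nonneg hν0.le (by linarith))
      exact_mod_cast this
    · have : ν * (z.2 : ℝ) ≤ ν * P := mul_le_mul_of_nonneg_left (by linarith) hν0.le
      rw [hnν]; linarith
  -- squares far away are outside the rectangle
  have hout : ∀ b, Far p' b → ¬ (|(gc n p' c b).1| ≤ L ∧ |(gc n p' c b).2| ≤ w) := fun b hb =>
    out_far hn0 hv01.1 hv01.2 hv02.1 hv02.2 hLn hwL hb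
  -- the first square
  have ha : |(gc n p' c a).1| < d ∧ |(gc n p' c a).2| < d :=
    first_in hn0 hac f1 f2 f3 f4 (by linarith)
  have hD : 2 * (((8 * ((M : ℤ) + 6) : ℤ) : ℝ) + 1) + 2 ≤ n / 2 ^ p' := by
    have h1 : (n : ℝ) / 2 ^ p ≤ n / 2 ^ p' := by
      apply div_le_div_of_nonneg_left hn0.le (by positivity)
      exact pow_le_pow_right₀ (by norm_num) hp'
    push_cast
    linarith
  have hfin := corrU_of hn hk hin hd0 hdw hwL le_rfl hdB hLR hdiam hRn hLat hab hbF ha.1 ha.2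
    hout hD
  exact CorrU_mono (by rw [hM]; exact corN_mono hp') hfin

/-- **C1 from the bound in the grid with a dislocation.** -/
theorem targetC1_of (hTT : TTBound) : TargetC1 := by
  obtain ⟨A, C₂, hC₂, hTT⟩ := hTT
  obtain ⟨θ, hθ0, hθ1, hθ⟩ := pr_lat
  intro k₀' α hk₀' hα hα1
  -- reduction to `k₀ ≤ 1`
  set k₀ : ℝ := min k₀' 1 with hk₀d
  have hk₀ : 0 < k₀ := lt_min hk₀' one_pos
  have hk₀1 : k₀ ≤ 1 := min_le_right _ _
  set A' : ℝ := max (A : ℝ) 1 with hA'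
  have hA1 : 1 ≤ A' := le_max_right _ _
  obtain ⟨C₁, J₀, hC₁, hJ₀, hnum⟩ := numA hk₀ hα hα1 hθ0 hθ1 hA1
  refine ⟨max (4 + C₂ * C₁) (max J₀ 4 ^ α), fun m p => ?_⟩
  set M : ℕ := corN p with hM
  -- large `n`
  have hlim : ∀ q : ℕ, Tendsto (fun n : ℕ => (n : ℝ) / 2 ^ q) atTop atTop := fun q =>
    tendsto_natCast_atTop_atTop.atTop_div_const (by positivity)
  filter_upwards [eventually_gt_atTop 0, (hlim m).eventually_ge_atTop (4 * ((M : ℝ) + 6) + 20),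
    (hlim p).eventually_ge_atTop (16 * ((M : ℝ) + 6) + 4)] with n hn hn1 hn2 z j hj hz1 hz2 hz3 hz4
  have hj0 : 0 < j := by linarith
  have hM0 : (0 : ℝ) ≤ M := Nat.cast_nonneg _
  by_cases hjJ : j < max J₀ 4
  · -- the trivial bound
    refine (PercX60.prB_le_one _ _).trans ?_
    have h1 : 1 ≤ (max J₀ 4) ^ α * j ^ (-α) := by
      rw [Real.rpow_neg hj0.le, ← div_eq_mul_inv, one_le_div (by positivity)]
      exact Real.rpow_le_rpow hj0.le hjJ.le hα.le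
    refine h1.trans (mul_le_mul_of_nonneg_right (le_max_right _ _) (by positivity))
  · rw [not_lt, max_le_iff] at hjJ
    obtain ⟨hjJ, hj4⟩ := hjJ
    obtain ⟨N, hN, hN1, hN2, hN3, hN4⟩ := hnum j hjJ
    set ν : ℝ := (n : ℝ) / 2 ^ m with hν
    have hν20 : 20 ≤ ν := by linarith
    obtain ⟨R, L, w, hR, hLR, hwL, hAw, hNL, hw0, hdw⟩ :=
      numB (A := A') (ν := ν) (j := j) (N := N) hk₀ hk₀1 hA1 (by linarith) hN hN2 hN3
    set d : ℤ := ⌊3 * ν⌋ with hd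
    have hd1 : (d : ℝ) ≤ 3 * ν := Int.floor_le _
    have hd2 : 3 * ν < d + 1 := Int.lt_floor_add_one _
    have hd0 : (0 : ℝ) < d := by linarith
    have hAd : A * d < w := by
      have h1 : (A : ℝ) * d ≤ A' * d := mul_le_mul_of_nonneg_right (le_max_left _ _) hd0.le
      have h2 : (A : ℝ) * d < w := lt_of_le_of_lt h1 hAw
      exact_mod_cast h2
    have hdw' : d < w := by
      have h1 : (1 : ℝ) * d ≤ A' * d := mul_le_mul_of_nonneg_right hA1 hd0.le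
      have h2 : (d : ℝ) < w := by linarith
      exact_mod_cast h2
    have hMd : 4 * ((M : ℤ) + 6) ≤ d := by
      have h1 : ((4 * ((M : ℤ) + 6) : ℤ) : ℝ) ≤ 3 * ν := by push_cast; linarith
      exact Int.le_floor.2 h1
    set c : ℤ × ℤ := phiV (⌊(n : ℝ) * z.1 / 2 ^ m⌋, ⌊(n : ℝ) * z.2 / 2 ^ m⌋) with hc
    have hann := pr_annulus (A := A) (C := C₂) (θ := θ) hTT hθ (M := M) (N := N) c hMd hAd hdw' hwL
      hNL
    -- the window
    have hsub : RL c L w ⊆ Sn n := by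
      have hRc : R + 1 ≤ dB n (⌊(n : ℝ) * z.1 / 2 ^ m⌋, ⌊(n : ℝ) * z.2 / 2 ^ m⌋) := by
        have hνj : 4 * ν ≤ ν * j := by
          have := mul_le_mul_of_nonneg_left hj4 (show (0 : ℝ) ≤ ν by linarith)
          linarith
        have hkν : k₀ * ν * j ≤ ν * j := by
          have : k₀ * (ν * j) ≤ 1 * (ν * j) := mul_le_mul_of_nonneg_right hk₀1 (by positivity)
          linarith
        have key : ∀ a : ℤ, j ≤ a → j ≤ 2 ^ m - a →
            R + 1 ≤ ⌊(n : ℝ) * a / 2 ^ m⌋ ∧ ⌊(n : ℝ) * a / 2 ^ m⌋ ≤ n - (R + 1) := by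
          intro a h1 h2
          have h3 : (n : ℝ) * a / 2 ^ m = ν * a := by rw [hν]; ring
          have h4 : ν * j ≤ ν * a := mul_le_mul_of_nonneg_left h1 (by linarith)
          have h5 : ν * j ≤ ν * (2 ^ m - a) := mul_le_mul_of_nonneg_left h2 (by linarith)
          have h6 : ν * (2 ^ m - a) = n - ν * a := by rw [hν]; field_simp
          rw [h3]
          constructor
          · rw [Int.le_floor]; push_cast; linarith
          · have h7 := Int.floor_le (ν * (a : ℝ))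
            have h8 : ((⌊ν * (a : ℝ)⌋ : ℤ) : ℝ) ≤ ((n - (R + 1) : ℤ) : ℝ) := by
              push_cast; linarith
            exact_mod_cast h8
        exact le_dB (key _ hz1 hz2).1 (key _ hz1 hz2).2 (key _ hz3 hz4).1 (key _ hz3 hz4).2
      refine Finset.Subset.trans ?_ (BR_phiV_sub hRc)
      intro f hf
      rw [mem_RL] at hf
      rw [mem_BR, ← hc]
      have hdpos : 0 < d := by exact_mod_cast hd0
      omega
    have hmain : prB n {T | ∃ u, k₀' * n ≤ Metric.diam (clS T u) ∧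
        HitC p m (perK n T u : Set ℂ) z} ≤ pr (RL c L w)
          (Lat c d L L w ∪ {ω | shiftC c.1 c.2 ω ∈ CorrU L w d (8 * (M + 6)) M}) := by
      refine prB_le_pr (depOn_union (depOn_Lat c d L L w) (depOn_shift_CorrU c L w d _ M)) hsub ?_
      rintro ω ⟨u, hdiam, hH⟩
      have hdiam' : k₀ * n ≤ Metric.diam (clS (cfgE n ω) u) := by
        refine le_trans ?_ hdiam
        exact mul_le_mul_of_nonneg_right (min_le_left _ _) (Nat.cast_nonneg _)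
      exact mem_annulus_of_hit hk₀1 hk₀ hM hn hν20 hj4 hz1 hz2 hz3 hz4 hR hLR hwL hdw' hn2
        hdiam' hH
    have hjpow : 0 < j ^ (-α) := by positivity
    have hlast : C₂ * ((d : ℝ) / w) ^ (2 / 3 : ℝ) ≤ C₂ * (C₁ * j ^ (-α)) := by
      refine mul_le_mul_of_nonneg_left (le_trans ?_ hN4) hC₂.le
      have hw0' : (0 : ℝ) < w := by exact_mod_cast hw0
      exact Real.rpow_le_rpow (by positivity) hdw (by norm_num)
    calc _ ≤ 4 * θ ^ N + C₂ * ((d : ℝ) / w) ^ (2 / 3 : ℝ) := hmain.trans hann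
      _ ≤ (4 + C₂ * C₁) * j ^ (-α) := by nlinarith
      _ ≤ _ := mul_le_mul_of_nonneg_right (le_max_left _ _) hjpow.le

end Pool.Agent.PercS5
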