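import Pool.Agent.Lib.MP_6bd702_percw.RswC
import Pool.Agent.Lib.MP_6bd702_percd.Base

/-!
# Strands which run far in a thin strip are rare
-/

set_option autoImplicit false

namespace Pool.Agent.PercS5

open Finset Pool.Agent.Perc Pool.Agent.PercD

/-- The crossings of `N` consecutive squares of a horizontal strip. -/
def Blocks (col x y w : ℤ) (N : ℕ) : Set Cfg :=
  {ω | ∀ i : ℕ, i < N → ω ∈ LR col (x + 2 * w * i) (x + 2 * w * (i + 1)) (y - w) (y + w)}

theorem depOn_blocks (col x y w : ℤ) (N : ℕ) (hw : 0 < w) :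
    DepOn (RF x (x + 2 * w * N) (y - w) (y + w) : Set (ℤ × ℤ)) (Blocks col x y w N) := by
  intro ω ω' h
  refine forall₂_congr fun i hi => ?_
  refine depOn_LR _ _ _ _ _ ω ω' fun f hf => h f ?_
  rw [mem_RF'] at hf ⊢
  have h1 : (2 * w) * ((i : ℤ) + 1) ≤ (2 * w) * N :=
    mul_le_mul_of_nonneg_left (by exact_mod_cast hi) (by omega)
  have h2 : 0 ≤ (2 * w) * (i : ℤ) := by positivity
  omega

/-- The probability decays exponentially in the number of the squares. -/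
theorem pr_blocks : ∃ θ : ℝ, 0 ≤ θ ∧ θ < 1 ∧ ∀ (col x y w : ℤ) (N : ℕ), 0 < w →
    pr (RF x (x + 2 * w * N) (y - w) (y + w)) (Blocks col x y w N) ≤ θ ^ N := by
  obtain ⟨c, hc, h⟩ := rswF' 1
  refine ⟨max 0 (1 - c), le_max_left _ _, max_lt (by norm_num) (by linarith), ?_⟩
  intro col x y w N hw
  induction N with
  | zero => rw [pow_zero]; exact pr_le_one _ _
  | succ N ih =>
    have hLR : pr (RF (x + 2 * w * N) (x + 2 * w * (N + 1)) (y - w) (y + w))
        (LR col (x + 2 * w * N) (x + 2 * w * (N + 1)) (y - w) (y + w)) ≤ max 0 (1 - c) := by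
      have e : x + 2 * w * (N + 1) = x + 2 * w * N + 2 * w := by ring
      have h1 := h (col + 1) (x + 2 * w * N) (x + 2 * w * (N + 1)) (y - w) (y + w)
        (by rw [e]; omega) (by omega) (by rw [e]; push_cast; omega)
      have h2 := pr_compl (RF (x + 2 * w * N) (x + 2 * w * (N + 1)) (y - w) (y + w))
        (BT (col + 1) (x + 2 * w * N) (x + 2 * w * (N + 1)) (y - w) (y + w))
      have h3 : pr (RF (x + 2 * w * N) (x + 2 * w * (N + 1)) (y - w) (y + w))
          (LR col (x + 2 * w * N) (x + 2 * w * (N + 1)) (y - w) (y + w)) ≤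
          pr (RF (x + 2 * w * N) (x + 2 * w * (N + 1)) (y - w) (y + w))
          (BT (col + 1) (x + 2 * w * N) (x + 2 * w * (N + 1)) (y - w) (y + w))ᶜ := by
        refine pr_mono _ fun ω hω hω' => ?_
        exact not_lr_and_bt col (by rw [e]; omega) (by omega) ω ⟨hω, hω'⟩
      refine le_trans ?_ (le_max_right _ _)
      linarith
    have hdis : Disjoint (RF x (x + 2 * w * N) (y - w) (y + w))
        (RF (x + 2 * w * N) (x + 2 * w * (N + 1)) (y - w) (y + w)) := by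
      rw [Finset.disjoint_left]
      intro f hf hf'
      rw [Perc.mem_RF] at hf hf'
      omega
    have h0 : 0 ≤ (2 * w) * (N : ℤ) := by positivity
    have e : x + 2 * w * ((N + 1 : ℕ) : ℤ) = x + 2 * w * N + 2 * w := by push_cast; ring
    have e' : x + 2 * w * ((N : ℤ) + 1) = x + 2 * w * N + 2 * w := by ring
    have hmul := pr_indep (W := RF x (x + 2 * w * ((N + 1 : ℕ) : ℤ)) (y - w) (y + w))
      (depOn_blocks col x y w N hw)
      (depOn_LR col (x + 2 * w * N) (x + 2 * w * (N + 1)) (y - w) (y + w)) hdis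
      (fun f hf => by rw [Perc.mem_RF] at hf ⊢; omega)
      (fun f hf => by rw [Perc.mem_RF] at hf ⊢; omega)
    have hmono : pr (RF x (x + 2 * w * ((N + 1 : ℕ) : ℤ)) (y - w) (y + w))
        (Blocks col x y w (N + 1)) ≤ pr (RF x (x + 2 * w * ((N + 1 : ℕ) : ℤ)) (y - w) (y + w))
        (Blocks col x y w N ∩
          LR col (x + 2 * w * N) (x + 2 * w * (N + 1)) (y - w) (y + w)) := by
      refine pr_mono _ fun ω hω => ⟨fun i hi => hω i (by omega), hω N (by omega)⟩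
    refine hmono.trans ?_
    rw [hmul, pow_succ]
    exact mul_le_mul ih hLR (pr_nonneg _ _) (by positivity)

/-- A long horizontal connection in the strip. -/
def Long (x y w : ℤ) (N : ℕ) (F : Set (ℤ × ℤ)) : Set Cfg :=
  {ω | ∃ u v : ℤ × ℤ, u.1 ≤ x ∧ x + 2 * w * N ≤ v.1 ∧ Conn ω F u v}

theorem long_sub {x y w : ℤ} {N : ℕ} {F : Set (ℤ × ℤ)} (hw : 0 < w)
    (hF : ∀ f ∈ F, y - w ≤ f.2 ∧ f.2 < y + w) :
    Long x y w N F ⊆ Blocks 0 x y w N ∪ Blocks 1 x y w N := by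
  rintro ω ⟨u, v, hu, hv, h⟩
  have key : ∀ col : ℤ, (u.1 + u.2 - col) % 2 = 0 → ω ∈ Blocks col x y w N := by
    intro col hcol i hi
    have h1 : (2 * w) * ((i : ℤ) + 1) ≤ (2 * w) * N :=
      mul_le_mul_of_nonneg_left (by exact_mod_cast hi) (by omega)
    have h2 : 0 ≤ (2 * w) * (i : ℤ) := by positivity
    have e : x + 2 * w * ((i : ℤ) + 1) = x + 2 * w * i + 2 * w := by ring
    exact lr_of_conn hF (by rw [e]; omega) hcol (by omega) (by omega) h
  rcases Int.emod_two_eq_zero_or_one (u.1 + u.2) with h0 | h0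
  · exact Or.inl (key 0 (by omega))
  · exact Or.inr (key 1 (by omega))

theorem pr_long {θ : ℝ} (hθ : ∀ (col x y w : ℤ) (N : ℕ), 0 < w →
    pr (RF x (x + 2 * w * N) (y - w) (y + w)) (Blocks col x y w N) ≤ θ ^ N) {x y w : ℤ} {N : ℕ}
    (hw : 0 < w) {F : Set (ℤ × ℤ)} (hF : ∀ f ∈ F, y - w ≤ f.2 ∧ f.2 < y + w)
    {W : Finset (ℤ × ℤ)} (hW : RF x (x + 2 * w * N) (y - w) (y + w) ⊆ W) :
    pr W (Long x y w N F) ≤ 2 * θ ^ N := by
  refine (pr_mono _ (fun ω hω => long_sub hw hF hω)).trans ?_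
  refine (pr_union_le _ _ _).trans ?_
  rw [pr_eq_of_depOn (depOn_blocks 0 x y w N hw) hW, pr_eq_of_depOn (depOn_blocks 1 x y w N hw) hW]
  linarith [hθ 0 x y w N hw, hθ 1 x y w N hw]

/-- The rectangle with centre `c` and half sides `L`, `w`. -/
noncomputable def RL (c : ℤ × ℤ) (L w : ℤ) : Finset (ℤ × ℤ) :=
  RF (c.1 - L) (c.1 + L) (c.2 - w) (c.2 + w)

theorem mem_RL {c : ℤ × ℤ} {L w : ℤ} {f : ℤ × ℤ} :
    f ∈ RL c L w ↔ c.1 - L ≤ f.1 ∧ f.1 < c.1 + L ∧ c.2 - w ≤ f.2 ∧ f.2 < c.2 + w := by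
  unfold RL
  exact Perc.mem_RF

/-- The lateral event: the strand in the rectangle of some unit edge of the inner box of radius `d`
comes to distance at least `X` from the centre in the horizontal direction. -/
def Lat (c : ℤ × ℤ) (d X L w : ℤ) : Set Cfg :=
  {ω | ∃ e, InE c d e ∧ ∃ a ∈ MM ω (RL c L w) e, c.1 + X ≤ (ua a).1 ∨ (ub a).1 ≤ c.1 - X}

/-- The lateral event is rare. -/
theorem pr_lat : ∃ θ : ℝ, 0 < θ ∧ θ < 1 ∧ ∀ (c : ℤ × ℤ) (d X L w : ℤ) (N : ℕ), 0 < w →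
    d + 2 * w * N ≤ X → X ≤ L → 0 ≤ d → pr (RL c L w) (Lat c d X L w) ≤ 4 * θ ^ N := by
  obtain ⟨θ₀, hθ0, hθ1, hθ⟩ := pr_blocks
  have hθ' : ∀ (col x y w : ℤ) (N : ℕ), 0 < w →
      pr (RF x (x + 2 * w * N) (y - w) (y + w)) (Blocks col x y w N) ≤ (max θ₀ (1 / 2)) ^ N := by
    intro col x y w N hw
    exact (hθ col x y w N hw).trans (pow_le_pow_left₀ hθ0 (le_max_left _ _) N)
  refine ⟨max θ₀ (1 / 2), by positivity, max_lt hθ1 (by norm_num), ?_⟩
  intro c d X L w N hw hX hL hd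
  have h0 : 0 ≤ (2 * w) * (N : ℤ) := by positivity
  have hF : ∀ f ∈ (RL c L w : Set (ℤ × ℤ)), c.2 - w ≤ f.2 ∧ f.2 < c.2 + w := by
    intro f hf
    rw [mem_coe, mem_RL] at hf
    omega
  have h1 := pr_long hθ' (x := c.1 + d) (y := c.2) (N := N) hw hF (W := RL c L w) (fun f hf => by
    rw [Perc.mem_RF] at hf; rw [mem_RL]; omega)
  have h2 := pr_long hθ' (x := c.1 - d - 2 * w * N) (y := c.2) (N := N) hw hF (W := RL c L w)
    (fun f hf => by rw [Perc.mem_RF] at hf; rw [mem_RL]; omega)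
  refine (pr_mono _ (B := Long (c.1 + d) c.2 w N (RL c L w) ∪
    Long (c.1 - d - 2 * w * N) c.2 w N (RL c L w)) ?_).trans ((pr_union_le _ _ _).trans (by linarith))
  rintro ω ⟨e, he, a, ha, hlat⟩
  obtain ⟨p, q, hj, -, hc⟩ := MM_conn (Or.inl ⟨rfl, rfl⟩ : Joins e (ua e) (ub e)) ha
  have hc' := hc.mono SS_sub
  have h3 : (ua a).1 ≤ (ub a).1 := by
    obtain ⟨x, y, _ | _⟩ := a <;> simp [ua, ub]
  have h4 : (ua a).1 ≤ p.1 ∧ p.1 ≤ (ub a).1 := by
    rcases hj with ⟨rfl, -⟩ | ⟨rfl, -⟩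
    · exact ⟨le_rfl, h3⟩
    · exact ⟨h3, le_rfl⟩
  have h5 := he.1
  unfold InR at h5
  rcases hlat with hl | hl
  · exact Or.inl ⟨ua e, p, by omega, by omega, hc'⟩
  · exact Or.inr ⟨p, ua e, by omega, by omega, hc'.symm⟩

end Pool.Agent.PercS5
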