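import Pool.Agent.Lib.MP_6bd702_pr_h60.Faces
import Pool.Agent.Lib.MP_6bd702_perc.BoxDefs

/-!
# Lattice sets in the plane: the unbounded component of the complement

A set `K` of vertices and a set `T` of edges between them give a closed subset of the plane. The
components of its complement are described by the faces of the square lattice, joined across the
edges which are not in `T`.
-/

set_option autoImplicit false

open Set

namespace Pool.Agent.PercC

open Pool.Agent.MP_6bd702.H23 Pool.Agent.MP_6bd702.H60 Pool.Agent.Perc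

/-- An edge as a closed segment of the plane. -/
def seg (e : Ed) : Set ℂ := segment ℝ (toC (ea e)) (toC (eb e))

/-- The closed set of the plane given by the vertices `K` and the edges `T`. -/
def carrier (K : Set (ℤ × ℤ)) (T : Set Ed) : Set ℂ := toC '' K ∪ ⋃ e ∈ T, seg e

/-- The (half-open) face of a point. -/
noncomputable def fl (x : ℂ) : ℤ × ℤ := (⌊x.re⌋, ⌊x.im⌋)

@[simp] theorem toC_re (v : ℤ × ℤ) : (toC v).re = v.1 := by simp [toC]
@[simp] theorem toC_im (v : ℤ × ℤ) : (toC v).im = v.2 := by simp [toC]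

/-- The points of a horizontal edge. -/
theorem mem_seg_false {a b : ℤ} {x : ℂ} :
    x ∈ seg (a, b, false) ↔ x.im = b ∧ (a : ℝ) ≤ x.re ∧ x.re ≤ a + 1 := by
  unfold seg
  rw [segment_eq_image']
  simp only [ea_mk, eb_false, mem_image, mem_Icc]
  constructor
  · rintro ⟨t, ⟨h1, h2⟩, rfl⟩
    simp
    constructor <;> linarith
  · rintro ⟨h1, h2, h3⟩
    refine ⟨x.re - a, ⟨by linarith, by linarith⟩, Complex.ext ?_ ?_⟩
    · simp
    · simp [h1]

/-- The points of a vertical edge. -/
theorem mem_seg_true {a b : ℤ} {x : ℂ} :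
    x ∈ seg (a, b, true) ↔ x.re = a ∧ (b : ℝ) ≤ x.im ∧ x.im ≤ b + 1 := by
  unfold seg
  rw [segment_eq_image']
  simp only [ea_mk, eb_true, mem_image, mem_Icc]
  constructor
  · rintro ⟨t, ⟨h1, h2⟩, rfl⟩
    simp
    constructor <;> linarith
  · rintro ⟨h1, h2, h3⟩
    refine ⟨x.im - b, ⟨by linarith, by linarith⟩, Complex.ext ?_ ?_⟩
    · simp [h1]
    · simp

theorem seg_sub_carrier {K : Set (ℤ × ℤ)} {T : Set Ed} {e : Ed} (he : e ∈ T) :
    seg e ⊆ carrier K T := fun _ hx => Or.inr (mem_iUnion₂.2 ⟨e, he, hx⟩)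

theorem fstep_of_not {K : Set (ℤ × ℤ)} {T : Set Ed} {p : ℂ} (hp : p ∉ carrier K T) {e : Ed}
    (he : p ∈ seg e) : FStep T (f2 e) (f1 e) :=
  ⟨e, fun h => hp (seg_sub_carrier h he), Or.inr ⟨rfl, rfl⟩⟩

/-- Off the set the (class of the) face is locally constant. -/
theorem eventually_fconn {K : Set (ℤ × ℤ)} {T : Set Ed} {p : ℂ} (hp : p ∉ carrier K T) :
    ∀ᶠ y in nhds p, FConn T (fl p) (fl y) := by
  have hc0 : Continuous fun y : ℂ => y.re := by fun_prop
  have hc1 : Continuous fun y : ℂ => y.im := by fun_prop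
  set i := ⌊p.re⌋ with hi
  set j := ⌊p.im⌋ with hj
  have hi1 : (i : ℝ) ≤ p.re := Int.floor_le _
  have hi2 : p.re < i + 1 := Int.lt_floor_add_one _
  have hj1 : (j : ℝ) ≤ p.im := Int.floor_le _
  have hj2 : p.im < j + 1 := Int.lt_floor_add_one _
  have e1 : ∀ᶠ y : ℂ in nhds p, y.re < i + 1 := hc0.continuousAt.eventually_lt_const hi2
  have e2 : ∀ᶠ y : ℂ in nhds p, y.im < j + 1 := hc1.continuousAt.eventually_lt_const hj2
  have e3 : ∀ᶠ y : ℂ in nhds p, (i : ℝ) - 1 < y.re :=
    hc0.continuousAt.eventually_const_lt (by linarith)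
  have e4 : ∀ᶠ y : ℂ in nhds p, (j : ℝ) - 1 < y.im :=
    hc1.continuousAt.eventually_const_lt (by linarith)
  have e5 : ∀ᶠ y : ℂ in nhds p, (i : ℝ) < p.re → (i : ℝ) < y.re := by
    by_cases h : (i : ℝ) < p.re
    · filter_upwards [hc0.continuousAt.eventually_const_lt h] with y hy _ using hy
    · exact Filter.Eventually.of_forall fun y h' => absurd h' h
  have e6 : ∀ᶠ y : ℂ in nhds p, (j : ℝ) < p.im → (j : ℝ) < y.im := by
    by_cases h : (j : ℝ) < p.im
    · filter_upwards [hc1.continuousAt.eventually_const_lt h] with y hy _ using hy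
    · exact Filter.Eventually.of_forall fun y h' => absurd h' h
  filter_upwards [e1, e2, e3, e4, e5, e6] with y h1 h2 h3 h4 h5 h6
  have hA : (⌊y.re⌋ = i) ∨ (⌊y.re⌋ = i - 1 ∧ p.re = i) := by
    by_cases h : (i : ℝ) ≤ y.re
    · exact Or.inl (Int.floor_eq_iff.2 ⟨h, h1⟩)
    · refine Or.inr ⟨Int.floor_eq_iff.2 ⟨by push_cast; linarith, by push_cast; linarith⟩, ?_⟩
      by_contra hne
      exact h (h5 (lt_of_le_of_ne hi1 (Ne.symm hne))).le
  have hB : (⌊y.im⌋ = j) ∨ (⌊y.im⌋ = j - 1 ∧ p.im = j) := by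
    by_cases h : (j : ℝ) ≤ y.im
    · exact Or.inl (Int.floor_eq_iff.2 ⟨h, h2⟩)
    · refine Or.inr ⟨Int.floor_eq_iff.2 ⟨by push_cast; linarith, by push_cast; linarith⟩, ?_⟩
      by_contra hne
      exact h (h6 (lt_of_le_of_ne hj1 (Ne.symm hne))).le
  have hfp : fl p = (i, j) := rfl
  have hfy : fl y = (⌊y.re⌋, ⌊y.im⌋) := rfl
  rw [hfp, hfy]
  rcases hA with hA | ⟨hA, hA'⟩ <;> rcases hB with hB | ⟨hB, hB'⟩ <;> rw [hA, hB]
  · exact .refl
  · have h7 := fstep_of_not hp (e := (i, j, false)) (mem_seg_false.2 ⟨hB', hi1, hi2.le⟩)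
    exact .single h7
  · have h7 := fstep_of_not hp (e := (i, j, true)) (mem_seg_true.2 ⟨hA', hj1, hj2.le⟩)
    exact .single h7
  · have h7 := fstep_of_not hp (e := (i, j, true)) (mem_seg_true.2 ⟨hA', hj1, hj2.le⟩)
    have h8 := fstep_of_not hp (e := (i - 1, j, false)) (mem_seg_false.2
      ⟨hB', by push_cast; linarith, by push_cast; linarith⟩)
    exact .head h7 (.single h8)

/-- The component of a point of the complement. -/
theorem fconn_of_mem {K : Set (ℤ × ℤ)} {T : Set Ed} {x y : ℂ} (hx : x ∉ carrier K T)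
    (hy : y ∈ connectedComponentIn (carrier K T)ᶜ x) : FConn T (fl x) (fl y) := by
  have hs := isPreconnected_connectedComponentIn (x := x) (F := (carrier K T)ᶜ)
  have hsub := hs.subset_left_of_subset_union
    (u := {y | ∀ᶠ z in nhds y, FConn T (fl x) (fl z)})
    (v := {y | ∀ᶠ z in nhds y, ¬ FConn T (fl x) (fl z)})
    isOpen_setOfPred_eventually_nhds isOpen_setOfPred_eventually_nhds
    (by
      rw [Set.disjoint_left]
      intro y h1 h2
      have h1' : ∀ᶠ z in nhds y, FConn T (fl x) (fl z) := h1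
      have h2' : ∀ᶠ z in nhds y, ¬ FConn T (fl x) (fl z) := h2
      exact h2'.self_of_nhds h1'.self_of_nhds)
    (by
      intro y hy
      have hyS : y ∉ carrier K T := connectedComponentIn_subset _ _ hy
      by_cases h : FConn T (fl x) (fl y)
      · left
        filter_upwards [eventually_fconn hyS] with z hz using h.trans hz
      · right
        filter_upwards [eventually_fconn hyS] with z hz using fun h' => h (h'.trans hz.symm))
    ⟨x, mem_connectedComponentIn hx, by
      filter_upwards [eventually_fconn hx] with z hz using hz⟩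
  have h3 : ∀ᶠ z in nhds y, FConn T (fl x) (fl z) := hsub hy
  exact h3.self_of_nhds

@[simp] theorem cen_zero (f : ℤ × ℤ) : (ctr f).re = f.1 + 1 / 2 := by simp [ctr]
@[simp] theorem cen_one (f : ℤ × ℤ) : (ctr f).im = f.2 + 1 / 2 := by simp [ctr]

@[simp] theorem fl_ctr (f : ℤ × ℤ) : fl (ctr f) = f := by
  obtain ⟨a, b⟩ := f
  simp only [fl, cen_zero, cen_one, Prod.mk.injEq]
  constructor <;> rw [Int.floor_eq_iff] <;> constructor <;> linarith

/-- The open face. -/
def OF (f : ℤ × ℤ) : Set ℂ :=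
  {x | (f.1 : ℝ) < x.re ∧ x.re < f.1 + 1 ∧ (f.2 : ℝ) < x.im ∧ x.im < f.2 + 1}

theorem cen_mem (f : ℤ × ℤ) : ctr f ∈ OF f := by
  simp only [OF, mem_ofPred_eq, cen_zero, cen_one]
  refine ⟨?_, ?_, ?_, ?_⟩ <;> linarith

theorem fl_of_mem {f : ℤ × ℤ} {x : ℂ} (h : x ∈ OF f) : fl x = f := by
  obtain ⟨a, b⟩ := f
  obtain ⟨h1, h2, h3, h4⟩ := h
  simp only [fl, Prod.mk.injEq]
  exact ⟨Int.floor_eq_iff.2 ⟨h1.le, h2⟩, Int.floor_eq_iff.2 ⟨h3.le, h4⟩⟩

theorem convex_OF (f : ℤ × ℤ) : Convex ℝ (OF f) := by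
  intro x hx y hy a b ha hb hab
  obtain ⟨h1, h2, h3, h4⟩ := hx
  obtain ⟨k1, k2, k3, k4⟩ := hy
  simp only [OF, mem_ofPred_eq, Complex.add_re, Complex.add_im, Complex.smul_re, Complex.smul_im,
    smul_eq_mul]
  rcases ha.eq_or_lt with rfl | ha'
  · have hb1 : b = 1 := by linarith
    subst hb1
    simp only [zero_mul, one_mul, zero_add]
    exact ⟨k1, k2, k3, k4⟩
  · have hb1 : b = 1 - a := by linarith
    subst hb1
    refine ⟨?_, ?_, ?_, ?_⟩ <;> nlinarith

/-- A point with no integer coordinate is off the set. -/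
theorem OF_off {K : Set (ℤ × ℤ)} {T : Set Ed} (f : ℤ × ℤ) : OF f ⊆ (carrier K T)ᶜ := by
  rintro x ⟨h1, h2, h3, h4⟩ hx
  have hno : ∀ a b : ℤ, (b : ℝ) < a → (a : ℝ) < b + 1 → False := by
    intro a b h5 h6
    have h7 : b < a := by exact_mod_cast h5
    have h8 : a < b + 1 := by exact_mod_cast h6
    omega
  rcases hx with ⟨v, -, rfl⟩ | hx
  · rw [toC_re] at h1 h2
    exact hno v.1 f.1 h1 h2
  · obtain ⟨e, -, hx⟩ := mem_iUnion₂.1 hx
    obtain ⟨a, b, t⟩ := e
    cases t with
    | false =>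
      obtain ⟨h5, -, -⟩ := mem_seg_false.1 hx
      rw [h5] at h3 h4
      exact hno b f.2 h3 h4
    | true =>
      obtain ⟨h5, -, -⟩ := mem_seg_true.1 hx
      rw [h5] at h1 h2
      exact hno a f.1 h1 h2

/-- All points of an open face are in the component of its centre. -/
theorem mem_comp_cen {K : Set (ℤ × ℤ)} {T : Set Ed} {f : ℤ × ℤ} {x : ℂ} (hx : x ∈ OF f) :
    ctr f ∈ connectedComponentIn (carrier K T)ᶜ x :=
  (convex_OF f).isPreconnected.subset_connectedComponentIn hx (OF_off f) (cen_mem f)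

theorem cen_step_off {K : Set (ℤ × ℤ)} {T : Set Ed} {e : Ed} (he : e ∉ T) :
    segment ℝ (ctr (f1 e)) (ctr (f2 e)) ⊆ (carrier K T)ᶜ := by
  rw [segment_eq_image']
  rintro x ⟨t, ⟨ht1, ht2⟩, rfl⟩ hx
  have hno : ∀ a b : ℤ, (b : ℝ) < a → (a : ℝ) < b + 1 → False := by
    intro a b h5 h6
    have h7 : b < a := by exact_mod_cast h5
    have h8 : a < b + 1 := by exact_mod_cast h6
    omega
  have heq : ∀ a b : ℤ, (b : ℝ) - 1 < a → (a : ℝ) < b + 1 → a = b := by
    intro a b h5 h6
    have h7 : b - 1 < a := by exact_mod_cast h5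
    have h8 : a < b + 1 := by exact_mod_cast h6
    omega
  obtain ⟨a, b, s⟩ := e
  cases s with
  | false =>
    have hf1 : f1 (a, b, false) = (a, b - 1) := rfl
    have hf2 : f2 (a, b, false) = (a, b) := rfl
    rw [hf1, hf2] at hx
    rcases hx with ⟨v, -, hv⟩ | hx
    · have h1 := congrArg (fun z : ℂ => z.re) hv
      simp at h1
      exact hno v.1 a (by linarith) (by linarith)
    · obtain ⟨e', he', hx⟩ := mem_iUnion₂.1 hx
      obtain ⟨a', b', s'⟩ := e'
      cases s' with
      | false =>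
        obtain ⟨h5, h6, h7⟩ := mem_seg_false.1 hx
        simp at h5 h6 h7
        have hb : b' = b := heq b' b (by linarith) (by linarith)
        have ha : a' = a := by
          refine heq a' a (by linarith) (by linarith)
        subst hb ha
        exact he he'
      | true =>
        obtain ⟨h5, h6, h7⟩ := mem_seg_true.1 hx
        simp at h5
        exact hno a' a (by linarith) (by linarith)
  | true =>
    have hf1 : f1 (a, b, true) = (a - 1, b) := rfl
    have hf2 : f2 (a, b, true) = (a, b) := rfl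
    rw [hf1, hf2] at hx
    rcases hx with ⟨v, -, hv⟩ | hx
    · have h1 := congrArg (fun z : ℂ => z.im) hv
      simp at h1
      exact hno v.2 b (by linarith) (by linarith)
    · obtain ⟨e', he', hx⟩ := mem_iUnion₂.1 hx
      obtain ⟨a', b', s'⟩ := e'
      cases s' with
      | true =>
        obtain ⟨h5, h6, h7⟩ := mem_seg_true.1 hx
        simp at h5 h6 h7
        have hb : a' = a := heq a' a (by linarith) (by linarith)
        have ha : b' = b := by
          refine heq b' b (by linarith) (by linarith)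
        subst hb ha
        exact he he'
      | false =>
        obtain ⟨h5, h6, h7⟩ := mem_seg_false.1 hx
        simp at h5
        exact hno b' b (by linarith) (by linarith)

theorem cen_mem_of_fstep {K : Set (ℤ × ℤ)} {T : Set Ed} {f g : ℤ × ℤ} (h : FStep T f g) :
    ctr g ∈ connectedComponentIn (carrier K T)ᶜ (ctr f) := by
  obtain ⟨e, he, ⟨rfl, rfl⟩ | ⟨rfl, rfl⟩⟩ := h
  · exact (convex_segment _ _).isPreconnected.subset_connectedComponentIn
      (left_mem_segment _ _ _) (cen_step_off he) (right_mem_segment _ _ _)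
  · exact (convex_segment _ _).isPreconnected.subset_connectedComponentIn
      (right_mem_segment _ _ _) (cen_step_off he) (left_mem_segment _ _ _)

theorem cen_mem_of_fconn {K : Set (ℤ × ℤ)} {T : Set Ed} {f g : ℤ × ℤ} (h : FConn T f g) :
    ctr g ∈ connectedComponentIn (carrier K T)ᶜ (ctr f) := by
  unfold FConn at h
  induction h with
  | refl => exact mem_connectedComponentIn (OF_off f (cen_mem f))
  | tail _ h2 ih =>
    rw [connectedComponentIn_eq ih]
    exact cen_mem_of_fstep h2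

theorem dist_cen_fl (x : ℂ) : dist x (ctr (fl x)) ≤ 1 := by
  rw [Complex.dist_eq]
  refine (Complex.norm_le_abs_re_add_abs_im _).trans ?_
  simp only [Complex.sub_re, Complex.sub_im, cen_zero, cen_one, fl]
  have h1 : (⌊x.re⌋ : ℝ) ≤ x.re := Int.floor_le _
  have h2 : x.re < ⌊x.re⌋ + 1 := Int.lt_floor_add_one _
  have h3 : (⌊x.im⌋ : ℝ) ≤ x.im := Int.floor_le _
  have h4 : x.im < ⌊x.im⌋ + 1 := Int.lt_floor_add_one _
  have h5 : |x.re - (⌊x.re⌋ + 1 / 2)| ≤ 1 / 2 := abs_le.2 ⟨by linarith, by linarith⟩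
  have h6 : |x.im - (⌊x.im⌋ + 1 / 2)| ≤ 1 / 2 := abs_le.2 ⟨by linarith, by linarith⟩
  linarith

/-- A face is joined to infinitely many faces iff its component is unbounded. -/
theorem mem_Out_iff {K : Set (ℤ × ℤ)} {T : Set Ed} {f : ℤ × ℤ} :
    f ∈ Out T ↔ ¬ Bornology.IsBounded (connectedComponentIn (carrier K T)ᶜ (ctr f)) := by
  constructor
  · intro hf hb
    apply hf
    obtain ⟨R, hR⟩ := hb.exists_norm_le
    obtain ⟨N, hN⟩ := exists_nat_ge R
    refine (Set.Finite.prod (Set.finite_Icc (-(N : ℤ) - 1) (N + 1))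
      (Set.finite_Icc (-(N : ℤ) - 1) (N + 1))).subset ?_
    intro g hg
    have h1 := hR _ (cen_mem_of_fconn hg)
    have h2 := (Complex.abs_re_le_norm (ctr g)).trans (h1.trans hN)
    have h3 := (Complex.abs_im_le_norm (ctr g)).trans (h1.trans hN)
    rw [cen_zero, abs_le] at h2
    rw [cen_one, abs_le] at h3
    have h4 : (-(N : ℤ) - 1 : ℝ) ≤ g.1 := by push_cast; linarith
    have h5 : (g.1 : ℝ) ≤ (N : ℤ) + 1 := by push_cast; linarith
    have h6 : (-(N : ℤ) - 1 : ℝ) ≤ g.2 := by push_cast; linarith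
    have h7 : (g.2 : ℝ) ≤ (N : ℤ) + 1 := by push_cast; linarith
    exact ⟨⟨by exact_mod_cast h4, by exact_mod_cast h5⟩, ⟨by exact_mod_cast h6,
      by exact_mod_cast h7⟩⟩
  · intro hb hfin
    apply hb
    have hfin' : {g | FConn T f g}.Finite := hfin
    have h1 : Bornology.IsBounded (⋃ g ∈ {g | FConn T f g}, Metric.closedBall (ctr g) 1) :=
      (Bornology.isBounded_biUnion hfin').2 fun g _ => Metric.isBounded_closedBall
    refine h1.subset fun y hy => ?_
    have h2 := fconn_of_mem (OF_off f (cen_mem f)) hy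
    rw [fl_ctr] at h2
    exact mem_iUnion₂.2 ⟨fl y, h2, dist_cen_fl y⟩

end Pool.Agent.PercC
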