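import Pool.Agent.Lib.MP_6bd702_pr_h60.Outer
import Pool.Agent.Lib.MP_6bd702_pr_h60.PlaneC

/-!
# The outer perimeter and the outer interface of a cluster
-/

set_option autoImplicit false

open Set

namespace Pool.Agent.PercO

open Pool.Agent.MP_6bd702.H23 Pool.Agent.MP_6bd702.H60 Pool.Agent.PercU Pool.Agent.Perc

variable {T : Finset Edg} {u : ℤ × ℤ} {n : ℕ}

/-! ### Dictionary -/

theorem hd_eq (e : Edg) : hd e = eb e := rfl

theorem tl_eq (e : Edg) : tl e = ea e := rfl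

theorem adjT_iff {u v : ℤ × ℤ} : AdjT T u v ↔ Step (T : Set Ed) univ u v := by
  unfold AdjT Step
  simp only [mem_univ, true_and, hd_eq, tl_eq, Finset.mem_coe]

theorem clV_eq : clV T u = Kc (T : Set Ed) u := by
  ext w
  change Relation.ReflTransGen (AdjT T) u w ↔ Relation.ReflTransGen (Step (T : Set Ed) univ) u w
  have : AdjT T = Step (T : Set Ed) univ := by
    funext a b
    exact propext adjT_iff
  rw [this]

theorem clS_eq : clS T u = PercC.carrier (Kc (T : Set Ed) u) (Tc (T : Set Ed) u) := by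
  unfold clS PercC.carrier PercC.seg
  rw [clV_eq]
  congr 1
  ext z
  simp only [mem_iUnion, exists_prop, Tc, mem_ofPred_eq, Finset.mem_coe, Kc, hd_eq, tl_eq]
  constructor
  · rintro ⟨e, h1, h2, h3⟩
    exact ⟨e, ⟨h1, h2⟩, h3⟩
  · rintro ⟨e, ⟨h1, h2⟩, h3⟩
    exact ⟨e, h1, h2, h3⟩

theorem outer_iff {f : ℤ × ℤ} : Outer T u f ↔ f ∈ Out (Tc (T : Set Ed) u) := by
  unfold Outer
  rw [clS_eq]
  exact (PercC.mem_Out_iff (K := Kc (T : Set Ed) u)).symm

theorem mem_boxE' {e : Edg} : e ∈ boxE n ↔ ea e ∈ Box n ∧ eb e ∈ Box n := by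
  unfold boxE Box
  simp only [Finset.mem_filter, Finset.mem_product, Finset.mem_univ, and_true, ea, hd_eq]

theorem boxE_sub (hT : T ⊆ boxE n) : (T : Set Ed) ⊆ (EW 0 (n : ℤ) 0 n : Set Ed) := by
  intro e he
  have h := mem_boxE'.1 (hT he)
  simp only [Box, Finset.mem_product, Finset.mem_Icc] at h
  rw [Finset.mem_coe, mem_EW]
  exact ⟨⟨h.1.1.1, h.1.1.2, h.1.2.1, h.1.2.2⟩, ⟨h.2.1.1, h.2.1.2, h.2.2.1, h.2.2.2⟩⟩

theorem mem_Oc {k : Cor} : k ∈ Oc (T : Set Ed) u ↔ vtx k ∈ clV T u ∧ Outer T u (fce k) := by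
  rw [clV_eq, outer_iff]
  rfl

/-! ### The outer interface -/

/-- All outer corners of a cluster are on one interface. -/
theorem outer_same (hT : T ⊆ boxE n) {k k' : Cor} (h1 : vtx k ∈ clV T u)
    (h2 : Outer T u (fce k)) (h1' : vtx k' ∈ clV T u) (h2' : Outer T u (fce k')) :
    k' ∈ Orb (T : Set Ed) k := by
  obtain ⟨j, hj⟩ := outer_orbit (boxE_sub hT) (mem_Oc.2 ⟨h1, h2⟩) (mem_Oc.2 ⟨h1', h2'⟩)
  refine ⟨j, ?_⟩
  rw [zpow_natCast, iterate_nxt]
  exact hj

theorem nxt_mem_Oc {ω : Set Ed} {v : ℤ × ℤ} {k : Cor} (hk : k ∈ Oc ω v) : nxt ω k ∈ Oc ω v := by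
  refine ⟨vtx_nxt_mem hk.1, ?_⟩
  by_cases h : qry k ∈ ω
  · rw [nxt_of_mem h, fce_adv]; exact hk.2
  · rw [nxt_of_notMem h]
    exact (fce_rot_out hk fun h' => h h'.1).2

/-- The outer corners are closed under the interface. -/
theorem outer_nxt {k : Cor} (h1 : vtx k ∈ clV T u) (h2 : Outer T u (fce k)) :
    vtx (nxt (T : Set Ed) k) ∈ clV T u ∧ Outer T u (fce (nxt (T : Set Ed) k)) :=
  mem_Oc.1 (nxt_mem_Oc (mem_Oc.2 ⟨h1, h2⟩))

theorem orb_sub_Oc {ω : Set Ed} {n : ℤ} {v : ℤ × ℤ} (hω : ω ⊆ EW 0 n 0 n) {k : Cor}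
    (hk : k ∈ Oc ω v) : Orb ω k ⊆ Oc ω v := by
  intro k' hk'
  obtain ⟨j, rfl⟩ := exists_nat_of_orb hk.1 (finite_Kc hω) hk'
  clear hk'
  induction j with
  | zero => exact hk
  | succ j ih =>
    rw [Function.iterate_succ_apply']
    exact nxt_mem_Oc ih

/-- The outer corners are an orbit. -/
theorem orb_eq_Oc {ω : Set Ed} {n : ℤ} {v : ℤ × ℤ} (hω : ω ⊆ EW 0 n 0 n) {k : Cor}
    (hk : k ∈ Oc ω v) : Orb ω k = Oc ω v := by
  refine (orb_sub_Oc hω hk).antisymm fun k' hk' => ?_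
  obtain ⟨j, hj⟩ := outer_orbit hω hk hk'
  refine ⟨j, ?_⟩
  rw [zpow_natCast, iterate_nxt]
  exact hj

/-! ### Extreme vertices -/

theorem outer_left {v : ℤ × ℤ} (h : ∀ w ∈ clV T u, v.1 ≤ w.1) (y : ℤ) :
    Outer T u (v.1 - 1, y) := by
  rw [outer_iff]
  refine out_left fun e he => ?_
  have := h (ea e) (by rw [clV_eq]; exact ea_mem he)
  simp only [ea] at this
  omega

theorem outer_right {v : ℤ × ℤ} (h : ∀ w ∈ clV T u, w.1 ≤ v.1) (y : ℤ) :
    Outer T u (v.1, y) := by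
  rw [outer_iff]
  refine out_right fun e he => ?_
  have := h (ea e) (by rw [clV_eq]; exact ea_mem he)
  simp only [ea] at this
  omega

theorem outer_bot {v : ℤ × ℤ} (h : ∀ w ∈ clV T u, v.2 ≤ w.2) (x : ℤ) :
    Outer T u (x, v.2 - 1) := by
  rw [outer_iff]
  refine out_bot fun e he => ?_
  have := h (ea e) (by rw [clV_eq]; exact ea_mem he)
  simp only [ea] at this
  omega

theorem outer_top {v : ℤ × ℤ} (h : ∀ w ∈ clV T u, w.2 ≤ v.2) (x : ℤ) :
    Outer T u (x, v.2) := by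
  rw [outer_iff]
  refine out_top fun e he => ?_
  have := h (ea e) (by rw [clV_eq]; exact ea_mem he)
  simp only [ea] at this
  omega

/-! ### The perimeter -/

theorem side_true (e : Edg) : side e true = f2 e := rfl

theorem side_false (e : Edg) : side e false = f1 e := rfl

theorem c1_ne_c2 (e : Ed) : c1 e ≠ c2 e := by
  obtain ⟨x, y, _ | _⟩ := e <;> simp [c1, c2]

theorem perim_le (hT : T ⊆ boxE n) : perim T u ≤ (Oc (T : Set Ed) u).ncard := by
  classical
  unfold perim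
  rw [← Set.ncard_coe_finset]
  refine Set.ncard_le_ncard_of_injOn (fun x : Edg × Bool => if x.2 then c2 x.1 else c1 x.1) ?_ ?_
    (finite_Oc (boxE_sub hT))
  · rintro ⟨e, b⟩ hx
    rw [Finset.mem_coe, Finset.mem_filter, Finset.mem_product] at hx
    obtain ⟨⟨he, -⟩, hv, ho⟩ := hx
    have he' : e ∈ Tc (T : Set Ed) u := ⟨he, by rw [clV_eq] at hv; exact hv⟩
    rw [outer_iff] at ho
    cases b with
    | false =>
      refine ⟨?_, by rw [if_neg (by simp), fce_c1]; exact ho⟩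
      rw [if_neg (by simp)]
      rcases vtx_c1 e with h1 | h1 <;> rw [h1]
      · exact ea_mem he'
      · exact eb_mem he'
    | true =>
      refine ⟨?_, by rw [if_pos rfl, fce_c2]; exact ho⟩
      rw [if_pos rfl]
      rcases vtx_c2 e with h1 | h1 <;> rw [h1]
      · exact ea_mem he'
      · exact eb_mem he'
  · rintro ⟨e, b⟩ - ⟨e', b'⟩ - h
    have hq : ∀ (e : Edg) (b : Bool), qry (if b = true then c2 e else c1 e) = e := by
      intro e b
      split_ifs
      · exact qry_c2 e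
      · exact qry_c1 e
    have h1 : e = e' := by
      rw [← hq e b, ← hq e' b']
      exact congrArg qry h
    subst h1
    cases b <;> cases b'
    · rfl
    · exact absurd h (c1_ne_c2 e)
    · exact absurd h.symm (c1_ne_c2 e)
    · rfl

theorem ncard_Oq_le_perim : (Oq (T : Set Ed) u).ncard ≤ perim T u := by
  classical
  unfold perim
  rw [← Set.ncard_coe_finset]
  refine Set.ncard_le_ncard_of_injOn
    (fun k : Cor => ((qry k, decide (k = c2 (qry k))) : Edg × Bool)) ?_ ?_ (Finset.finite_toSet _)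
  · rintro k ⟨hk, hq⟩
    rw [Finset.mem_coe, Finset.mem_filter, Finset.mem_product]
    refine ⟨⟨hq.1, Finset.mem_univ _⟩, by rw [clV_eq]; exact hq.2, ?_⟩
    rw [outer_iff]
    rcases fce_c_cases (k := k) with ⟨h1, h2⟩ | ⟨h1, h2⟩
    · have h3 : ¬ k = c2 (qry k) := fun h => c1_ne_c2 (qry k) (h1.symm.trans h)
      change side (qry k) (decide (k = c2 (qry k))) ∈ _
      rw [decide_eq_false h3, side_false, ← h2]
      exact hk.2
    · change side (qry k) (decide (k = c2 (qry k))) ∈ _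
      rw [decide_eq_true h1, side_true, ← h2]
      exact hk.2
  · intro k _ k' _ h
    simp only [Prod.mk.injEq] at h
    obtain ⟨h1, h2⟩ := h
    rcases eq_c k with h3 | h3 <;> rcases eq_c k' with h4 | h4
    · rw [h3, h4, h1]
    · have h5 : k' = c2 (qry k') := h4
      have h6 : decide (k' = c2 (qry k')) = true := decide_eq_true h5
      rw [h6] at h2
      have h7 : k = c2 (qry k) := of_decide_eq_true h2
      rw [h7, h4, h1]
    · have h6 : decide (k = c2 (qry k)) = true := decide_eq_true h3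
      rw [h6] at h2
      have h7 : k' = c2 (qry k') := of_decide_eq_true h2.symm
      rw [h3, h7, h1]
    · rw [h3, h4, h1]

theorem exists_ne_of_diam (h : 0 < Metric.diam (clS T u)) : ∃ w ∈ Kc (T : Set Ed) u, w ≠ u := by
  by_contra hc
  push Not at hc
  have h1 : clS T u ⊆ {toC u} := by
    rw [clS_eq]
    rintro z (⟨w, hw, rfl⟩ | hz)
    · rw [hc w hw]; rfl
    · obtain ⟨e, he, -⟩ := mem_iUnion₂.1 hz
      have h2 := hc _ (ea_mem he)
      have h3 := hc _ (eb_mem he)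
      rw [← h2] at h3
      obtain ⟨x, y, _ | _⟩ := e <;> simp at h3
  have h2 : Metric.diam (clS T u) = 0 :=
    Metric.diam_subsingleton (Set.subsingleton_singleton.anti h1)
  exact absurd h2 h.ne'

/-- The number of outer corners. -/
theorem ncard_Oc_le_perim (hT : T ⊆ boxE n) (h : 0 < Metric.diam (clS T u)) :
    (Oc (T : Set Ed) u).ncard ≤ 4 * perim T u := by
  have hne := exists_ne_of_diam h
  have hfin : (Oq (T : Set Ed) u).Finite := (finite_Oc (boxE_sub hT)).subset fun _ h => h.1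
  have hsub : Oc (T : Set Ed) u ⊆ ⋃ i ∈ Finset.range 4, (rotb^[i]) '' Oq (T : Set Ed) u := by
    intro k hk
    obtain ⟨i, hi, h⟩ := exists_rot_Oq hne hk
    refine mem_iUnion₂.2 ⟨i, Finset.mem_range.2 hi, rot^[i] k, h, ?_⟩
    exact (Function.LeftInverse.iterate rotb_rot i) k
  have h1 := Set.ncard_le_ncard hsub
    (Set.Finite.biUnion (Finset.finite_toSet _) fun i _ => hfin.image _)
  have h3 := Finset.set_ncard_biUnion_le (Finset.range 4) fun i => (rotb^[i]) '' Oq (T : Set Ed) u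
  have h4 : ∀ i ∈ Finset.range 4, ((rotb^[i]) '' Oq (T : Set Ed) u).ncard
      ≤ (Oq (T : Set Ed) u).ncard := fun i _ => Set.ncard_image_le hfin
  have h5 := (h1.trans h3).trans (Finset.sum_le_sum h4)
  simp only [Finset.sum_const, Finset.card_range, smul_eq_mul] at h5
  exact h5.trans (Nat.mul_le_mul_left 4 ncard_Oq_le_perim)

theorem orb_le_perim (hT : T ⊆ boxE n) {k : Cor} (h1 : vtx k ∈ clV T u)
    (h2 : Outer T u (fce k)) (h : 0 < Metric.diam (clS T u)) :
    (Orb (T : Set Ed) k).ncard ≤ 8 * perim T u := by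
  rw [orb_eq_Oc (boxE_sub hT) (mem_Oc.2 ⟨h1, h2⟩)]
  exact (ncard_Oc_le_perim hT h).trans (Nat.mul_le_mul_right _ (by norm_num))

end Pool.Agent.PercO
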