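import Pool.Agent.Lib.MP_6bd702_pr_h60.UpE
import Pool.Agent.Lib.MP_6bd702_percw.Final

/-!
# The upper tail and the upper half of the expectation, from the two arm upper bound
-/

set_option autoImplicit false

namespace Pool.Agent.PercX60

open Pool.Agent.Perc Pool.Agent.PercW Finset

theorem hC_int (hC : ∃ C : ℝ, 0 < C ∧ ∀ R : ℕ, 1 ≤ R → p2 R ≤ C * (R : ℝ) ^ (-(1 / 4 : ℝ))) :
    ∃ C : ℝ, ∀ R : ℤ, 1 ≤ R → p2 R ≤ C * (R : ℝ) ^ (-(1 / 4) : ℝ) := by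
  obtain ⟨C, -, h⟩ := hC
  refine ⟨C, fun R hR => ?_⟩
  have h1 := h R.toNat (by omega)
  have h2 : ((R.toNat : ℕ) : ℤ) = R := Int.toNat_of_nonneg (by omega)
  have h3 : ((R.toNat : ℕ) : ℝ) = (R : ℝ) := by exact_mod_cast h2
  rw [h2, h3] at h1
  exact h1

/-- The upper tail, from the two arm upper bound. -/
theorem upperTail (hC : ∃ C : ℝ, 0 < C ∧ ∀ R : ℕ, 1 ≤ R →
    p2 R ≤ C * (R : ℝ) ^ (-(1 / 4 : ℝ))) : UpperTail := by
  obtain ⟨C, h⟩ := hC_int hC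
  obtain ⟨C', h'⟩ := up_diam h
  exact ⟨C', fun n hn D hD hDn sel hsel => h' n hn D hD hDn sel fun T hT => (hsel T hT).1⟩

/-- The upper half of `TargetE`, from the two arm upper bound. -/
theorem targetE_upper (hC : ∃ C : ℝ, 0 < C ∧ ∀ R : ℕ, 1 ≤ R →
    p2 R ≤ C * (R : ℝ) ^ (-(1 / 4 : ℝ))) :
    ∃ C' : ℝ, ∀ n : ℕ, 1 ≤ n → ∀ sel : Finset Edg → ℤ × ℤ, IsSel n sel →
      exB n (fun T => (perim T (sel T) : ℝ)) ≤ C' * (n : ℝ) ^ (7 / 4 : ℝ) := by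
  obtain ⟨C, h⟩ := hC_int hC
  exact upper_E h

end Pool.Agent.PercX60
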