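import Pool.Agent.Lib.MP_6bd702_pr_h60.OutTargets
import Pool.Agent.Lib.MP_6bd702_percD.Assembly

/-!
# The outer boundary of every subsequential limit has dimension `4 / 3`, from the finite volume
estimates C1 and C3
-/

set_option autoImplicit false

namespace Pool.Agent.PercS5

open Finset Filter Topology MeasureTheory TopologicalSpace
open Pool.Agent.Perc Pool.Agent.PercD Pool.Agent.Perc.PercD
open scoped ENNReal NNReal

theorem sumq_left {q : ℝ} (hq1 : q < 1) (hq0 : 0 ≤ q) {m : ℕ} :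
    ∑ a ∈ Icc (-1 : ℤ) (2 ^ m + 1), (max (a : ℝ) 1) ^ (-q) ≤
    (1 + 2 / (1 - q)) * ((2 : ℝ) ^ m * 2) ^ (1 - q) := by
  have hq : 0 < 1 - q := by linarith
  have h1 := sum_abs_rpow (q := q) hq1 hq0 (N := 2 ^ m + 1) (Nat.le_add_left 1 _)
  have h2 : ∑ a ∈ Icc (-1 : ℤ) (2 ^ m + 1), (max (a : ℝ) 1) ^ (-q) ≤
      ∑ a ∈ Icc (-((2 ^ m + 1 : ℕ) : ℤ)) ((2 ^ m + 1 : ℕ) : ℤ), (max |(a : ℝ)| 1) ^ (-q) := by
    calc ∑ a ∈ Icc (-1 : ℤ) (2 ^ m + 1), (max (a : ℝ) 1) ^ (-q)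
        = ∑ a ∈ Icc (-1 : ℤ) (2 ^ m + 1), (max |(a : ℝ)| 1) ^ (-q) := by
          refine sum_congr rfl fun a ha => ?_
          rw [mem_Icc] at ha
          rcases lt_or_ge a 0 with h | h
          · have : a = -1 := by omega
            subst this; norm_num
          · rw [abs_of_nonneg (by exact_mod_cast h)]
      _ ≤ _ := by
          refine sum_le_sum_of_subset_of_nonneg ?_ fun a _ _ =>
            Real.rpow_nonneg (le_trans zero_le_one (le_max_right _ _)) _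
          intro a ha
          rw [mem_Icc] at ha ⊢
          have : (0 : ℤ) < 2 ^ m := by positivity
          push_cast
          constructor <;> omega
  refine h2.trans (h1.trans ?_)
  refine mul_le_mul_of_nonneg_left ?_ (by positivity)
  refine Real.rpow_le_rpow (by positivity) ?_ hq.le
  push_cast
  have : (1 : ℝ) ≤ 2 ^ m := one_le_pow₀ (by norm_num)
  linarith

theorem sumq_right {q : ℝ} (hq1 : q < 1) (hq0 : 0 ≤ q) {m : ℕ} :
    ∑ a ∈ Icc (-1 : ℤ) (2 ^ m + 1), (max ((2 : ℝ) ^ m - a) 1) ^ (-q) ≤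
    (1 + 2 / (1 - q)) * ((2 : ℝ) ^ m * 2) ^ (1 - q) := by
  refine le_trans (le_of_eq ?_) (sumq_left hq1 hq0 (m := m))
  refine sum_nbij' (fun a => 2 ^ m - a) (fun a => 2 ^ m - a) ?_ ?_ ?_ ?_ ?_
  · intro a ha; rw [mem_Icc] at ha ⊢; constructor <;> omega
  · intro a ha; rw [mem_Icc] at ha ⊢; constructor <;> omega
  · intro a _; ring
  · intro a _; ring
  · intro a _; push_cast; rfl

/-- The weight of a cell. -/
noncomputable def wq (q : ℝ) (m : ℕ) (z : ℤ × ℤ) : ℝ :=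
  ((max (z.1 : ℝ) 1) ^ (-q) + (max ((2 : ℝ) ^ m - z.1) 1) ^ (-q)) +
    ((max (z.2 : ℝ) 1) ^ (-q) + (max ((2 : ℝ) ^ m - z.2) 1) ^ (-q))

theorem sum_wq {q : ℝ} (hq1 : q < 1) (hq0 : 0 ≤ q) (m : ℕ) :
    ∑ z ∈ idx m, wq q m z ≤ 32 * (1 + 2 / (1 - q)) * ((2 : ℝ) ^ m) ^ (2 - q) := by
  have hq : 0 < 1 - q := by linarith
  unfold idx
  have hA := sumq_left hq1 hq0 (m := m)
  have hB := sumq_right hq1 hq0 (m := m)
  set S₁ := ∑ a ∈ Icc (-1 : ℤ) (2 ^ m + 1), (max (a : ℝ) 1) ^ (-q) with hS₁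
  set S₂ := ∑ a ∈ Icc (-1 : ℤ) (2 ^ m + 1), (max ((2 : ℝ) ^ m - a) 1) ^ (-q) with hS₂
  have hcard : ((Icc (-1 : ℤ) (2 ^ m + 1)).card : ℝ) ≤ 4 * 2 ^ m := by
    rw [Int.card_Icc]
    have h1 : ((2 : ℤ) ^ m + 1 + 1 - (-1)) = ((2 ^ m + 3 : ℕ) : ℤ) := by push_cast; ring
    rw [h1, Int.toNat_natCast]; push_cast
    have : (1 : ℝ) ≤ 2 ^ m := one_le_pow₀ (by norm_num)
    linarith
  have h2 : ∑ z ∈ Icc (-1 : ℤ) (2 ^ m + 1) ×ˢ Icc (-1 : ℤ) (2 ^ m + 1), wq q m z =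
      ((Icc (-1 : ℤ) (2 ^ m + 1)).card : ℝ) * (S₁ + S₂) +
        ((Icc (-1 : ℤ) (2 ^ m + 1)).card : ℝ) * (S₁ + S₂) := by
    unfold wq
    rw [sum_add_distrib]
    congr 1
    · rw [sum_product]
      simp only [sum_const, nsmul_eq_mul]
      rw [← mul_sum, sum_add_distrib]
    · rw [sum_product]
      simp only [sum_const, nsmul_eq_mul]
      rw [sum_add_distrib]
  rw [h2]
  have hp : (0 : ℝ) < 2 ^ m := by positivity
  have h3 : ((2 : ℝ) ^ m * 2) ^ (1 - q) ≤ 2 * ((2 : ℝ) ^ m) ^ (1 - q) := by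
    rw [Real.mul_rpow hp.le (by norm_num), mul_comm]
    refine mul_le_mul_of_nonneg_right ?_ (by positivity)
    calc (2 : ℝ) ^ (1 - q) ≤ (2 : ℝ) ^ (1 : ℝ) :=
          Real.rpow_le_rpow_of_exponent_le (by norm_num) (by linarith)
      _ = 2 := Real.rpow_one 2
  set D : ℝ := 1 + 2 / (1 - q) with hD
  have hD0 : 0 < D := by positivity
  have h4 : S₁ + S₂ ≤ 4 * D * ((2 : ℝ) ^ m) ^ (1 - q) := by
    have h5 := mul_le_mul_of_nonneg_left h3 hD0.le
    linarith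
  have hS0 : 0 ≤ S₁ + S₂ := by
    refine add_nonneg (sum_nonneg fun a _ => ?_) (sum_nonneg fun a _ => ?_) <;>
      exact Real.rpow_nonneg (le_trans zero_le_one (le_max_right _ _)) _
  have h6 : ((2 : ℝ) ^ m) ^ (2 - q) = 2 ^ m * ((2 : ℝ) ^ m) ^ (1 - q) := by
    rw [show (2 - q : ℝ) = 1 + (1 - q) by ring, Real.rpow_add hp, Real.rpow_one]
  rw [h6]
  calc _ = 2 * (((Icc (-1 : ℤ) (2 ^ m + 1)).card : ℝ) * (S₁ + S₂)) := by ring
    _ ≤ 2 * ((4 * 2 ^ m) * (4 * D * ((2 : ℝ) ^ m) ^ (1 - q))) := by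
        refine mul_le_mul_of_nonneg_left ?_ (by norm_num)
        exact mul_le_mul hcard h4 hS0 (by positivity)
    _ = _ := by ring

theorem wq_ge {q : ℝ} {m : ℕ} (z : ℤ × ℤ) :
    (max (min (min (z.1 : ℝ) (2 ^ m - z.1)) (min (z.2 : ℝ) (2 ^ m - z.2))) 1) ^ (-q) ≤ wq q m z := by
  have h0 : ∀ x : ℝ, 0 ≤ (max x 1) ^ (-q) := fun x =>
    Real.rpow_nonneg (le_trans zero_le_one (le_max_right _ _)) _
  unfold wq
  have a1 := h0 z.1
  have a2 := h0 (2 ^ m - z.1)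
  have a3 := h0 z.2
  have a4 := h0 (2 ^ m - z.2)
  rcases min_choice (min (z.1 : ℝ) (2 ^ m - z.1)) (min (z.2 : ℝ) (2 ^ m - z.2)) with h | h <;> rw [h]
  · rcases min_choice (z.1 : ℝ) (2 ^ m - z.1) with h' | h' <;> rw [h'] <;> linarith
  · rcases min_choice (z.2 : ℝ) (2 ^ m - z.2) with h' | h' <;> rw [h'] <;> linarith

/-- C1 for all cells. -/
theorem cellC_bound (h1 : TargetC1) {k₀ α : ℝ} (hk₀ : 0 < k₀) (hα0 : 0 < α) (hα : α < 2 / 3) :
    ∃ C : ℝ, 0 ≤ C ∧ ∀ m p : ℕ, ∀ᶠ n : ℕ in atTop, ∀ z : ℤ × ℤ,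
      prB n {T | ∃ u, k₀ * n ≤ Metric.diam (clS T u) ∧ HitC p m (perK n T u : Set ℂ) z} ≤
        C * wq α m z := by
  obtain ⟨C₀, hC₀⟩ := h1 k₀ α hk₀ hα0 hα
  refine ⟨max C₀ 1, by positivity, fun m p => ?_⟩
  filter_upwards [hC₀ m p] with n hn z
  set j : ℝ := min (min (z.1 : ℝ) (2 ^ m - z.1)) (min (z.2 : ℝ) (2 ^ m - z.2)) with hj
  have hwt : (max j 1) ^ (-α) ≤ wq α m z := wq_ge z
  have hmx : (0 : ℝ) < max j 1 := lt_max_of_lt_right one_pos
  have hwt0 : 0 ≤ wq α m z := le_trans (Real.rpow_nonneg hmx.le _) hwt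
  by_cases hj1 : 1 ≤ j
  · refine (hn z j hj1 ((min_le_left _ _).trans (min_le_left _ _))
      ((min_le_left _ _).trans (min_le_right _ _)) ((min_le_right _ _).trans (min_le_left _ _))
      ((min_le_right _ _).trans (min_le_right _ _))).trans ?_
    rw [max_eq_left hj1] at hwt
    have hj0 : 0 ≤ j ^ (-α) := Real.rpow_nonneg (by linarith) _
    calc C₀ * j ^ (-α) ≤ max C₀ 1 * j ^ (-α) := mul_le_mul_of_nonneg_right (le_max_left _ _) hj0
      _ ≤ max C₀ 1 * wq α m z := mul_le_mul_of_nonneg_left hwt (by positivity)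
  · push Not at hj1
    rw [max_eq_right hj1.le, Real.one_rpow] at hwt
    refine (prB_le_one _).trans ?_
    calc (1 : ℝ) = 1 * 1 := by norm_num
      _ ≤ max C₀ 1 * wq α m z := mul_le_mul (le_max_right _ _) hwt (by norm_num) (by positivity)

/-- Tightness of the weighted counts of visible cells. -/
theorem upper_SC (h1 : TargetC1) (h3 : TargetB3) {s : ℝ} (hs : 4 / 3 < s)
    {sel : ℕ → Finset Edg → ℤ × ℤ} (hsel : ∀ n, IsSel n (sel n)) {ε : ℝ} (hε : 0 < ε) :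
    ∃ lam : ℝ, ∀ M : ℕ, ∀ᶠ n : ℕ in atTop,
      prB n {T | lam < SmC s M M (perK n T (sel n T) : Set ℂ)} ≤ ε := by
  classical
  obtain ⟨κ, k₀, c, hκ, hk₀, hc, h3⟩ := h3 (ε / 2) (by positivity)
  -- the exponent
  set α : ℝ := max (1 / 3) (2 / 3 - (s - 4 / 3) / 2) with hαdef
  have hα0 : 0 < α := lt_of_lt_of_le (by norm_num) (le_max_left _ _)
  have hα : α < 2 / 3 := by rw [hαdef]; exact max_lt (by norm_num) (by linarith)
  have hαs : 2 - α < s := by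
    have := le_max_right (1 / 3 : ℝ) (2 / 3 - (s - 4 / 3) / 2)
    rw [← hαdef] at this
    linarith
  obtain ⟨C, hC0, hC⟩ := cellC_bound h1 hk₀ hα0 hα
  set D : ℝ := 32 * (1 + 2 / (1 - α)) with hDdef
  have hD0 : 0 ≤ D := by
    have : 0 < 1 - α := by linarith
    positivity
  set ρ : ℝ := (2 : ℝ) ^ (2 - α - s) with hρ
  have hρ0 : 0 < ρ := Real.rpow_pos_of_pos (by norm_num) _
  have hρ1 : ρ < 1 := Real.rpow_lt_one_of_one_lt_of_neg (by norm_num) (by linarith)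
  set B : ℝ := D * C * (1 - ρ)⁻¹ with hB
  have hB0 : 0 ≤ B := by have : 0 < 1 - ρ := by linarith
                         positivity
  set lam : ℝ := 2 * B / ε + 1 with hlam
  have hlam0 : 0 < lam := by positivity
  refine ⟨lam, fun M => ?_⟩
  have hev : ∀ᶠ n : ℕ in atTop, ∀ m ∈ range M, ∀ z : ℤ × ℤ,
      prB n {T | ∃ u, k₀ * n ≤ Metric.diam (clS T u) ∧ HitC M m (perK n T u : Set ℂ) z} ≤
        C * wq α m z := by
    rw [eventually_all_finset]
    intro m _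
    exact hC m M
  filter_upwards [h3 sel hsel, hev] with n hn hnM
  -- expected counts
  have hE : ∀ m ∈ range M, exB n (fun T => (1 / 2 ^ m : ℝ) ^ s *
      if k₀ * n ≤ Metric.diam (clS T (sel n T)) then (NC M m (perK n T (sel n T) : Set ℂ) : ℝ)
        else 0) ≤ D * C * ρ ^ m := by
    intro m hm
    rw [exB_mul_left]
    have h4 : exB n (fun T => if k₀ * n ≤ Metric.diam (clS T (sel n T)) then
        (NC M m (perK n T (sel n T) : Set ℂ) : ℝ) else 0) ≤ ∑ z ∈ idx m, prB n {T | ∃ u, k₀ * n ≤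
          Metric.diam (clS T u) ∧ HitC M m (perK n T u : Set ℂ) z} := by
      simp_rw [prB_eq]
      rw [← exB_sum]
      refine exB_mono fun T _ => ?_
      split_ifs with hd
      · unfold NC
        rw [card_filter]
        push_cast
        refine sum_le_sum fun z _ => ?_
        by_cases hz : HitC M m (perK n T (sel n T) : Set ℂ) z
        · rw [if_pos hz, if_pos (show T ∈ {T | ∃ u, k₀ * n ≤ Metric.diam (clS T u) ∧
            HitC M m (perK n T u : Set ℂ) z} from ⟨sel n T, hd, hz⟩)]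
        · rw [if_neg hz]; split_ifs <;> norm_num
      · exact sum_nonneg fun z _ => by split_ifs <;> norm_num
    have h5 : exB n (fun T => if k₀ * n ≤ Metric.diam (clS T (sel n T)) then
        (NC M m (perK n T (sel n T) : Set ℂ) : ℝ) else 0) ≤ C * (D * ((2 : ℝ) ^ m) ^ (2 - α)) := by
      refine h4.trans ((sum_le_sum fun z _ => hnM m hm z).trans ?_)
      rw [← mul_sum]
      exact mul_le_mul_of_nonneg_left (sum_wq (by linarith) hα0.le m) hC0
    have hP0 : (0 : ℝ) < 2 ^ m := by positivity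
    have h6 : (1 / 2 ^ m : ℝ) ^ s * ((2 : ℝ) ^ m) ^ (2 - α) = ρ ^ m := by
      rw [one_div, Real.inv_rpow hP0.le, ← Real.rpow_neg hP0.le, ← Real.rpow_add hP0, hρ,
        ← Real.rpow_natCast, ← Real.rpow_natCast, ← Real.rpow_mul (by norm_num),
        ← Real.rpow_mul (by norm_num)]
      congr 1; ring
    calc _ ≤ (1 / 2 ^ m : ℝ) ^ s * (C * (D * ((2 : ℝ) ^ m) ^ (2 - α))) :=
          mul_le_mul_of_nonneg_left h5 (by positivity)
      _ = D * C * ((1 / 2 ^ m : ℝ) ^ s * ((2 : ℝ) ^ m) ^ (2 - α)) := by ring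
      _ = _ := by rw [h6]
  set g : Finset Edg → ℝ := fun T => ∑ m ∈ range M, (1 / 2 ^ m : ℝ) ^ s *
      if k₀ * n ≤ Metric.diam (clS T (sel n T)) then (NC M m (perK n T (sel n T) : Set ℂ) : ℝ)
        else 0 with hg
  have hsum : exB n g ≤ B := by
    rw [hg, exB_sum]
    refine (sum_le_sum hE).trans ?_
    rw [← mul_sum, hB]
    refine mul_le_mul_of_nonneg_left ?_ (by positivity)
    have h7 := (summable_geometric_of_lt_one hρ0.le hρ1).sum_le_tsum (range M)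
      (fun i _ => pow_nonneg hρ0.le i)
    rwa [tsum_geometric_of_lt_one hρ0.le hρ1] at h7
  set X : Set (Finset Edg) := {T | ¬ (k₀ * n ≤ Metric.diam (clS T (sel n T)) ∧
      c * (n : ℝ) ^ (7 / 4 : ℝ) ≤ ({v | v ∈ OutV T (sel n T) ∧ Bulk n (κ * n) v}).ncard)} with hX
  set Y : Set (Finset Edg) := {T | lam ≤ g T} with hY
  have hYb : prB n Y ≤ ε / 2 := by
    have h8 := prB_markov (n := n) (g := g) (t := lam) (A := Y) (by
        intro T _
        refine sum_nonneg fun m _ => mul_nonneg (by positivity) ?_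
        split_ifs <;> positivity) hlam0 (fun T _ hT => hT)
    refine h8.trans ?_
    rw [div_le_iff₀ hlam0]
    refine hsum.trans ?_
    rw [hlam]
    have : ε / 2 * (2 * B / ε + 1) = B + ε / 2 := by field_simp
    rw [this]; linarith
  have h9 := prB_union (n := n) X Y {T | lam < SmC s M M (perK n T (sel n T) : Set ℂ)} (by
    intro T _ hT
    by_contra hcon
    push Not at hcon
    obtain ⟨hx, hy⟩ := hcon
    rw [hX, Set.mem_ofPred_eq, not_not] at hx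
    apply hy
    rw [hY, Set.mem_ofPred_eq, hg]
    simp only [if_pos hx.1]
    exact (le_of_lt hT : lam ≤ SmC s M M (perK n T (sel n T) : Set ℂ)))
  linarith

variable [MeasurableSpace (NonemptyCompacts ℂ)] [BorelSpace (NonemptyCompacts ℂ)]

omit [MeasurableSpace (NonemptyCompacts ℂ)] [BorelSpace (NonemptyCompacts ℂ)] in
theorem perK_sub_unitSq {n : ℕ} (hn : 1 ≤ n) {T : Finset Edg} (hT : T ⊆ boxE n)
    {sel : ℕ → Finset Edg → ℤ × ℤ} (hsel : ∀ n, IsSel n (sel n)) :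
    (perK n T (sel n T) : Set ℂ) ⊆ unitSq := by
  intro ζ hζ
  obtain ⟨z, hz, rfl⟩ := hζ
  have hn0 : (0 : ℝ) < n := by exact_mod_cast hn
  obtain ⟨a, b, c, d⟩ := clS_sub hT (hsel n T hT).1
    (Pool.Agent.Perc.PercD.frontier_outU_sub T _ hz)
  simp only [unitSq, Set.mem_ofPred_eq, Complex.div_natCast_re, Complex.div_natCast_im]
  exact ⟨by positivity, by rw [div_le_one hn0]; exact b, by positivity,
    by rw [div_le_one hn0]; exact d⟩

/-- The main theorem of this file. -/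
theorem dim_outB {sel : ℕ → Finset Edg → ℤ × ℤ} (hsel : ∀ n, IsSel n (sel n))
    (h1 : TargetC1) (h2 : TargetC3) (h3 : TargetB3)
    {φ : ℕ → ℕ} (hφ : Tendsto φ atTop atTop) (ν : Measure (NonemptyCompacts ℂ))
    [IsProbabilityMeasure ν] (hν : LimitLaw sel φ ν) :
    ∀ᵐ K : NonemptyCompacts ℂ ∂ν, dimH (outB (K : Set ℂ)) = 4 / 3 := by
  set KK : ℕ → Finset Edg → NonemptyCompacts ℂ := fun n T => perK n T (sel n T) with hKK
  set μs : ℕ → ProbabilityMeasure (NonemptyCompacts ℂ) :=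
    fun k => ⟨lawM (φ k) (KK (φ k)), isProb_lawM _ _⟩ with hμs
  set ν' : ProbabilityMeasure (NonemptyCompacts ℂ) := ⟨ν, inferInstance⟩ with hν'
  have hlim : Tendsto μs atTop (𝓝 ν') := by
    rw [ProbabilityMeasure.tendsto_iff_forall_integral_tendsto]
    intro F
    have := hν F
    simp only [hμs, hν', ProbabilityMeasure.coe_mk]
    simp only [integral_lawM]
    exact this
  have hsq : ∀ᶠ k in atTop, (μs k : Measure (NonemptyCompacts ℂ))
      {K : NonemptyCompacts ℂ | ¬ (K : Set ℂ) ⊆ unitSq} = 0 := by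
    filter_upwards [hφ.eventually_ge_atTop 1] with k hk
    have hm : MeasurableSet {K : NonemptyCompacts ℂ | ¬ (K : Set ℂ) ⊆ unitSq} :=
      (NonemptyCompacts.isClosed_subsets_of_isClosed isClosed_unitSq).isOpen_compl.measurableSet
    have e : prB (φ k) {T | KK (φ k) T ∈ {K : NonemptyCompacts ℂ | ¬ (K : Set ℂ) ⊆ unitSq}} = 0 := by
      refine le_antisymm ?_ (prB_nonneg _)
      have h4 : prB (φ k) {T | KK (φ k) T ∈ {K : NonemptyCompacts ℂ | ¬ (K : Set ℂ) ⊆ unitSq}} ≤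
          prB (φ k) ∅ := prB_mono fun T hT hT' => hT' (perK_sub_unitSq hk hT hsel)
      refine h4.trans (le_of_eq ?_)
      unfold prB; simp
    change lawM (φ k) (KK (φ k)) _ = 0
    rw [lawM_apply _ _ hm, e, ENNReal.ofReal_zero]
  -- upper bounds
  have hup : ∀ s : ℝ≥0, (4 / 3 : ℝ) < s →
      ∀ᵐ K : NonemptyCompacts ℂ ∂ν, dimH (outB (K : Set ℂ)) ≤ s := by
    intro s hs
    refine dimH_outB_le_ae (ν := ν') hlim hsq ?_
    intro ε hε
    obtain ⟨lam, hlam⟩ := upper_SC h1 h3 hs hsel hε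
    refine ⟨lam, fun M => ?_⟩
    filter_upwards [hφ.eventually (hlam M)] with k hk
    change lawM (φ k) (KK (φ k)) _ ≤ _
    rw [lawM_apply _ _ (isOpen_SmC _ _ _ _).measurableSet]
    exact ENNReal.ofReal_le_ofReal hk
  -- lower bounds
  have hlow : ∀ s : ℝ≥0, 0 < s → (s : ℝ) < 4 / 3 →
      ∀ᵐ K : NonemptyCompacts ℂ ∂ν, (s : ℝ≥0∞) ≤ dimH (outB (K : Set ℂ)) := by
    intro s hs0 hs
    refine le_dimH_outB_ae (ν := ν') hs0 hlim hsq ?_
    intro ε hε
    obtain ⟨A, hA⟩ := h2 s (by exact_mod_cast hs0) hs ε hε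
    refine ⟨A, fun m => ?_⟩
    obtain ⟨p, hp⟩ := hA m
    refine ⟨p, ?_⟩
    filter_upwards [hφ.eventually (hp sel hsel)] with k hk
    change lawM (φ k) (KK (φ k)) _ ≤ _
    rw [lawM_apply _ _ (isOpen_not_good _ _ _ _).measurableSet]
    exact ENNReal.ofReal_le_ofReal hk
  -- conclusion
  have hup' : ∀ᵐ K : NonemptyCompacts ℂ ∂ν, ∀ m : ℕ,
      dimH (outB (K : Set ℂ)) ≤ ((4 / 3 + 1 / ((m : ℝ≥0) + 1) : ℝ≥0) : ℝ≥0∞) := by
    rw [ae_all_iff]
    intro m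
    refine hup _ ?_
    push_cast
    have : (0 : ℝ) < 1 / ((m : ℝ) + 1) := by positivity
    linarith
  have hlow' : ∀ᵐ K : NonemptyCompacts ℂ ∂ν, ∀ m : ℕ,
      ((4 / 3 - 1 / ((m : ℝ≥0) + 1) : ℝ≥0) : ℝ≥0∞) ≤ dimH (outB (K : Set ℂ)) := by
    rw [ae_all_iff]
    intro m
    have h5 : (1 : ℝ≥0) / ((m : ℝ≥0) + 1) ≤ 1 := by
      rw [div_le_one (by positivity)]; exact le_add_of_nonneg_left (zero_le)
    have h6 : (1 : ℝ≥0) / ((m : ℝ≥0) + 1) < 4 / 3 := by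
      refine lt_of_le_of_lt h5 ?_
      rw [lt_div_iff₀ (by norm_num)]; norm_num
    refine hlow _ (tsub_pos_of_lt h6) ?_
    rw [NNReal.coe_sub h6.le]
    push_cast
    have : (0 : ℝ) < 1 / ((m : ℝ) + 1) := by positivity
    linarith
  filter_upwards [hup', hlow'] with K hKu hKl
  have hlim0 : Tendsto (fun m : ℕ => (1 : ℝ≥0) / ((m : ℝ≥0) + 1)) atTop (𝓝 0) :=
    tendsto_one_div_add_atTop_nhds_zero_nat
  have e43 : ((4 / 3 : ℝ≥0) : ℝ≥0∞) = 4 / 3 := by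
    rw [ENNReal.coe_div (by norm_num)]; norm_num
  apply le_antisymm
  · have h7 : Tendsto (fun m : ℕ => ((4 / 3 + 1 / ((m : ℝ≥0) + 1) : ℝ≥0) : ℝ≥0∞)) atTop
        (𝓝 ((4 / 3 + 0 : ℝ≥0) : ℝ≥0∞)) :=
      ENNReal.tendsto_coe.2 (tendsto_const_nhds.add hlim0)
    rw [add_zero, e43] at h7
    exact ge_of_tendsto' h7 hKu
  · have h7 : Tendsto (fun m : ℕ => ((4 / 3 - 1 / ((m : ℝ≥0) + 1) : ℝ≥0) : ℝ≥0∞)) atTop
        (𝓝 ((4 / 3 - 0 : ℝ≥0) : ℝ≥0∞)) :=
      ENNReal.tendsto_coe.2 (tendsto_const_nhds.sub hlim0)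
    rw [tsub_zero, e43] at h7
    exact le_of_tendsto' h7 hKl

omit [MeasurableSpace (NonemptyCompacts ℂ)] [BorelSpace (NonemptyCompacts ℂ)] in
/-- The outer boundary theorem from the finite volume estimates. -/
theorem targetOutB_of (h1 : TargetC1) (h2 : TargetC3) (h3 : TargetB3) : TargetOutB := by
  intro _ _ sel φ ν _ hsel hφ hν
  exact dim_outB hsel h1 h2 h3 hφ.tendsto_atTop ν hν

end Pool.Agent.PercS5
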