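import Pool.Agent.Lib.MP_6bd702_pr_h60.Arms

/-!
# The expected perimeter of a cluster of large diameter
-/

set_option autoImplicit false

namespace Pool.Agent.PercX60

open Pool.Agent.Perc Pool.Agent.PercU Finset
open Pool.Agent.MP_6bd702.H23 (Ed ea eb)
open Pool.Agent.PercO (Kc Tc Oc sd clV_eq clS_eq boxE_sub finite_Kc ea_mem eb_mem)

/-! ### The diameter of a cluster -/

theorem toC_re (v : ℤ × ℤ) : (toC v).re = v.1 := by simp [toC]

theorem toC_im (v : ℤ × ℤ) : (toC v).im = v.2 := by simp [toC]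

/-- Every point of a cluster is between two vertices of the cluster. -/
theorem between {T : Finset Edg} {u : ℤ × ℤ} {z : ℂ} (hz : z ∈ clS T u) :
    ∃ a ∈ Kc (T : Set Ed) u, ∃ b ∈ Kc (T : Set Ed) u, (a.1 : ℝ) ≤ z.re ∧ z.re ≤ b.1 ∧
      (a.2 : ℝ) ≤ z.im ∧ z.im ≤ b.2 := by
  rw [clS_eq] at hz
  rcases hz with ⟨w, hw, rfl⟩ | hz
  · exact ⟨w, hw, w, hw, by rw [toC_re], by rw [toC_re], by rw [toC_im], by rw [toC_im]⟩
  · obtain ⟨e, he, hz⟩ := Set.mem_iUnion₂.1 hz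
    refine ⟨ea e, ea_mem he, eb e, eb_mem he, ?_⟩
    obtain ⟨x, y, _ | _⟩ := e
    · obtain ⟨h1, h2, h3⟩ := PercC.mem_seg_false.1 hz
      simp only [Pool.Agent.MP_6bd702.H23.ea_mk, Pool.Agent.MP_6bd702.H23.eb_false]
      push_cast
      exact ⟨h2, h3, h1.ge, h1.le⟩
    · obtain ⟨h1, h2, h3⟩ := PercC.mem_seg_true.1 hz
      simp only [Pool.Agent.MP_6bd702.H23.ea_mk, Pool.Agent.MP_6bd702.H23.eb_true]
      push_cast
      exact ⟨h1.ge, h1.le, h2, h3⟩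

theorem diam_le {T : Finset Edg} {u : ℤ × ℤ} {m : ℤ} (hm : 0 ≤ m)
    (h : ∀ a ∈ Kc (T : Set Ed) u, ∀ b ∈ Kc (T : Set Ed) u, sd a b ≤ m) :
    Metric.diam (clS T u) ≤ 2 * m := by
  have hm' : (0 : ℝ) ≤ m := by exact_mod_cast hm
  refine Metric.diam_le_of_forall_dist_le (by positivity) fun z hz z' hz' => ?_
  obtain ⟨a, ha, b, hb, h1, h2, h3, h4⟩ := between hz
  obtain ⟨a', ha', b', hb', h1', h2', h3', h4'⟩ := between hz'
  have key : ∀ p ∈ Kc (T : Set Ed) u, ∀ q ∈ Kc (T : Set Ed) u,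
      (p.1 : ℝ) - q.1 ≤ m ∧ (p.2 : ℝ) - q.2 ≤ m := by
    intro p hp q hq
    have h5 := h p hp q hq
    unfold sd at h5
    have h6 := (le_abs_self (p.1 - q.1)).trans ((le_max_left _ _).trans h5)
    have h7 := (le_abs_self (p.2 - q.2)).trans ((le_max_right _ _).trans h5)
    constructor
    · exact_mod_cast h6
    · exact_mod_cast h7
  have k1 := key b hb a' ha'
  have k2 := key b' hb' a ha
  rw [Complex.dist_eq]
  refine (Complex.norm_le_abs_re_add_abs_im _).trans ?_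
  have h8 : |(z - z').re| ≤ m := by
    rw [Complex.sub_re, abs_le]
    constructor <;> linarith [k1.1, k2.1]
  have h9 : |(z - z').im| ≤ m := by
    rw [Complex.sub_im, abs_le]
    constructor <;> linarith [k1.2, k2.2]
  linarith

/-- Two vertices at a distance comparable to the diameter. -/
theorem exists_far_pair {n : ℕ} {T : Finset Edg} (hT : T ⊆ boxE n) {u : ℤ × ℤ} {D : ℝ}
    (hD : D ≤ Metric.diam (clS T u)) :
    ∃ a ∈ Kc (T : Set Ed) u, ∃ b ∈ Kc (T : Set Ed) u, D ≤ 2 * (sd a b : ℝ) := by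
  have hfin : (Kc (T : Set Ed) u).Finite := finite_Kc (boxE_sub hT)
  have hu : u ∈ Kc (T : Set Ed) u := Relation.ReflTransGen.refl
  obtain ⟨⟨a, b⟩, ⟨ha, hb⟩, hmax⟩ := Set.exists_max_image
    (Kc (T : Set Ed) u ×ˢ Kc (T : Set Ed) u) (fun p => sd p.1 p.2) (hfin.prod hfin) ⟨(u, u), hu, hu⟩
  refine ⟨a, ha, b, hb, hD.trans (diam_le ?_ fun a' ha' b' hb' => hmax (a', b') ⟨ha', hb'⟩)⟩
  unfold sd
  exact (abs_nonneg _).trans (le_max_left _ _)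

/-- Outer corners of large clusters have two arms. -/
theorem TA_of_outer {n : ℕ} {ω : Cfg} {u : ℤ × ℤ} {k : Cor} {R : ℤ} {D : ℝ}
    (hk : k ∈ Oc (cfgE n ω : Set Ed) u) (hD : D ≤ Metric.diam (clS (cfgE n ω) u))
    (hR : R + 1 ≤ dB n (vtx k)) (hR1 : 1 ≤ R) (hRD : 4 * ((R : ℝ) + 2) ≤ D) : ω ∈ TA R k := by
  have hT : cfgE n ω ⊆ boxE n := Finset.filter_subset _ _
  obtain ⟨a, ha, b, hb, hab⟩ := exists_far_pair hT hD
  obtain ⟨j, hj⟩ := PercO.outer_far (boxE_sub hT) hk ha hb le_rfl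
  refine TA_of_far hR hR1 (j := j) ?_
  have h1 : (sd a b : ℝ) ≤ 2 * (sd (vtx ((nxt (cfgE n ω : Set Ed))^[j] k)) (vtx k) : ℝ) := by
    exact_mod_cast hj
  have h2 : ((R + 2 : ℤ) : ℝ) ≤ (sd (vtx ((nxt (cfgE n ω : Set Ed))^[j] k)) (vtx k) : ℝ) := by
    push_cast
    linarith
  exact_mod_cast h2

/-! ### The window -/

/-- The faces of the box. -/
noncomputable def Sn (n : ℕ) : Finset (ℤ × ℤ) := (boxE n).image phiE

theorem pr_Sn (n : ℕ) (A : Set (Finset Edg)) : pr (Sn n) {ω | cfgE n ω ∈ A} = prB n A :=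
  pr_cfgE n (fun _ he => Finset.mem_image_of_mem _ he) A

theorem ball_sub_Sn {n : ℕ} {k : Cor} {R : ℤ} (hR : R + 1 ≤ dB n (vtx k)) :
    RF ((gB k).1 - R) ((gB k).1 + R) ((gB k).2 - R) ((gB k).2 + R) ⊆ Sn n := by
  intro f hf
  exact Finset.mem_image.2 ⟨eE f, ball_sub hR hf, phiE_eE f⟩

/-! ### Expectations -/

theorem exB_mono {n : ℕ} {g h : Finset Edg → ℝ} (H : ∀ T ⊆ boxE n, g T ≤ h T) :
    exB n g ≤ exB n h := by
  unfold exB
  exact div_le_div_of_nonneg_right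
    (Finset.sum_le_sum fun T hT => H T (Finset.mem_powerset.1 hT)) (by positivity)

theorem exB_sum {ι : Type*} (n : ℕ) (s : Finset ι) (g : ι → Finset Edg → ℝ) :
    exB n (fun T => ∑ i ∈ s, g i T) = ∑ i ∈ s, exB n (g i) := by
  unfold exB
  rw [Finset.sum_comm, Finset.sum_div]

open Classical in
theorem exB_indicator (n : ℕ) (A : Set (Finset Edg)) :
    exB n (fun T => if T ∈ A then (1 : ℝ) else 0) = prB n A := by
  unfold exB prB
  rw [Finset.card_filter]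
  push_cast
  rfl

theorem prB_nonneg (n : ℕ) (A : Set (Finset Edg)) : 0 ≤ prB n A := by
  rw [← pr_Sn]; exact pr_nonneg _ _

theorem prB_le_one (n : ℕ) (A : Set (Finset Edg)) : prB n A ≤ 1 := by
  rw [← pr_Sn]; exact pr_le_one _ _

theorem prB_mono {n : ℕ} {A B : Set (Finset Edg)} (h : ∀ T ⊆ boxE n, T ∈ A → T ∈ B) :
    prB n A ≤ prB n B := by
  rw [← pr_Sn, ← pr_Sn]
  exact pr_mono _ fun ω hω => h _ (Finset.filter_subset _ _) hω

/-! ### The sum over the corners -/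

/-- The corners at the vertices of the box. -/
noncomputable def corB (n : ℕ) : Finset Cor :=
  Icc 0 (n : ℤ) ×ˢ (Icc 0 (n : ℤ) ×ˢ (univ : Finset (Bool × Bool)))

theorem mem_corB {n : ℕ} {k : Cor} : k ∈ corB n ↔ vtx k ∈ Box n := by
  unfold corB Box
  rw [Finset.mem_product, Finset.mem_product, Finset.mem_product]
  simp only [Finset.mem_univ, and_true, vtx]

theorem sum_rpow_le (m : ℕ) :
    ∑ i ∈ range m, ((i : ℝ) + 1) ^ (-(1 / 4) : ℝ) ≤ 4 / 3 * (m : ℝ) ^ (3 / 4 : ℝ) := by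
  induction m with
  | zero => simp
  | succ m ih =>
    rw [Finset.sum_range_succ]
    push_cast
    have hm : (0 : ℝ) < (m : ℝ) + 1 := by positivity
    -- concavity
    have h1 : (m : ℝ) ^ (3 / 4 : ℝ) ≤ ((m : ℝ) + 1) ^ (3 / 4 : ℝ) -
        3 / 4 * ((m : ℝ) + 1) ^ (-(1 / 4) : ℝ) := by
      have h2 := rpow_one_add_le_one_add_mul_self (s := -(1 / ((m : ℝ) + 1)))
        (by rw [neg_le_neg_iff, div_le_one hm]; linarith [(Nat.cast_nonneg m : (0 : ℝ) ≤ m)])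
        (p := 3 / 4) (by norm_num) (by norm_num)
      have h3 : (1 + -(1 / ((m : ℝ) + 1))) = (m : ℝ) / (m + 1) := by field_simp; ring
      rw [h3, Real.div_rpow (Nat.cast_nonneg m) hm.le, div_le_iff₀ (Real.rpow_pos_of_pos hm _)] at h2
      refine h2.trans (le_of_eq ?_)
      have h4 : ((m : ℝ) + 1) ^ (-(1 / 4) : ℝ) = ((m : ℝ) + 1) ^ (3 / 4 : ℝ) / ((m : ℝ) + 1) := by
        rw [eq_div_iff hm.ne']
        nth_rewrite 2 [← Real.rpow_one ((m : ℝ) + 1)]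
        rw [← Real.rpow_add hm]
        norm_num
      rw [h4]
      field_simp
      ring
    linarith

/-- The contribution of one coordinate. -/
noncomputable def ft (x : ℤ) : ℝ := ((x : ℝ) + 1) ^ (-(1 / 4) : ℝ)

theorem ft_nonneg {x : ℤ} (hx : 0 ≤ x) : 0 ≤ ft x := by
  unfold ft
  have : (0 : ℝ) ≤ x := by exact_mod_cast hx
  positivity

theorem sum_Icc_int (n : ℕ) (g : ℤ → ℝ) :
    ∑ x ∈ Icc 0 (n : ℤ), g x = ∑ i ∈ range (n + 1), g i := by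
  refine (Finset.sum_bij (fun (i : ℕ) _ => (i : ℤ)) ?_ ?_ ?_ ?_).symm
  · intro i hi
    rw [Finset.mem_range] at hi
    rw [Finset.mem_Icc]
    omega
  · intro i _ j _ h
    exact_mod_cast h
  · intro x hx
    rw [Finset.mem_Icc] at hx
    exact ⟨x.toNat, Finset.mem_range.2 (by omega), by omega⟩
  · intro i _
    rfl

theorem sum_ft (n : ℕ) : ∑ x ∈ Icc 0 (n : ℤ), ft x ≤ 4 / 3 * ((n : ℝ) + 1) ^ (3 / 4 : ℝ) := by
  rw [sum_Icc_int]
  have h := sum_rpow_le (n + 1)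
  push_cast at h
  unfold ft
  push_cast
  exact h

theorem sum_ft' (n : ℕ) :
    ∑ x ∈ Icc 0 (n : ℤ), ft (n - x) ≤ 4 / 3 * ((n : ℝ) + 1) ^ (3 / 4 : ℝ) := by
  refine le_trans (le_of_eq ?_) (sum_ft n)
  refine Finset.sum_bij (fun x _ => (n : ℤ) - x) ?_ ?_ ?_ ?_
  · intro x hx
    rw [Finset.mem_Icc] at hx ⊢
    omega
  · intro x _ y _ h
    omega
  · intro x hx
    rw [Finset.mem_Icc] at hx
    exact ⟨n - x, Finset.mem_Icc.2 (by omega), by ring⟩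
  · intro x _
    rfl

theorem ft_dB_le {n : ℕ} {x y : ℤ} (hx : 0 ≤ x ∧ x ≤ n) (hy : 0 ≤ y ∧ y ≤ n) :
    ft (dB n (x, y)) ≤ (ft x + ft (n - x)) + (ft y + ft (n - y)) := by
  have h1 := ft_nonneg hx.1
  have h2 := ft_nonneg (show 0 ≤ (n : ℤ) - x by omega)
  have h3 := ft_nonneg hy.1
  have h4 := ft_nonneg (show 0 ≤ (n : ℤ) - y by omega)
  unfold dB
  simp only
  rcases min_cases (min x (n - x)) (min y (n - y)) with ⟨h, _⟩ | ⟨h, _⟩ <;> rw [h]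
  · rcases min_cases x (n - x) with ⟨h, _⟩ | ⟨h, _⟩ <;> rw [h] <;> linarith
  · rcases min_cases y (n - y) with ⟨h, _⟩ | ⟨h, _⟩ <;> rw [h] <;> linarith

theorem sum_dB_le (n : ℕ) :
    ∑ k ∈ corB n, ((dB n (vtx k) : ℝ) + 1) ^ (-(1 / 4) : ℝ) ≤
      64 / 3 * ((n : ℝ) + 1) * ((n : ℝ) + 1) ^ (3 / 4 : ℝ) := by
  have h1 : ∑ k ∈ corB n, ((dB n (vtx k) : ℝ) + 1) ^ (-(1 / 4) : ℝ) =
      ∑ x ∈ Icc 0 (n : ℤ), ∑ y ∈ Icc 0 (n : ℤ), 4 * ft (dB n (x, y)) := by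
    unfold corB
    rw [Finset.sum_product]
    refine Finset.sum_congr rfl fun x _ => ?_
    rw [Finset.sum_product]
    refine Finset.sum_congr rfl fun y _ => ?_
    simp only [vtx, ft, Finset.sum_const, Finset.card_univ, Fintype.card_prod, Fintype.card_bool,
      nsmul_eq_mul]
    norm_num
  rw [h1]
  have h2 : ∑ x ∈ Icc 0 (n : ℤ), ∑ y ∈ Icc 0 (n : ℤ), 4 * ft (dB n (x, y)) ≤
      ∑ x ∈ Icc 0 (n : ℤ), ∑ y ∈ Icc 0 (n : ℤ),
        4 * ((ft x + ft (n - x)) + (ft y + ft (n - y))) := by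
    refine Finset.sum_le_sum fun x hx => Finset.sum_le_sum fun y hy => ?_
    rw [Finset.mem_Icc] at hx hy
    have := ft_dB_le hx hy
    linarith
  refine h2.trans ?_
  have hcard : ((Icc 0 (n : ℤ)).card : ℝ) = n + 1 := by
    rw [Int.card_Icc]
    have : ((n : ℤ) + 1 - 0).toNat = n + 1 := by omega
    rw [this]
    push_cast
    ring
  have h3 : ∑ x ∈ Icc 0 (n : ℤ), ∑ y ∈ Icc 0 (n : ℤ),
      4 * ((ft x + ft (n - x)) + (ft y + ft (n - y))) =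
      8 * (((n : ℝ) + 1) * (∑ x ∈ Icc 0 (n : ℤ), ft x + ∑ x ∈ Icc 0 (n : ℤ), ft (n - x))) := by
    simp only [← Finset.mul_sum, Finset.sum_add_distrib, Finset.sum_const, nsmul_eq_mul, hcard]
    ring
  rw [h3]
  have h4 := sum_ft n
  have h5 := sum_ft' n
  have hn : (0 : ℝ) ≤ (n : ℝ) + 1 := by positivity
  nlinarith [mul_le_mul_of_nonneg_left (add_le_add h4 h5) hn]

/-- Comparison of negative powers. -/
theorem rpow_le_two {x y : ℝ} (hx : 0 < x) (hxy : x ≤ 16 * y) :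
    y ^ (-(1 / 4) : ℝ) ≤ 2 * x ^ (-(1 / 4) : ℝ) := by
  have hy : 0 < y := by linarith
  have h1 : y ^ (-(1 / 4) : ℝ) ≤ (x / 16) ^ (-(1 / 4) : ℝ) :=
    Real.rpow_le_rpow_of_nonpos (by positivity) (by linarith) (by norm_num)
  have h2 : (x / 16) ^ (-(1 / 4) : ℝ) = 2 * x ^ (-(1 / 4) : ℝ) := by
    rw [Real.div_rpow hx.le (by norm_num), div_eq_mul_inv, mul_comm, ← Real.rpow_neg (by norm_num)]
    congr 1
    rw [show (16 : ℝ) = 2 ^ (4 : ℝ) by norm_num, ← Real.rpow_mul (by norm_num)]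
    norm_num
  rw [h2] at h1
  exact h1

/-- The bound for one corner. -/
theorem prB_corner_le {C : ℝ} (hC : ∀ R : ℤ, 1 ≤ R → p2 R ≤ C * (R : ℝ) ^ (-(1 / 4) : ℝ)) {n : ℕ}
    {D : ℝ} (hD : 1 ≤ D) (sel : Finset Edg → ℤ × ℤ) (B : Set (Finset Edg)) {β : ℝ}
    (hβ : prB n B ≤ β)
    (hB : ∀ (k : Cor) (R : ℤ), 1 ≤ R → R + 1 ≤ dB n (vtx k) → 4 * ((R : ℝ) + 2) ≤ D →
      pr (Sn n) {ω | ω ∈ TA R k ∧ cfgE n ω ∈ B} ≤ β * p2 R) {k : Cor} (hk : 0 ≤ dB n (vtx k)) :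
    prB n {T | k ∈ Oc (T : Set Ed) (sel T) ∧ D ≤ Metric.diam (clS T (sel T)) ∧ T ∈ B} ≤
      β * (2 * max C 1) * (D ^ (-(1 / 4) : ℝ) + ((dB n (vtx k) : ℝ) + 1) ^ (-(1 / 4) : ℝ)) := by
  have hβ0 : 0 ≤ β := (prB_nonneg n B).trans hβ
  have hM : 1 ≤ max C 1 := le_max_right _ _
  have hD0 : 0 ≤ D ^ (-(1 / 4) : ℝ) := by positivity
  have hk' : (0 : ℝ) ≤ dB n (vtx k) := by exact_mod_cast hk
  have hd0 : 0 ≤ ((dB n (vtx k) : ℝ) + 1) ^ (-(1 / 4) : ℝ) := by positivity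
  set R : ℤ := min (⌊D / 4⌋ - 2) (dB n (vtx k) - 1) with hR
  have hfl : (⌊D / 4⌋ : ℝ) ≤ D / 4 := Int.floor_le _
  have hfl' : D / 4 < ⌊D / 4⌋ + 1 := Int.lt_floor_add_one _
  by_cases hR1 : 1 ≤ R
  · have hRd : R + 1 ≤ dB n (vtx k) := by
      have := min_le_right (⌊D / 4⌋ - 2) (dB n (vtx k) - 1)
      omega
    have hRD : 4 * ((R : ℝ) + 2) ≤ D := by
      have h1 : R + 2 ≤ ⌊D / 4⌋ := by
        have := min_le_left (⌊D / 4⌋ - 2) (dB n (vtx k) - 1)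
        omega
      have h2 : ((R + 2 : ℤ) : ℝ) ≤ (⌊D / 4⌋ : ℝ) := by exact_mod_cast h1
      push_cast at h2
      linarith
    have h1 : prB n {T | k ∈ Oc (T : Set Ed) (sel T) ∧ D ≤ Metric.diam (clS T (sel T)) ∧ T ∈ B} ≤
        β * p2 R := by
      rw [← pr_Sn]
      refine (pr_mono _ fun ω hω => ?_).trans (hB k R hR1 hRd hRD)
      exact ⟨TA_of_outer hω.1 hω.2.1 hRd hR1 hRD, hω.2.2⟩
    have hR1' : (1 : ℝ) ≤ R := by exact_mod_cast hR1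
    have h2 : (R : ℝ) ^ (-(1 / 4) : ℝ) ≤
        2 * (D ^ (-(1 / 4) : ℝ) + ((dB n (vtx k) : ℝ) + 1) ^ (-(1 / 4) : ℝ)) := by
      rcases min_cases (⌊D / 4⌋ - 2) (dB n (vtx k) - 1) with ⟨h, _⟩ | ⟨h, _⟩
      · rw [h] at hR
        have h3 : (R : ℝ) = ⌊D / 4⌋ - 2 := by rw [hR]; push_cast; ring
        have h4 := rpow_le_two (x := D) (y := R) (by linarith) (by linarith)
        linarith
      · rw [h] at hR
        have h3 : (R : ℝ) = dB n (vtx k) - 1 := by rw [hR]; push_cast; ring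
        have h4 := rpow_le_two (x := (dB n (vtx k) : ℝ) + 1) (y := R) (by linarith) (by linarith)
        linarith
    have h5 : p2 R ≤ max C 1 * (R : ℝ) ^ (-(1 / 4) : ℝ) :=
      (hC R hR1).trans (mul_le_mul_of_nonneg_right (le_max_left _ _) (by positivity))
    calc _ ≤ β * p2 R := h1
      _ ≤ β * (max C 1 * (R : ℝ) ^ (-(1 / 4) : ℝ)) := mul_le_mul_of_nonneg_left h5 hβ0
      _ ≤ β * (max C 1 * (2 * (D ^ (-(1 / 4) : ℝ) +
            ((dB n (vtx k) : ℝ) + 1) ^ (-(1 / 4) : ℝ)))) :=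
          mul_le_mul_of_nonneg_left (mul_le_mul_of_nonneg_left h2 (by linarith)) hβ0
      _ = _ := by ring
  · have h1 : prB n {T | k ∈ Oc (T : Set Ed) (sel T) ∧ D ≤ Metric.diam (clS T (sel T)) ∧ T ∈ B} ≤
        β := (prB_mono fun T _ hT => hT.2.2).trans hβ
    have h2 : 1 ≤ 2 * (D ^ (-(1 / 4) : ℝ) + ((dB n (vtx k) : ℝ) + 1) ^ (-(1 / 4) : ℝ)) := by
      have hRlt : R < 1 := not_le.1 hR1
      rcases min_cases (⌊D / 4⌋ - 2) (dB n (vtx k) - 1) with ⟨h, _⟩ | ⟨h, _⟩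
      · rw [h] at hR
        have h3 : ⌊D / 4⌋ ≤ 2 := by omega
        have h3' : (⌊D / 4⌋ : ℝ) ≤ 2 := by exact_mod_cast h3
        have h4 := rpow_le_two (x := D) (y := 1) (by linarith) (by linarith)
        rw [Real.one_rpow] at h4
        linarith
      · rw [h] at hR
        have h3 : dB n (vtx k) ≤ 1 := by omega
        have h3' : (dB n (vtx k) : ℝ) ≤ 1 := by exact_mod_cast h3
        have h4 := rpow_le_two (x := (dB n (vtx k) : ℝ) + 1) (y := 1) (by linarith) (by linarith)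
        rw [Real.one_rpow] at h4
        linarith
    have h3 : 1 ≤ max C 1 * (2 * (D ^ (-(1 / 4) : ℝ) +
        ((dB n (vtx k) : ℝ) + 1) ^ (-(1 / 4) : ℝ))) := by
      nlinarith
    calc _ ≤ β := h1
      _ = β * 1 := (mul_one β).symm
      _ ≤ β * (max C 1 * (2 * (D ^ (-(1 / 4) : ℝ) +
            ((dB n (vtx k) : ℝ) + 1) ^ (-(1 / 4) : ℝ)))) := mul_le_mul_of_nonneg_left h3 hβ0
      _ = _ := by ring

theorem dB_nonneg {n : ℕ} {v : ℤ × ℤ} (hv : v ∈ Box n) : 0 ≤ dB n v := by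
  have h := DictB.mem_Box.1 hv
  unfold dB
  omega

theorem card_corB (n : ℕ) : ((corB n).card : ℝ) = 4 * ((n : ℝ) + 1) ^ 2 := by
  unfold corB
  rw [Finset.card_product, Finset.card_product, Int.card_Icc]
  have : ((n : ℤ) + 1 - 0).toNat = n + 1 := by omega
  rw [this]
  simp only [Finset.card_univ, Fintype.card_prod, Fintype.card_bool]
  push_cast
  ring

open Classical in
/-- The main estimate. -/
theorem up_general {C : ℝ} (hC : ∀ R : ℤ, 1 ≤ R → p2 R ≤ C * (R : ℝ) ^ (-(1 / 4) : ℝ)) {n : ℕ}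
    (hn : 1 ≤ n) {D : ℝ} (hD : 1 ≤ D) (hDn : D ≤ n) (sel : Finset Edg → ℤ × ℤ)
    (hsel : ∀ T ⊆ boxE n, sel T ∈ Box n) (B : Set (Finset Edg)) {β : ℝ} (hβ : prB n B ≤ β)
    (hB : ∀ (k : Cor) (R : ℤ), 1 ≤ R → R + 1 ≤ dB n (vtx k) → 4 * ((R : ℝ) + 2) ≤ D →
      pr (Sn n) {ω | ω ∈ TA R k ∧ cfgE n ω ∈ B} ≤ β * p2 R) :
    exB n (fun T => if D ≤ Metric.diam (clS T (sel T)) ∧ T ∈ B then
      (perim T (sel T) : ℝ) else 0) ≤
      β * (1000 * max C 1) * (n : ℝ) ^ 2 * D ^ (-(1 / 4) : ℝ) := by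
  have hβ0 : 0 ≤ β := (prB_nonneg n B).trans hβ
  have hM : 1 ≤ max C 1 := le_max_right _ _
  have hn' : (1 : ℝ) ≤ n := by exact_mod_cast hn
  have hD0 : 0 ≤ D ^ (-(1 / 4) : ℝ) := by positivity
  set E : Cor → Set (Finset Edg) := fun k =>
    {T | k ∈ Oc (T : Set Ed) (sel T) ∧ D ≤ Metric.diam (clS T (sel T)) ∧ T ∈ B} with hE
  have h1 : exB n (fun T => if D ≤ Metric.diam (clS T (sel T)) ∧ T ∈ B then
      (perim T (sel T) : ℝ) else 0) ≤
      exB n (fun T => ∑ k ∈ corB n, if T ∈ E k then (1 : ℝ) else 0) := by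
    refine exB_mono fun T hT => ?_
    by_cases hc : D ≤ Metric.diam (clS T (sel T)) ∧ T ∈ B
    · rw [if_pos hc]
      have h2 : (Oc (T : Set Ed) (sel T)).ncard ≤ ((corB n).filter fun k => T ∈ E k).card := by
        rw [← Set.ncard_coe_finset]
        refine Set.ncard_le_ncard (fun k hk => ?_) (Finset.finite_toSet _)
        rw [Finset.mem_coe, Finset.mem_filter, mem_corB]
        refine ⟨DictB.clV_box hT (hsel T hT) ?_, hk, hc.1, hc.2⟩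
        rw [clV_eq]
        exact hk.1
      have h3 := (PercO.perim_le hT (u := sel T)).trans h2
      have h4 : (perim T (sel T) : ℝ) ≤ (((corB n).filter fun k => T ∈ E k).card : ℝ) := by
        exact_mod_cast h3
      refine h4.trans (le_of_eq ?_)
      rw [Finset.card_filter]
      push_cast
      rfl
    · rw [if_neg hc]
      exact Finset.sum_nonneg fun k _ => by split_ifs <;> norm_num
  rw [exB_sum] at h1
  have h2 : ∑ k ∈ corB n, exB n (fun T => if T ∈ E k then (1 : ℝ) else 0) ≤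
      ∑ k ∈ corB n, β * (2 * max C 1) *
        (D ^ (-(1 / 4) : ℝ) + ((dB n (vtx k) : ℝ) + 1) ^ (-(1 / 4) : ℝ)) := by
    refine Finset.sum_le_sum fun k hk => ?_
    have e : exB n (fun T => if T ∈ E k then (1 : ℝ) else 0) = prB n (E k) := by
      convert exB_indicator n (E k)
    rw [e]
    exact prB_corner_le hC hD sel B hβ hB (dB_nonneg (mem_corB.1 hk))
  have h3 : ∑ k ∈ corB n, β * (2 * max C 1) *
        (D ^ (-(1 / 4) : ℝ) + ((dB n (vtx k) : ℝ) + 1) ^ (-(1 / 4) : ℝ)) =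
      β * (2 * max C 1) * (4 * ((n : ℝ) + 1) ^ 2 * D ^ (-(1 / 4) : ℝ) +
        ∑ k ∈ corB n, ((dB n (vtx k) : ℝ) + 1) ^ (-(1 / 4) : ℝ)) := by
    rw [← Finset.mul_sum, Finset.sum_add_distrib, Finset.sum_const, nsmul_eq_mul, card_corB]
  have h4 := sum_dB_le n
  -- powers of `n`
  have h5 : ((n : ℝ) + 1) ^ (3 / 4 : ℝ) ≤ 2 * (n : ℝ) ^ (3 / 4 : ℝ) := by
    have h6 : ((n : ℝ) + 1) ^ (3 / 4 : ℝ) ≤ (2 * (n : ℝ)) ^ (3 / 4 : ℝ) :=
      Real.rpow_le_rpow (by positivity) (by linarith) (by norm_num)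
    rw [Real.mul_rpow (by norm_num) (by positivity)] at h6
    have h7 : (2 : ℝ) ^ (3 / 4 : ℝ) ≤ 2 := by
      have := Real.rpow_le_rpow_of_exponent_le (x := (2 : ℝ)) (by norm_num)
        (show (3 / 4 : ℝ) ≤ 1 by norm_num)
      rwa [Real.rpow_one] at this
    exact h6.trans (mul_le_mul_of_nonneg_right h7 (by positivity))
  have h6 : (n : ℝ) * (n : ℝ) ^ (3 / 4 : ℝ) ≤ (n : ℝ) ^ 2 * D ^ (-(1 / 4) : ℝ) := by
    have h7 : (n : ℝ) ^ (-(1 / 4) : ℝ) ≤ D ^ (-(1 / 4) : ℝ) :=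
      Real.rpow_le_rpow_of_nonpos (by linarith) hDn (by norm_num)
    have h8 : (n : ℝ) * (n : ℝ) ^ (3 / 4 : ℝ) = (n : ℝ) ^ 2 * (n : ℝ) ^ (-(1 / 4) : ℝ) := by
      rw [← Real.rpow_natCast (n : ℝ) 2, ← Real.rpow_add (by linarith)]
      nth_rewrite 1 [← Real.rpow_one (n : ℝ)]
      rw [← Real.rpow_add (by linarith)]
      norm_num
    rw [h8]
    exact mul_le_mul_of_nonneg_left h7 (by positivity)
  have h7 : 64 / 3 * ((n : ℝ) + 1) * ((n : ℝ) + 1) ^ (3 / 4 : ℝ) ≤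
      256 / 3 * ((n : ℝ) ^ 2 * D ^ (-(1 / 4) : ℝ)) := by
    have h8 : ((n : ℝ) + 1) * ((n : ℝ) + 1) ^ (3 / 4 : ℝ) ≤
        (2 * n) * (2 * (n : ℝ) ^ (3 / 4 : ℝ)) :=
      mul_le_mul (by linarith) h5 (by positivity) (by positivity)
    nlinarith
  have h8 : 4 * ((n : ℝ) + 1) ^ 2 * D ^ (-(1 / 4) : ℝ) ≤
      16 * ((n : ℝ) ^ 2 * D ^ (-(1 / 4) : ℝ)) := by
    have h9 : ((n : ℝ) + 1) ^ 2 ≤ 4 * (n : ℝ) ^ 2 := by nlinarith
    nlinarith
  have hX : 0 ≤ (n : ℝ) ^ 2 * D ^ (-(1 / 4) : ℝ) := by positivity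
  have h9 : 4 * ((n : ℝ) + 1) ^ 2 * D ^ (-(1 / 4) : ℝ) +
        ∑ k ∈ corB n, ((dB n (vtx k) : ℝ) + 1) ^ (-(1 / 4) : ℝ) ≤
      500 * ((n : ℝ) ^ 2 * D ^ (-(1 / 4) : ℝ)) := by linarith
  calc _ ≤ _ := h1
    _ ≤ _ := h2
    _ = _ := h3
    _ ≤ β * (2 * max C 1) * (500 * ((n : ℝ) ^ 2 * D ^ (-(1 / 4) : ℝ))) :=
        mul_le_mul_of_nonneg_left h9 (by positivity)
    _ = _ := by ring

open Classical in
/-- The expected perimeter of the selected cluster, if its diameter is at least `D`. -/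
theorem up_diam {C : ℝ} (hC : ∀ R : ℤ, 1 ≤ R → p2 R ≤ C * (R : ℝ) ^ (-(1 / 4) : ℝ)) :
    ∃ C' : ℝ, ∀ n : ℕ, 1 ≤ n → ∀ D : ℝ, 1 ≤ D → D ≤ n → ∀ sel : Finset Edg → ℤ × ℤ,
      (∀ T ⊆ boxE n, sel T ∈ Box n) →
      exB n (fun T => if D ≤ Metric.diam (clS T (sel T)) then (perim T (sel T) : ℝ) else 0) ≤
        C' * (n : ℝ) ^ 2 * D ^ (-(1 / 4) : ℝ) := by
  refine ⟨1000 * max C 1, fun n hn D hD hDn sel hsel => ?_⟩
  have h := up_general hC hn hD hDn sel hsel Set.univ (β := 1) (prB_le_one _ _)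
    (fun k R hR hRd _ => ?_)
  · simp only [Set.mem_univ, and_true, one_mul] at h
    exact h
  · rw [one_mul, ← pr_TA k (ball_sub_Sn hRd)]
    exact pr_mono _ fun ω hω => hω.1

end Pool.Agent.PercX60
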