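import Pool.Agent.Lib.MP_6bd702_pr_h60.C1Bridge

/-!
# Two strands and a corridor across an annulus: deterministic part
-/

set_option autoImplicit false

namespace Pool.Agent.PercS5

open Relation
open Pool.Agent.Perc Pool.Agent.Perc3 Pool.Agent.PercD

variable {ω : Cfg} {L w L' w' d D : ℤ} {M : ℕ}

/-- Two different strands cross the annulus between the box of radius `d` and the rectangle
`[-L, L] × [-w, w]`, and a corridor with at most `M` corners is at distance more than `D` from both.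
-/
def Av (L w d D : ℤ) (M : ℕ) : Set Cfg :=
  {ω | ∃ s s' : UE, BdE (-d) d (-d) d s ∧ BdE (-d) d (-d) d s' ∧ s' ∉ MM ω (AnF L w d) s ∧
    (∃ t ∈ MM ω (AnF L w d) s, BdE (-L) L (-w) w t) ∧
    (∃ t ∈ MM ω (AnF L w d) s', BdE (-L) L (-w) w t) ∧
    ∃ (u : ℤ × ℤ) (l : List (ℤ × ℤ)), Corr L w d u l ∧ l.length ≤ M ∧
      ∀ f ∈ SS ω (AnF L w d) s ∪ SS ω (AnF L w d) s', FarP D u l f}

/-- A strand of a unit edge of the inner box reaches the boundary, and a corridor with at most `M`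
corners is at distance more than `D` from it. -/
def Ev (L w d D : ℤ) (M : ℕ) : Set Cfg :=
  {ω | ∃ e : UE, InE (0, 0) d e ∧ (∃ t ∈ MM ω (RF (-L) L (-w) w) e, BdE (-L) L (-w) w t) ∧
    ∃ (u : ℤ × ℤ) (l : List (ℤ × ℤ)), Corr L w d u l ∧ l.length ≤ M ∧
      ∀ f ∈ SS ω (RF (-L) L (-w) w) e, FarP D u l f}

/-! ### Trimming corridors -/

theorem trim' (l : List (ℤ × ℤ)) : ∀ u : ℤ × ℤ, |u.1| ≤ L → |u.2| ≤ w → Rectil u l →
    ¬ (|(lst u l).1| ≤ L ∧ |(lst u l).2| ≤ w) →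
    ∃ l', Rectil u l' ∧ l'.length ≤ l.length ∧ Init (fun p => |p.1| ≤ L ∧ |p.2| ≤ w) u l' ∧
      ((|(lst u l').1| ≤ L ∧ |(lst u l').2| = w + 1) ∨
        (|(lst u l').1| = L + 1 ∧ |(lst u l').2| ≤ w)) ∧ ∀ a, OnPath u l' a → OnPath u l a := by
  induction l with
  | nil => intro u h1 h2 _ h3; exact absurd ⟨h1, h2⟩ h3
  | cons v l ih =>
    intro u h1 h2 h h3
    by_cases hv : |v.1| ≤ L ∧ |v.2| ≤ w
    · obtain ⟨l', k1, k2, k3, k4, k5⟩ := ih v hv.1 hv.2 h.2 h3
      exact ⟨v :: l', ⟨h.1, k1⟩, by simpa using k2, ⟨⟨h1, h2⟩, k3⟩, k4, fun a ha =>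
        ha.imp id (k5 a)⟩
    · have hax := h.1
      have key : ∀ v' : ℤ × ℤ, (u.1 = v'.1 ∨ u.2 = v'.2) →
          (∀ a, OnSeg u v' a → OnSeg u v a) →
          ((|v'.1| ≤ L ∧ |v'.2| = w + 1) ∨ (|v'.1| = L + 1 ∧ |v'.2| ≤ w)) →
          ∃ l', Rectil u l' ∧ l'.length ≤ (v :: l).length ∧
            Init (fun p => |p.1| ≤ L ∧ |p.2| ≤ w) u l' ∧
            ((|(lst u l').1| ≤ L ∧ |(lst u l').2| = w + 1) ∨
              (|(lst u l').1| = L + 1 ∧ |(lst u l').2| ≤ w)) ∧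
              ∀ a, OnPath u l' a → OnPath u (v :: l) a := by
        intro v' k1 k2 k3
        refine ⟨[v'], ⟨k1, trivial⟩, by simp, ⟨⟨h1, h2⟩, trivial⟩, k3, fun a ha => Or.inl ?_⟩
        rcases ha with ha | ha
        · exact k2 a ha
        · exact absurd ha (by simp [OnPath])
      rw [abs_le] at h1 h2
      rw [abs_le, abs_le] at hv
      rcases hax with hax | hax
      · rcases lt_or_ge w v.2 with hw | hw
        · refine key (u.1, w + 1) (Or.inl rfl) ?_ (Or.inl ⟨?_, ?_⟩)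
          · rintro a (⟨h0, ha⟩ | ⟨h0, ha⟩)
            · left; simp only at ha; exact ⟨h0, by omega⟩
            · right; simp only at ha; exact ⟨h0, by omega⟩
          · simp only; rw [abs_le]; omega
          · simp only; rw [abs_of_nonneg (by omega)]
        · refine key (u.1, -(w + 1)) (Or.inl rfl) ?_ (Or.inl ⟨?_, ?_⟩)
          · rintro a (⟨h0, ha⟩ | ⟨h0, ha⟩)
            · left; simp only at ha; exact ⟨h0, by omega⟩
            · right; simp only at ha; exact ⟨h0, by omega⟩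
          · simp only; rw [abs_le]; omega
          · simp only; rw [abs_neg, abs_of_nonneg (by omega)]
      · rcases lt_or_ge L v.1 with hw | hw
        · refine key (L + 1, u.2) (Or.inr rfl) ?_ (Or.inr ⟨?_, ?_⟩)
          · rintro a (⟨h0, ha⟩ | ⟨h0, ha⟩)
            · left; simp only at ha; exact ⟨h0, by omega⟩
            · right; simp only at ha; exact ⟨h0, by omega⟩
          · simp only; rw [abs_of_nonneg (by omega)]
          · simp only; rw [abs_le]; omega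
        · refine key (-(L + 1), u.2) (Or.inr rfl) ?_ (Or.inr ⟨?_, ?_⟩)
          · rintro a (⟨h0, ha⟩ | ⟨h0, ha⟩)
            · left; simp only at ha; exact ⟨h0, by omega⟩
            · right; simp only at ha; exact ⟨h0, by omega⟩
          · simp only; rw [abs_neg, abs_of_nonneg (by omega)]
          · simp only; rw [abs_le]; omega

theorem FarP.mono_path {u : ℤ × ℤ} {l l' : List (ℤ × ℤ)} {f : ℤ × ℤ}
    (h : ∀ a, OnPath u l' a → OnPath u l a) (hf : FarP D u l f) : FarP D u l' f :=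
  fun a ha => hf a (h a ha)

/-- A corridor in a smaller rectangle. -/
theorem corr_trim {u : ℤ × ℤ} {l : List (ℤ × ℤ)} (h : Corr L w d u l) (hL : L' ≤ L)
    (hw : w' ≤ w) (hdL : d ≤ L') (hdw : d ≤ w') :
    ∃ l', Corr L' w' d u l' ∧ l'.length ≤ l.length ∧ ∀ a, OnPath u l' a → OnPath u l a := by
  have h1 := h.inn
  have h2 := h.out
  obtain ⟨l', k1, k2, k3, k4, k5⟩ := trim' (L := L') (w := w') l u (by omega) (by omega) h.rect
    (by omega)
  exact ⟨l', ⟨k1, h1, k3, k4⟩, k2, k5⟩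

/-! ### The closed rectangle -/

/-- The unit edge is in the closed rectangle `[-L, L] × [-w, w]`. -/
def InK (L w : ℤ) (a : UE) : Prop := InR (-L) L (-w) w (ua a) ∧ InR (-L) L (-w) w (ub a)

theorem inK_of_side {f : ℤ × ℤ} {a : UE} (hf : f ∈ AnF L w d) (hs : IsSide f a) : InK L w a := by
  rw [mem_AnF] at hf
  obtain ⟨x, y⟩ := f
  unfold InK InR
  rcases hs with rfl | rfl | rfl | rfl
  · simp only [bo, ua_mk, ub_false] at hf ⊢; omega
  · simp only [le', ua_mk, ub_true] at hf ⊢; omega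
  · simp only [to', ua_mk, ub_false] at hf ⊢; omega
  · simp only [ri, ua_mk, ub_true] at hf ⊢; omega

theorem inK_of_bd {s : UE} (hs : BdE (-d) d (-d) d s) (hdL : d ≤ L) (hdw : d ≤ w) :
    InK L w s := by
  obtain ⟨x, y, t⟩ := s
  unfold BdE at hs
  unfold InK InR
  simp only at hs
  rcases hs with ⟨rfl, h1, h2, h3⟩ | ⟨rfl, h1, h2, h3⟩
  · simp only [ua_mk, ub_false]; omega
  · simp only [ua_mk, ub_true]; omega

theorem MM_inK {s a : UE} (hs : InK L w s) (ha : a ∈ MM ω (AnF L w d) s) : InK L w a := by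
  induction ha with
  | refl => exact hs
  | tail _ hs _ =>
    obtain ⟨f, hf, hm⟩ := hs
    exact inK_of_side (Finset.mem_coe.1 hf) hm.right

theorem bdE_of_side {f : ℤ × ℤ} {a : UE} (ha : InK L w a) (hs : IsSide f a)
    (hf : ¬ (-L ≤ f.1 ∧ f.1 < L ∧ -w ≤ f.2 ∧ f.2 < w)) : BdE (-L) L (-w) w a := by
  obtain ⟨x, y⟩ := f
  unfold InK InR at ha
  unfold BdE
  rcases hs with rfl | rfl | rfl | rfl
  · simp only [bo, ua_mk, ub_false] at ha ⊢
    simp at hf ⊢
    omega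
  · simp only [le', ua_mk, ub_true] at ha ⊢
    simp at hf ⊢
    omega
  · simp only [to', ua_mk, ub_false] at ha ⊢
    simp at hf ⊢
    omega
  · simp only [ri, ua_mk, ub_true] at ha ⊢
    simp at hf ⊢
    omega

theorem out_of_bdE {a : UE} (h : BdE (-L) L (-w) w a) :
    ∃ f : ℤ × ℤ, ¬ (-L ≤ f.1 ∧ f.1 < L ∧ -w ≤ f.2 ∧ f.2 < w) ∧ IsSide f a := by
  obtain ⟨x, y, t⟩ := a
  unfold BdE at h
  simp only at h
  rcases h with ⟨rfl, h1, h2, h3⟩ | ⟨rfl, h1, h2, h3⟩
  · rcases h3 with h3 | h3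
    · refine ⟨(x, y - 1), ?_, Or.inr (Or.inr (Or.inl ?_))⟩
      · simp only; omega
      · simp [to']
    · exact ⟨(x, y), by simp only; omega, Or.inl rfl⟩
  · rcases h3 with h3 | h3
    · refine ⟨(x - 1, y), ?_, Or.inr (Or.inr (Or.inr ?_))⟩
      · simp only; omega
      · simp [ri]
    · exact ⟨(x, y), by simp only; omega, Or.inr (Or.inl rfl)⟩

theorem AnF_sub (hL : L' ≤ L) (hw : w' ≤ w) :
    (AnF L' w' d : Set (ℤ × ℤ)) ⊆ (AnF L w d : Set (ℤ × ℤ)) := by
  intro f hf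
  rw [Finset.mem_coe, mem_AnF] at hf ⊢
  omega

/-- Reaching the boundary of a smaller rectangle. -/
theorem reach_mono {s : UE} (hs : BdE (-d) d (-d) d s) (hL : L' ≤ L) (hw : w' ≤ w) (hdL : d ≤ L')
    (hdw : d ≤ w') (h : ∃ t ∈ MM ω (AnF L w d) s, BdE (-L) L (-w) w t) :
    ∃ t ∈ MM ω (AnF L' w' d) s, BdE (-L') L' (-w') w' t := by
  obtain ⟨t, ht, htb⟩ := h
  have hK := inK_of_bd (L := L') (w := w') hs hdL hdw
  rcases first_exit' (F := (AnF L' w' d : Set (ℤ × ℤ))) ht with h1 | ⟨b, hb, f, hf, hf', hsd⟩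
  · obtain ⟨f, hf, hsd⟩ := out_of_bdE htb
    exact ⟨t, h1, bdE_of_side (MM_inK hK h1) hsd (by omega)⟩
  · refine ⟨b, hb, bdE_of_side (MM_inK hK hb) hsd ?_⟩
    rw [Finset.mem_coe, mem_AnF] at hf hf'
    omega

theorem Av_mono (hL : L' ≤ L) (hw : w' ≤ w) (hdL : d ≤ L') (hdw : d ≤ w') :
    Av L w d D M ⊆ Av L' w' d D M := by
  rintro ω ⟨s, s', hs, hs', hne, ht, ht', u, l, hc, hl, hfar⟩
  have hsub := AnF_sub (d := d) hL hw
  obtain ⟨l', k1, k2, k3⟩ := corr_trim hc hL hw hdL hdw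
  refine ⟨s, s', hs, hs', fun h => hne (MM_mono hsub h), reach_mono hs hL hw hdL hdw ht,
    reach_mono hs' hL hw hdL hdw ht', u, l', k1, k2.trans hl, fun f hf => ?_⟩
  refine FarP.mono_path k3 (hfar f ?_)
  rcases hf with ⟨hf, a, ha, hsd⟩ | ⟨hf, a, ha, hsd⟩
  · exact Or.inl ⟨hsub hf, a, MM_mono hsub ha, hsd⟩
  · exact Or.inr ⟨hsub hf, a, MM_mono hsub ha, hsd⟩

/-! ### Three tips -/

/-- A component contains at most two unit edges with a side face outside. -/
theorem tips_gen {F : Set (ℤ × ℤ)} {t t' t'' : UE} (h1 : t' ∈ MM ω F t) (h2 : t'' ∈ MM ω F t)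
    (b : ∃ s, Tips.ahead (t, s) ∉ F) (b' : ∃ s, Tips.ahead (t', s) ∉ F)
    (b'' : ∃ s, Tips.ahead (t'', s) ∉ F) : t = t' ∨ t = t'' ∨ t' = t'' := by
  obtain ⟨s₀, hs₀⟩ := b
  have key : ∀ x, x ∈ MM ω F t → x ≠ t → (∃ s, Tips.ahead (x, s) ∉ F) →
      ∃ dd, Relation.ReflTransGen (Tips.R ω F) (t, !s₀) (x, dd) ∧ Tips.ahead (x, dd) ∉ F := by
    rintro x hx hne ⟨s₁, hs₁⟩
    obtain ⟨s, dd, h⟩ := Tips.reach hx
    have hss : s = !s₀ := by
      by_contra hcon
      have : s = s₀ := by cases s <;> cases s₀ <;> simp_all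
      subst this
      rcases Relation.ReflTransGen.cases_head h with h' | ⟨E, hE, -⟩
      · simp only [Prod.mk.injEq] at h'
        exact hne h'.1.symm
      · exact hs₀ hE.1
    subst hss
    refine ⟨dd, h, ?_⟩
    rcases Relation.ReflTransGen.cases_tail h with h' | ⟨B, hB, hBF, hB2⟩
    · simp only [Prod.mk.injEq] at h'
      exact absurd h'.1 hne
    · have h1 : Tips.ahead (x, !dd) ∈ F := by
        have := Tips.ahead_rv_nx ω B
        rw [← hB2] at this
        have e : Tips.rv (x, dd) = (x, !dd) := rfl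
        rw [e] at this
        rw [this]
        exact hBF
      have : s₁ ≠ !dd := by
        intro h'
        rw [h'] at hs₁
        exact hs₁ h1
      have : s₁ = dd := by cases s₁ <;> cases dd <;> simp_all
      rw [← this]
      exact hs₁
  by_cases e1 : t = t'
  · exact Or.inl e1
  by_cases e2 : t = t''
  · exact Or.inr (Or.inl e2)
  obtain ⟨d1, k1, k2⟩ := key t' h1 (Ne.symm e1) b'
  obtain ⟨d2, k3, k4⟩ := key t'' h2 (Ne.symm e2) b''
  exact Or.inr (Or.inr (congrArg Prod.fst (Tips.eq_of_terminal k1 k3 k2 k4)))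

theorem ahead_out_outer {t : UE} (h : BdE (-L) L (-w) w t) :
    ∃ s, Tips.ahead (t, s) ∉ (AnF L w d : Set (ℤ × ℤ)) := by
  obtain ⟨x, y, b⟩ := t
  unfold BdE at h
  simp only at h
  rcases h with ⟨rfl, h1, h2, h3⟩ | ⟨rfl, h1, h2, h3⟩
  · rcases h3 with h3 | h3
    · exact ⟨false, by simp only [Tips.ahead]; rw [Finset.mem_coe, mem_AnF]; simp only; omega⟩
    · exact ⟨true, by simp only [Tips.ahead]; rw [Finset.mem_coe, mem_AnF]; simp only; omega⟩
  · rcases h3 with h3 | h3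
    · exact ⟨false, by simp only [Tips.ahead]; rw [Finset.mem_coe, mem_AnF]; simp only; omega⟩
    · exact ⟨true, by simp only [Tips.ahead]; rw [Finset.mem_coe, mem_AnF]; simp only; omega⟩

theorem ahead_out_inner {t : UE} (h : BdE (-d) d (-d) d t) :
    ∃ s, Tips.ahead (t, s) ∉ (AnF L w d : Set (ℤ × ℤ)) := by
  obtain ⟨x, y, b⟩ := t
  unfold BdE at h
  simp only at h
  rcases h with ⟨rfl, h1, h2, h3⟩ | ⟨rfl, h1, h2, h3⟩
  · rcases h3 with h3 | h3
    · exact ⟨true, by simp only [Tips.ahead]; rw [Finset.mem_coe, mem_AnF]; simp only; omega⟩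
    · exact ⟨false, by simp only [Tips.ahead]; rw [Finset.mem_coe, mem_AnF]; simp only; omega⟩
  · rcases h3 with h3 | h3
    · exact ⟨true, by simp only [Tips.ahead]; rw [Finset.mem_coe, mem_AnF]; simp only; omega⟩
    · exact ⟨false, by simp only [Tips.ahead]; rw [Finset.mem_coe, mem_AnF]; simp only; omega⟩

/-- The inner and the outer boundary have no common unit edge. -/
theorem bdE_ne {s t : UE} (hs : BdE (-d) d (-d) d s) (ht : BdE (-L) L (-w) w t) (hdL : d < L)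
    (hdw : d < w) : s ≠ t := by
  rintro rfl
  unfold BdE at hs ht
  rcases hs with ⟨h0, h⟩ | ⟨h0, h⟩ <;> rcases ht with ⟨h0', h'⟩ | ⟨h0', h'⟩
  · omega
  · rw [h0] at h0'; exact absurd h0' (by decide)
  · rw [h0] at h0'; exact absurd h0' (by decide)
  · omega

/-- The box event implies the annulus event. -/
theorem Ev_sub_Av (hd : 0 < d) (hdL : d < L) (hdw : d < w) : Ev L w d D M ⊆ Av L w d D M := by
  rintro ω ⟨e, he, ⟨t, ht, htb⟩, u, l, hc, hl, hfar⟩
  obtain ⟨t', ht', htb', hne⟩ := Pool.Agent.PercT.exists_other (x₀ := -L) (x₁ := L)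
    (y₀ := -w) (y₁ := w) (by omega) (by omega) ht htb
  have hset : ((RF (-L) L (-w) w : Finset (ℤ × ℤ)) : Set (ℤ × ℤ)) \ BR (0, 0) d =
      (AnF L w d : Set (ℤ × ℤ)) := by
    ext f
    rw [Set.mem_sdiff, mem_RF', mem_BR', Finset.mem_coe, mem_AnF]
    simp only
    omega
  have hBd : ∀ s, BdR (0, 0) d s → BdE (-d) d (-d) d s := by
    intro s h
    unfold BdR at h
    simpa using h
  have key : ∀ t, t ∈ MM ω (RF (-L) L (-w) w) e → BdE (-L) L (-w) w t →
      ∃ s ∈ MM ω (RF (-L) L (-w) w) e, BdE (-d) d (-d) d s ∧ t ∈ MM ω (AnF L w d) s := by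
    intro t ht htb
    rcases last_exit' he ht with h | ⟨s, hsM, hs, hst⟩
    · exfalso
      unfold InE InR at h
      unfold BdE at htb
      obtain ⟨x, y, b⟩ := t
      simp only at h htb
      rcases htb with ⟨rfl, h1, h2, h3⟩ | ⟨rfl, h1, h2, h3⟩
      · simp only [ua_mk, ub_false] at h; omega
      · simp only [ua_mk, ub_true] at h; omega
    · rw [hset] at hst
      exact ⟨s, hsM, hBd s hs, hst⟩
  obtain ⟨s, hsM, hs, hst⟩ := key t ht htb
  obtain ⟨s', hsM', hs', hst'⟩ := key t' ht' htb'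
  have hsub : (AnF L w d : Set (ℤ × ℤ)) ⊆ (RF (-L) L (-w) w : Finset (ℤ × ℤ)) := by
    rw [← hset]; exact Set.sdiff_subset
  refine ⟨s, s', hs, hs', ?_, ⟨t, hst, htb⟩, ⟨t', hst', htb'⟩, u, l, hc, hl, fun f hf => hfar f ?_⟩
  · intro h
    -- three tips `s`, `t`, `t'`
    have h1 : t' ∈ MM ω (AnF L w d) s := MM_trans h hst'
    rcases tips_gen hst h1 (ahead_out_inner hs) (ahead_out_outer htb) (ahead_out_outer htb') with
      h2 | h2 | h2
    · exact bdE_ne hs htb hdL hdw h2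
    · exact bdE_ne hs htb' hdL hdw h2
    · exact hne h2.symm
  · rcases hf with ⟨hf, a, ha, hsd⟩ | ⟨hf, a, ha, hsd⟩
    · exact ⟨hsub hf, a, MM_trans hsM (MM_mono hsub ha), hsd⟩
    · exact ⟨hsub hf, a, MM_trans hsM' (MM_mono hsub ha), hsd⟩

/-! ### The lateral event -/

/-- A strand of the inner boundary comes near the lateral sides. -/
def LatA (L w d X : ℤ) : Set Cfg :=
  {ω | ∃ s, BdE (-d) d (-d) d s ∧ ∃ a ∈ MM ω (AnF L w d) s, X ≤ (ua a).1 ∨ (ub a).1 ≤ -X}

/-- Without the lateral event the strands start at the upper and lower sides. -/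
theorem corrU_of_Av (h : ω ∈ Av L w d D M) (hLat : ω ∉ LatA L w d L) :
    ω ∈ CorrU L w d D M := by
  obtain ⟨s, s', hs, hs', hne, ⟨t, ht, htb⟩, ⟨t', ht', htb'⟩, u, l, hc, hl, hfar⟩ := h
  have key : ∀ s t, BdE (-d) d (-d) d s → t ∈ MM ω (AnF L w d) s → BdE (-L) L (-w) w t →
      t ∈ TBF L w := by
    intro s t hs ht htb
    obtain ⟨x, y, b⟩ := t
    unfold BdE at htb
    simp only at htb
    rcases htb with ⟨rfl, h1, h2, h3⟩ | ⟨rfl, h1, h2, h3⟩
    · rw [mem_TBF]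
      exact ⟨h1, h2, h3, rfl⟩
    · exfalso
      refine hLat ⟨s, hs, _, ht, ?_⟩
      rw [ua_mk, ub_true]
      simp only
      rcases h3 with h3 | h3
      · right; omega
      · left; omega
  refine ⟨t, key s t hs ht htb, t', key s' t' hs' ht' htb', ?_, ⟨s, MM_symm ht, hs⟩,
    ⟨s', MM_symm ht', hs'⟩, u, l, hc, hl, ?_⟩
  · rintro rfl
    exact hne (MM_trans ht (MM_symm ht'))
  · intro f hf
    refine hfar f ?_
    unfold SS at hf ⊢
    rw [MM_eq ht, MM_eq ht'] at hf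
    exact hf

end Pool.Agent.PercS5
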