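import Pool.Agent.Lib.MP_6bd702_pr_h60.Perim
import Pool.Agent.Lib.MP_6bd702_perc.Dict

/-!
# Two arms of a corner in the face grid
-/

set_option autoImplicit false

namespace Pool.Agent.PercX60

open Pool.Agent.Perc Pool.Agent.PercU
open Pool.Agent.MP_6bd702.H23 (Ed ea eb du cr dc f1 f2)

/-! ### Transposition and translation -/

theorem bond_tr (a b : ℤ) {ω : Cfg} {F F' : Set (ℤ × ℤ)}
    (hF : ∀ x ∈ F, (x.2 + a, x.1 + b) ∈ F') {u v : ℤ × ℤ}
    (h : Bond (fun x => ω (x.2 + a, x.1 + b)) F u v) :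
    Bond ω F' (u.2 + a, u.1 + b) (v.2 + a, v.1 + b) := by
  obtain ⟨x, y, hf, h | h⟩ := h
  · refine ⟨y + a, x + b, hF _ hf, Or.inl ⟨h.1, ?_⟩⟩
    rcases h.2 with ⟨rfl, rfl⟩ | ⟨rfl, rfl⟩
    · left; simp only [Prod.mk.injEq, true_and]; omega
    · right; simp only [Prod.mk.injEq, and_true]; omega
  · refine ⟨y + a, x + b, hF _ hf, Or.inr ⟨h.1, ?_⟩⟩
    rcases h.2 with ⟨rfl, rfl⟩ | ⟨rfl, rfl⟩
    · right; simp only [Prod.mk.injEq, true_and, and_true]; omega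
    · left; simp only [Prod.mk.injEq, true_and, and_true]; omega

theorem toBd_tr (a b R : ℤ) {ω : Cfg} {u : ℤ × ℤ}
    (h : ToBd (-R) R (-R) R (fun x => ω (x.2 + a, x.1 + b)) u) :
    ToBd (a - R) (a + R) (b - R) (b + R) ω (u.2 + a, u.1 + b) := by
  obtain ⟨v, hv, h1, h2, h3, h4, h5⟩ := h
  refine ⟨(v.2 + a, v.1 + b), GridA.conn_lift (fun x => (x.2 + a, x.1 + b))
    (fun _ _ hb => bond_tr a b (fun x hx => ?_) hb) hv, ?_, ?_, ?_, ?_, ?_⟩
  · simp only [RF, Finset.coe_product, Finset.coe_Ico, Set.mem_prod, Set.mem_Ico] at hx ⊢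
    omega
  · simp only
    omega
  all_goals simp only; omega

theorem toBd_tr_iff (a b R : ℤ) {ω : Cfg} {u : ℤ × ℤ} :
    ToBd (-R) R (-R) R (fun x => ω (x.2 + a, x.1 + b)) u ↔
      ToBd (a - R) (a + R) (b - R) (b + R) ω (u.2 + a, u.1 + b) := by
  refine ⟨toBd_tr a b R, fun h => ?_⟩
  -- translate back first
  have e1 : a - R = -R + a := by ring
  have e2 : a + R = R + a := by ring
  have e3 : b - R = -R + b := by ring
  have e4 : b + R = R + b := by ring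
  have h1 : ToBd (-R) R (-R) R (shiftC a b ω) (u.2, u.1) := by
    rw [DictA.toBd_shift, ← e1, ← e2, ← e3, ← e4]
    exact h
  have h2 := toBd_tr (ω := fun x => ω (x.2 + a, x.1 + b)) 0 0 R (u := (u.2, u.1)) (by
    have : (fun x : ℤ × ℤ => (fun x : ℤ × ℤ => ω (x.2 + a, x.1 + b)) (x.2 + 0, x.1 + 0))
        = shiftC a b ω := by
      funext x
      simp only [shiftC, add_zero]
    rw [this]
    exact h1)
  simpa using h2

/-- Two arms of the horizontal unit edge at `(a, b)`. -/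
theorem pr_H {R a b : ℤ} {S : Finset (ℤ × ℤ)} (hS : RF (a - R) (a + R) (b - R) (b + R) ⊆ S) :
    pr S {ω | ToBd (a - R) (a + R) (b - R) (b + R) ω (a, b) ∧
      ToBd (a - R) (a + R) (b - R) (b + R) ω (a + 1, b)} = p2 R := by
  have h1 : {ω : Cfg | ToBd (a - R) (a + R) (b - R) (b + R) ω (a, b) ∧
      ToBd (a - R) (a + R) (b - R) (b + R) ω (a + 1, b)}
      = {ω : Cfg | (fun x : ℤ × ℤ => ω (x.1 + a, x.2 + b)) ∈ twoArm R} := by
    ext ω
    show _ ↔ (ToBd (-R) R (-R) R (shiftC a b ω) (0, 0) ∧ ToBd (-R) R (-R) R (shiftC a b ω) (1, 0))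
    rw [DictA.toBd_shift, DictA.toBd_shift]
    have e1 : -R + a = a - R := by ring
    have e2 : R + a = a + R := by ring
    have e3 : -R + b = b - R := by ring
    have e4 : R + b = b + R := by ring
    have e6 : ((1, 0) : ℤ × ℤ).1 + a = a + 1 := by show (1 : ℤ) + a = a + 1; ring
    have e7 : ((1, 0) : ℤ × ℤ).2 + b = b := by show (0 : ℤ) + b = b; ring
    have e8 : ((0, 0) : ℤ × ℤ).1 + a = a := by show (0 : ℤ) + a = a; ring
    rw [e1, e2, e3, e4, e6, e7, e8]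
    rfl
  rw [h1, p2]
  refine pr_comp (S := RF (-R) R (-R) R) (S' := S) (f := fun x : ℤ × ℤ => (x.1 + a, x.2 + b))
    ?_ ?_ (depOn_twoArm R)
  · intro x _ y _ h
    simp only [Prod.mk.injEq, add_left_inj] at h
    exact Prod.ext h.1 h.2
  · intro x hx
    apply hS
    simp only [RF, Finset.mem_product, Finset.mem_Ico] at hx ⊢
    omega

/-- Two arms of the vertical unit edge at `(a, b)`. -/
theorem pr_V {R a b : ℤ} {S : Finset (ℤ × ℤ)} (hS : RF (a - R) (a + R) (b - R) (b + R) ⊆ S) :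
    pr S {ω | ToBd (a - R) (a + R) (b - R) (b + R) ω (a, b) ∧
      ToBd (a - R) (a + R) (b - R) (b + R) ω (a, b + 1)} = p2 R := by
  have h1 : {ω : Cfg | ToBd (a - R) (a + R) (b - R) (b + R) ω (a, b) ∧
      ToBd (a - R) (a + R) (b - R) (b + R) ω (a, b + 1)}
      = {ω : Cfg | (fun x : ℤ × ℤ => ω (x.2 + a, x.1 + b)) ∈ twoArm R} := by
    ext ω
    show _ ↔ (ToBd (-R) R (-R) R (fun x : ℤ × ℤ => ω (x.2 + a, x.1 + b)) (0, 0) ∧
      ToBd (-R) R (-R) R (fun x : ℤ × ℤ => ω (x.2 + a, x.1 + b)) (1, 0))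
    rw [toBd_tr_iff, toBd_tr_iff]
    have e6 : (((1, 0) : ℤ × ℤ).2 + a, ((1, 0) : ℤ × ℤ).1 + b) = (a, b + 1) := by
      show ((0 : ℤ) + a, (1 : ℤ) + b) = _
      rw [zero_add, add_comm]
    have e7 : (((0, 0) : ℤ × ℤ).2 + a, ((0, 0) : ℤ × ℤ).1 + b) = (a, b) := by
      show ((0 : ℤ) + a, (0 : ℤ) + b) = _
      rw [zero_add, zero_add]
    rw [e6, e7]
    rfl
  rw [h1, p2]
  refine pr_comp (S := RF (-R) R (-R) R) (S' := S) (f := fun x : ℤ × ℤ => (x.2 + a, x.1 + b))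
    ?_ ?_ (depOn_twoArm R)
  · intro x _ y _ h
    simp only [Prod.mk.injEq, add_left_inj] at h
    exact Prod.ext h.2 h.1
  · intro x hx
    apply hS
    simp only [RF, Finset.mem_product, Finset.mem_Ico] at hx ⊢
    omega

/-! ### Corners in the face grid -/

/-- The vertex of a corner in the face grid. -/
def gV (k : Cor) : ℤ × ℤ := phiV (vtx k)

/-- A face of the square lattice in the face grid. -/
def phiF (f : ℤ × ℤ) : ℤ × ℤ := (f.1 + f.2 + 1, f.1 - f.2)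

/-- The face of a corner in the face grid. -/
def gF (k : Cor) : ℤ × ℤ := phiF (fce k)

/-- The lower left end of the unit edge of a corner. -/
def gB (k : Cor) : ℤ × ℤ := (min (gV k).1 (gF k).1, min (gV k).2 (gF k).2)

/-- Two arms of a corner to the distance `R`. -/
def TA (R : ℤ) (k : Cor) : Set Cfg :=
  {ω | ToBd ((gB k).1 - R) ((gB k).1 + R) ((gB k).2 - R) ((gB k).2 + R) ω (gV k) ∧
    ToBd ((gB k).1 - R) ((gB k).1 + R) ((gB k).2 - R) ((gB k).2 + R) ω (gF k)}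

theorem g_cases (k : Cor) :
    (gV k = gB k ∧ gF k = ((gB k).1 + 1, (gB k).2)) ∨
    (gF k = gB k ∧ gV k = ((gB k).1 + 1, (gB k).2)) ∨
    (gV k = gB k ∧ gF k = ((gB k).1, (gB k).2 + 1)) ∨
    (gF k = gB k ∧ gV k = ((gB k).1, (gB k).2 + 1)) := by
  obtain ⟨x, y, _ | _, _ | _⟩ := k
  · right; left
    simp only [gB, gV, gF, phiV, phiF, vtx, fce, Bool.false_eq_true, if_false, Prod.mk.injEq]
    omega
  · right; right; right
    simp only [gB, gV, gF, phiV, phiF, vtx, fce, Bool.false_eq_true, if_false, if_true,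
      Prod.mk.injEq]
    omega
  · right; right; left
    simp only [gB, gV, gF, phiV, phiF, vtx, fce, Bool.false_eq_true, if_false, if_true,
      Prod.mk.injEq]
    omega
  · left
    simp only [gB, gV, gF, phiV, phiF, vtx, fce, if_true, Prod.mk.injEq]
    omega

theorem pr_TA {R : ℤ} (k : Cor) {S : Finset (ℤ × ℤ)}
    (hS : RF ((gB k).1 - R) ((gB k).1 + R) ((gB k).2 - R) ((gB k).2 + R) ⊆ S) :
    pr S (TA R k) = p2 R := by
  unfold TA
  rcases g_cases k with ⟨h1, h2⟩ | ⟨h1, h2⟩ | ⟨h1, h2⟩ | ⟨h1, h2⟩ <;> rw [h1, h2]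
  · exact pr_H hS
  · rw [← pr_H hS]
    congr 1
    ext ω
    exact and_comm
  · exact pr_V hS
  · rw [← pr_V hS]
    congr 1
    ext ω
    exact and_comm

theorem depOn_TA (R : ℤ) (k : Cor) :
    DepOn (RF ((gB k).1 - R) ((gB k).1 + R) ((gB k).2 - R) ((gB k).2 + R) : Set (ℤ × ℤ))
      (TA R k) := by
  intro ω ω' h
  simp only [TA, ToBd, Set.mem_ofPred_eq, GridA.conn_iff _ h]

/-! ### From the square lattice to the face grid -/

open Classical in
/-- The configuration of the face grid. -/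
noncomputable def gT (T : Set Ed) : Cfg := fun f =>
  if (f.1 + f.2) % 2 = 0 then decide (((f.1 + f.2) / 2, (f.1 - f.2) / 2, false) ∈ T)
  else decide (((f.1 + f.2 + 1) / 2, (f.1 - f.2 - 1) / 2, true) ∉ T)

/-- The edge of a face of the grid. -/
def eE (f : ℤ × ℤ) : Ed :=
  if (f.1 + f.2) % 2 = 0 then ((f.1 + f.2) / 2, (f.1 - f.2) / 2, false)
  else ((f.1 + f.2 + 1) / 2, (f.1 - f.2 - 1) / 2, true)

theorem phiE_eE (f : ℤ × ℤ) : phiE (eE f) = f := by
  obtain ⟨X, Y⟩ := f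
  unfold eE
  by_cases h : (X + Y) % 2 = 0
  · simp only [h, if_true, phiE, Bool.false_eq_true, if_false, Prod.mk.injEq]
    omega
  · simp only [h, if_false, phiE, if_true, Prod.mk.injEq]
    omega

theorem gT_eE (T : Set Ed) (f : ℤ × ℤ) : (gT T f = !(eE f).2.2) ↔ eE f ∈ T := by
  unfold gT eE
  by_cases h : (f.1 + f.2) % 2 = 0
  · simp only [h, if_true, Bool.not_false, decide_eq_true_eq]
  · simp only [h, if_false, Bool.not_true, decide_eq_false_iff_not, not_not]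

theorem eE_phiE (e : Ed) : eE (phiE e) = e := phiE_injective (phiE_eE _)

theorem gT_phiE (T : Set Ed) (e : Ed) : (gT T (phiE e) = !e.2.2) ↔ e ∈ T := by
  have h := gT_eE T (phiE e)
  rwa [eE_phiE] at h

/-- The bond of an open edge. -/
theorem bond_open {T : Set Ed} {e : Ed} (he : e ∈ T) :
    Bond (gT T) Set.univ (phiV (ea e)) (phiV (eb e)) := by
  have h := (gT_phiE T e).2 he
  obtain ⟨x, y, _ | _⟩ := e
  · refine ⟨x + y, x - y, trivial, Or.inl ⟨by simpa [phiE] using h, Or.inl ⟨rfl, ?_⟩⟩⟩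
    simp only [phiV, Pool.Agent.MP_6bd702.H23.eb_false, Prod.mk.injEq]
    omega
  · refine ⟨x + y, x - y - 1, trivial, Or.inr ⟨by simpa [phiE] using h, Or.inl ⟨?_, ?_⟩⟩⟩
    · simp only [phiV, Pool.Agent.MP_6bd702.H23.ea_mk, Prod.mk.injEq, true_and]
      omega
    · simp only [phiV, Pool.Agent.MP_6bd702.H23.eb_true, Prod.mk.injEq]
      omega

/-- The bond of a closed edge. -/
theorem bond_closed {T : Set Ed} {e : Ed} (he : e ∉ T) :
    Bond (gT T) Set.univ (phiF (f1 e)) (phiF (f2 e)) := by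
  have h : ¬ (gT T (phiE e) = !e.2.2) := fun h => he ((gT_phiE T e).1 h)
  obtain ⟨x, y, _ | _⟩ := e
  · refine ⟨x + y, x - y, trivial, Or.inr ⟨by simpa [phiE] using h, Or.inl ⟨?_, ?_⟩⟩⟩
    · simp only [phiF, f1, Bool.false_eq_true, if_false, Prod.mk.injEq]
      omega
    · simp only [phiF, f2]
  · refine ⟨x + y, x - y - 1, trivial, Or.inl ⟨by simpa [phiE] using h, Or.inl ⟨?_, ?_⟩⟩⟩
    · simp only [phiF, f1, if_true, Prod.mk.injEq]
      omega
    · simp only [phiF, f2, Prod.mk.injEq, true_and]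
      omega

theorem conn_open {T : Set Ed} {u v : ℤ × ℤ}
    (h : Pool.Agent.MP_6bd702.H23.Conn T Set.univ u v) :
    Conn (gT T) Set.univ (phiV u) (phiV v) := by
  unfold Pool.Agent.MP_6bd702.H23.Conn at h
  induction h with
  | refl => exact .refl
  | tail _ h2 ih =>
    obtain ⟨-, -, e, he, ⟨h3, h4⟩ | ⟨h3, h4⟩⟩ := h2
    · rw [← h4]
      rw [← h3] at ih
      exact ih.tail (bond_open he)
    · rw [← h3]
      rw [← h4] at ih
      exact ih.tail (Bond.symm (bond_open he))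

theorem conn_closed {T : Set Ed} {f g : ℤ × ℤ}
    (h : Pool.Agent.MP_6bd702.H23.Conn (du T) Set.univ f g) :
    Conn (gT T) Set.univ (phiF f) (phiF g) := by
  unfold Pool.Agent.MP_6bd702.H23.Conn at h
  induction h with
  | refl => exact .refl
  | tail _ h2 ih =>
    obtain ⟨-, -, e, he, hh⟩ := h2
    have he' : cr e ∉ T := he
    have hb := bond_closed he'
    rw [← Pool.Agent.MP_6bd702.H23.ea_dc, ← Pool.Agent.MP_6bd702.H23.eb_dc,
      Pool.Agent.MP_6bd702.H23.dc_cr] at hb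
    rcases hh with ⟨h3, h4⟩ | ⟨h3, h4⟩
    · rw [← h4]
      rw [← h3] at ih
      exact ih.tail hb
    · rw [← h3]
      rw [← h4] at ih
      exact ih.tail (Bond.symm hb)

theorem gT_cfgE {n : ℕ} {ω : Cfg} {e : Ed} (he : e ∈ boxE n) :
    gT (cfgE n ω : Set Ed) (phiE e) = ω (phiE e) := by
  have h := gT_phiE (cfgE n ω : Set Ed) e
  have h1 : e ∈ (cfgE n ω : Set Ed) ↔ ω (phiE e) = !e.2.2 := by
    rw [Finset.mem_coe, DictB.mem_cfgE]
    exact ⟨fun h => h.2, fun h => ⟨he, h⟩⟩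
  rw [h1] at h
  cases h2 : gT (cfgE n ω : Set Ed) (phiE e) <;> cases h3 : ω (phiE e) <;> cases h4 : e.2.2 <;>
    simp_all

/-- The distance of a vertex to the boundary of the box. -/
def dB (n : ℕ) (v : ℤ × ℤ) : ℤ := min (min v.1 (n - v.1)) (min v.2 (n - v.2))

/-- The faces of a ball inside the box are faces of edges of the box. -/
theorem ball_sub {n : ℕ} {k : Cor} {R : ℤ} (hR : R + 1 ≤ dB n (vtx k)) {f : ℤ × ℤ}
    (hf : f ∈ RF ((gB k).1 - R) ((gB k).1 + R) ((gB k).2 - R) ((gB k).2 + R)) :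
    eE f ∈ boxE n := by
  have hB : (gB k).1 ≤ (gV k).1 ∧ (gV k).1 ≤ (gB k).1 + 1 ∧ (gB k).2 ≤ (gV k).2 ∧
      (gV k).2 ≤ (gB k).2 + 1 := by
    rcases g_cases k with ⟨h1, h2⟩ | ⟨h1, h2⟩ | ⟨h1, h2⟩ | ⟨h1, h2⟩
    · rw [h1]; omega
    · rw [h2]; simp only; omega
    · rw [h1]; omega
    · rw [h2]; simp only; omega
  obtain ⟨X, Y⟩ := f
  simp only [RF, Finset.mem_product, Finset.mem_Ico] at hf
  have hV : (gV k).1 = (vtx k).1 + (vtx k).2 ∧ (gV k).2 = (vtx k).1 - (vtx k).2 := ⟨rfl, rfl⟩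
  unfold dB at hR
  rw [DictB.mem_boxE, DictB.mem_Box, DictB.mem_Box]
  unfold eE
  by_cases h : (X + Y) % 2 = 0
  · simp only [h, if_true, tl, hd, Bool.false_eq_true, if_false]
    omega
  · simp only [h, if_false, tl, hd, if_true]
    omega

/-- An interface which goes far gives two arms. -/
theorem TA_of_far {n : ℕ} {ω : Cfg} {k : Cor} {R : ℤ} (hR : R + 1 ≤ dB n (vtx k)) (hR1 : 1 ≤ R)
    {j : ℕ} (hj : R + 2 ≤ PercO.sd (vtx ((nxt (cfgE n ω : Set Ed))^[j] k)) (vtx k)) :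
    ω ∈ TA R k := by
  set T : Set Ed := (cfgE n ω : Set Ed) with hT
  have hag : ∀ f ∈ (RF ((gB k).1 - R) ((gB k).1 + R) ((gB k).2 - R) ((gB k).2 + R) : Set (ℤ × ℤ)),
      gT T f = ω f := by
    intro f hf
    have h1 := gT_cfgE (ω := ω) (ball_sub hR (Finset.mem_coe.1 hf))
    rwa [phiE_eE] at h1
  have hB : (gB k).1 ≤ (gV k).1 ∧ (gV k).1 ≤ (gB k).1 + 1 ∧ (gB k).2 ≤ (gV k).2 ∧
      (gV k).2 ≤ (gB k).2 + 1 ∧ (gB k).1 ≤ (gF k).1 ∧ (gF k).1 ≤ (gB k).1 + 1 ∧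
      (gB k).2 ≤ (gF k).2 ∧ (gF k).2 ≤ (gB k).2 + 1 := by
    rcases g_cases k with ⟨h1, h2⟩ | ⟨h1, h2⟩ | ⟨h1, h2⟩ | ⟨h1, h2⟩ <;> rw [h1, h2] <;>
      simp only <;> omega
  set k' := (nxt T)^[j] k with hk'
  have hV : (gV k).1 = (vtx k).1 + (vtx k).2 ∧ (gV k).2 = (vtx k).1 - (vtx k).2 := ⟨rfl, rfl⟩
  have hV' : (gV k').1 = (vtx k').1 + (vtx k').2 ∧ (gV k').2 = (vtx k').1 - (vtx k').2 :=
    ⟨rfl, rfl⟩
  have hF' : |(gF k').1 - (gV k').1| ≤ 1 ∧ |(gF k').2 - (gV k').2| ≤ 1 := by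
    rcases g_cases k' with ⟨h1, h2⟩ | ⟨h1, h2⟩ | ⟨h1, h2⟩ | ⟨h1, h2⟩ <;> rw [h1, h2] <;>
      simp
  have hfar : ¬ ((gB k).1 - R - 1 < (gV k').1 ∧ (gV k').1 < (gB k).1 + R + 1 ∧
      (gB k).2 - R - 1 < (gV k').2 ∧ (gV k').2 < (gB k).2 + R + 1) := by
    unfold PercO.sd at hj
    intro hc
    rcases le_max_iff.1 hj with h | h
    · rcases abs_cases ((vtx k').1 - (vtx k).1) with ⟨h', _⟩ | ⟨h', _⟩ <;> omega
    · rcases abs_cases ((vtx k').2 - (vtx k).2) with ⟨h', _⟩ | ⟨h', _⟩ <;> omega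
  have c1 := conn_open (conn_vtx (ω := T) k j)
  have c2 := conn_closed (conn_fce (ω := T) k j)
  rw [← hk'] at c1 c2
  constructor
  · obtain ⟨w, hw, hw'⟩ := Conn.toBd (x₀ := (gB k).1 - R) (x₁ := (gB k).1 + R)
      (y₀ := (gB k).2 - R) (y₁ := (gB k).2 + R) c1 (by
        have : phiV (vtx k) = gV k := rfl
        rw [this]; omega) (by
        have : phiV (vtx k') = gV k' := rfl
        rw [this]; omega)
    rw [Set.univ_inter] at hw
    exact ⟨w, (GridA.conn_iff _ hag _ _).1 hw, hw'⟩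
  · obtain ⟨w, hw, hw'⟩ := Conn.toBd (x₀ := (gB k).1 - R) (x₁ := (gB k).1 + R)
      (y₀ := (gB k).2 - R) (y₁ := (gB k).2 + R) c2 (by
        have : phiF (fce k) = gF k := rfl
        rw [this]; omega) (by
        have : phiF (fce k') = gF k' := rfl
        rw [this]
        have h1 := abs_le.1 hF'.1
        have h2 := abs_le.1 hF'.2
        omega)
    rw [Set.univ_inter] at hw
    exact ⟨w, (GridA.conn_iff _ hag _ _).1 hw, hw'⟩

end Pool.Agent.PercX60
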