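import Pool.Agent.Lib.MP_6bd702_pr_h60.OutLim
import Pool.Agent.Lib.MP_6bd702_pr_h60.UpTail

/-!
# From chains of free squares to rectilinear corridors in the rotated grid
-/

set_option autoImplicit false

namespace Pool.Agent.PercS5

open Relation
open Pool.Agent.Perc Pool.Agent.PercD

/-- The axis-parallel segment from `a` to `b` is in the set of the points with `P`. -/
def SegP (P : ℤ × ℤ → Prop) (a b : ℤ × ℤ) : Prop :=
  (a.1 = b.1 ∨ a.2 = b.2) ∧ ∀ q : ℤ × ℤ, min a.1 b.1 ≤ q.1 → q.1 ≤ max a.1 b.1 →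
    min a.2 b.2 ≤ q.2 → q.2 ≤ max a.2 b.2 → P q

/-- The lattice point of the square `a` in the rotated grid. -/
noncomputable def gp (n p : ℕ) (a : ℤ × ℤ) : ℤ × ℤ :=
  (⌊(n : ℝ) * (a.1 + a.2) / 2 ^ p⌋, ⌊(n : ℝ) * (a.1 - a.2) / 2 ^ p⌋)

/-- The point `q` is close to the centre of the square `a` in the rotated grid. -/
def NearC (n p : ℕ) (a q : ℤ × ℤ) : Prop :=
  |(q.1 : ℝ) - n * (a.1 + a.2) / 2 ^ p| + |(q.2 : ℝ) - n * (a.1 - a.2) / 2 ^ p| ≤ n / 2 ^ p + 2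

/-- A point close to the centre of a free square is far from all points of the compact set. -/
theorem clear {n p : ℕ} (hn : 0 < n) {a : ℤ × ℤ} {K : Set ℂ} (ha : FreeC p K a) {v : ℤ × ℤ}
    (hv : toC v / n ∈ K) {q : ℤ × ℤ} (hq : NearC n p a q) {κ : ℝ}
    (hκ : 2 * κ + 2 ≤ n / 2 ^ p) :
    κ < |(q.1 : ℝ) - (phiV v).1| ∨ κ < |(q.2 : ℝ) - (phiV v).2| := by
  by_contra hcon
  push Not at hcon
  obtain ⟨h1, h2⟩ := hcon
  refine Set.disjoint_left.1 ha ?_ hv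
  have hn0 : (0 : ℝ) < n := by exact_mod_cast hn
  have hP : (0 : ℝ) < 2 ^ p := by positivity
  set s : ℝ := n / 2 ^ p with hs
  unfold NearC at hq
  rw [← hs] at hq
  have e1 : ((phiV v).1 : ℝ) = v.1 + v.2 := by simp [phiV]
  have e2 : ((phiV v).2 : ℝ) = v.1 - v.2 := by simp [phiV]
  rw [e1] at h1
  rw [e2] at h2
  set A : ℝ := n * (a.1 + a.2) / 2 ^ p with hA
  set B : ℝ := n * (a.1 - a.2) / 2 ^ p with hB
  have h3 : |(v.1 : ℝ) + v.2 - A| + |(v.1 : ℝ) - v.2 - B| ≤ 2 * s := by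
    have h4 : |(v.1 : ℝ) + v.2 - A| ≤ |(q.1 : ℝ) - A| + |(q.1 : ℝ) - (v.1 + v.2)| := by
      have := abs_sub ((q.1 : ℝ) - A) ((q.1 : ℝ) - (v.1 + v.2))
      have e : (q.1 : ℝ) - A - ((q.1 : ℝ) - (v.1 + v.2)) = v.1 + v.2 - A := by ring
      rwa [e] at this
    have h5 : |(v.1 : ℝ) - v.2 - B| ≤ |(q.2 : ℝ) - B| + |(q.2 : ℝ) - (v.1 - v.2)| := by
      have := abs_sub ((q.2 : ℝ) - B) ((q.2 : ℝ) - (v.1 - v.2))
      have e : (q.2 : ℝ) - B - ((q.2 : ℝ) - (v.1 - v.2)) = v.1 - v.2 - B := by ring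
      rwa [e] at this
    linarith
  have e3 : A + B = 2 * (n * a.1 / 2 ^ p) := by rw [hA, hB]; ring
  have e4 : A - B = 2 * (n * a.2 / 2 ^ p) := by rw [hA, hB]; ring
  have h6 := abs_le.1 (le_refl |(v.1 : ℝ) + v.2 - A|)
  have h7 := abs_le.1 (le_refl |(v.1 : ℝ) - v.2 - B|)
  have h8 : |(v.1 : ℝ) - n * a.1 / 2 ^ p| ≤ s := by
    rw [abs_le]; constructor <;> linarith [h6.1, h6.2, h7.1, h7.2]
  have h9 : |(v.2 : ℝ) - n * a.2 / 2 ^ p| ≤ s := by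
    rw [abs_le]; constructor <;> linarith [h6.1, h6.2, h7.1, h7.2]
  have key : ∀ x y : ℤ, |(x : ℝ) - n * y / 2 ^ p| ≤ s → |(x : ℝ) / n - y / 2 ^ p| ≤ 1 / 2 ^ p := by
    intro x y h
    have e : (x : ℝ) / n - y / 2 ^ p = ((x : ℝ) - n * y / 2 ^ p) / n := by field_simp
    rw [e, abs_div, abs_of_pos hn0, div_le_iff₀ hn0]
    refine h.trans (le_of_eq ?_)
    rw [hs]; ring
  have er : (toC v / (n : ℂ)).re = v.1 / n := by
    rw [Complex.div_natCast_re]; simp [toC]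
  have ei : (toC v / (n : ℂ)).im = v.2 / n := by
    rw [Complex.div_natCast_im]; simp [toC]
  exact ⟨by rw [er]; exact key _ _ h8, by rw [ei]; exact key _ _ h9⟩

/-- The points near the free squares. -/
def NearB (n p : ℕ) (B : ℤ × ℤ → Prop) (q : ℤ × ℤ) : Prop := ∃ a, B a ∧ NearC n p a q

theorem nearC_gp (n p : ℕ) (a : ℤ × ℤ) : NearC n p a (gp n p a) := by
  unfold NearC gp
  simp only
  have h1 := Int.floor_le ((n : ℝ) * (a.1 + a.2) / 2 ^ p)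
  have h2 := Int.lt_floor_add_one ((n : ℝ) * (a.1 + a.2) / 2 ^ p)
  have h3 := Int.floor_le ((n : ℝ) * (a.1 - a.2) / 2 ^ p)
  have h4 := Int.lt_floor_add_one ((n : ℝ) * (a.1 - a.2) / 2 ^ p)
  have h5 : |(⌊(n : ℝ) * (a.1 + a.2) / 2 ^ p⌋ : ℝ) - n * (a.1 + a.2) / 2 ^ p| ≤ 1 := by
    rw [abs_le]; constructor <;> linarith
  have h6 : |(⌊(n : ℝ) * (a.1 - a.2) / 2 ^ p⌋ : ℝ) - n * (a.1 - a.2) / 2 ^ p| ≤ 1 := by
    rw [abs_le]; constructor <;> linarith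
  have h7 : (0 : ℝ) ≤ n / 2 ^ p := by positivity
  linarith

/-- A step between neighbouring squares gives two segments. -/
theorem seg_step {n p : ℕ} {B : ℤ × ℤ → Prop} {a b : ℤ × ℤ} (h : Stp B a b) :
    SegP (NearB n p B) (gp n p a) ((gp n p b).1, (gp n p a).2) ∧
      SegP (NearB n p B) ((gp n p b).1, (gp n p a).2) (gp n p b) := by
  obtain ⟨hadj, ha, hb⟩ := h
  have hP : (0 : ℝ) < 2 ^ p := by positivity
  have hd : |((a.1 : ℝ) + a.2) - (b.1 + b.2)| ≤ 1 ∧ |((a.1 : ℝ) - a.2) - (b.1 - b.2)| ≤ 1 := by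
    rcases hadj with ⟨h1, h2⟩ | ⟨h1, h2⟩
    · have h3 : |(a.2 : ℝ) - b.2| ≤ 1 := by
        have : (|a.2 - b.2| : ℤ) ≤ 1 := h2.le
        exact_mod_cast this
      rw [h1]
      constructor
      · rwa [show (b.1 : ℝ) + a.2 - (b.1 + b.2) = a.2 - b.2 by ring]
      · rw [show (b.1 : ℝ) - a.2 - (b.1 - b.2) = -(a.2 - b.2) by ring, abs_neg]; exact h3
    · have h3 : |(a.1 : ℝ) - b.1| ≤ 1 := by
        have : (|a.1 - b.1| : ℤ) ≤ 1 := h1.le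
        exact_mod_cast this
      rw [h2]
      constructor
      · rwa [show (a.1 : ℝ) + b.2 - (b.1 + b.2) = a.1 - b.1 by ring]
      · rwa [show (a.1 : ℝ) - b.2 - (b.1 - b.2) = a.1 - b.1 by ring]
  have hs : (0 : ℝ) ≤ n / 2 ^ p := by positivity
  have hscale : ∀ x y : ℝ, |x - y| ≤ 1 → |n * x / 2 ^ p - n * y / 2 ^ p| ≤ n / 2 ^ p := by
    intro x y h
    have e : (n : ℝ) * x / 2 ^ p - n * y / 2 ^ p = (n / 2 ^ p) * (x - y) := by ring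
    rw [e, abs_mul, abs_of_nonneg hs]
    calc (n : ℝ) / 2 ^ p * |x - y| ≤ n / 2 ^ p * 1 := mul_le_mul_of_nonneg_left h hs
      _ = n / 2 ^ p := mul_one _
  have hX := hscale _ _ hd.1
  have hY := hscale _ _ hd.2
  set A1 : ℝ := n * ((a.1 : ℝ) + a.2) / 2 ^ p with hA1
  set A2 : ℝ := n * ((a.1 : ℝ) - a.2) / 2 ^ p with hA2
  set B1 : ℝ := n * ((b.1 : ℝ) + b.2) / 2 ^ p with hB1
  set B2 : ℝ := n * ((b.1 : ℝ) - b.2) / 2 ^ p with hB2
  have g1 : (gp n p a).1 = ⌊A1⌋ := rfl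
  have g2 : (gp n p a).2 = ⌊A2⌋ := rfl
  have g3 : (gp n p b).1 = ⌊B1⌋ := rfl
  have g4 : (gp n p b).2 = ⌊B2⌋ := rfl
  have fl : ∀ x : ℝ, |(⌊x⌋ : ℝ) - x| ≤ 1 := by
    intro x
    have h1 := Int.floor_le x
    have h2 := Int.lt_floor_add_one x
    rw [abs_le]; constructor <;> linarith
  -- a coordinate between two floors
  have btw : ∀ (x y : ℝ) (k : ℤ), |x - y| ≤ n / 2 ^ p → min ⌊x⌋ ⌊y⌋ ≤ k → k ≤ max ⌊x⌋ ⌊y⌋ →
      |(k : ℝ) - x| ≤ n / 2 ^ p + 1 ∧ |(k : ℝ) - y| ≤ n / 2 ^ p + 1 := by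
    intro x y k hxy h1 h2
    have h3 : ((min ⌊x⌋ ⌊y⌋ : ℤ) : ℝ) ≤ k := by exact_mod_cast h1
    have h4 : (k : ℝ) ≤ ((max ⌊x⌋ ⌊y⌋ : ℤ) : ℝ) := by exact_mod_cast h2
    push_cast at h3 h4
    have fx1 := Int.floor_le x
    have fx2 := Int.lt_floor_add_one x
    have fy1 := Int.floor_le y
    have fy2 := Int.lt_floor_add_one y
    have hxy' := abs_le.1 hxy
    have h5 : x - n / 2 ^ p - 1 ≤ k := by
      refine le_trans (le_min ?_ ?_) h3 <;> linarith [hxy'.1, hxy'.2]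
    have h6 : (k : ℝ) ≤ x + n / 2 ^ p := by
      refine h4.trans (max_le ?_ ?_) <;> linarith [hxy'.1, hxy'.2]
    have h7 : y - n / 2 ^ p - 1 ≤ k := by
      refine le_trans (le_min ?_ ?_) h3 <;> linarith [hxy'.1, hxy'.2]
    have h8 : (k : ℝ) ≤ y + n / 2 ^ p := by
      refine h4.trans (max_le ?_ ?_) <;> linarith [hxy'.1, hxy'.2]
    constructor <;> rw [abs_le] <;> constructor <;> linarith
  refine ⟨⟨Or.inr rfl, ?_⟩, ⟨Or.inl rfl, ?_⟩⟩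
  · intro q q1 q2 q3 q4
    refine ⟨a, ha, ?_⟩
    simp only [min_self, max_self, g1, g2, g3] at q1 q2 q3 q4
    have e : q.2 = ⌊A2⌋ := le_antisymm q4 q3
    have h1 := (btw A1 B1 q.1 hX q1 q2).1
    have h2 := fl A2
    unfold NearC
    rw [← hA1, ← hA2, e]
    linarith
  · intro q q1 q2 q3 q4
    refine ⟨b, hb, ?_⟩
    simp only [min_self, max_self, g2, g3, g4] at q1 q2 q3 q4
    have e : q.1 = ⌊B1⌋ := le_antisymm q2 q1
    have h1 := (btw A2 B2 q.2 hY q3 q4).2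
    have h2 := fl B1
    unfold NearC
    rw [← hB1, ← hB2, e]
    linarith

end Pool.Agent.PercS5
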