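import Pool.Agent.Lib.MP_6bd702_pr_h60.C1Lat
import Pool.Agent.Lib.MP_6bd702_percu2.Close

/-!
# The two strands of a unit edge in the rectangle
-/

set_option autoImplicit false

namespace Pool.Agent.PercS5

open Finset Pool.Agent.Perc Pool.Agent.PercD

variable {ω : Cfg} {c : ℤ × ℤ} {d X L w : ℤ} {e a b : UE} {F : Set (ℤ × ℤ)}

/-- Last exit from the inner box. -/
theorem last_exit' (he : InE c d e) (ha : a ∈ MM ω F e) :
    InE c d a ∨ ∃ b ∈ MM ω F e, BdR c d b ∧ a ∈ MM ω (F \ BR c d) b := by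
  induction ha with
  | refl => exact Or.inl he
  | tail hab hs ih =>
    obtain ⟨f, hf, hm⟩ := hs
    by_cases hf' : f ∈ (BR c d : Set (ℤ × ℤ))
    · exact Or.inl (inE_of_side hf' hm.right)
    · right
      rcases ih with ih | ⟨b, hb1, hb2, hb3⟩
      · exact ⟨_, hab, bd_of_side ih hm.left hf', Relation.ReflTransGen.single ⟨f, ⟨hf, hf'⟩, hm⟩⟩
      · exact ⟨b, hb1, hb2, MM_step ⟨hf, hf'⟩ hm hb3⟩

/-- First exit from a set of faces: if the component in the bigger set contains a unit edge which is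
not in the component in the smaller set, then the latter contains a side of a face outside. -/
theorem first_exit' {F' : Set (ℤ × ℤ)} (ha : a ∈ MM ω F' e) :
    a ∈ MM ω F e ∨ ∃ b ∈ MM ω F e, ∃ f ∈ F', f ∉ F ∧ IsSide f b := by
  induction ha with
  | refl => exact Or.inl mem_MM_self
  | tail _ hs ih =>
    obtain ⟨f, hf, hm⟩ := hs
    rcases ih with ih | ih
    · by_cases hf' : f ∈ F
      · exact Or.inl (MM_step hf' hm ih)
      · exact Or.inr ⟨_, ih, f, hf, hf', hm.left⟩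
    · exact Or.inr ih

/-- The unit edge is on the upper or the lower side of the rectangle. -/
def TB (c : ℤ × ℤ) (L w : ℤ) (b : UE) : Prop :=
  b.2.2 = false ∧ c.1 - L ≤ b.1 ∧ b.1 < c.1 + L ∧ (b.2.1 = c.2 - w ∨ b.2.1 = c.2 + w)

/-- The boundary unit edges of the rectangle. -/
def BdL (c : ℤ × ℤ) (L w : ℤ) (a : UE) : Prop := BdE (c.1 - L) (c.1 + L) (c.2 - w) (c.2 + w) a

theorem TB_of_bd (he : InE c d e) (hXL : X ≤ L) (hLat : ω ∉ Lat c d X L w)
    (ha : a ∈ MM ω (RL c L w) e) (hb : BdL c L w a) : TB c L w a := by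
  rcases hb with ⟨h1, h2, h3, h4⟩ | ⟨h1, h2, h3, h4⟩
  · exact ⟨h1, h2, h3, h4⟩
  · exfalso
    apply hLat
    refine ⟨e, he, a, ha, ?_⟩
    obtain ⟨x, y, b⟩ := a
    simp only at h1 h4
    subst h1
    rw [ua_mk, ub_true]
    simp only
    rcases h4 with h4 | h4
    · right; omega
    · left; omega

/-- A unit edge on the upper or lower side is not in the inner box. -/
theorem not_inE_of_TB (hdw : d < w) (h : TB c L w a) : ¬ InE c d a := by
  intro h'
  obtain ⟨x, y, b⟩ := a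
  obtain ⟨h1, h2, h3, h4⟩ := h
  simp only at h1 h2 h3 h4
  subst h1
  unfold InE InR at h'
  rw [ua_mk, ub_false] at h'
  simp only at h'
  omega

/-- The two strands. -/
theorem strands (he : InE c d e) (hd : 0 < d) (hdw : d < w) (hwL : 0 < L) (hXL : X ≤ L)
    (hLat : ω ∉ Lat c d X L w) {t : UE} (ht : t ∈ MM ω (RL c L w) e) (htb : BdL c L w t) :
    ∃ b b', b ≠ b' ∧ TB c L w b ∧ TB c L w b' ∧ b ∈ MM ω (RL c L w) e ∧
      b' ∈ MM ω (RL c L w) e ∧ (∃ s ∈ MM ω ((RL c L w : Set (ℤ × ℤ)) \ BR c d) b, BdR c d s) ∧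
      ∃ s ∈ MM ω ((RL c L w : Set (ℤ × ℤ)) \ BR c d) b', BdR c d s := by
  obtain ⟨t', ht', htb', hne⟩ := Pool.Agent.PercT.exists_other (x₀ := c.1 - L) (x₁ := c.1 + L)
    (y₀ := c.2 - w) (y₁ := c.2 + w) (by omega) (by omega) ht htb
  have h1 := TB_of_bd he hXL hLat ht htb
  have h2 := TB_of_bd he hXL hLat ht' htb'
  have key : ∀ t, t ∈ MM ω (RL c L w) e → TB c L w t →
      ∃ s ∈ MM ω ((RL c L w : Set (ℤ × ℤ)) \ BR c d) t, BdR c d s := by
    intro t ht htb
    rcases last_exit' he ht with h | ⟨s, -, hs, hst⟩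
    · exact absurd h (not_inE_of_TB hdw htb)
    · exact ⟨s, MM_symm hst, hs⟩
  exact ⟨t', t, hne, h2, h1, ht', ht, key _ ht' h2, key _ ht h1⟩

end Pool.Agent.PercS5
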