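import Pool.Agent.Lib.MP_6bd702_pr_h60.C1Path
import Pool.Agent.Lib.MP_6bd702_pr_h60.C1Str
import Pool.Agent.Lib.MP_6bd702_percd.B1

/-!
# Cells which are met by the outer perimeter and see infinity: two strands and a corridor
-/

set_option autoImplicit false

namespace Pool.Agent.PercS5

open Relation
open Pool.Agent.Perc Pool.Agent.Perc3 Pool.Agent.PercD
open Pool.Agent.MP_6bd702.H23 (Ed)
open Pool.Agent.PercU (Cor vtx fce)
open Pool.Agent.PercO (Orb Oc mem_Oc)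
open Pool.Agent.PercX60 (dB TA Sn gV gF)
open Pool.Agent.PercW (kap ua_kap joins_kap)

/-! ### Translations -/

/-- Translation of a unit edge. -/
def shE (c : ℤ × ℤ) (a : UE) : UE := (a.1 + c.1, a.2.1 + c.2, a.2.2)

/-- Translation back. -/
def shE' (c : ℤ × ℤ) (a : UE) : UE := (a.1 - c.1, a.2.1 - c.2, a.2.2)

theorem shE_shE' (c : ℤ × ℤ) (a : UE) : shE c (shE' c a) = a := by
  obtain ⟨x, y, b⟩ := a
  simp [shE, shE']

theorem shE'_inj {c : ℤ × ℤ} {a b : UE} (h : shE' c a = shE' c b) : a = b := by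
  rw [← shE_shE' c a, h, shE_shE']

theorem mt_shift {ω : Cfg} {c f : ℤ × ℤ} {a a' : UE}
    (h : Mt ω (f.1 + c.1, f.2 + c.2) a a') :
    Mt (shiftC c.1 c.2 ω) f (shE' c a) (shE' c a') := by
  obtain ⟨x, y⟩ := f
  obtain ⟨c1, c2⟩ := c
  unfold Mt at h ⊢
  simp only [shiftC, shE', bo, le', to', ri, Prod.mk.injEq] at h ⊢
  rcases h with ⟨h0, h⟩ | ⟨h0, h⟩
  · left
    refine ⟨h0, ?_⟩
    rcases h with ⟨rfl, rfl⟩ | ⟨rfl, rfl⟩ | ⟨rfl, rfl⟩ | ⟨rfl, rfl⟩ <;> simp <;> omega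
  · right
    refine ⟨h0, ?_⟩
    rcases h with ⟨rfl, rfl⟩ | ⟨rfl, rfl⟩ | ⟨rfl, rfl⟩ | ⟨rfl, rfl⟩ <;> simp <;> omega

theorem mt_unshift {ω : Cfg} {c f : ℤ × ℤ} {a a' : UE}
    (h : Mt (shiftC c.1 c.2 ω) f a a') :
    Mt ω (f.1 + c.1, f.2 + c.2) (shE c a) (shE c a') := by
  obtain ⟨x, y⟩ := f
  obtain ⟨c1, c2⟩ := c
  unfold Mt at h ⊢
  simp only [shiftC, shE, bo, le', to', ri] at h ⊢
  rcases h with ⟨h0, h⟩ | ⟨h0, h⟩
  · left
    refine ⟨h0, ?_⟩
    rcases h with ⟨rfl, rfl⟩ | ⟨rfl, rfl⟩ | ⟨rfl, rfl⟩ | ⟨rfl, rfl⟩ <;> simp <;> omega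
  · right
    refine ⟨h0, ?_⟩
    rcases h with ⟨rfl, rfl⟩ | ⟨rfl, rfl⟩ | ⟨rfl, rfl⟩ | ⟨rfl, rfl⟩ <;> simp <;> omega

theorem MM_shift {ω : Cfg} {c : ℤ × ℤ} {F G : Set (ℤ × ℤ)}
    (hFG : ∀ f ∈ F, (f.1 - c.1, f.2 - c.2) ∈ G) {e a : UE} (h : a ∈ MM ω F e) :
    shE' c a ∈ MM (shiftC c.1 c.2 ω) G (shE' c e) := by
  induction h with
  | refl => exact mem_MM_self
  | tail _ hs ih =>
    obtain ⟨f, hf, hm⟩ := hs
    refine MM_step (hFG f hf) (mt_shift ?_) ih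
    simpa using hm

theorem MM_unshift {ω : Cfg} {c : ℤ × ℤ} {F G : Set (ℤ × ℤ)}
    (hFG : ∀ f ∈ F, (f.1 + c.1, f.2 + c.2) ∈ G) {e a : UE}
    (h : a ∈ MM (shiftC c.1 c.2 ω) F e) : shE c a ∈ MM ω G (shE c e) := by
  induction h with
  | refl => exact mem_MM_self
  | tail _ hs ih =>
    obtain ⟨f, hf, hm⟩ := hs
    exact MM_step (hFG f hf) (mt_unshift hm) ih

/-! ### The deterministic statement -/

/-- The event of the comparison theorem: two strands and a corridor. -/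
def CorrU (L w d D : ℤ) (M : ℕ) : Set Cfg :=
  {ω | ∃ b ∈ TBF L w, ∃ b' ∈ TBF L w, b ≠ b' ∧ ω ∈ CorrEv L w d D M b b'}

/-- The cells outside the square of radius `2`. -/
noncomputable def cellS (p : ℕ) : Finset (ℤ × ℤ) :=
  Finset.Icc (-(2 * 2 ^ p)) (2 * 2 ^ p) ×ˢ Finset.Icc (-(2 * 2 ^ p)) (2 * 2 ^ p)

theorem not_mem_cellS {p : ℕ} {b : ℤ × ℤ} : b ∉ cellS p ↔ Far p b := by
  unfold cellS Far
  rw [Finset.mem_product, Finset.mem_Icc, Finset.mem_Icc, lt_abs, lt_abs]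
  omega

/-- The bound for the number of the corners of the corridors of mesh `2 ^ (-p)`. -/
def corN (p : ℕ) : ℕ := 2 * (4 * 2 ^ p + 1) ^ 2

theorem card_cellS (p : ℕ) : 2 * (cellS p).card = corN p := by
  unfold cellS corN
  rw [Finset.card_product, Int.card_Icc]
  have h : ((2 : ℤ) * 2 ^ p + 1 - -(2 * 2 ^ p)).toNat = 4 * 2 ^ p + 1 := by
    have h1 : ((2 : ℤ) * 2 ^ p + 1 - -(2 * 2 ^ p)) = ((4 * 2 ^ p + 1 : ℕ) : ℤ) := by
      push_cast; ring
    rw [h1, Int.toNat_natCast]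
  rw [h]
  ring

section

variable {ω : Cfg} {c : ℤ × ℤ} {d X L w R D : ℤ} {e a b : UE} {n p : ℕ} {u : ℤ × ℤ} {k : Cor}

/-- The unit edge is in the closed rectangle. -/
def InL (c : ℤ × ℤ) (L w : ℤ) (a : UE) : Prop :=
  InR (c.1 - L) (c.1 + L) (c.2 - w) (c.2 + w) (ua a) ∧
    InR (c.1 - L) (c.1 + L) (c.2 - w) (c.2 + w) (ub a)

theorem inL_of_side {f : ℤ × ℤ} (hf : f ∈ RL c L w) (hs : IsSide f a) : InL c L w a := by
  rw [mem_RL] at hf
  obtain ⟨x, y⟩ := f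
  unfold InL InR
  rcases hs with rfl | rfl | rfl | rfl
  · simp only [bo, ua_mk, ub_false] at hf ⊢; omega
  · simp only [le', ua_mk, ub_true] at hf ⊢; omega
  · simp only [to', ua_mk, ub_false] at hf ⊢; omega
  · simp only [ri, ua_mk, ub_true] at hf ⊢; omega

theorem MM_inL (he : InL c L w e) (ha : a ∈ MM ω (RL c L w) e) : InL c L w a := by
  induction ha with
  | refl => exact he
  | tail _ hs _ =>
    obtain ⟨f, hf, hm⟩ := hs
    exact inL_of_side (Finset.mem_coe.1 hf) hm.right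

theorem bdL_of_side {f : ℤ × ℤ} (ha : InL c L w a) (hs : IsSide f a) (hf : f ∉ RL c L w) :
    BdL c L w a := by
  rw [mem_RL] at hf
  obtain ⟨x, y⟩ := f
  unfold InL InR at ha
  unfold BdL BdE
  rcases hs with rfl | rfl | rfl | rfl
  · simp only [bo, ua_mk, ub_false] at ha ⊢
    simp at hf ⊢
    omega
  · simp only [le', ua_mk, ub_true] at ha ⊢
    simp at hf ⊢
    omega
  · simp only [to', ua_mk, ub_false] at ha ⊢
    simp at hf ⊢
    omega
  · simp only [ri, ua_mk, ub_true] at ha ⊢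
    simp at hf ⊢
    omega

/-- A boundary unit edge of a box is a side of a face outside. -/
theorem exists_out {v : ℤ × ℤ} {r : ℤ} (h : BdR v r a) : ∃ f, f ∉ BR v r ∧ IsSide f a := by
  obtain ⟨x, y, t⟩ := a
  unfold BdR BdE at h
  simp only at h
  rcases h with ⟨rfl, h1, h2, h3⟩ | ⟨rfl, h1, h2, h3⟩
  · rcases h3 with h3 | h3
    · refine ⟨(x, y - 1), ?_, Or.inr (Or.inr (Or.inl ?_))⟩
      · rw [mem_BR]; simp only; omega
      · simp [to']
    · refine ⟨(x, y), ?_, Or.inl rfl⟩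
      rw [mem_BR]; simp only; omega
  · rcases h3 with h3 | h3
    · refine ⟨(x - 1, y), ?_, Or.inr (Or.inr (Or.inr ?_))⟩
      · rw [mem_BR]; simp only; omega
      · simp [ri]
    · refine ⟨(x, y), ?_, Or.inr (Or.inl rfl)⟩
      rw [mem_BR]; simp only; omega

theorem inL_of_inE (he : InE c d e) (hdw : d ≤ w) (hwL : w ≤ L) : InL c L w e := by
  unfold InE InR at he
  unfold InL InR
  omega

/-- The rectangle in the big box. -/
theorem RL_sub_BR (he : InE c d e) (hR : L + d ≤ R) (hwL : w ≤ L) : RL c L w ⊆ BR (ua e) R := by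
  intro f hf
  rw [mem_RL] at hf
  rw [mem_BR]
  have h1 := he.1
  unfold InR at h1
  omega

/-- The component of a long strand in the rectangle reaches the boundary. -/
theorem exists_tipL (he : InE c d e) (hdw : d ≤ w) (hwL : w ≤ L) (hR : L + d ≤ R)
    (h : ω ∈ Rch (ua e) R e) : ∃ t ∈ MM ω (RL c L w) e, BdL c L w t := by
  obtain ⟨t, ht, htb⟩ := h
  have heL := inL_of_inE (c := c) he hdw hwL
  rcases first_exit' (F := (RL c L w : Set (ℤ × ℤ))) ht with h1 | ⟨s, hs, f, hf, hf', hsd⟩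
  · obtain ⟨f, hf, hsd⟩ := exists_out htb
    exact ⟨t, h1, bdL_of_side (MM_inL heL h1) hsd fun h2 => hf (RL_sub_BR he hR hwL h2)⟩
  · exact ⟨s, hs, bdL_of_side (MM_inL heL hs) hsd fun h2 => hf' (Finset.mem_coe.2 h2)⟩

/-- The ends of the unit edges of the strand are vertices of the outer perimeter. -/
theorem mem_perK_of_MM (hk : k ∈ Oc (cfgE n ω : Set Ed) u)
    (hpos : 0 < Metric.diam (clS (cfgE n ω) u)) (hR : R + 1 ≤ dB n (vtx k))
    (ha : a ∈ MM ω (BR (ua (kap k)) R) (kap k)) :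
    ∃ v : ℤ × ℤ, (phiV v = ua a ∨ phiV v = ub a) ∧
      toC v / n ∈ (perK n (cfgE n ω) u : Set ℂ) := by
  obtain ⟨k', hk', rfl⟩ := mem_orb_of_MM hR ha
  have hT : cfgE n ω ⊆ boxE n := Finset.filter_subset _ _
  have h1 : k' ∈ Oc (cfgE n ω : Set Ed) u :=
    Pool.Agent.PercO.orb_sub_Oc (Pool.Agent.PercO.boxE_sub hT) hk hk'
  have h2 := outV_of_cor hpos h1
  refine ⟨vtx k', ?_, ⟨toC (vtx k'), Perc.PercD.toC_mem_frontier h2, rfl⟩⟩
  rcases joins_kap k' with ⟨h3, -⟩ | ⟨h3, -⟩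
  · exact Or.inl h3
  · exact Or.inr h3

/-- The centred lattice point of the cell `a`. -/
noncomputable def gc (n p : ℕ) (c a : ℤ × ℤ) : ℤ × ℤ := ((gp n p a).1 - c.1, (gp n p a).2 - c.2)

theorem segP_shift {P : ℤ × ℤ → Prop} {x y : ℤ × ℤ} (h : SegP P x y) :
    SegP (fun q => P (q.1 + c.1, q.2 + c.2)) (x.1 - c.1, x.2 - c.2) (y.1 - c.1, y.2 - c.2) := by
  refine ⟨h.1.imp (by intro h; simp only; omega) (by intro h; simp only; omega), ?_⟩
  intro q h1 h2 h3 h4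
  simp only at h1 h2 h3 h4
  refine h.2 _ ?_ ?_ ?_ ?_ <;> simp only <;> omega

theorem gc_step {B : ℤ × ℤ → Prop} (x y : ℤ × ℤ) (h : Stp B x y) :
    ∃ z, SegP (fun q => NearB n p B (q.1 + c.1, q.2 + c.2)) (gc n p c x) z ∧
      SegP (fun q => NearB n p B (q.1 + c.1, q.2 + c.2)) z (gc n p c y) := by
  obtain ⟨h1, h2⟩ := seg_step (n := n) (p := p) h
  exact ⟨_, segP_shift h1, segP_shift h2⟩

theorem far_of_clear {q v f : ℤ × ℤ} {κ : ℝ} (hκ : (D : ℝ) + 1 ≤ κ)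
    (h : κ < |((q.1 + c.1 : ℤ) : ℝ) - v.1| ∨ κ < |((q.2 + c.2 : ℤ) : ℝ) - v.2|)
    (h1 : |v.1 - c.1 - f.1| ≤ 1) (h2 : |v.2 - c.2 - f.2| ≤ 1) :
    D < max |q.1 - f.1| |q.2 - f.2| := by
  have key : ∀ x y z t : ℤ, κ < |((x + y : ℤ) : ℝ) - z| → |z - y - t| ≤ 1 → D < |x - t| := by
    intro x y z t h h'
    have h3 : (D : ℝ) + 1 < ((|x + y - z| : ℤ) : ℝ) := by
      push_cast at h ⊢
      linarith
    have h4 : D + 1 < |x + y - z| := by exact_mod_cast h3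
    rw [lt_abs] at h4 ⊢
    rw [abs_le] at h'
    omega
  rcases h with h | h
  · exact lt_max_of_lt_left (key _ _ _ _ h h1)
  · exact lt_max_of_lt_right (key _ _ _ _ h h2)

/-- **The deterministic statement**: a corner of the outer perimeter in the inner box and a chain of
free squares from the inner box to points far away give two strands and a corridor. -/
theorem corrU_of (hn : 0 < n) (hk : k ∈ Oc (cfgE n ω : Set Ed) u)
    (hin : InE c d (kap k)) (hd : 0 < d) (hdw : d < w) (hwL : w ≤ L) (hXL : X ≤ L)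
    (hR : R + 1 ≤ dB n (vtx k)) (hR1 : L + d ≤ R) {D₀ : ℝ}
    (hdiam : D₀ ≤ Metric.diam (clS (cfgE n ω) u)) (hRD : 4 * ((R : ℝ) + 2) ≤ D₀)
    (hLat : ω ∉ Lat c d X L w) {a b : ℤ × ℤ}
    (hab : ReflTransGen (Stp (FreeC p (perK n (cfgE n ω) u : Set ℂ))) a b)
    (hb : Far p b) (ha1 : |(gc n p c a).1| < d) (ha2 : |(gc n p c a).2| < d)
    (hout : ∀ b, Far p b → ¬ (|(gc n p c b).1| ≤ L ∧ |(gc n p c b).2| ≤ w))
    (hD : 2 * ((D : ℝ) + 1) + 2 ≤ n / 2 ^ p) :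
    shiftC c.1 c.2 ω ∈ CorrU L w d D (corN p) := by
  have hR0 : (0 : ℝ) ≤ R := by
    have : 0 ≤ R := by omega
    exact_mod_cast this
  have hpos : 0 < Metric.diam (clS (cfgE n ω) u) := by linarith
  have hRch := Rch_of_outer hk hdiam hR (by omega) hRD
  obtain ⟨t, ht, htb⟩ := exists_tipL hin hdw.le hwL hR1 hRch
  obtain ⟨b₁, b₂, hne, hb1, hb2, hM1, hM2, ⟨s₁, hs1, hs1'⟩, s₂, hs2, hs2'⟩ :=
    strands (X := X) hin hd hdw (by omega) hXL hLat ht htb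
  -- translation
  have hFG : ∀ f ∈ ((RL c L w : Set (ℤ × ℤ)) \ BR c d),
      (f.1 - c.1, f.2 - c.2) ∈ (AnF L w d : Set (ℤ × ℤ)) := by
    rintro f ⟨hf1, hf2⟩
    rw [Finset.mem_coe, mem_RL] at hf1
    rw [mem_BR'] at hf2
    rw [Finset.mem_coe, mem_AnF]
    simp only
    omega
  have hGF : ∀ f ∈ (AnF L w d : Set (ℤ × ℤ)),
      (f.1 + c.1, f.2 + c.2) ∈ ((RL c L w : Set (ℤ × ℤ)) \ BR c d) := by
    intro f hf
    rw [Finset.mem_coe, mem_AnF] at hf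
    refine ⟨?_, ?_⟩
    · rw [Finset.mem_coe, mem_RL]; simp only; omega
    · rw [mem_BR']; simp only; omega
  have hTBF : ∀ b, TB c L w b → shE' c b ∈ TBF L w := by
    rintro ⟨x, y, t⟩ ⟨h1, h2, h3, h4⟩
    rw [mem_TBF]
    simp only [shE'] at h1 h2 h3 h4 ⊢
    exact ⟨by omega, by omega, by omega, h1⟩
  have hBd : ∀ s, BdR c d s → BdE (-d) d (-d) d (shE' c s) := by
    rintro ⟨x, y, t⟩ h
    unfold BdR BdE at h
    unfold BdE
    simp only [shE'] at h ⊢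
    rcases h with ⟨h0, h⟩ | ⟨h0, h⟩
    · exact Or.inl ⟨h0, by omega, by omega, by omega⟩
    · exact Or.inr ⟨h0, by omega, by omega, by omega⟩
  -- the visited faces are near the perimeter
  have hvis : ∀ b, b ∈ MM ω (RL c L w) (kap k) →
      ∀ f ∈ SS (shiftC c.1 c.2 ω) (AnF L w d) (shE' c b), ∃ v : ℤ × ℤ,
        toC v / n ∈ (perK n (cfgE n ω) u : Set ℂ) ∧ |(phiV v).1 - c.1 - f.1| ≤ 1 ∧
          |(phiV v).2 - c.2 - f.2| ≤ 1 := by
    rintro b hb f ⟨-, s, hs, hsd⟩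
    have h1 := MM_unshift hGF hs
    rw [shE_shE'] at h1
    have h2 : shE c s ∈ MM ω (RL c L w) (kap k) := MM_trans hb (MM_mono (fun f hf => hf.1) h1)
    have h3 : shE c s ∈ MM ω (BR (ua (kap k)) R) (kap k) :=
      MM_mono (fun f hf => Finset.mem_coe.2 (RL_sub_BR hin hR1 hwL (Finset.mem_coe.1 hf))) h2
    obtain ⟨v, hv, hvK⟩ := mem_perK_of_MM hk hpos hR h3
    refine ⟨v, hvK, ?_⟩
    obtain ⟨x, y⟩ := f
    rcases hsd with rfl | rfl | rfl | rfl
    · simp only [shE, bo, ua_mk, ub_false] at hv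
      rcases hv with hv | hv <;> rw [hv] <;> simp only <;> rw [abs_le, abs_le] <;> omega
    · simp only [shE, le', ua_mk, ub_true] at hv
      rcases hv with hv | hv <;> rw [hv] <;> simp only <;> rw [abs_le, abs_le] <;> omega
    · simp only [shE, to', ua_mk, ub_false] at hv
      rcases hv with hv | hv <;> rw [hv] <;> simp only <;> rw [abs_le, abs_le] <;> omega
    · simp only [shE, ri, ua_mk, ub_true] at hv
      rcases hv with hv | hv <;> rw [hv] <;> simp only <;> rw [abs_le, abs_le] <;> omega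
  -- the corridor
  have haS : a ∈ cellS p := by
    by_contra h
    rw [not_mem_cellS] at h
    exact hout a h ⟨by omega, by omega⟩
  obtain ⟨b', l, hb', hl1, hl2, hl3⟩ := exists_path (g := gc n p c)
    (P := fun q => NearB n p (FreeC p (perK n (cfgE n ω) u : Set ℂ)) (q.1 + c.1, q.2 + c.2))
    (fun x y h => gc_step x y h) haS (not_mem_cellS.2 hb) hab
  obtain ⟨l', k1, k2, k3, k4⟩ := trim l (gc n p c a) (L := L) (w := w) (by omega) (by omega) hl1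
    (by rw [hl2]; exact hout b' (not_mem_cellS.1 hb'))
  have hCorr : Corr L w d (gc n p c a) l' := ⟨PathP.rectil l' k1, ⟨ha1, ha2⟩, k3, k4⟩
  refine ⟨shE' c b₁, hTBF _ hb1, shE' c b₂, hTBF _ hb2, fun h => hne (shE'_inj h),
    ⟨_, MM_shift hFG hs1, hBd _ hs1'⟩, ⟨_, MM_shift hFG hs2, hBd _ hs2'⟩, gc n p c a, l', hCorr, ?_,
    ?_⟩
  · rw [← card_cellS]
    exact k2.trans hl3
  · intro f hf
    obtain ⟨v, hvK, hv1, hv2⟩ : ∃ v : ℤ × ℤ,
        toC v / n ∈ (perK n (cfgE n ω) u : Set ℂ) ∧ |(phiV v).1 - c.1 - f.1| ≤ 1 ∧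
          |(phiV v).2 - c.2 - f.2| ≤ 1 := by
      rcases hf with hf | hf
      · exact hvis _ hM1 f hf
      · exact hvis _ hM2 f hf
    intro x hx
    obtain ⟨y, hy, hyq⟩ := PathP.onPath l' k1 x hx
    have hcl := clear hn hy hvK hyq (κ := (D : ℝ) + 1) hD
    exact far_of_clear (q := (x.1, x.2.1)) le_rfl (by exact_mod_cast hcl) hv1 hv2

end

end Pool.Agent.PercS5
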