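import Pool.Agent.Lib.MP_6bd702_pr_h23.Dual

/-!
# Faces of the square lattice joined across the edges which are not in a set
-/

set_option autoImplicit false

open Set

namespace Pool.Agent.MP_6bd702.H60

open Pool.Agent.MP_6bd702.H23

/-- Two faces are neighbours across an edge which is not in `T`. -/
def FStep (T : Set Ed) (f g : ℤ × ℤ) : Prop :=
  ∃ e ∉ T, (f1 e = f ∧ f2 e = g) ∨ (f1 e = g ∧ f2 e = f)

/-- Two faces are joined across edges which are not in `T`. -/
def FConn (T : Set Ed) (f g : ℤ × ℤ) : Prop := Relation.ReflTransGen (FStep T) f g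

theorem FStep.symm {T : Set Ed} {f g : ℤ × ℤ} (h : FStep T f g) : FStep T g f := by
  obtain ⟨e, he, h⟩ := h
  exact ⟨e, he, h.symm⟩

theorem FConn.symm {T : Set Ed} {f g : ℤ × ℤ} (h : FConn T f g) : FConn T g f := by
  unfold FConn at *
  induction h with
  | refl => exact .refl
  | tail _ h2 ih => exact .head h2.symm ih

theorem FConn.trans {T : Set Ed} {f g k : ℤ × ℤ} (h : FConn T f g) (h' : FConn T g k) :
    FConn T f k := Relation.ReflTransGen.trans h h'

/-- The faces which are joined to infinitely many faces. -/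
def Out (T : Set Ed) : Set (ℤ × ℤ) := {f | {g | FConn T f g}.Infinite}

theorem Out.of_conn {T : Set Ed} {f g : ℤ × ℤ} (h : FConn T f g) (hf : f ∈ Out T) : g ∈ Out T := by
  have h1 : {k | FConn T f k} = {k | FConn T g k} := by
    ext k
    exact ⟨fun h2 => h.symm.trans h2, fun h2 => h.trans h2⟩
  change {k | FConn T g k}.Infinite
  rw [← h1]
  exact hf

end Pool.Agent.MP_6bd702.H60
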