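import Pool.Agent.Lib.MP_6bd702_percu.Corner

/-!
# Two corners whose vertices are joined and whose faces are dually joined are on one interface
-/

set_option autoImplicit false

open Set

namespace Pool.Agent.PercO

open Pool.Agent.MP_6bd702.H23 Pool.Agent.PercU

/-- A primitive. -/
theorem exists_prim (g : ℤ → ZMod 2) : ∃ S : ℤ → ZMod 2, S 0 = 0 ∧ ∀ a, S (a + 1) = S a + g a := by
  refine ⟨fun a => (∑ i ∈ Finset.Ico 0 a, g i) + ∑ i ∈ Finset.Ico a 0, g i, by simp, fun a => ?_⟩
  rcases le_or_gt 0 a with h | h
  · have h1 : Finset.Ico 0 (a + 1) = insert a (Finset.Ico 0 a) := by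
      ext x; simp only [Finset.mem_Ico, Finset.mem_insert]; omega
    have h2 : Finset.Ico (a + 1) 0 = ∅ := Finset.Ico_eq_empty (by omega)
    have h3 : Finset.Ico a 0 = ∅ := Finset.Ico_eq_empty (by omega)
    simp only [h1, h2, h3, Finset.sum_empty, add_zero]
    rw [Finset.sum_insert (by simp)]
    ring
  · have h1 : Finset.Ico a 0 = insert a (Finset.Ico (a + 1) 0) := by
      ext x; simp only [Finset.mem_Ico, Finset.mem_insert]; omega
    have h2 : Finset.Ico 0 (a + 1) = ∅ := Finset.Ico_eq_empty (by omega)
    have h3 : Finset.Ico 0 a = ∅ := Finset.Ico_eq_empty (by omega)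
    simp only [h1, h2, h3, Finset.sum_empty, zero_add]
    rw [Finset.sum_insert (by simp)]
    have := add_self2 (g a)
    linear_combination -this

/-- A closed mod 2 form on the square lattice is exact. -/
theorem exists_pot (A B : ℤ → ℤ → ZMod 2)
    (h : ∀ a b, A a b + B (a + 1) b + A a (b + 1) + B a b = 0) :
    ∃ p : ℤ → ℤ → ZMod 2, (∀ a b, p (a + 1) b = p a b + A a b) ∧
      ∀ a b, p a (b + 1) = p a b + B a b := by
  obtain ⟨S, -, hS⟩ := exists_prim fun a => A a 0
  choose V hV0 hV using fun a => exists_prim (B a)
  refine ⟨fun a b => S a + V a b, fun a b => ?_, fun a b => by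
    change S a + V a (b + 1) = S a + V a b + B a b
    rw [hV]; ring⟩
  change S (a + 1) + V (a + 1) b = S a + V a b + A a b
  have key : ∀ b, V (a + 1) b + V a b = A a 0 + A a b := by
    intro b
    induction b using Int.induction_on with
    | zero => rw [hV0, hV0, add_zero, add_self2]
    | succ i ih =>
      rw [hV, hV]
      have h1 := h a i
      have h3 := add_self2 (A a (i + 1))
      linear_combination ih + h1 - h3
    | pred i ih =>
      have h4 := hV (a + 1) (-i - 1)
      have h5 := hV a (-i - 1)
      have h1 := h a (-i - 1)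
      simp only [sub_add_cancel] at h4 h5 h1
      have h2 := add_self2 (A a (-i))
      rw [h4, h5] at ih
      linear_combination ih - h1 + h2
  have hk := key b
  have h1 := add_self2 (V a b)
  rw [hS]
  have h2 := add_self2 (A a 0)
  linear_combination hk - h1 + h2


/-- The orbit of a corner. -/
def Orb (ω : Set Ed) (k : Cor) : Set Cor := {k' | ∃ j : ℤ, (nxtE ω ^ j) k = k'}

theorem nxt_mem_orb {ω : Set Ed} {k k' : Cor} : nxt ω k' ∈ Orb ω k ↔ k' ∈ Orb ω k := by
  constructor
  · rintro ⟨j, hj⟩
    refine ⟨-1 + j, ?_⟩
    rw [zpow_add, Equiv.Perm.mul_apply, hj, zpow_neg_one]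
    exact (nxtE ω).symm_apply_apply k'
  · rintro ⟨j, hj⟩
    refine ⟨1 + j, ?_⟩
    rw [zpow_add, Equiv.Perm.mul_apply, hj, zpow_one]
    rfl

/-- The height function of an interface: the vertices on its left and the faces on its right. -/
theorem exists_height (ω : Set Ed) (k : Cor) : ∃ hv hf : ℤ × ℤ → ZMod 2,
    ∀ k', hv (vtx k') + hf (fce k') = ind (k' ∈ Orb ω k) := by
  -- `c a b` is the indicator of the orbit for the corner crossed by an edge of the quad graph
  have hq : ∀ x y : ℤ, ∀ J : Cor → ZMod 2, (∀ k', J (nxt ω k') = J k') →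
      (J (x, y, true, false) + J (x, y, true, true) + J (x + 1, y, false, true)
        + J (x + 1, y, false, false) = 0) ∧
      (J (x, y, true, true) + J (x, y, false, true) + J (x, y + 1, false, false)
        + J (x, y + 1, true, false) = 0) := by
    intro x y J hJ
    constructor
    · have h1 := hJ (x, y, true, false)
      have h2 := hJ (x + 1, y, false, true)
      have e1 : qry (x, y, true, false) = (x, y, false) := rfl
      have e2 : qry (x + 1, y, false, true) = (x, y, false) := by simp [qry]
      by_cases h : (x, y, false) ∈ ω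
      · rw [nxt_of_mem (by rwa [e1])] at h1
        rw [nxt_of_mem (by rwa [e2])] at h2
        simp only [adv, add_sub_cancel_right] at h1 h2
        have h3 := add_self2 (J (x, y, true, false))
        have h4 := add_self2 (J (x + 1, y, false, true))
        linear_combination h1 + h2 + h3 + h4
      · rw [nxt_of_notMem (by rwa [e1])] at h1
        rw [nxt_of_notMem (by rwa [e2])] at h2
        simp only [rot] at h1 h2
        have h3 := add_self2 (J (x, y, true, false))
        have h4 := add_self2 (J (x + 1, y, false, true))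
        linear_combination h1 + h2 + h3 + h4
    · have h1 := hJ (x, y, true, true)
      have h2 := hJ (x, y + 1, false, false)
      have e1 : qry (x, y, true, true) = (x, y, true) := rfl
      have e2 : qry (x, y + 1, false, false) = (x, y, true) := by simp [qry]
      by_cases h : (x, y, true) ∈ ω
      · rw [nxt_of_mem (by rwa [e1])] at h1
        rw [nxt_of_mem (by rwa [e2])] at h2
        simp only [adv, add_sub_cancel_right] at h1 h2
        have h3 := add_self2 (J (x, y, true, true))
        have h4 := add_self2 (J (x, y + 1, false, false))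
        linear_combination h1 + h2 + h3 + h4
      · rw [nxt_of_notMem (by rwa [e1])] at h1
        rw [nxt_of_notMem (by rwa [e2])] at h2
        simp only [rot] at h1 h2
        have h3 := add_self2 (J (x, y, true, true))
        have h4 := add_self2 (J (x, y + 1, false, false))
        linear_combination h1 + h2 + h3 + h4
  have hJ : ∀ k', ind (nxt ω k' ∈ Orb ω k) = ind (k' ∈ Orb ω k) := by
    intro k'
    rw [show (nxt ω k' ∈ Orb ω k) = (k' ∈ Orb ω k) from propext nxt_mem_orb]
  set J : Cor → ZMod 2 := fun k' => ind (k' ∈ Orb ω k) with hJdef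
  have hq' := fun x y => hq x y J hJ
  -- coordinates `X = a - b`, `Y = a + b`: vertices at even, faces at odd points
  let A : ℤ → ℤ → ZMod 2 := fun a b =>
    if (a - b) % 2 = 0 then J ((a - b) / 2, (a + b) / 2, true, true)
    else J ((a - b + 1) / 2, (a + b + 1) / 2, false, false)
  let B : ℤ → ℤ → ZMod 2 := fun a b =>
    if (a - b) % 2 = 0 then J ((a - b) / 2, (a + b) / 2, false, true)
    else J ((a - b - 1) / 2, (a + b + 1) / 2, true, false)
  have hA0 : ∀ x y a b : ℤ, a - b = 2 * x → a + b = 2 * y → A a b = J (x, y, true, true) := by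
    intro x y a b h1 h2
    simp only [A]
    rw [if_pos (by omega), show (a - b) / 2 = x by omega, show (a + b) / 2 = y by omega]
  have hA1 : ∀ x y a b : ℤ, a - b + 1 = 2 * x → a + b + 1 = 2 * y →
      A a b = J (x, y, false, false) := by
    intro x y a b h1 h2
    simp only [A]
    rw [if_neg (by omega), show (a - b + 1) / 2 = x by omega, show (a + b + 1) / 2 = y by omega]
  have hB0 : ∀ x y a b : ℤ, a - b = 2 * x → a + b = 2 * y → B a b = J (x, y, false, true) := by
    intro x y a b h1 h2
    simp only [B]
    rw [if_pos (by omega), show (a - b) / 2 = x by omega, show (a + b) / 2 = y by omega]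
  have hB1 : ∀ x y a b : ℤ, a - b - 1 = 2 * x → a + b + 1 = 2 * y →
      B a b = J (x, y, true, false) := by
    intro x y a b h1 h2
    simp only [B]
    rw [if_neg (by omega), show (a - b - 1) / 2 = x by omega, show (a + b + 1) / 2 = y by omega]
  obtain ⟨p, hp1, hp2⟩ := exists_pot A B (by
    intro a b
    rcases Int.even_or_odd' (a - b) with ⟨x, hx | hx⟩
    · rw [hA0 x (x + b) a b (by omega) (by omega), hB0 x (x + b) a b (by omega) (by omega),
        hB1 x (x + b + 1) (a + 1) b (by omega) (by omega),
        hA1 x (x + b + 1) a (b + 1) (by omega) (by omega)]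
      have h1 := (hq' x (x + b)).2
      linear_combination h1
    · rw [hA1 (x + 1) (x + b + 1) a b (by omega) (by omega),
        hB1 x (x + b + 1) a b (by omega) (by omega),
        hB0 (x + 1) (x + b + 1) (a + 1) b (by omega) (by omega),
        hA0 x (x + b + 1) a (b + 1) (by omega) (by omega)]
      have h1 := (hq' x (x + b + 1)).1
      linear_combination h1)
  refine ⟨fun v => p (v.1 + v.2) (v.2 - v.1), fun f => p (f.1 + f.2 + 1) (f.2 - f.1), ?_⟩
  rintro ⟨x, y, _ | _, _ | _⟩
  · have h1 := hp1 (x + y - 1) (y - x)
    rw [hA1 x y _ _ (by omega) (by omega)] at h1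
    simp only [vtx, fce, Bool.false_eq_true, if_false]
    rw [show x - 1 + (y - 1) + 1 = x + y - 1 by ring, show y - 1 - (x - 1) = y - x by ring]
    rw [show x + y - 1 + 1 = x + y by ring] at h1
    have h2 := add_self2 (p (x + y - 1) (y - x))
    linear_combination h1 + h2
  · have h1 := hp2 (x + y) (y - x)
    rw [hB0 x y _ _ (by omega) (by omega)] at h1
    simp only [vtx, fce, Bool.false_eq_true, if_false, if_true]
    rw [show x - 1 + y + 1 = x + y by ring, show y - (x - 1) = y - x + 1 by ring]
    have h2 := add_self2 (p (x + y) (y - x))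
    linear_combination h1 + h2
  · have h1 := hp2 (x + y) (y - x - 1)
    rw [hB1 x y _ _ (by omega) (by omega)] at h1
    simp only [vtx, fce, Bool.false_eq_true, if_false, if_true]
    rw [show x + (y - 1) + 1 = x + y by ring, show y - 1 - x = y - x - 1 by ring]
    rw [show y - x - 1 + 1 = y - x by ring] at h1
    have h2 := add_self2 (p (x + y) (y - x - 1))
    linear_combination h1 + h2
  · have h1 := hp1 (x + y) (y - x)
    rw [hA0 x y _ _ (by omega) (by omega)] at h1
    simp only [vtx, fce, if_true]
    have h2 := add_self2 (p (x + y) (y - x))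
    linear_combination h1 + h2

theorem mem_orb_of_conn {ω : Set Ed} {k k' : Cor} (h1 : Conn ω univ (vtx k) (vtx k'))
    (h2 : Conn (du ω) univ (fce k) (fce k')) : k' ∈ Orb ω k := by
  obtain ⟨hv, hf, h⟩ := exists_height ω k
  have hJ : ∀ k', ind (nxt ω k' ∈ Orb ω k) = ind (k' ∈ Orb ω k) := by
    intro k'
    rw [show (nxt ω k' ∈ Orb ω k) = (k' ∈ Orb ω k) from propext nxt_mem_orb]
  -- the height is constant along open edges and across closed edges
  have hcor : ∀ k₀, (qry k₀ ∈ ω → hv (vtx (adv k₀)) = hv (vtx k₀)) ∧
      (qry k₀ ∉ ω → hf (fce (rot k₀)) = hf (fce k₀)) := by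
    intro k₀
    constructor
    · intro h3
      have h4 := hJ k₀
      rw [nxt_of_mem h3, ← h, ← h, fce_adv] at h4
      exact add_right_cancel h4
    · intro h3
      have h4 := hJ k₀
      rw [nxt_of_notMem h3, ← h, ← h, vtx_rot] at h4
      exact add_left_cancel h4
  have hedge : ∀ e : Ed, (e ∈ ω → hv (ea e) = hv (eb e)) ∧ (e ∉ ω → hf (f1 e) = hf (f2 e)) := by
    intro e
    obtain ⟨x, y, s⟩ := e
    cases s with
    | false =>
      have h3 := hcor (x, y, true, false)
      constructor
      · intro h4
        have h5 := h3.1 h4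
        simp only [adv, vtx] at h5
        exact h5.symm
      · intro h4
        have h5 := h3.2 h4
        simp only [rot, fce, if_true, Bool.false_eq_true, if_false] at h5
        simp only [f1, f2, Bool.false_eq_true, if_false]
        exact h5.symm
    | true =>
      have h3 := hcor (x, y, true, true)
      constructor
      · intro h4
        have h5 := h3.1 h4
        simp only [adv, vtx] at h5
        exact h5.symm
      · intro h4
        have h5 := h3.2 h4
        simp only [rot, fce, if_true, Bool.false_eq_true, if_false] at h5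
        simp only [f1, f2, if_true]
        exact h5
  have hv' : hv (vtx k) = hv (vtx k') := by
    unfold Conn at h1
    generalize vtx k' = w at h1
    clear h2
    induction h1 with
    | refl => rfl
    | tail _ h2 ih =>
      obtain ⟨-, -, e, he, ⟨h3, h4⟩ | ⟨h3, h4⟩⟩ := h2
      · rw [ih, ← h3, ← h4]; exact (hedge e).1 he
      · rw [ih, ← h3, ← h4]; exact ((hedge e).1 he).symm
  have hf' : hf (fce k) = hf (fce k') := by
    unfold Conn at h2
    generalize fce k' = w at h2
    clear hv' h1
    induction h2 with
    | refl => rfl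
    | tail _ h2 ih =>
      obtain ⟨-, -, e, he, hh⟩ := h2
      have he' : cr e ∉ ω := he
      have h5 := (hedge (cr e)).2 he'
      rw [← ea_dc, ← eb_dc, dc_cr] at h5
      rcases hh with ⟨h3, h4⟩ | ⟨h3, h4⟩
      · rw [ih, ← h3, ← h4]; exact h5
      · rw [ih, ← h3, ← h4]; exact h5.symm
  have h3 : ind (k' ∈ Orb ω k) = 1 := by
    rw [← h, ← hv', ← hf', h]
    exact ind_pos ⟨0, rfl⟩
  by_contra h4
  rw [ind_neg h4] at h3
  exact zero_ne_one h3

end Pool.Agent.PercO
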