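import Mathlib

/-!
# The outer boundary of a compact set: definition
-/

set_option autoImplicit false

namespace Pool.Agent.PercS5

/-- The unbounded component of the complement of `K`. -/
def outC (K : Set ℂ) : Set ℂ := {z | ¬ Bornology.IsBounded (connectedComponentIn Kᶜ z)}

/-- The outer boundary of `K`: the boundary of the unbounded component of its complement. -/
def outB (K : Set ℂ) : Set ℂ := frontier (outC K)

end Pool.Agent.PercS5
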