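import Pool.Agent.Lib.MP_6bd702_percD.Limit
import Pool.Agent.Lib.MP_6bd702_pr_h60.OutDefs

/-!
# The outer boundary of a compact set and chains of dyadic squares

`outC K` is the unbounded component of the complement of `K`, `outB K` its boundary (the outer
boundary of `K`). A point of the unbounded component is joined to points far away by a chain of
small dyadic squares which avoid `K`, and conversely.
-/

set_option autoImplicit false

namespace Pool.Agent.PercS5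

open Set Filter Topology TopologicalSpace Relation
open Pool.Agent.PercD

/-- The point `a / 2 ^ p`. -/
noncomputable def pt (p : ℕ) (a : ℤ × ℤ) : ℂ := ⟨a.1 / 2 ^ p, a.2 / 2 ^ p⟩

/-- The closed square of side `2 / 2 ^ p` centred at `a / 2 ^ p`. -/
def cbox (p : ℕ) (a : ℤ × ℤ) : Set ℂ :=
  {w | |w.re - a.1 / 2 ^ p| ≤ 1 / 2 ^ p ∧ |w.im - a.2 / 2 ^ p| ≤ 1 / 2 ^ p}

/-- Neighbours in the square lattice. -/
def Adj (a b : ℤ × ℤ) : Prop := (a.1 = b.1 ∧ |a.2 - b.2| = 1) ∨ (|a.1 - b.1| = 1 ∧ a.2 = b.2)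

/-- A step between neighbours in `B`. -/
def Stp (B : ℤ × ℤ → Prop) (a b : ℤ × ℤ) : Prop := Adj a b ∧ B a ∧ B b

/-- The lattice points outside the square of radius `2`. -/
def Far (p : ℕ) (b : ℤ × ℤ) : Prop := 2 * 2 ^ p < |b.1| ∨ 2 * 2 ^ p < |b.2|

/-- The closed square of `a` avoids `K`. -/
def FreeC (p : ℕ) (K : Set ℂ) (a : ℤ × ℤ) : Prop := Disjoint (cbox p a) K

/-- The open square of `a` avoids `K`. -/
def FreeO (p : ℕ) (K : Set ℂ) (a : ℤ × ℤ) : Prop := Disjoint (cell p a) K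

/-- A chain of closed squares (mesh `2 ^ (-p)`) which avoid `K` leads from the open cell `z` of
level `m` to points far away. -/
def SeenC (p m : ℕ) (z : ℤ × ℤ) (K : Set ℂ) : Prop :=
  ∃ a b, pt p a ∈ cell m z ∧ Far p b ∧ FreeC p K a ∧ ReflTransGen (Stp (FreeC p K)) a b

/-- A chain of open squares (mesh `2 ^ (-p)`) which avoid `K` leads from the closed cell `z` of
level `m` to points far away. -/
def SeenO (p m : ℕ) (z : ℤ × ℤ) (K : Set ℂ) : Prop :=
  ∃ a b, pt p a ∈ cbox m z ∧ Far p b ∧ FreeO p K a ∧ ReflTransGen (Stp (FreeO p K)) a b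

/-! ### Chains -/

theorem Adj.symm {a b : ℤ × ℤ} (h : Adj a b) : Adj b a := by
  rcases h with ⟨h1, h2⟩ | ⟨h1, h2⟩
  · left; exact ⟨h1.symm, by rw [abs_sub_comm]; exact h2⟩
  · right; exact ⟨by rw [abs_sub_comm]; exact h1, h2.symm⟩

theorem Stp.symm {B : ℤ × ℤ → Prop} {a b : ℤ × ℤ} (h : Stp B a b) : Stp B b a :=
  ⟨h.1.symm, h.2.2, h.2.1⟩

theorem rtg_symm {B : ℤ × ℤ → Prop} {a b : ℤ × ℤ} (h : ReflTransGen (Stp B) a b) :
    ReflTransGen (Stp B) b a := by
  induction h with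
  | refl => exact .refl
  | tail _ h2 ih => exact .head h2.symm ih

theorem rtg_mono {B B' : ℤ × ℤ → Prop} (hB : ∀ a, B a → B' a) {a b : ℤ × ℤ}
    (h : ReflTransGen (Stp B) a b) : ReflTransGen (Stp B') a b :=
  (ReflTransGen.mono (r := Stp B) (p := Stp B')
    fun _ _ h => ⟨h.1, hB _ h.2.1, hB _ h.2.2⟩) a b h

theorem rtg_hor {B : ℤ × ℤ → Prop} (x y : ℤ) (k : ℕ) (h : ∀ i : ℕ, i ≤ k → B (x + i, y)) :
    ReflTransGen (Stp B) (x, y) (x + k, y) := by
  induction k with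
  | zero => simp only [Nat.cast_zero, add_zero]; exact .refl
  | succ k ih =>
    refine (ih fun i hi => h i (by omega)).tail ⟨Or.inr ⟨?_, rfl⟩, h k (by omega), h (k + 1) le_rfl⟩
    push_cast
    rw [show x + (k : ℤ) - (x + (k + 1)) = -1 by ring]
    simp

theorem rtg_ver {B : ℤ × ℤ → Prop} (x y : ℤ) (k : ℕ) (h : ∀ i : ℕ, i ≤ k → B (x, y + i)) :
    ReflTransGen (Stp B) (x, y) (x, y + k) := by
  induction k with
  | zero => simp only [Nat.cast_zero, add_zero]; exact .refl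
  | succ k ih =>
    refine (ih fun i hi => h i (by omega)).tail ⟨Or.inl ⟨rfl, ?_⟩, h k (by omega), h (k + 1) le_rfl⟩
    push_cast
    rw [show y + (k : ℤ) - (y + (k + 1)) = -1 by ring]
    simp

/-- Real coordinates of `cbox`. -/
theorem mem_cbox {p : ℕ} {a : ℤ × ℤ} {w : ℂ} :
    w ∈ cbox p a ↔ |w.re * 2 ^ p - a.1| ≤ 1 ∧ |w.im * 2 ^ p - a.2| ≤ 1 := by
  have hp : (0 : ℝ) < 2 ^ p := by positivity
  have aux : ∀ (x : ℝ) (k : ℤ), |x - k / 2 ^ p| ≤ 1 / 2 ^ p ↔ |x * 2 ^ p - k| ≤ 1 := by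
    intro x k
    rw [show x * 2 ^ p - k = (x - k / 2 ^ p) * 2 ^ p by field_simp, abs_mul, abs_of_pos hp,
      le_div_iff₀ hp]
  exact and_congr (aux _ _) (aux _ _)

theorem mem_cell {p : ℕ} {a : ℤ × ℤ} {w : ℂ} :
    w ∈ cell p a ↔ |w.re * 2 ^ p - a.1| < 1 ∧ |w.im * 2 ^ p - a.2| < 1 := by
  have hp : (0 : ℝ) < 2 ^ p := by positivity
  have aux : ∀ (x : ℝ) (k : ℤ), |x - k / 2 ^ p| < 1 / 2 ^ p ↔ |x * 2 ^ p - k| < 1 := by
    intro x k
    rw [show x * 2 ^ p - k = (x - k / 2 ^ p) * 2 ^ p by field_simp, abs_mul, abs_of_pos hp,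
      lt_div_iff₀ hp]
  exact and_congr (aux _ _) (aux _ _)

theorem cell_sub_cbox (p : ℕ) (a : ℤ × ℤ) : cell p a ⊆ cbox p a :=
  fun _ hw => ⟨hw.1.le, hw.2.le⟩

theorem between {x y z : ℤ} {u : ℝ} (hx : |u - x| ≤ 1) (hy : |u - y| ≤ 1)
    (h1 : x ≤ z) (h2 : z ≤ y) : |u - z| ≤ 1 := by
  have h3 : (x : ℝ) ≤ z := by exact_mod_cast h1
  have h4 : (z : ℝ) ≤ y := by exact_mod_cast h2
  rw [abs_le] at *
  constructor <;> linarith [hx.1, hx.2, hy.1, hy.2]

/-- The squares which contain a given point are joined to each other. -/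
theorem near_conn {p : ℕ} {B : ℤ × ℤ → Prop} {y : ℂ} (hB : ∀ a, y ∈ cbox p a → B a)
    {a b : ℤ × ℤ} (ha : y ∈ cbox p a) (hb : y ∈ cbox p b) : ReflTransGen (Stp B) a b := by
  obtain ⟨a1, a2⟩ := a
  obtain ⟨b1, b2⟩ := b
  rw [mem_cbox] at ha hb
  have hmid : y ∈ cbox p (b1, a2) := mem_cbox.2 ⟨hb.1, ha.2⟩
  have hhor : ∀ {c d e : ℤ}, y ∈ cbox p (c, e) → y ∈ cbox p (d, e) → c ≤ d →
      ReflTransGen (Stp B) (c, e) (d, e) := by
    intro c d e hc hd hcd
    obtain ⟨k, rfl⟩ : ∃ k : ℕ, d = c + k := ⟨(d - c).toNat, by omega⟩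
    refine rtg_hor c e k fun i hi => hB _ ?_
    rw [mem_cbox] at hc hd ⊢
    exact ⟨between hc.1 hd.1 (by simp) (by simpa using hi), hc.2⟩
  have hver : ∀ {c d e : ℤ}, y ∈ cbox p (e, c) → y ∈ cbox p (e, d) → c ≤ d →
      ReflTransGen (Stp B) (e, c) (e, d) := by
    intro c d e hc hd hcd
    obtain ⟨k, rfl⟩ : ∃ k : ℕ, d = c + k := ⟨(d - c).toNat, by omega⟩
    refine rtg_ver e c k fun i hi => hB _ ?_
    rw [mem_cbox] at hc hd ⊢
    exact ⟨hc.1, between hc.2 hd.2 (by simp) (by simpa using hi)⟩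
  have h1 : ReflTransGen (Stp B) (a1, a2) (b1, a2) := by
    rcases le_total a1 b1 with h | h
    · exact hhor (mem_cbox.2 ha) hmid h
    · exact rtg_symm (hhor hmid (mem_cbox.2 ha) h)
  have h2 : ReflTransGen (Stp B) (b1, a2) (b1, b2) := by
    rcases le_total a2 b2 with h | h
    · exact hver hmid (mem_cbox.2 hb) h
    · exact rtg_symm (hver (mem_cbox.2 hb) hmid h)
  exact h1.trans h2

theorem exists_cbox (p : ℕ) (y : ℂ) : ∃ a, y ∈ cbox p a := by
  refine ⟨(round (y.re * 2 ^ p), round (y.im * 2 ^ p)), mem_cbox.2 ⟨?_, ?_⟩⟩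
  · have := abs_sub_round (y.re * 2 ^ p); linarith
  · have := abs_sub_round (y.im * 2 ^ p); linarith

theorem exists_common {p : ℕ} {x y : ℂ} (h : dist x y ≤ 1 / 2 ^ p) :
    ∃ c, x ∈ cbox p c ∧ y ∈ cbox p c := by
  have hp : (0 : ℝ) < 2 ^ p := by positivity
  have h1 : |(x - y).re| ≤ 1 / 2 ^ p := (Complex.abs_re_le_norm _).trans (by rwa [← dist_eq_norm])
  have h2 : |(x - y).im| ≤ 1 / 2 ^ p := (Complex.abs_im_le_norm _).trans (by rwa [← dist_eq_norm])
  have aux : ∀ u v : ℝ, |u - v| ≤ 1 / 2 ^ p →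
      |u * 2 ^ p - round ((u + v) / 2 * 2 ^ p)| ≤ 1 ∧ |v * 2 ^ p - round ((u + v) / 2 * 2 ^ p)| ≤ 1 := by
    intro u v huv
    have h3 := abs_le.1 (abs_sub_round ((u + v) / 2 * 2 ^ p))
    have h4 : |(u - v) * 2 ^ p| ≤ 1 := by
      rw [abs_mul, abs_of_pos hp]
      rwa [le_div_iff₀ hp] at huv
    have h5 := abs_le.1 h4
    constructor <;> rw [abs_le] <;> constructor <;> nlinarith [h3.1, h3.2, h5.1, h5.2]
  refine ⟨(round ((x.re + y.re) / 2 * 2 ^ p), round ((x.im + y.im) / 2 * 2 ^ p)), ?_, ?_⟩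
  · exact mem_cbox.2 ⟨(aux _ _ (by simpa using h1)).1, (aux _ _ (by simpa using h2)).1⟩
  · exact mem_cbox.2 ⟨(aux _ _ (by simpa using h1)).2, (aux _ _ (by simpa using h2)).2⟩

/-- A preconnected set is followed by a chain of squares. -/
theorem conn_of_preconnected {S : Set ℂ} (hS : IsPreconnected S) {p : ℕ} {B : ℤ × ℤ → Prop}
    (hB : ∀ y ∈ S, ∀ a, y ∈ cbox p a → B a) {y₀ y₁ : ℂ} (h₀ : y₀ ∈ S) (h₁ : y₁ ∈ S)
    {a b : ℤ × ℤ} (ha : y₀ ∈ cbox p a) (hb : y₁ ∈ cbox p b) : ReflTransGen (Stp B) a b := by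
  refine hS.induction₂ (fun x y => ∀ a b, x ∈ cbox p a → y ∈ cbox p b → ReflTransGen (Stp B) a b)
    ?_ ?_ ?_ h₀ h₁ a b ha hb
  · intro x hx
    have h1 : Metric.ball x (1 / 2 ^ p) ∈ 𝓝[S] x :=
      mem_nhdsWithin_of_mem_nhds (Metric.ball_mem_nhds x (by positivity))
    filter_upwards [h1, self_mem_nhdsWithin] with y hy hyS a b ha hb
    obtain ⟨c, hc, hc'⟩ := exists_common (p := p) (x := x) (y := y)
      (by rw [dist_comm]; exact (Metric.mem_ball.1 hy).le)
    exact (near_conn (hB x hx) ha hc).trans (near_conn (hB y hyS) hc' hb)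
  · intro x y z _ _ _ hxy hyz a c ha hc
    obtain ⟨b, hb⟩ := exists_cbox p y
    exact (hxy a b ha hb).trans (hyz b c hb hc)
  · intro x y _ _ hxy a b ha hb
    exact rtg_symm (hxy b a hb ha)

/-! ### The unbounded component -/

theorem mem_outC_iff {K s : Set ℂ} (hs : IsPreconnected s) (hsc : s ⊆ Kᶜ) {z w : ℂ} (hz : z ∈ s)
    (hw : w ∈ s) : z ∈ outC K ↔ w ∈ outC K := by
  have h1 : w ∈ connectedComponentIn Kᶜ z := hs.subset_connectedComponentIn hz hsc hw
  have h2 := connectedComponentIn_eq h1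
  unfold outC
  rw [mem_ofPred_eq, mem_ofPred_eq, h2]

theorem outC_sub {K : Set ℂ} {z : ℂ} (hz : z ∈ outC K) : z ∉ K := by
  intro h
  apply hz
  rw [connectedComponentIn_eq_empty (by simpa using h)]
  exact Bornology.isBounded_empty

theorem isOpen_outC {K : Set ℂ} (hK : IsClosed K) : IsOpen (outC K) := by
  have hc : IsOpen Kᶜ := hK.isOpen_compl
  rw [isOpen_iff_forall_mem_open]
  intro z hz
  refine ⟨connectedComponentIn Kᶜ z, ?_, hc.connectedComponentIn, ?_⟩
  · intro w hw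
    unfold outC at hz ⊢
    rw [mem_ofPred_eq] at hz ⊢
    rwa [← connectedComponentIn_eq hw]
  · exact mem_connectedComponentIn (outC_sub hz)

theorem outB_sub {K : Set ℂ} (hK : IsClosed K) : outB K ⊆ K := by
  intro z hz
  by_contra hcon
  obtain ⟨ε, hε, hb⟩ := Metric.isOpen_iff.1 hK.isOpen_compl z hcon
  have hz1 : z ∈ closure (outC K) := frontier_subset_closure hz
  obtain ⟨w, hw, hd⟩ := Metric.mem_closure_iff.1 hz1 ε hε
  have h1 : z ∈ outC K :=
    (mem_outC_iff (convex_ball z ε).isPreconnected hb (Metric.mem_ball_self hε)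
      (by rw [Metric.mem_ball, dist_comm]; exact hd)).2 hw
  have h2 : z ∈ interior (outC K) := by rw [(isOpen_outC hK).interior_eq]; exact h1
  exact hz.2 h2

theorem isCompact_outB {K : Set ℂ} (hK : IsCompact K) : IsCompact (outB K) :=
  hK.of_isClosed_subset isClosed_frontier (outB_sub hK.isClosed)

/-- A convex set which contains a point of `K` and a point of the unbounded component contains a
point of the outer boundary. -/
theorem exists_outB {K s : Set ℂ} (hK : IsClosed K) (hs : Convex ℝ s) {x y : ℂ} (hx : x ∈ s)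
    (hxK : x ∈ K) (hy : y ∈ s) (hyU : y ∈ outC K) : ∃ w ∈ s, w ∈ outB K := by
  by_contra hcon
  push Not at hcon
  have hO := isOpen_outC hK
  have hsub : s ⊆ outC K ∪ (closure (outC K))ᶜ := by
    intro w hw
    by_cases h : w ∈ closure (outC K)
    · left
      by_contra h'
      exact hcon w hw ⟨h, by rwa [hO.interior_eq]⟩
    · right; exact h
  have h := IsPreconnected.subset_left_of_subset_union hO isClosed_closure.isOpen_compl
    (disjoint_compl_right.mono_left subset_closure) hsub ⟨y, hy, hyU⟩ hs.isPreconnected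
  exact outC_sub (h hx) hxK

theorem far_mem_outC {K : Set ℂ} (hK : K ⊆ unitSq) {p : ℕ} {b : ℤ × ℤ} (hb : Far p b) :
    pt p b ∈ outC K := by
  have hp : (0 : ℝ) < 2 ^ p := by positivity
  -- a ray which avoids the unit square
  have key : ∀ (d : ℂ), d ≠ 0 → (∀ t : ℝ, 0 ≤ t → pt p b + t * d ∉ unitSq) → pt p b ∈ outC K := by
    intro d hd0 hd hbd
    set R : Set ℂ := (fun t : ℝ => pt p b + t * d) '' Ici 0 with hR
    have hpre : IsPreconnected R :=
      isPreconnected_Ici.image _ (by fun_prop)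
    have hsub : R ⊆ Kᶜ := by
      rintro w ⟨t, ht, rfl⟩ hwK
      exact hd t ht (hK hwK)
    have hmem : pt p b ∈ R := ⟨0, mem_Ici.2 le_rfl, by simp⟩
    have h1 : Bornology.IsBounded R := hbd.subset (hpre.subset_connectedComponentIn hmem hsub)
    obtain ⟨C, hC⟩ := h1.subset_closedBall (pt p b)
    have hC0 : 0 ≤ C := by
      have := hC hmem
      rw [Metric.mem_closedBall, dist_self] at this; exact this
    have h2 := hC (show pt p b + ((C + 1) / ‖d‖ : ℝ) * d ∈ R from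
      ⟨(C + 1) / ‖d‖, mem_Ici.2 (by positivity), rfl⟩)
    rw [Metric.mem_closedBall, dist_eq_norm, add_sub_cancel_left, norm_mul, Complex.norm_real,
      Real.norm_of_nonneg (by positivity), div_mul_cancel₀ _ (norm_ne_zero_iff.2 hd0)] at h2
    linarith
  rcases hb with hb | hb
  · have h1 : (2 : ℝ) < |(b.1 : ℝ) / 2 ^ p| := by
      rw [abs_div, abs_of_pos hp, lt_div_iff₀ hp]
      have : ((2 * 2 ^ p : ℤ) : ℝ) < ((|b.1| : ℤ) : ℝ) := by exact_mod_cast hb
      push_cast at this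
      exact this
    rcases lt_abs.1 h1 with h | h
    · refine key 1 one_ne_zero fun t ht hcon => ?_
      have := hcon.2.1
      simp [pt] at this
      linarith
    · refine key (-1) (by norm_num) fun t ht hcon => ?_
      have := hcon.1
      simp [pt] at this
      linarith
  · have h1 : (2 : ℝ) < |(b.2 : ℝ) / 2 ^ p| := by
      rw [abs_div, abs_of_pos hp, lt_div_iff₀ hp]
      have : ((2 * 2 ^ p : ℤ) : ℝ) < ((|b.2| : ℤ) : ℝ) := by exact_mod_cast hb
      push_cast at this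
      exact this
    rcases lt_abs.1 h1 with h | h
    · refine key Complex.I Complex.I_ne_zero fun t ht hcon => ?_
      have := hcon.2.2.2
      simp [pt] at this
      linarith
    · refine key (-Complex.I) (by simp) fun t ht hcon => ?_
      have := hcon.2.2.1
      simp [pt] at this
      linarith

theorem pt_mem_cell (p : ℕ) (a : ℤ × ℤ) : pt p a ∈ cell p a := by
  rw [mem_cell]
  have hp : (2 : ℝ) ^ p ≠ 0 := by positivity
  simp [pt, div_mul_cancel₀ _ hp]

/-- A chain of free open squares stays in one component of the complement. -/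
theorem step_outC {K : Set ℂ} {p : ℕ} {a b : ℤ × ℤ} (h : Stp (FreeO p K) a b) :
    pt p a ∈ outC K ↔ pt p b ∈ outC K := by
  have hp : (0 : ℝ) < 2 ^ p := by positivity
  obtain ⟨hadj, ha, hb⟩ := h
  -- the midpoint lies in both squares
  set c : ℂ := (pt p a + pt p b) / 2 with hc
  have hdiff : |((a.1 : ℝ) - b.1)| ≤ 1 ∧ |((a.2 : ℝ) - b.2)| ≤ 1 := by
    rcases hadj with ⟨h1, h2⟩ | ⟨h1, h2⟩
    · refine ⟨by rw [h1, sub_self, abs_zero]; norm_num, ?_⟩
      have : (|a.2 - b.2| : ℤ) ≤ 1 := h2.le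
      exact_mod_cast this
    · refine ⟨?_, by rw [h2, sub_self, abs_zero]; norm_num⟩
      have : (|a.1 - b.1| : ℤ) ≤ 1 := h1.le
      exact_mod_cast this
  have hre : c.re * 2 ^ p = ((a.1 : ℝ) + b.1) / 2 := by
    have : c.re = ((a.1 : ℝ) / 2 ^ p + b.1 / 2 ^ p) / 2 := by simp [hc, pt]
    rw [this]; field_simp
  have him : c.im * 2 ^ p = ((a.2 : ℝ) + b.2) / 2 := by
    have : c.im = ((a.2 : ℝ) / 2 ^ p + b.2 / 2 ^ p) / 2 := by simp [hc, pt]
    rw [this]; field_simp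
  have h3 := abs_le.1 hdiff.1
  have h4 := abs_le.1 hdiff.2
  have hca : c ∈ cell p a := by
    rw [mem_cell, hre, him, abs_lt, abs_lt]
    refine ⟨⟨?_, ?_⟩, ?_, ?_⟩ <;> linarith [h3.1, h3.2, h4.1, h4.2]
  have hcb : c ∈ cell p b := by
    rw [mem_cell, hre, him, abs_lt, abs_lt]
    refine ⟨⟨?_, ?_⟩, ?_, ?_⟩ <;> linarith [h3.1, h3.2, h4.1, h4.2]
  have hconv : ∀ a : ℤ × ℤ, IsPreconnected (cell p a) := by
    intro a
    have hcv : Convex ℝ (cell p a) := by
      have e : cell p a = {w : ℂ | |w.re - a.1 / 2 ^ p| < 1 / 2 ^ p} ∩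
          {w : ℂ | |w.im - a.2 / 2 ^ p| < 1 / 2 ^ p} := rfl
      rw [e]
      refine Convex.inter ?_ ?_
      · have e1 : {w : ℂ | |w.re - a.1 / 2 ^ p| < 1 / 2 ^ p} =
            Complex.reLm ⁻¹' (Metric.ball ((a.1 : ℝ) / 2 ^ p) (1 / 2 ^ p)) := by
          ext w; simp [Real.dist_eq]
        rw [e1]
        exact (convex_ball _ _).linear_preimage _
      · have e1 : {w : ℂ | |w.im - a.2 / 2 ^ p| < 1 / 2 ^ p} =
            Complex.imLm ⁻¹' (Metric.ball ((a.2 : ℝ) / 2 ^ p) (1 / 2 ^ p)) := by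
          ext w; simp [Real.dist_eq]
        rw [e1]
        exact (convex_ball _ _).linear_preimage _
    exact hcv.isPreconnected
  have h5 := mem_outC_iff (hconv a) (fun w hw hwK => Set.disjoint_left.1 ha hw hwK) (pt_mem_cell p a) hca
  have h6 := mem_outC_iff (hconv b) (fun w hw hwK => Set.disjoint_left.1 hb hw hwK) (pt_mem_cell p b) hcb
  rw [h5, h6]

theorem mem_outC_of_chain {K : Set ℂ} (hK : K ⊆ unitSq) {p : ℕ} {a b : ℤ × ℤ} (hb : Far p b)
    (h : ReflTransGen (Stp (FreeO p K)) a b) : pt p a ∈ outC K := by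
  induction h using ReflTransGen.head_induction_on with
  | refl => exact far_mem_outC hK hb
  | head h1 _ ih => exact (step_outC h1).2 ih

end Pool.Agent.PercS5
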