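import Pool.Agent.Lib.MP_6bd702_pr_h60.OutChain

/-!
# Weak limits of random compact sets: the dimension of the outer boundary
-/

set_option autoImplicit false

namespace Pool.Agent.PercS5

open Set Filter Topology MeasureTheory TopologicalSpace Relation
open Pool.Agent.PercD
open scoped ENNReal NNReal

theorem isClosed_cbox (p : ℕ) (a : ℤ × ℤ) : IsClosed (cbox p a) := by
  have h1 : Continuous fun w : ℂ => |w.re - a.1 / 2 ^ p| := by fun_prop
  have h2 : Continuous fun w : ℂ => |w.im - a.2 / 2 ^ p| := by fun_prop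
  exact (isClosed_le h1 continuous_const).inter (isClosed_le h2 continuous_const)

theorem dist_le_of_cbox {p : ℕ} {a : ℤ × ℤ} {w y : ℂ} (hw : w ∈ cbox p a) (hy : y ∈ cbox p a) :
    dist w y ≤ 4 / 2 ^ p := by
  have h1 : |(w - y).re| ≤ 2 / 2 ^ p := by
    have a1 := abs_le.1 hw.1
    have a2 := abs_le.1 hy.1
    have e : (2 : ℝ) / 2 ^ p = 1 / 2 ^ p + 1 / 2 ^ p := by ring
    rw [Complex.sub_re, abs_le]; constructor <;> linarith [a1.1, a1.2, a2.1, a2.2]
  have h2 : |(w - y).im| ≤ 2 / 2 ^ p := by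
    have a1 := abs_le.1 hw.2
    have a2 := abs_le.1 hy.2
    have e : (2 : ℝ) / 2 ^ p = 1 / 2 ^ p + 1 / 2 ^ p := by ring
    rw [Complex.sub_im, abs_le]; constructor <;> linarith [a1.1, a1.2, a2.1, a2.2]
  calc dist w y = ‖w - y‖ := dist_eq_norm _ _
    _ ≤ |(w - y).re| + |(w - y).im| := Complex.norm_le_abs_re_add_abs_im _
    _ ≤ 2 / 2 ^ p + 2 / 2 ^ p := add_le_add h1 h2
    _ = 4 / 2 ^ p := by ring

theorem pt_mem_cbox (p : ℕ) (a : ℤ × ℤ) : pt p a ∈ cbox p a := cell_sub_cbox p a (pt_mem_cell p a)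

theorem dist_pt_le {p : ℕ} {a : ℤ × ℤ} {w : ℂ} (hw : w ∈ cbox p a) : dist (pt p a) w ≤ 2 / 2 ^ p := by
  have h1 : |(pt p a - w).re| ≤ 1 / 2 ^ p := by
    rw [Complex.sub_re, abs_sub_comm]; exact hw.1
  have h2 : |(pt p a - w).im| ≤ 1 / 2 ^ p := by
    rw [Complex.sub_im, abs_sub_comm]; exact hw.2
  calc dist (pt p a) w = ‖pt p a - w‖ := dist_eq_norm _ _
    _ ≤ |(pt p a - w).re| + |(pt p a - w).im| := Complex.norm_le_abs_re_add_abs_im _
    _ ≤ 1 / 2 ^ p + 1 / 2 ^ p := add_le_add h1 h2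
    _ = 2 / 2 ^ p := by ring

theorem convex_cbox (p : ℕ) (a : ℤ × ℤ) : Convex ℝ (cbox p a) := by
  have e : cbox p a = {w : ℂ | |w.re - a.1 / 2 ^ p| ≤ 1 / 2 ^ p} ∩
      {w : ℂ | |w.im - a.2 / 2 ^ p| ≤ 1 / 2 ^ p} := rfl
  rw [e]
  refine Convex.inter ?_ ?_
  · have e1 : {w : ℂ | |w.re - a.1 / 2 ^ p| ≤ 1 / 2 ^ p} =
        Complex.reLm ⁻¹' (Metric.closedBall ((a.1 : ℝ) / 2 ^ p) (1 / 2 ^ p)) := by
      ext w; simp [Real.dist_eq]
    rw [e1]
    exact (convex_closedBall _ _).linear_preimage _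
  · have e1 : {w : ℂ | |w.im - a.2 / 2 ^ p| ≤ 1 / 2 ^ p} =
        Complex.imLm ⁻¹' (Metric.closedBall ((a.2 : ℝ) / 2 ^ p) (1 / 2 ^ p)) := by
      ext w; simp [Real.dist_eq]
    rw [e1]
    exact (convex_closedBall _ _).linear_preimage _

/-! ### Upper bound -/

theorem eventually_freeC {K₀ : NonemptyCompacts ℂ} {p : ℕ} {a : ℤ × ℤ} (h : FreeC p K₀ a) :
    ∀ᶠ K : NonemptyCompacts ℂ in 𝓝 K₀, FreeC p K a := by
  have h1 : IsOpen {K : NonemptyCompacts ℂ | (K : Set ℂ) ⊆ (cbox p a)ᶜ} :=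
    NonemptyCompacts.isOpen_subsets_of_isOpen (isClosed_cbox p a).isOpen_compl
  filter_upwards [h1.mem_nhds (show K₀ ∈ {K : NonemptyCompacts ℂ | (K : Set ℂ) ⊆ (cbox p a)ᶜ} from
    fun w hw hw' => Set.disjoint_left.1 h hw' hw)] with K hK
  exact Set.disjoint_left.2 fun w hw hw' => hK hw' hw

theorem eventually_rtg {K₀ : NonemptyCompacts ℂ} {p : ℕ} {a b : ℤ × ℤ}
    (h : ReflTransGen (Stp (FreeC p K₀)) a b) :
    ∀ᶠ K : NonemptyCompacts ℂ in 𝓝 K₀, ReflTransGen (Stp (FreeC p K)) a b := by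
  induction h with
  | refl => exact Eventually.of_forall fun _ => .refl
  | tail _ h2 ih =>
    filter_upwards [ih, eventually_freeC h2.2.1, eventually_freeC h2.2.2] with K h3 h4 h5
    exact h3.tail ⟨h2.1, h4, h5⟩

theorem eventually_seenC {K₀ : NonemptyCompacts ℂ} {p m : ℕ} {z : ℤ × ℤ} (h : SeenC p m z K₀) :
    ∀ᶠ K : NonemptyCompacts ℂ in 𝓝 K₀, SeenC p m z K := by
  obtain ⟨a, b, h1, h2, h3, h4⟩ := h
  filter_upwards [eventually_freeC h3, eventually_rtg h4] with K h5 h6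
  exact ⟨a, b, h1, h2, h5, h6⟩

/-- The cell `z` of level `m` meets `K` and sees infinity through squares of mesh at least
`2 ^ (-p)`. -/
def HitC (p m : ℕ) (K : Set ℂ) (z : ℤ × ℤ) : Prop :=
  (K ∩ cell m z).Nonempty ∧ ∃ p' ≤ p, SeenC p' m z K

open Classical in
/-- The number of cells of level `m` which meet `K` and see infinity. -/
noncomputable def NC (p m : ℕ) (K : Set ℂ) : ℕ := ((idx m).filter (HitC p m K)).card

/-- The weighted sum of the cell counts. -/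
noncomputable def SmC (s : ℝ) (M p : ℕ) (K : Set ℂ) : ℝ :=
  ∑ m ∈ Finset.range M, (1 / 2 ^ m : ℝ) ^ s * NC p m K

theorem HitC.mono {p p' m : ℕ} (h : p ≤ p') {K : Set ℂ} {z : ℤ × ℤ} (hz : HitC p m K z) :
    HitC p' m K z := by
  obtain ⟨h1, q, hq, h2⟩ := hz
  exact ⟨h1, q, hq.trans h, h2⟩

theorem NC_mono {p p' : ℕ} (h : p ≤ p') (m : ℕ) (K : Set ℂ) : NC p m K ≤ NC p' m K := by
  classical
  refine Finset.card_le_card fun z hz => ?_
  rw [Finset.mem_filter] at hz ⊢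
  exact ⟨hz.1, hz.2.mono h⟩

theorem SmC_mono {s : ℝ} {M M' p p' : ℕ} (hM : M ≤ M') (hp : p ≤ p') (K : Set ℂ) :
    SmC s M p K ≤ SmC s M' p' K := by
  unfold SmC
  refine (Finset.sum_le_sum fun m _ => ?_).trans
    (Finset.sum_le_sum_of_subset_of_nonneg (Finset.range_mono hM) fun m _ _ => by positivity)
  refine mul_le_mul_of_nonneg_left ?_ (by positivity)
  exact_mod_cast NC_mono hp m K

theorem isOpen_SmC (s lam : ℝ) (M p : ℕ) :
    IsOpen {K : NonemptyCompacts ℂ | lam < SmC s M p (K : Set ℂ)} := by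
  classical
  rw [isOpen_iff_mem_nhds]
  intro K₀ hK₀
  rw [mem_ofPred_eq] at hK₀
  have h1 : ∀ m ∈ Finset.range M, ∀ z ∈ (idx m).filter (HitC p m (K₀ : Set ℂ)),
      ∀ᶠ K : NonemptyCompacts ℂ in 𝓝 K₀, HitC p m (K : Set ℂ) z := by
    intro m _ z hz
    obtain ⟨h2, q, hq, h3⟩ := (Finset.mem_filter.1 hz).2
    have h4 : IsOpen {K : NonemptyCompacts ℂ | ((K : Set ℂ) ∩ cell m z).Nonempty} :=
      NonemptyCompacts.isOpen_inter_nonempty_of_isOpen (isOpen_cell m z)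
    filter_upwards [h4.mem_nhds h2, eventually_seenC h3] with K h5 h6
    exact ⟨h5, q, hq, h6⟩
  have h2 : ∀ᶠ K : NonemptyCompacts ℂ in 𝓝 K₀, ∀ m ∈ Finset.range M,
      ∀ z ∈ (idx m).filter (HitC p m (K₀ : Set ℂ)), HitC p m (K : Set ℂ) z := by
    rw [eventually_all_finset]
    intro m hm
    rw [eventually_all_finset]
    exact h1 m hm
  filter_upwards [h2] with K hK
  refine lt_of_lt_of_le hK₀ ?_
  refine Finset.sum_le_sum fun m hm => ?_
  refine mul_le_mul_of_nonneg_left ?_ (by positivity)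
  have : NC p m (K₀ : Set ℂ) ≤ NC p m (K : Set ℂ) := by
    refine Finset.card_le_card fun z hz => ?_
    have h3 := hK m hm z hz
    rw [Finset.mem_filter] at hz ⊢
    exact ⟨hz.1, h3⟩
  exact_mod_cast this

/-- A cell which contains a point of the unbounded component sees infinity. -/
theorem seenC_of_mem {K : Set ℂ} (hK : IsCompact K) {m : ℕ} {z : ℤ × ℤ}
    (h : (outC K ∩ cell m z).Nonempty) : ∀ᶠ p in atTop, SeenC p m z K := by
  obtain ⟨y, hyU, hyc⟩ := h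
  have hKc : IsOpen Kᶜ := hK.isClosed.isOpen_compl
  set C := connectedComponentIn Kᶜ y with hC
  have hCo : IsOpen C := hKc.connectedComponentIn
  have hCc : IsConnected C := isConnected_connectedComponentIn_iff.2 (outC_sub hyU)
  have hCp : IsPathConnected C := hCo.isConnected_iff_isPathConnected.1 hCc
  have hyC : y ∈ C := mem_connectedComponentIn (outC_sub hyU)
  obtain ⟨y₁, hy₁, hy₁'⟩ : ∃ y₁ ∈ C, 10 < ‖y₁‖ := by
    by_contra hcon
    push Not at hcon
    apply hyU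
    refine (Metric.isBounded_closedBall (x := (0 : ℂ)) (r := 10)).subset fun w hw => ?_
    rw [mem_closedBall_zero_iff]
    exact hcon w hw
  obtain ⟨γ, hγ⟩ := hCp.joinedIn y hyC y₁ hy₁
  set S : Set ℂ := Set.range γ with hS
  have hSpre : IsPreconnected S := isPreconnected_range γ.continuous
  have hScpt : IsCompact S := isCompact_range γ.continuous
  have hSK : S ⊆ Kᶜ := by
    rintro w ⟨t, rfl⟩
    exact connectedComponentIn_subset _ _ (hγ t)
  obtain ⟨δ, hδ, hδ'⟩ := hScpt.exists_thickening_subset_open hKc hSK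
  obtain ⟨ε, hε, hε'⟩ := Metric.isOpen_iff.1 (isOpen_cell m z) y hyc
  have hlim : Tendsto (fun p : ℕ => (4 : ℝ) / 2 ^ p) atTop (𝓝 0) := by
    have := (tendsto_pow_atTop_nhds_zero_of_lt_one (by norm_num : (0 : ℝ) ≤ 1 / 2)
      (by norm_num)).const_mul (4 : ℝ)
    rw [mul_zero] at this
    refine this.congr fun m => ?_
    rw [one_div, inv_pow]; rfl
  filter_upwards [hlim.eventually_lt_const hδ, hlim.eventually_lt_const hε] with p hp1 hp2
  have hp : (0 : ℝ) < 2 ^ p := by positivity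
  have hB : ∀ w ∈ S, ∀ a, w ∈ cbox p a → FreeC p K a := by
    intro w hw a ha
    refine Set.disjoint_left.2 fun x hx hxK => ?_
    refine hδ' (Metric.mem_thickening_iff.2 ⟨w, hw, ?_⟩) hxK
    exact (dist_le_of_cbox hx ha).trans_lt hp1
  obtain ⟨a, ha⟩ := exists_cbox p y
  obtain ⟨b, hb⟩ := exists_cbox p y₁
  have hyS : y ∈ S := ⟨0, γ.source⟩
  have hy₁S : y₁ ∈ S := ⟨1, γ.target⟩
  refine ⟨a, b, ?_, ?_, hB y hyS a ha, conn_of_preconnected hSpre hB hyS hy₁S ha hb⟩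
  · apply hε'
    rw [Metric.mem_ball]
    refine lt_of_le_of_lt (dist_pt_le ha) (lt_trans ?_ hp2)
    rw [div_lt_div_iff_of_pos_right hp]; norm_num
  · have h1 : ‖y₁‖ ≤ |y₁.re| + |y₁.im| := Complex.norm_le_abs_re_add_abs_im _
    rw [mem_cbox] at hb
    have h2 : (1 : ℝ) ≤ 2 ^ p := one_le_pow₀ (by norm_num)
    have aux : ∀ (x : ℝ) (k : ℤ), 5 < |x| → |x * 2 ^ p - k| ≤ 1 → 2 * 2 ^ p < |k| := by
      intro x k hx hk
      have h3 : 5 * 2 ^ p < |x * 2 ^ p| := by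
        rw [abs_mul, abs_of_pos hp]
        exact mul_lt_mul_of_pos_right hx hp
      have h4 : |x * 2 ^ p| ≤ |x * 2 ^ p - k| + |(k : ℝ)| := by
        have := abs_add_le (x * 2 ^ p - k) (k : ℝ)
        rwa [sub_add_cancel] at this
      have h5 : (2 * 2 ^ p : ℝ) < |(k : ℝ)| := by linarith
      exact_mod_cast h5
    by_cases h3 : 5 < |y₁.re|
    · exact Or.inl (aux _ _ h3 hb.1)
    · refine Or.inr (aux _ _ ?_ hb.2)
      push Not at h3
      linarith

theorem hitC_of_outB {K : Set ℂ} (hK : IsCompact K) {m : ℕ} {z : ℤ × ℤ}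
    (h : (outB K ∩ cell m z).Nonempty) : ∀ᶠ p in atTop, HitC p m K z := by
  obtain ⟨x, hx, hxc⟩ := h
  have h1 : (outC K ∩ cell m z).Nonempty := by
    obtain ⟨ε, hε, hε'⟩ := Metric.isOpen_iff.1 (isOpen_cell m z) x hxc
    obtain ⟨w, hw, hd⟩ := Metric.mem_closure_iff.1 (frontier_subset_closure hx) ε hε
    exact ⟨w, hw, hε' (by rw [Metric.mem_ball, dist_comm]; exact hd)⟩
  filter_upwards [seenC_of_mem hK h1] with p hp
  exact ⟨⟨x, outB_sub hK.isClosed hx, hxc⟩, p, le_rfl, hp⟩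

theorem dimH_outB_le_of_SmC {s : ℝ≥0} {K : Set ℂ} (hc : IsCompact K) (hK : K ⊆ unitSq) {lam : ℝ}
    (h : ∀ n, SmC s n n K ≤ lam) : dimH (outB K) ≤ s := by
  classical
  refine dimH_le_of_Sm ((outB_sub hc.isClosed).trans hK) (lam := lam) fun M => ?_
  have h1 : ∀ᶠ p in atTop, ∀ m ∈ Finset.range M,
      ∀ z ∈ (idx m).filter (fun z => (outB K ∩ cell m z).Nonempty), HitC p m K z := by
    rw [eventually_all_finset]
    intro m _
    rw [eventually_all_finset]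
    intro z hz
    exact hitC_of_outB hc (Finset.mem_filter.1 hz).2
  obtain ⟨p, hp⟩ := h1.exists
  refine le_trans ?_ ((SmC_mono (le_max_left M p) (le_max_right M p) K).trans (h (max M p)))
  refine Finset.sum_le_sum fun m hm => ?_
  refine mul_le_mul_of_nonneg_left ?_ (by positivity)
  have : Nm m (outB K) ≤ NC p m K := by
    refine Finset.card_le_card fun z hz => ?_
    have h3 := hp m hm z (by convert hz)
    rw [Finset.mem_filter] at hz ⊢
    exact ⟨hz.1, h3⟩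
  exact_mod_cast this

/-! ### Lower bound -/

/-- The closed cell `z` of level `m` meets `K` and sees infinity through open squares of mesh
`2 ^ (-p)` which avoid `K`. -/
def HitO (p m : ℕ) (K : Set ℂ) (z : ℤ × ℤ) : Prop := (K ∩ cbox m z).Nonempty ∧ SeenO p m z K

open Classical in
/-- The set of these cells. -/
noncomputable def GO (p m : ℕ) (K : Set ℂ) : Finset (ℤ × ℤ) := (idx m).filter (HitO p m K)

/-- A probability measure on the cells of `Φ` with energy at most `A`. -/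
def Good (s : ℝ) (m : ℕ) (A : ℝ) (Φ : Finset (ℤ × ℤ)) : Prop :=
  ∃ c : ℤ × ℤ → ℝ, (∀ z, 0 ≤ c z) ∧ ∑ z ∈ Φ, c z = 1 ∧
    ∑ z ∈ Φ, ∑ z' ∈ Φ, c z * c z' * (max (dist (pt m z) (pt m z')) (1 / 2 ^ m)) ^ (-s) ≤ A

theorem Good.mono {s : ℝ} {m : ℕ} {A : ℝ} {Φ Φ' : Finset (ℤ × ℤ)} (h : Φ ⊆ Φ')
    (hG : Good s m A Φ) : Good s m A Φ' := by
  classical
  obtain ⟨c, h0, h1, h2⟩ := hG
  refine ⟨fun z => if z ∈ Φ then c z else 0, fun z => ?_, ?_, ?_⟩
  · dsimp only
    split_ifs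
    · exact h0 z
    · exact le_rfl
  · rw [← h1, Finset.sum_ite_mem, Finset.inter_eq_right.2 h]
  · refine le_trans (le_of_eq ?_) h2
    have e1 : ∀ z z' : ℤ × ℤ, (if z ∈ Φ then c z else 0) * (if z' ∈ Φ then c z' else 0) *
        (max (dist (pt m z) (pt m z')) (1 / 2 ^ m)) ^ (-s) =
        if z ∈ Φ then (if z' ∈ Φ then c z * c z' *
          (max (dist (pt m z) (pt m z')) (1 / 2 ^ m)) ^ (-s) else 0) else 0 := by
      intro z z'
      split_ifs <;> simp
    simp_rw [e1]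
    rw [← Finset.sum_subset h fun z _ hz => by simp [hz]]
    refine Finset.sum_congr rfl fun z hz => ?_
    simp only [hz, if_true]
    rw [Finset.sum_ite_mem, Finset.inter_eq_right.2 h]

theorem Good.mono_right {s : ℝ} {m : ℕ} {A A' : ℝ} (hA : A ≤ A') {Φ : Finset (ℤ × ℤ)}
    (hG : Good s m A Φ) : Good s m A' Φ := by
  obtain ⟨c, h0, h1, h2⟩ := hG
  exact ⟨c, h0, h1, h2.trans hA⟩

/-- The squares which meet a compact set are finitely many. -/
theorem finite_not_freeO {K : Set ℂ} (hK : IsCompact K) (p : ℕ) : {a | ¬ FreeO p K a}.Finite := by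
  obtain ⟨R, hR⟩ := hK.isBounded.subset_closedBall (0 : ℂ)
  have hp : (0 : ℝ) < 2 ^ p := by positivity
  obtain ⟨N, hN⟩ := exists_nat_gt (R * 2 ^ p + 1)
  refine ((Finset.Icc (-(N : ℤ)) N ×ˢ Finset.Icc (-(N : ℤ)) N).finite_toSet).subset ?_
  intro a ha
  obtain ⟨w, hw, hwK⟩ := Set.not_disjoint_iff.1 ha
  rw [mem_cell] at hw
  have h1 := hR hwK
  rw [mem_closedBall_zero_iff] at h1
  have aux : ∀ (x : ℝ) (k : ℤ), |x| ≤ R → |x * 2 ^ p - k| < 1 → -(N : ℤ) ≤ k ∧ k ≤ N := by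
    intro x k hx hk
    have h3 : |x * 2 ^ p| ≤ R * 2 ^ p := by
      rw [abs_mul, abs_of_pos hp]
      exact mul_le_mul_of_nonneg_right hx hp.le
    have h4 := abs_lt.1 hk
    have h5 := abs_le.1 h3
    have h6 : -(N : ℝ) ≤ k := by linarith [h4.1, h4.2, h5.1, h5.2]
    have h7 : (k : ℝ) ≤ N := by linarith [h4.1, h4.2, h5.1, h5.2]
    exact ⟨by exact_mod_cast h6, by exact_mod_cast h7⟩
  have h8 := aux w.re a.1 ((Complex.abs_re_le_norm w).trans h1) hw.1
  have h9 := aux w.im a.2 ((Complex.abs_im_le_norm w).trans h1) hw.2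
  simp only [Finset.coe_product, Finset.coe_Icc, Set.mem_prod, Set.mem_Icc]
  exact ⟨h8, h9⟩

theorem eventually_freeO (K₀ : NonemptyCompacts ℂ) (p : ℕ) :
    ∀ᶠ K : NonemptyCompacts ℂ in 𝓝 K₀, ∀ a, FreeO p K a → FreeO p K₀ a := by
  have h1 : ∀ᶠ K : NonemptyCompacts ℂ in 𝓝 K₀,
      ∀ a ∈ (finite_not_freeO K₀.isCompact p).toFinset, ¬ FreeO p K a := by
    rw [eventually_all_finset]
    intro a ha
    rw [Set.Finite.mem_toFinset] at ha
    have h2 : ((K₀ : Set ℂ) ∩ cell p a).Nonempty := by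
      obtain ⟨w, hw, hwK⟩ := Set.not_disjoint_iff.1 ha
      exact ⟨w, hwK, hw⟩
    have h4 : IsOpen {K : NonemptyCompacts ℂ | ((K : Set ℂ) ∩ cell p a).Nonempty} :=
      NonemptyCompacts.isOpen_inter_nonempty_of_isOpen (isOpen_cell p a)
    filter_upwards [h4.mem_nhds h2] with K hK hcon
    obtain ⟨w, hw, hw'⟩ := hK
    exact Set.disjoint_left.1 hcon hw' hw
  filter_upwards [h1] with K hK a ha
  by_contra hcon
  exact hK a ((Set.Finite.mem_toFinset _).2 hcon) ha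

theorem SeenO.mono {p m : ℕ} {z : ℤ × ℤ} {K K' : Set ℂ} (h : ∀ a, FreeO p K a → FreeO p K' a)
    (hs : SeenO p m z K) : SeenO p m z K' := by
  obtain ⟨a, b, h1, h2, h3, h4⟩ := hs
  exact ⟨a, b, h1, h2, h a h3, rtg_mono h h4⟩

theorem eventually_not_hitO {K₀ : NonemptyCompacts ℂ} {p m : ℕ} {z : ℤ × ℤ} (h : ¬ HitO p m K₀ z) :
    ∀ᶠ K : NonemptyCompacts ℂ in 𝓝 K₀, ¬ HitO p m K z := by
  by_cases h1 : ((K₀ : Set ℂ) ∩ cbox m z).Nonempty
  · have h2 : ¬ SeenO p m z K₀ := fun h3 => h ⟨h1, h3⟩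
    filter_upwards [eventually_freeO K₀ p] with K hK hcon
    exact h2 (hcon.2.mono hK)
  · have h3 : IsOpen {K : NonemptyCompacts ℂ | (K : Set ℂ) ⊆ (cbox m z)ᶜ} :=
      NonemptyCompacts.isOpen_subsets_of_isOpen (isClosed_cbox m z).isOpen_compl
    filter_upwards [h3.mem_nhds (show K₀ ∈ {K : NonemptyCompacts ℂ | (K : Set ℂ) ⊆ (cbox m z)ᶜ}
      from fun w hw hw' => h1 ⟨w, hw, hw'⟩)] with K hK hcon
    obtain ⟨w, hw, hw'⟩ := hcon.1
    exact hK hw hw'

theorem isOpen_not_good (s A : ℝ) (m p : ℕ) :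
    IsOpen {K : NonemptyCompacts ℂ | ¬ Good s m A (GO p m (K : Set ℂ))} := by
  classical
  rw [isOpen_iff_mem_nhds]
  intro K₀ hK₀
  rw [mem_ofPred_eq] at hK₀
  have h1 : ∀ᶠ K : NonemptyCompacts ℂ in 𝓝 K₀,
      ∀ z ∈ (idx m).filter (fun z => ¬ HitO p m (K₀ : Set ℂ) z), ¬ HitO p m (K : Set ℂ) z := by
    rw [eventually_all_finset]
    intro z hz
    exact eventually_not_hitO (Finset.mem_filter.1 hz).2
  filter_upwards [h1] with K hK hcon
  refine hK₀ (hcon.mono fun z hz => ?_)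
  unfold GO at hz ⊢
  rw [Finset.mem_filter] at hz ⊢
  refine ⟨hz.1, ?_⟩
  by_contra hcon'
  exact hK z (Finset.mem_filter.2 ⟨hz.1, hcon'⟩) hz.2

/-- Weighted points with small truncated energy exclude efficient covers. -/
theorem energyW {s r η : ℝ} (hs : 0 ≤ s) (hr : 0 < r) {X : Set ℂ} (hc : Cov s r η X)
    {ι : Type*} (I : Finset ι) (x : ι → ℂ) (hx : ∀ i ∈ I, x i ∈ X) (c : ι → ℝ)
    (hc0 : ∀ i, 0 ≤ c i) :
    (∑ i ∈ I, c i) ^ 2 ≤ η * ∑ i ∈ I, ∑ j ∈ I, c i * c j * (max (dist (x i) (x j)) r) ^ (-s) := by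
  classical
  obtain ⟨F, U, d, hU, hd0, hd, hK, hsum⟩ := hc
  have h1 : ∀ i ∈ I, ∃ k ∈ F, x i ∈ U k := by
    intro i hi
    have := hK (hx i hi)
    simpa using this
  have h2 : ∀ i : ι, ∃ k, i ∈ I → k ∈ F ∧ x i ∈ U k := by
    intro i
    by_cases hi : i ∈ I
    · obtain ⟨k, hk, hk'⟩ := h1 i hi
      exact ⟨k, fun _ => ⟨hk, hk'⟩⟩
    · exact ⟨0, fun h => absurd h hi⟩
  choose g hg using h2
  set w : ℕ → ℝ := fun k => (max (d k) r) ^ s with hw
  have hwpos : ∀ k, 0 < w k := fun k => Real.rpow_pos_of_pos (lt_max_of_lt_right hr) _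
  set n : ℕ → ℝ := fun k => ∑ i ∈ I.filter (fun i => g i = k), c i with hn
  have hmass : ∑ i ∈ I, c i = ∑ k ∈ F, n k := by
    rw [← Finset.sum_fiberwise_of_maps_to (fun i hi => (hg i hi).1)]
  have hcs : (∑ k ∈ F, n k) ^ 2 ≤ (∑ k ∈ F, w k) * ∑ k ∈ F, n k ^ 2 / w k := by
    apply Finset.sum_sq_le_sum_mul_sum_of_sq_le_mul
    · exact fun k _ => (hwpos k).le
    · exact fun k _ => div_nonneg (sq_nonneg _) (hwpos k).le
    · intro k _
      rw [mul_div_cancel₀ _ (hwpos k).ne']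
  have hterm : ∀ i j, 0 ≤ c i * c j * (max (dist (x i) (x j)) r) ^ (-s) := fun i j =>
    mul_nonneg (mul_nonneg (hc0 i) (hc0 j)) (Real.rpow_nonneg (hr.le.trans (le_max_right _ _)) _)
  have hE : ∑ k ∈ F, n k ^ 2 / w k
      ≤ ∑ i ∈ I, ∑ j ∈ I, c i * c j * (max (dist (x i) (x j)) r) ^ (-s) := by
    have h3 : ∀ k ∈ F, n k ^ 2 / w k ≤
        ∑ i ∈ I.filter (fun i => g i = k),
          ∑ j ∈ I, c i * c j * (max (dist (x i) (x j)) r) ^ (-s) := by
      intro k _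
      have h4 : n k ^ 2 / w k = ∑ i ∈ I.filter (fun i => g i = k),
          ∑ j ∈ I.filter (fun i => g i = k), c i * c j * (w k)⁻¹ := by
        rw [sq, div_eq_mul_inv, hn]
        simp only
        rw [Finset.sum_mul_sum, Finset.sum_mul]
        refine Finset.sum_congr rfl fun i _ => ?_
        rw [Finset.sum_mul]
      rw [h4]
      refine Finset.sum_le_sum fun i hi => ?_
      rw [Finset.mem_filter] at hi
      refine (Finset.sum_le_sum fun j hj => ?_).trans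
        (Finset.sum_le_sum_of_subset_of_nonneg (Finset.filter_subset _ _) fun j _ _ => hterm i j)
      rw [Finset.mem_filter] at hj
      have hij : dist (x i) (x j) ≤ d k := by
        apply hd k
        · have := (hg i hi.1).2; rwa [hi.2] at this
        · have := (hg j hj.1).2; rwa [hj.2] at this
      have hm : max (dist (x i) (x j)) r ≤ max (d k) r := max_le_max hij le_rfl
      have hm0 : 0 < max (dist (x i) (x j)) r := lt_max_of_lt_right hr
      refine mul_le_mul_of_nonneg_left ?_ (mul_nonneg (hc0 i) (hc0 j))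
      rw [Real.rpow_neg hm0.le]
      exact inv_anti₀ (Real.rpow_pos_of_pos hm0 _) (Real.rpow_le_rpow hm0.le hm hs)
    refine (Finset.sum_le_sum h3).trans (le_of_eq ?_)
    rw [Finset.sum_fiberwise_of_maps_to (fun i hi => (hg i hi).1)]
  have hE0 : 0 ≤ ∑ i ∈ I, ∑ j ∈ I, c i * c j * (max (dist (x i) (x j)) r) ^ (-s) :=
    Finset.sum_nonneg fun i _ => Finset.sum_nonneg fun j _ => hterm i j
  have hw0 : 0 ≤ ∑ k ∈ F, w k := Finset.sum_nonneg fun k _ => (hwpos k).le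
  calc (∑ i ∈ I, c i) ^ 2 = (∑ k ∈ F, n k) ^ 2 := by rw [hmass]
    _ ≤ (∑ k ∈ F, w k) * ∑ k ∈ F, n k ^ 2 / w k := hcs
    _ ≤ (∑ k ∈ F, w k) * ∑ i ∈ I, ∑ j ∈ I, c i * c j * (max (dist (x i) (x j)) r) ^ (-s) :=
        mul_le_mul_of_nonneg_left hE hw0
    _ ≤ _ := mul_le_mul_of_nonneg_right hsum.le hE0

theorem not_cov_of_good {s : ℝ} (hs : 0 ≤ s) {K : Set ℂ} (hc : IsCompact K) (hK : K ⊆ unitSq)
    {p m : ℕ} {A η : ℝ} (hη : 0 < η) (hηA : η * (5 ^ s * A) < 1) (hG : Good s m A (GO p m K)) :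
    ¬ Cov s (1 / 2 ^ m) η (outB K) := by
  classical
  intro hcov
  obtain ⟨c, h0, h1, h2⟩ := hG
  have hr : (0 : ℝ) < 1 / 2 ^ m := by positivity
  have hpt : ∀ z : ℤ × ℤ, ∃ w, z ∈ GO p m K → w ∈ cbox m z ∧ w ∈ outB K := by
    intro z
    by_cases hz : z ∈ GO p m K
    · have hz' := (Finset.mem_filter.1 (by unfold GO at hz; exact hz)).2
      obtain ⟨⟨x, hxK, hx⟩, a, b, ha, hb, _, hab⟩ := hz'
      obtain ⟨w, hw, hw'⟩ := exists_outB hc.isClosed (convex_cbox m z) hx hxK ha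
        (mem_outC_of_chain hK hb hab)
      exact ⟨w, fun _ => ⟨hw, hw'⟩⟩
    · exact ⟨0, fun h => absurd h hz⟩
  choose x hx using hpt
  have h3 := energyW hs hr hcov (GO p m K) x (fun z hz => (hx z hz).2) c h0
  rw [h1, one_pow] at h3
  have h4 : ∑ z ∈ GO p m K, ∑ z' ∈ GO p m K, c z * c z' * (max (dist (x z) (x z')) (1 / 2 ^ m)) ^ (-s)
      ≤ 5 ^ s * A := by
    refine le_trans ?_ (mul_le_mul_of_nonneg_left h2 (by positivity))
    rw [Finset.mul_sum]
    refine Finset.sum_le_sum fun z hz => ?_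
    rw [Finset.mul_sum]
    refine Finset.sum_le_sum fun z' hz' => ?_
    have h5 : max (dist (pt m z) (pt m z')) (1 / 2 ^ m) ≤ 5 * max (dist (x z) (x z')) (1 / 2 ^ m) := by
      have h6 : dist (pt m z) (pt m z') ≤ dist (x z) (x z') + 4 * (1 / 2 ^ m) := by
        have h7 := dist_pt_le (hx z hz).1
        have h8 := dist_pt_le (hx z' hz').1
        rw [dist_comm] at h8
        calc dist (pt m z) (pt m z') ≤ dist (pt m z) (x z) + dist (x z) (x z') + dist (x z') (pt m z') :=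
              dist_triangle4 _ _ _ _
          _ ≤ 2 / 2 ^ m + dist (x z) (x z') + 2 / 2 ^ m := by linarith
          _ = _ := by ring
      have h9 := le_max_left (dist (x z) (x z')) (1 / 2 ^ m : ℝ)
      have h10 := le_max_right (dist (x z) (x z')) (1 / 2 ^ m : ℝ)
      refine max_le ?_ ?_
      · linarith
      · linarith
    have h11 : 0 < max (dist (x z) (x z')) (1 / 2 ^ m : ℝ) := lt_max_of_lt_right hr
    have h12 : 0 < max (dist (pt m z) (pt m z')) (1 / 2 ^ m : ℝ) := lt_max_of_lt_right hr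
    have h13 : (max (dist (x z) (x z')) (1 / 2 ^ m : ℝ)) ^ (-s) ≤
        5 ^ s * (max (dist (pt m z) (pt m z')) (1 / 2 ^ m : ℝ)) ^ (-s) := by
      rw [Real.rpow_neg h11.le, Real.rpow_neg h12.le, ← div_eq_mul_inv,
        le_div_iff₀ (Real.rpow_pos_of_pos h12 _), inv_mul_le_iff₀ (Real.rpow_pos_of_pos h11 _),
        mul_comm, ← Real.mul_rpow (by norm_num) h11.le]
      exact Real.rpow_le_rpow h12.le h5 hs
    calc _ ≤ c z * c z' * (5 ^ s * (max (dist (pt m z) (pt m z')) (1 / 2 ^ m : ℝ)) ^ (-s)) :=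
          mul_le_mul_of_nonneg_left h13 (mul_nonneg (h0 z) (h0 z'))
      _ = _ := by ring
  have h5 := mul_le_mul_of_nonneg_left h4 hη.le
  linarith

/-! ### The limit theorems -/

variable [MeasurableSpace (NonemptyCompacts ℂ)] [BorelSpace (NonemptyCompacts ℂ)]

theorem sub_unitSq_limit {μs : ℕ → ProbabilityMeasure (NonemptyCompacts ℂ)}
    {ν : ProbabilityMeasure (NonemptyCompacts ℂ)} (h : Tendsto μs atTop (𝓝 ν))
    (hsq : ∀ᶠ k in atTop, (μs k : Measure (NonemptyCompacts ℂ))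
      {K : NonemptyCompacts ℂ | ¬ (K : Set ℂ) ⊆ unitSq} = 0) :
    (ν : Measure (NonemptyCompacts ℂ)) {K : NonemptyCompacts ℂ | ¬ (K : Set ℂ) ⊆ unitSq} = 0 := by
  refine le_antisymm ?_ zero_le
  refine measure_open_le h ?_ (hsq.mono fun k hk => hk.le)
  exact (NonemptyCompacts.isClosed_subsets_of_isClosed isClosed_unitSq).isOpen_compl

/-- Upper bound for the outer boundary of the limit. -/
theorem dimH_outB_le_ae {s : ℝ≥0} {μs : ℕ → ProbabilityMeasure (NonemptyCompacts ℂ)}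
    {ν : ProbabilityMeasure (NonemptyCompacts ℂ)} (h : Tendsto μs atTop (𝓝 ν))
    (hsq : ∀ᶠ k in atTop, (μs k : Measure (NonemptyCompacts ℂ))
      {K : NonemptyCompacts ℂ | ¬ (K : Set ℂ) ⊆ unitSq} = 0)
    (H : ∀ ε : ℝ, 0 < ε → ∃ lam : ℝ, ∀ n : ℕ, ∀ᶠ k in atTop,
      (μs k : Measure (NonemptyCompacts ℂ))
        {K : NonemptyCompacts ℂ | lam < SmC s n n (K : Set ℂ)} ≤ ENNReal.ofReal ε) :
    ∀ᵐ K : NonemptyCompacts ℂ ∂(ν : Measure (NonemptyCompacts ℂ)),
      dimH (outB (K : Set ℂ)) ≤ s := by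
  have hsq' := sub_unitSq_limit h hsq
  have key : ∀ ε : ℝ, 0 < ε → (ν : Measure (NonemptyCompacts ℂ))
      {K : NonemptyCompacts ℂ | ¬ dimH (outB (K : Set ℂ)) ≤ s} ≤ ENNReal.ofReal ε := by
    intro ε hε
    obtain ⟨lam, hlam⟩ := H ε hε
    have h1 : ∀ n : ℕ, (ν : Measure (NonemptyCompacts ℂ))
        {K : NonemptyCompacts ℂ | lam < SmC s n n (K : Set ℂ)} ≤ ENNReal.ofReal ε :=
      fun n => measure_open_le h (isOpen_SmC _ _ _ _) (hlam n)
    have hmono : Monotone fun n : ℕ => {K : NonemptyCompacts ℂ | lam < SmC s n n (K : Set ℂ)} := by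
      intro n n' hn K hK
      exact lt_of_lt_of_le hK (SmC_mono hn hn _)
    have h3 : (ν : Measure (NonemptyCompacts ℂ)) (⋃ n : ℕ, {K : NonemptyCompacts ℂ |
        lam < SmC s n n (K : Set ℂ)}) ≤ ENNReal.ofReal ε := by
      rw [hmono.measure_iUnion]
      exact iSup_le h1
    have h4 : {K : NonemptyCompacts ℂ | ¬ dimH (outB (K : Set ℂ)) ≤ s} ⊆
        {K : NonemptyCompacts ℂ | ¬ (K : Set ℂ) ⊆ unitSq} ∪ ⋃ n : ℕ, {K : NonemptyCompacts ℂ |
          lam < SmC s n n (K : Set ℂ)} := by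
      intro K hK
      by_cases h5 : (K : Set ℂ) ⊆ unitSq
      · right
        by_contra h6
        apply hK
        refine dimH_outB_le_of_SmC K.isCompact h5 (lam := lam) fun M => ?_
        by_contra h7
        exact h6 (mem_iUnion.2 ⟨M, not_le.1 h7⟩)
      · left; exact h5
    refine (measure_mono h4).trans ((measure_union_le _ _).trans ?_)
    rw [hsq', zero_add]
    exact h3
  rw [ae_iff]
  refine le_antisymm ?_ zero_le
  refine ENNReal.le_of_forall_pos_le_add fun ε hε _ => ?_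
  rw [zero_add]
  have h9 := key ε (by exact_mod_cast hε)
  rwa [ENNReal.ofReal_coe_nnreal] at h9

/-- Lower bound for the outer boundary of the limit. -/
theorem le_dimH_outB_ae {s : ℝ≥0} (hs : 0 < s) {μs : ℕ → ProbabilityMeasure (NonemptyCompacts ℂ)}
    {ν : ProbabilityMeasure (NonemptyCompacts ℂ)} (h : Tendsto μs atTop (𝓝 ν))
    (hsq : ∀ᶠ k in atTop, (μs k : Measure (NonemptyCompacts ℂ))
      {K : NonemptyCompacts ℂ | ¬ (K : Set ℂ) ⊆ unitSq} = 0)
    (H : ∀ ε : ℝ, 0 < ε → ∃ A : ℝ, ∀ m : ℕ, ∃ p : ℕ, ∀ᶠ k in atTop,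
      (μs k : Measure (NonemptyCompacts ℂ))
        {K : NonemptyCompacts ℂ | ¬ Good s m A (GO p m (K : Set ℂ))} ≤ ENNReal.ofReal ε) :
    ∀ᵐ K : NonemptyCompacts ℂ ∂(ν : Measure (NonemptyCompacts ℂ)),
      (s : ℝ≥0∞) ≤ dimH (outB (K : Set ℂ)) := by
  have hsq' := sub_unitSq_limit h hsq
  have key : ∀ ε : ℝ, 0 < ε → (ν : Measure (NonemptyCompacts ℂ))
      {K : NonemptyCompacts ℂ | ¬ (s : ℝ≥0∞) ≤ dimH (outB (K : Set ℂ))} ≤ ENNReal.ofReal ε := by
    intro ε hε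
    obtain ⟨A, hA⟩ := H ε hε
    set A' : ℝ := max A 1 with hA'
    set η : ℝ := 1 / (2 * (5 ^ (s : ℝ) * A')) with hη
    have hA1 : 1 ≤ A' := le_max_right _ _
    have h5 : (0 : ℝ) < 5 ^ (s : ℝ) := by positivity
    have hη0 : 0 < η := by positivity
    have hηA : η * (5 ^ (s : ℝ) * A') < 1 := by
      rw [hη, one_div, mul_comm 2, mul_inv, mul_assoc, mul_comm, mul_assoc,
        mul_inv_cancel₀ (by positivity)]
      norm_num
    have h1 : ∀ m : ℕ, (ν : Measure (NonemptyCompacts ℂ))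
        {K : NonemptyCompacts ℂ | (K : Set ℂ) ⊆ unitSq ∧
          Cov s (1 / 2 ^ m) η (outB (K : Set ℂ))} ≤ ENNReal.ofReal ε := by
      intro m
      obtain ⟨p, hp⟩ := hA m
      have h2 := measure_open_le h (isOpen_not_good s A m p) hp
      refine (measure_mono ?_).trans h2
      rintro K ⟨hK, hcov⟩ hG
      exact not_cov_of_good s.coe_nonneg K.isCompact hK hη0 hηA
        (hG.mono_right (le_max_left A 1)) hcov
    have hmono : Monotone fun m : ℕ => {K : NonemptyCompacts ℂ | (K : Set ℂ) ⊆ unitSq ∧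
        Cov s (1 / 2 ^ m) η (outB (K : Set ℂ))} := by
      rintro m m' hm K ⟨hK, hcov⟩
      refine ⟨hK, Cov.mono s.coe_nonneg ?_ hcov⟩
      exact one_div_le_one_div_of_le (by positivity) (pow_le_pow_right₀ (by norm_num) hm)
    have h3 : (ν : Measure (NonemptyCompacts ℂ)) (⋃ m : ℕ, {K : NonemptyCompacts ℂ |
        (K : Set ℂ) ⊆ unitSq ∧ Cov s (1 / 2 ^ m) η (outB (K : Set ℂ))}) ≤ ENNReal.ofReal ε := by
      rw [hmono.measure_iUnion]
      exact iSup_le h1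
    have h4 : {K : NonemptyCompacts ℂ | ¬ (s : ℝ≥0∞) ≤ dimH (outB (K : Set ℂ))} ⊆
        {K : NonemptyCompacts ℂ | ¬ (K : Set ℂ) ⊆ unitSq} ∪ ⋃ m : ℕ, {K : NonemptyCompacts ℂ |
        (K : Set ℂ) ⊆ unitSq ∧ Cov s (1 / 2 ^ m) η (outB (K : Set ℂ))} := by
      intro K hK
      by_cases h6 : (K : Set ℂ) ⊆ unitSq
      · right
        rw [mem_ofPred_eq, not_le] at hK
        obtain ⟨m, hm⟩ := cov_of_dimH_lt hs (isCompact_outB K.isCompact) hK hη0
        refine mem_iUnion.2 ⟨m + 1, h6, Cov.mono s.coe_nonneg ?_ hm⟩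
        refine one_div_le_one_div_of_le (by positivity) ?_
        have : m + 1 < 2 ^ (m + 1) := Nat.lt_two_pow_self
        exact_mod_cast this.le
      · left; exact h6
    refine (measure_mono h4).trans ((measure_union_le _ _).trans ?_)
    rw [hsq', zero_add]
    exact h3
  rw [ae_iff]
  refine le_antisymm ?_ zero_le
  refine ENNReal.le_of_forall_pos_le_add fun ε hε _ => ?_
  rw [zero_add]
  have h9 := key ε (by exact_mod_cast hε)
  rwa [ENNReal.ofReal_coe_nnreal] at h9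

end Pool.Agent.PercS5
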