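import Pool.Agent.Lib.MP_6bd702_pr_h60.Orbit
import Pool.Agent.Lib.MP_6bd702_pr_h60.Faces

/-!
# The outer corners of a cluster form one interface
-/

set_option autoImplicit false

open Set

namespace Pool.Agent.PercO

open Pool.Agent.MP_6bd702.H23 Pool.Agent.MP_6bd702.H60 Pool.Agent.PercU

/-- The vertices of the cluster of `v`. -/
def Kc (ω : Set Ed) (v : ℤ × ℤ) : Set (ℤ × ℤ) := {u | Conn ω univ v u}

/-- The edges of the cluster of `v`. -/
def Tc (ω : Set Ed) (v : ℤ × ℤ) : Set Ed := {e | e ∈ ω ∧ Conn ω univ v (ea e)}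

/-- The outer corners of the cluster of `v`. -/
def Oc (ω : Set Ed) (v : ℤ × ℤ) : Set Cor := {k | vtx k ∈ Kc ω v ∧ fce k ∈ Out (Tc ω v)}

/-- The sup-distance. -/
def sd (u v : ℤ × ℤ) : ℤ := max |u.1 - v.1| |u.2 - v.2|

variable {ω : Set Ed} {v : ℤ × ℤ}

/-! ### The cluster -/

theorem Tc_sub : Tc ω v ⊆ ω := fun _ h => h.1

theorem conn_edge {e : Ed} (he : e ∈ ω) : Conn ω univ (ea e) (eb e) :=
  .single ⟨trivial, trivial, e, he, Or.inl ⟨rfl, rfl⟩⟩

theorem ea_mem {e : Ed} (he : e ∈ Tc ω v) : ea e ∈ Kc ω v := he.2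

theorem eb_mem {e : Ed} (he : e ∈ Tc ω v) : eb e ∈ Kc ω v := he.2.trans (conn_edge he.1)

theorem mem_Tc_of_ea {e : Ed} (he : e ∈ ω) (h : ea e ∈ Kc ω v) : e ∈ Tc ω v := ⟨he, h⟩

theorem mem_Tc_of_eb {e : Ed} (he : e ∈ ω) (h : eb e ∈ Kc ω v) : e ∈ Tc ω v :=
  ⟨he, Conn.trans h (conn_edge he).symm⟩

theorem conn_Tc {u : ℤ × ℤ} (h : u ∈ Kc ω v) : Conn (Tc ω v) univ v u := by
  have h' : Conn ω univ v u := h
  unfold Conn at h'
  induction h' with
  | refl => exact .refl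
  | @tail a b h1 h2 ih =>
    obtain ⟨-, -, e, he, hh⟩ := h2
    refine (ih h1).tail ⟨trivial, trivial, e, ?_, hh⟩
    rcases hh with ⟨h3, -⟩ | ⟨-, h3⟩
    · exact mem_Tc_of_ea he (by rw [h3]; exact h1)
    · exact mem_Tc_of_eb he (by rw [h3]; exact h1)

theorem qry_mem_iff {k : Cor} (hk : vtx k ∈ Kc ω v) : qry k ∈ ω ↔ qry k ∈ Tc ω v := by
  refine ⟨fun h => ?_, fun h => h.1⟩
  rcases ends_qry k with ⟨h1, -⟩ | ⟨-, h1⟩
  · exact mem_Tc_of_ea h (by rw [h1]; exact hk)
  · exact mem_Tc_of_eb h (by rw [h1]; exact hk)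

theorem vtx_nxt_mem {k : Cor} (hk : vtx k ∈ Kc ω v) : vtx (nxt ω k) ∈ Kc ω v :=
  Conn.trans hk (conn_vtx k 1)

theorem vtx_iter_mem {k : Cor} (hk : vtx k ∈ Kc ω v) (j : ℕ) :
    vtx ((nxt ω)^[j] k) ∈ Kc ω v := Conn.trans hk (conn_vtx k j)

theorem nxt_eq_Tc {k : Cor} (hk : vtx k ∈ Kc ω v) : nxt ω k = nxt (Tc ω v) k :=
  nxt_congr (qry_mem_iff hk)

theorem iter_eq_Tc {k : Cor} (hk : vtx k ∈ Kc ω v) (j : ℕ) :
    (nxt ω)^[j] k = (nxt (Tc ω v))^[j] k := by
  induction j with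
  | zero => rfl
  | succ j ih =>
    rw [Function.iterate_succ_apply', Function.iterate_succ_apply', ← ih,
      nxt_eq_Tc (vtx_iter_mem hk j)]

/-! ### Faces -/

theorem fstep_iff {T : Set Ed} {f g : ℤ × ℤ} : FStep T f g ↔ Step (du T) univ f g := by
  constructor
  · rintro ⟨e, he, hh⟩
    refine ⟨trivial, trivial, dc e, by rw [mem_du, cr_dc]; exact he, ?_⟩
    rw [ea_dc, eb_dc]
    exact hh
  · rintro ⟨-, -, e, he, hh⟩
    refine ⟨cr e, he, ?_⟩
    rw [← ea_dc, ← eb_dc, dc_cr]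
    exact hh

theorem fconn_iff {T : Set Ed} {f g : ℤ × ℤ} : FConn T f g ↔ Conn (du T) univ f g := by
  unfold FConn Conn
  constructor
  · intro h
    induction h with
    | refl => exact .refl
    | tail _ h2 ih => exact ih.tail (fstep_iff.1 h2)
  · intro h
    induction h with
    | refl => exact .refl
    | tail _ h2 ih => exact ih.tail (fstep_iff.2 h2)

theorem fstep_h {T : Set Ed} {x y : ℤ} (h : (x, y, true) ∉ T) : FStep T (x - 1, y) (x, y) :=
  ⟨(x, y, true), h, Or.inl ⟨rfl, rfl⟩⟩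

theorem fstep_v {T : Set Ed} {x y : ℤ} (h : (x, y, false) ∉ T) : FStep T (x, y - 1) (x, y) :=
  ⟨(x, y, false), h, Or.inl ⟨rfl, rfl⟩⟩

/-- Faces of a row, joined horizontally. -/
theorem fconn_row {T : Set Ed} {y : ℤ} (x : ℤ) (j : ℕ)
    (h : ∀ i : ℕ, i < j → (x + 1 + i, y, true) ∉ T) : FConn T (x, y) (x + j, y) := by
  induction j with
  | zero => simp only [Nat.cast_zero, add_zero]; exact .refl
  | succ j ih =>
    refine (ih fun i hi => h i (by omega)).tail ?_
    have h1 := fstep_h (h j (by omega))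
    rw [show x + 1 + (j : ℤ) - 1 = x + j by ring] at h1
    rw [show x + ((j + 1 : ℕ) : ℤ) = x + 1 + j by push_cast; ring]
    exact h1

/-- Faces of a column, joined vertically. -/
theorem fconn_col {T : Set Ed} {x : ℤ} (y : ℤ) (j : ℕ)
    (h : ∀ i : ℕ, i < j → (x, y + 1 + i, false) ∉ T) : FConn T (x, y) (x, y + j) := by
  induction j with
  | zero => simp only [Nat.cast_zero, add_zero]; exact .refl
  | succ j ih =>
    refine (ih fun i hi => h i (by omega)).tail ?_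
    have h1 := fstep_v (h j (by omega))
    rw [show y + 1 + (j : ℤ) - 1 = y + j by ring] at h1
    rw [show y + ((j + 1 : ℕ) : ℤ) = y + 1 + j by push_cast; ring]
    exact h1

theorem fconn_row' {T : Set Ed} {x x' y : ℤ} (hx : x ≤ x')
    (h : ∀ i, x < i → i ≤ x' → (i, y, true) ∉ T) : FConn T (x, y) (x', y) := by
  have h1 := fconn_row (T := T) (y := y) x (x' - x).toNat (fun i hi => h _ (by omega) (by omega))
  rwa [show x + ((x' - x).toNat : ℤ) = x' by omega] at h1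

theorem fconn_col' {T : Set Ed} {x y y' : ℤ} (hy : y ≤ y')
    (h : ∀ i, y < i → i ≤ y' → (x, i, false) ∉ T) : FConn T (x, y) (x, y') := by
  have h1 := fconn_col (T := T) (x := x) y (y' - y).toNat (fun i hi => h _ (by omega) (by omega))
  rwa [show y + ((y' - y).toNat : ℤ) = y' by omega] at h1

theorem out_left {T : Set Ed} {x y : ℤ} (h : ∀ e ∈ T, x < e.1) : (x, y) ∈ Out T := by
  refine Set.infinite_of_injective_forall_mem (f := fun i : ℕ => (x - i, y)) ?_ ?_
  · intro i j hij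
    simp only [Prod.mk.injEq] at hij
    omega
  · intro i
    refine (fconn_row' (by omega) fun i' _ h2 h3 => ?_).symm
    have := h _ h3
    simp only at this
    omega

theorem out_right {T : Set Ed} {x y : ℤ} (h : ∀ e ∈ T, e.1 ≤ x) : (x, y) ∈ Out T := by
  refine Set.infinite_of_injective_forall_mem (f := fun i : ℕ => (x + i, y)) ?_ ?_
  · intro i j hij
    simp only [Prod.mk.injEq] at hij
    omega
  · intro i
    refine (fconn_row' (by omega) fun i' h1 _ h3 => ?_)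
    have := h _ h3
    simp only at this
    omega

theorem out_bot {T : Set Ed} {x y : ℤ} (h : ∀ e ∈ T, y < e.2.1) : (x, y) ∈ Out T := by
  refine Set.infinite_of_injective_forall_mem (f := fun i : ℕ => (x, y - i)) ?_ ?_
  · intro i j hij
    simp only [Prod.mk.injEq] at hij
    omega
  · intro i
    refine (fconn_col' (by omega) fun i' _ h2 h3 => ?_).symm
    have := h _ h3
    simp only at this
    omega

theorem out_top {T : Set Ed} {x y : ℤ} (h : ∀ e ∈ T, e.2.1 ≤ y) : (x, y) ∈ Out T := by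
  refine Set.infinite_of_injective_forall_mem (f := fun i : ℕ => (x, y + i)) ?_ ?_
  · intro i j hij
    simp only [Prod.mk.injEq] at hij
    omega
  · intro i
    refine (fconn_col' (by omega) fun i' h1 _ h3 => ?_)
    have := h _ h3
    simp only at this
    omega

/-- The faces outside a box which contains all edges are joined to each other. -/
theorem fconn_outside {T : Set Ed} {n : ℤ} (hT : T ⊆ EW 0 n 0 n) {x y : ℤ}
    (h : x < 0 ∨ n ≤ x ∨ y < 0 ∨ n ≤ y) : FConn T (x, y) (-1, -1) := by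
  have hv : ∀ {i j : ℤ}, (i, j, true) ∈ T → 0 ≤ i ∧ i ≤ n ∧ 0 ≤ j ∧ j < n := by
    intro i j hij
    have := mem_EW.1 (hT hij)
    simp only [mem_Rect, ea_mk, eb_true] at this
    omega
  have hh : ∀ {i j : ℤ}, (i, j, false) ∈ T → 0 ≤ i ∧ i < n ∧ 0 ≤ j ∧ j ≤ n := by
    intro i j hij
    have := mem_EW.1 (hT hij)
    simp only [mem_Rect, ea_mk, eb_false] at this
    omega
  -- vertical moves in the columns `x < 0` or `n ≤ x`
  have hcol : ∀ x y y' : ℤ, x < 0 ∨ n ≤ x → FConn T (x, y) (x, y') := by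
    intro x y y' hx
    rcases le_total y y' with h1 | h1
    · exact fconn_col' h1 fun i _ _ h4 => by have := hh h4; omega
    · exact (fconn_col' h1 fun i _ _ h4 => by have := hh h4; omega).symm
  have hrow : ∀ y x x' : ℤ, y < 0 ∨ n ≤ y → FConn T (x, y) (x', y) := by
    intro y x x' hy
    rcases le_total x x' with h1 | h1
    · exact fconn_row' h1 fun i _ _ h4 => by have := hv h4; omega
    · exact (fconn_row' h1 fun i _ _ h4 => by have := hv h4; omega).symm
  by_cases hx : x < 0 ∨ n ≤ x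
  · exact (hcol x y (-1) hx).trans (hrow (-1) x (-1) (by omega))
  · exact (hrow y x (-1) (by omega)).trans (hcol (-1) y (-1) (by omega))

theorem out_conn {T : Set Ed} {n : ℤ} (hT : T ⊆ EW 0 n 0 n) {f g : ℤ × ℤ}
    (hf : f ∈ Out T) (hg : g ∈ Out T) : FConn T f g := by
  have key : ∀ f ∈ Out T, FConn T f (-1, -1) := by
    intro f hf
    by_contra hc
    apply hf
    refine ((Set.finite_Ico (0 : ℤ) n).prod (Set.finite_Ico (0 : ℤ) n)).subset fun g hg => ?_
    have hg' : FConn T f g := hg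
    by_contra h1
    apply hc
    refine hg'.trans ?_
    obtain ⟨x, y⟩ := g
    simp only [mem_prod, mem_Ico, not_and_or, not_le, not_lt] at h1
    exact fconn_outside hT (by omega)
  exact (key f hf).trans (key g hg).symm

/-! ### The orbit -/

theorem finite_Kc {n : ℤ} (hω : ω ⊆ EW 0 n 0 n) : (Kc ω v).Finite := by
  refine (((Set.finite_Icc (0 : ℤ) n).prod (Set.finite_Icc (0 : ℤ) n)).union
    (Set.finite_singleton v)).subset fun u hu => ?_
  have hu' : Conn ω univ v u := hu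
  unfold Conn at hu'
  induction hu' with
  | refl => exact Or.inr rfl
  | tail _ h2 _ =>
    obtain ⟨-, -, e, he, hh⟩ := h2
    have := mem_EW.1 (hω he)
    simp only [mem_Rect] at this
    left
    simp only [mem_prod, mem_Icc]
    rcases hh with ⟨-, h3⟩ | ⟨h3, -⟩ <;> rw [← h3] <;> omega

theorem finite_cor {K : Set (ℤ × ℤ)} (hK : K.Finite) : {k : Cor | vtx k ∈ K}.Finite := by
  have h1 : (K ×ˢ (univ : Set (Bool × Bool))).Finite := hK.prod Set.finite_univ
  refine (h1.image fun p : (ℤ × ℤ) × (Bool × Bool) => (p.1.1, p.1.2, p.2.1, p.2.2)).subset ?_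
  rintro ⟨x, y, s, t⟩ hk
  exact ⟨((x, y), (s, t)), ⟨hk, trivial⟩, rfl⟩

theorem iterate_nxt (ω : Set Ed) (k : Cor) (j : ℕ) : (nxtE ω ^ j) k = (nxt ω)^[j] k := by
  induction j with
  | zero => rfl
  | succ j ih =>
    rw [Function.iterate_succ_apply', ← ih, pow_succ', Equiv.Perm.mul_apply]
    rfl

/-- A corner of a finite cluster is periodic. -/
theorem exists_period {k : Cor} (hk : vtx k ∈ Kc ω v) (hfin : (Kc ω v).Finite) :
    ∃ p : ℕ, 0 < p ∧ (nxt ω)^[p] k = k := by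
  obtain ⟨a, b, hab, h⟩ := Set.Finite.exists_lt_map_eq_of_forall_mem
    (f := fun j : ℕ => (nxt ω)^[j] k) (t := {k : Cor | vtx k ∈ Kc ω v})
    (fun j => vtx_iter_mem hk j) (finite_cor hfin)
  refine ⟨b - a, by omega, ?_⟩
  have hinj : Function.Injective ((nxt ω)^[a]) := (nxtE ω).injective.iterate a
  apply hinj
  rw [← Function.iterate_add_apply, show a + (b - a) = b by omega]
  exact h.symm

theorem exists_nat_of_orb {k k' : Cor} (hk : vtx k ∈ Kc ω v) (hfin : (Kc ω v).Finite)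
    (h : k' ∈ Orb ω k) : ∃ j : ℕ, (nxt ω)^[j] k = k' := by
  obtain ⟨z, hz⟩ := h
  obtain ⟨p, hp, hk'⟩ := exists_period hk hfin
  have h1 : ∀ m : ℕ, (nxtE ω ^ (p * m)) k = k := by
    intro m
    rw [iterate_nxt, Function.iterate_mul]
    have : Function.IsFixedPt ((nxt ω)^[p]) k := hk'
    exact this.iterate m
  refine ⟨(z + p * z.natAbs).toNat, ?_⟩
  rw [← iterate_nxt, ← zpow_natCast, Int.toNat_of_nonneg]
  · rw [zpow_add, Equiv.Perm.mul_apply]
    have h2 := h1 z.natAbs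
    rw [← zpow_natCast] at h2
    push_cast at h2 ⊢
    rw [h2, hz]
  · have : (z.natAbs : ℤ) ≤ p * z.natAbs := by nlinarith [Int.natCast_nonneg z.natAbs]
    omega

/-- Any two outer corners of a cluster are on one interface. -/
theorem outer_orbit {n : ℤ} (hω : ω ⊆ EW 0 n 0 n) {k k' : Cor} (hk : k ∈ Oc ω v)
    (hk' : k' ∈ Oc ω v) : ∃ j : ℕ, (nxt ω)^[j] k = k' := by
  have hT : Tc ω v ⊆ EW 0 n 0 n := Tc_sub.trans hω
  have h1 : Conn (Tc ω v) univ (vtx k) (vtx k') := (conn_Tc hk.1).symm.trans (conn_Tc hk'.1)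
  have h2 : Conn (du (Tc ω v)) univ (fce k) (fce k') := fconn_iff.1 (out_conn hT hk.2 hk'.2)
  -- the cluster of `v` in the configuration of its own edges
  have hv : Kc (Tc ω v) v = Kc ω v := by
    ext u
    exact ⟨fun h => Conn.mono h Tc_sub le_rfl, conn_Tc⟩
  obtain ⟨j, hj⟩ := exists_nat_of_orb (ω := Tc ω v) (v := v) (by rw [hv]; exact hk.1)
    (by rw [hv]; exact finite_Kc hω) (mem_orb_of_conn h1 h2)
  exact ⟨j, by rw [iter_eq_Tc hk.1, hj]⟩


/-! ### Extreme vertices -/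

theorem Tc_ends {e : Ed} (he : e ∈ Tc ω v) {p : ℤ × ℤ → Prop} (h : ∀ u ∈ Kc ω v, p u) :
    p (ea e) ∧ p (eb e) := ⟨h _ (ea_mem he), h _ (eb_mem he)⟩

/-- The outer interface reaches half of the sup-diameter of the cluster. -/
theorem outer_far {n : ℤ} (hω : ω ⊆ EW 0 n 0 n) {k : Cor} (hk : k ∈ Oc ω v) {u u' : ℤ × ℤ}
    (hu : u ∈ Kc ω v) (hu' : u' ∈ Kc ω v) {m : ℤ} (hm : m ≤ sd u u') :
    ∃ j : ℕ, m ≤ 2 * sd (vtx ((nxt ω)^[j] k)) (vtx k) := by
  have hfin : (Kc ω v).Finite := finite_Kc hω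
  have hne : (Kc ω v).Nonempty := ⟨u, hu⟩
  obtain ⟨a, ha, ha'⟩ := Set.exists_min_image (Kc ω v) (fun w => w.1) hfin hne
  obtain ⟨b, hb, hb'⟩ := Set.exists_max_image (Kc ω v) (fun w => w.1) hfin hne
  obtain ⟨c, hc, hc'⟩ := Set.exists_min_image (Kc ω v) (fun w => w.2) hfin hne
  obtain ⟨d, hd, hd'⟩ := Set.exists_max_image (Kc ω v) (fun w => w.2) hfin hne
  -- corners at the extreme vertices
  have ka : ((a.1, a.2, false, false) : Cor) ∈ Oc ω v := by
    refine ⟨ha, ?_⟩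
    change (a.1 - 1, a.2 - 1) ∈ Out (Tc ω v)
    refine out_left fun e he => ?_
    have := ha' (ea e) (ea_mem he)
    simp only [ea] at this
    omega
  have kb : ((b.1, b.2, true, true) : Cor) ∈ Oc ω v := by
    refine ⟨hb, ?_⟩
    change (b.1, b.2) ∈ Out (Tc ω v)
    refine out_right fun e he => ?_
    have := hb' (ea e) (ea_mem he)
    simp only [ea] at this
    omega
  have kc : ((c.1, c.2, false, false) : Cor) ∈ Oc ω v := by
    refine ⟨hc, ?_⟩
    change (c.1 - 1, c.2 - 1) ∈ Out (Tc ω v)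
    refine out_bot fun e he => ?_
    have := hc' (ea e) (ea_mem he)
    simp only [ea] at this
    omega
  have kd : ((d.1, d.2, true, true) : Cor) ∈ Oc ω v := by
    refine ⟨hd, ?_⟩
    change (d.1, d.2) ∈ Out (Tc ω v)
    refine out_top fun e he => ?_
    have := hd' (ea e) (ea_mem he)
    simp only [ea] at this
    omega
  have h1 := ha' u hu
  have h2 := ha' u' hu'
  have h3 := hb' u hu
  have h4 := hb' u' hu'
  have h5 := hc' u hu
  have h6 := hc' u' hu'
  have h7 := hd' u hu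
  have h8 := hd' u' hu'
  have h9 : m ≤ b.1 - a.1 ∨ m ≤ d.2 - c.2 := by
    unfold sd at hm
    rcases le_max_iff.1 hm with h | h
    · left; rcases abs_cases (u.1 - u'.1) with ⟨h', _⟩ | ⟨h', _⟩ <;> omega
    · right; rcases abs_cases (u.2 - u'.2) with ⟨h', _⟩ | ⟨h', _⟩ <;> omega
  have hsd1 : ∀ w w' : ℤ × ℤ, |w.1 - w'.1| ≤ sd w w' := fun w w' => le_max_left _ _
  have hsd2 : ∀ w w' : ℤ × ℤ, |w.2 - w'.2| ≤ sd w w' := fun w w' => le_max_right _ _
  rcases h9 with h9 | h9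
  · by_cases h10 : m ≤ 2 * ((vtx k).1 - a.1)
    · obtain ⟨j, hj⟩ := outer_orbit hω hk ka
      refine ⟨j, ?_⟩
      rw [hj]
      have h11 := hsd1 (vtx ((a.1, a.2, false, false) : Cor)) (vtx k)
      have h12 : vtx ((a.1, a.2, false, false) : Cor) = a := rfl
      rw [h12] at h11 ⊢
      rcases abs_cases (a.1 - (vtx k).1) with ⟨h', _⟩ | ⟨h', _⟩ <;> omega
    · obtain ⟨j, hj⟩ := outer_orbit hω hk kb
      refine ⟨j, ?_⟩
      rw [hj]
      have h11 := hsd1 (vtx ((b.1, b.2, true, true) : Cor)) (vtx k)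
      have h12 : vtx ((b.1, b.2, true, true) : Cor) = b := rfl
      rw [h12] at h11 ⊢
      rcases abs_cases (b.1 - (vtx k).1) with ⟨h', _⟩ | ⟨h', _⟩ <;> omega
  · by_cases h10 : m ≤ 2 * ((vtx k).2 - c.2)
    · obtain ⟨j, hj⟩ := outer_orbit hω hk kc
      refine ⟨j, ?_⟩
      rw [hj]
      have h11 := hsd2 (vtx ((c.1, c.2, false, false) : Cor)) (vtx k)
      have h12 : vtx ((c.1, c.2, false, false) : Cor) = c := rfl
      rw [h12] at h11 ⊢
      rcases abs_cases (c.2 - (vtx k).2) with ⟨h', _⟩ | ⟨h', _⟩ <;> omega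
    · obtain ⟨j, hj⟩ := outer_orbit hω hk kd
      refine ⟨j, ?_⟩
      rw [hj]
      have h11 := hsd2 (vtx ((d.1, d.2, true, true) : Cor)) (vtx k)
      have h12 : vtx ((d.1, d.2, true, true) : Cor) = d := rfl
      rw [h12] at h11 ⊢
      rcases abs_cases (d.2 - (vtx k).2) with ⟨h', _⟩ | ⟨h', _⟩ <;> omega

/-! ### The number of edges of the outer perimeter -/

/-- The edges of the outer perimeter. -/
def PE (ω : Set Ed) (v : ℤ × ℤ) : Set Ed :=
  {e ∈ Tc ω v | f1 e ∈ Out (Tc ω v) ∨ f2 e ∈ Out (Tc ω v)}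

/-- The corner at which `e` is queried, with the face `f1 e`. -/
def c1 : Ed → Cor
  | (x, y, false) => (x, y, true, false)
  | (x, y, true) => (x, y + 1, false, false)

/-- The corner at which `e` is queried, with the face `f2 e`. -/
def c2 : Ed → Cor
  | (x, y, false) => (x + 1, y, false, true)
  | (x, y, true) => (x, y, true, true)

theorem qry_c1 (e : Ed) : qry (c1 e) = e := by
  obtain ⟨x, y, _ | _⟩ := e <;> simp [c1, qry]

theorem qry_c2 (e : Ed) : qry (c2 e) = e := by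
  obtain ⟨x, y, _ | _⟩ := e <;> simp [c2, qry]

theorem fce_c1 (e : Ed) : fce (c1 e) = f1 e := by
  obtain ⟨x, y, _ | _⟩ := e <;> simp [c1, fce, f1]

theorem fce_c2 (e : Ed) : fce (c2 e) = f2 e := by
  obtain ⟨x, y, _ | _⟩ := e <;> simp [c2, fce, f2]

theorem vtx_c1 (e : Ed) : vtx (c1 e) = ea e ∨ vtx (c1 e) = eb e := by
  obtain ⟨x, y, _ | _⟩ := e <;> simp [c1, vtx]

theorem vtx_c2 (e : Ed) : vtx (c2 e) = ea e ∨ vtx (c2 e) = eb e := by
  obtain ⟨x, y, _ | _⟩ := e <;> simp [c2, vtx]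

theorem eq_c (k : Cor) : k = c1 (qry k) ∨ k = c2 (qry k) := by
  obtain ⟨x, y, _ | _, _ | _⟩ := k <;> simp [c1, c2, qry]

theorem fce_c_cases {k : Cor} : (k = c1 (qry k) ∧ fce k = f1 (qry k)) ∨
    (k = c2 (qry k) ∧ fce k = f2 (qry k)) := by
  rcases eq_c k with h | h
  · left; exact ⟨h, by conv_lhs => rw [h, fce_c1]⟩
  · right; exact ⟨h, by conv_lhs => rw [h, fce_c2]⟩

theorem finite_Oc {n : ℤ} (hω : ω ⊆ EW 0 n 0 n) : (Oc ω v).Finite :=
  (finite_cor (finite_Kc hω)).subset fun _ hk => hk.1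

theorem finite_PE {n : ℤ} (hω : ω ⊆ EW 0 n 0 n) : (PE ω v).Finite :=
  (Finset.finite_toSet (EW 0 n 0 n)).subset fun _ he => hω he.1.1

/-- The perimeter is at most the number of outer corners. -/
theorem ncard_PE_le {n : ℤ} (hω : ω ⊆ EW 0 n 0 n) : (PE ω v).ncard ≤ (Oc ω v).ncard := by
  classical
  refine Set.ncard_le_ncard_of_injOn
    (fun e => if f1 e ∈ Out (Tc ω v) then c1 e else c2 e) ?_ ?_ (finite_Oc hω)
  · rintro e ⟨he, hf⟩
    split_ifs with h
    · refine ⟨?_, by rw [fce_c1]; exact h⟩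
      rcases vtx_c1 e with h1 | h1 <;> rw [h1]
      · exact ea_mem he
      · exact eb_mem he
    · refine ⟨?_, by rw [fce_c2]; exact hf.resolve_left h⟩
      rcases vtx_c2 e with h1 | h1 <;> rw [h1]
      · exact ea_mem he
      · exact eb_mem he
  · intro e _ e' _ h
    have h1 : ∀ e, qry (if f1 e ∈ Out (Tc ω v) then c1 e else c2 e) = e := by
      intro e
      split_ifs
      · exact qry_c1 e
      · exact qry_c2 e
    rw [← h1 e, ← h1 e']
    exact congrArg qry h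

/-- Outer corners at which an edge of the cluster is queried. -/
def Oq (ω : Set Ed) (v : ℤ × ℤ) : Set Cor := {k ∈ Oc ω v | qry k ∈ Tc ω v}

theorem Oq_sub : Oq ω v ⊆ c1 '' PE ω v ∪ c2 '' PE ω v := by
  rintro k ⟨hk, hq⟩
  rcases fce_c_cases (k := k) with ⟨h1, h2⟩ | ⟨h1, h2⟩
  · left
    refine ⟨qry k, ⟨hq, Or.inl ?_⟩, h1.symm⟩
    rw [← h2]; exact hk.2
  · right
    refine ⟨qry k, ⟨hq, Or.inr ?_⟩, h1.symm⟩
    rw [← h2]; exact hk.2

theorem ncard_Oq_le {n : ℤ} (hω : ω ⊆ EW 0 n 0 n) : (Oq ω v).ncard ≤ 2 * (PE ω v).ncard := by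
  have hfin := finite_PE (v := v) hω
  have h1 := Set.ncard_le_ncard (Oq_sub (ω := ω) (v := v)) ((hfin.image c1).union (hfin.image c2))
  have h2 := Set.ncard_union_le (c1 '' PE ω v) (c2 '' PE ω v)
  have h3 := Set.ncard_image_le (f := c1) hfin
  have h4 := Set.ncard_image_le (f := c2) hfin
  omega

theorem fce_rot_out {k : Cor} (hk : k ∈ Oc ω v) (hq : qry k ∉ Tc ω v) : rot k ∈ Oc ω v := by
  refine ⟨by rw [vtx_rot]; exact hk.1, ?_⟩
  refine Out.of_conn (Relation.ReflTransGen.single ⟨qry k, hq, ?_⟩) hk.2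
  rcases faces_qry k with ⟨h1, h2⟩ | ⟨h1, h2⟩
  · exact Or.inl ⟨h1, h2⟩
  · exact Or.inr ⟨h1, h2⟩

/-- The four edges at a vertex are queried by the rotations of a corner. -/
theorem exists_rot_qry (k : Cor) {e : Ed} (h : ea e = vtx k ∨ eb e = vtx k) :
    ∃ i < 4, qry (rot^[i] k) = e := by
  obtain ⟨a, b, t⟩ := e
  obtain ⟨x, y, s, s'⟩ := k
  cases t with
  | false =>
    simp only [ea_mk, eb_false, vtx, Prod.mk.injEq] at h
    rcases h with ⟨rfl, rfl⟩ | ⟨rfl, rfl⟩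
    · rcases s with _ | _ <;> rcases s' with _ | _
      · exact ⟨1, by norm_num, rfl⟩
      · exact ⟨2, by norm_num, rfl⟩
      · exact ⟨0, by norm_num, rfl⟩
      · exact ⟨3, by norm_num, rfl⟩
    · rcases s with _ | _ <;> rcases s' with _ | _
      · exact ⟨3, by norm_num, by simp [rot, qry]⟩
      · exact ⟨0, by norm_num, by simp [qry]⟩
      · exact ⟨2, by norm_num, by simp [rot, qry]⟩
      · exact ⟨1, by norm_num, by simp [rot, qry]⟩
  | true =>
    simp only [ea_mk, eb_true, vtx, Prod.mk.injEq] at h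
    rcases h with ⟨rfl, rfl⟩ | ⟨rfl, rfl⟩
    · rcases s with _ | _ <;> rcases s' with _ | _
      · exact ⟨2, by norm_num, rfl⟩
      · exact ⟨3, by norm_num, rfl⟩
      · exact ⟨1, by norm_num, rfl⟩
      · exact ⟨0, by norm_num, rfl⟩
    · rcases s with _ | _ <;> rcases s' with _ | _
      · exact ⟨0, by norm_num, by simp [qry]⟩
      · exact ⟨1, by norm_num, by simp [rot, qry]⟩
      · exact ⟨3, by norm_num, by simp [rot, qry]⟩
      · exact ⟨2, by norm_num, by simp [rot, qry]⟩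

/-- Every vertex of a cluster with an edge has an edge. -/
theorem exists_edge_at {u : ℤ × ℤ} (hne : ∃ w ∈ Kc ω v, w ≠ v) (hu : u ∈ Kc ω v) :
    ∃ e ∈ Tc ω v, ea e = u ∨ eb e = u := by
  obtain ⟨w, hw, hwv⟩ := hne
  -- a vertex different from `u`
  obtain ⟨w', hw', hwu⟩ : ∃ w' ∈ Kc ω v, w' ≠ u := by
    by_cases h : w = u
    · exact ⟨v, Relation.ReflTransGen.refl, fun h' => hwv (h.trans h'.symm)⟩
    · exact ⟨w, hw, h⟩
  have h1 : Conn ω univ w' u := Conn.trans (Conn.symm hw') hu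
  unfold Conn at h1
  rcases Relation.ReflTransGen.cases_tail h1 with h2 | ⟨c, hc, hcu⟩
  · exact absurd h2.symm hwu
  · obtain ⟨-, -, e, he, hh⟩ := hcu
    have hc' : c ∈ Kc ω v := Conn.trans hw' hc
    rcases hh with ⟨h3, h4⟩ | ⟨h3, h4⟩
    · exact ⟨e, mem_Tc_of_ea he (by rw [h3]; exact hc'), Or.inr h4⟩
    · exact ⟨e, mem_Tc_of_eb he (by rw [h4]; exact hc'), Or.inl h3⟩

theorem exists_rot_Oq (hne : ∃ w ∈ Kc ω v, w ≠ v) {k : Cor} (hk : k ∈ Oc ω v) :
    ∃ i < 4, rot^[i] k ∈ Oq ω v := by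
  obtain ⟨e, he, hek⟩ := exists_edge_at hne hk.1
  obtain ⟨i, hi, hq⟩ := exists_rot_qry k hek
  -- the first rotation which queries an edge of the cluster
  classical
  have hex : ∃ i, qry (rot^[i] k) ∈ Tc ω v := ⟨i, by rw [hq]; exact he⟩
  refine ⟨Nat.find hex, (Nat.find_le (by rw [hq]; exact he)).trans_lt hi, ?_, Nat.find_spec hex⟩
  have h2 : ∀ j ≤ Nat.find hex, rot^[j] k ∈ Oc ω v := by
    intro j
    induction j with
    | zero => intro _; exact hk
    | succ j ih =>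
      intro hj
      rw [Function.iterate_succ_apply']
      exact fce_rot_out (ih (by omega)) (Nat.find_min hex (by omega))
  exact h2 _ le_rfl

/-- The number of outer corners is at most eight times the perimeter. -/
theorem ncard_Oc_le {n : ℤ} (hω : ω ⊆ EW 0 n 0 n) (hne : ∃ w ∈ Kc ω v, w ≠ v) :
    (Oc ω v).ncard ≤ 8 * (PE ω v).ncard := by
  have hfin : (Oq ω v).Finite := (finite_Oc hω).subset fun _ h => h.1
  have hsub : Oc ω v ⊆ ⋃ i ∈ Finset.range 4, (rotb^[i]) '' Oq ω v := by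
    intro k hk
    obtain ⟨i, hi, h⟩ := exists_rot_Oq hne hk
    refine mem_iUnion₂.2 ⟨i, Finset.mem_range.2 hi, rot^[i] k, h, ?_⟩
    exact (Function.LeftInverse.iterate rotb_rot i) k
  have h1 := Set.ncard_le_ncard hsub
    (Set.Finite.biUnion (Finset.finite_toSet _) fun i _ => hfin.image _)
  have h2 : (⋃ i ∈ Finset.range 4, (rotb^[i]) '' Oq ω v).ncard ≤ 4 * (Oq ω v).ncard := by
    have h3 := Finset.set_ncard_biUnion_le (Finset.range 4) fun i => (rotb^[i]) '' Oq ω v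
    refine h3.trans ?_
    have h4 : ∀ i ∈ Finset.range 4, ((rotb^[i]) '' Oq ω v).ncard ≤ (Oq ω v).ncard :=
      fun i _ => Set.ncard_image_le hfin
    calc _ ≤ ∑ _i ∈ Finset.range 4, (Oq ω v).ncard := Finset.sum_le_sum h4
      _ = 4 * (Oq ω v).ncard := by simp
  have h5 := ncard_Oq_le (v := v) hω
  omega

end Pool.Agent.PercO
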